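import Pool.Agent.V7H97.LF.Fin

/-!
# The almost sure form
-/

set_option autoImplicit false

open MeasureTheory ProbabilityTheory Filter Set
open scoped Pointwise Topology

namespace Pool.Agent.V7H97.FO

open Pool.Agent.N662.FP Pool.Agent.V7H97.LF

theorem ball_mono (μ : Seminorm ℝ (ℝ × ℝ)) (p q : ℝ) (hp0 : 0 ≤ p) (hpq : p ≤ q) :
    p • {x : ℝ × ℝ | μ x ≤ 1} ⊆ q • {x : ℝ × ℝ | μ x ≤ 1} := by
  rintro x ⟨y, hy, rfl⟩
  rcases eq_or_lt_of_le (hp0.trans hpq) with hq0 | hq0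
  · have : p = q := le_antisymm hpq (by rw [← hq0]; exact hp0)
    rw [this]
    exact ⟨y, hy, rfl⟩
  · refine ⟨(p / q) • y, ?_, ?_⟩
    · show μ ((p / q) • y) ≤ 1
      rw [map_smul_eq_mul, Real.norm_eq_abs, abs_of_nonneg (div_nonneg hp0 hq0.le)]
      have h3 : p / q ≤ 1 := by rw [div_le_one hq0]; exact hpq
      have h4 : μ y ≤ 1 := hy
      have h5 : 0 ≤ p / q := div_nonneg hp0 hq0.le
      calc p / q * μ y ≤ 1 * 1 := mul_le_mul h3 h4 (apply_nonneg μ y) (by norm_num)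
        _ = 1 := one_mul 1
    · show q • ((p / q) • y) = p • y
      rw [smul_smul, mul_div_cancel₀ _ hq0.ne']

theorem fat_mono (T : ℤ × ℤ → ℝ) (s t : ℝ) (h : s ≤ t) : Fat T s ⊆ Fat T t := by
  rintro x ⟨v, hv, h1, h2⟩
  exact ⟨v, hv.trans h, h1, h2⟩

theorem in_eq (κ t : ℝ) (ht : 0 < t) : (1 - t ^ (-κ)) * t = t - t ^ (1 - κ) := by
  have : t ^ (1 - κ) = t ^ (-κ) * t := by
    rw [← Real.rpow_add_one ht.ne']; congr 1; ring
  rw [this]; ring

theorem out_eq (κ t : ℝ) (ht : 0 < t) : (1 + t ^ (-κ)) * t = t + t ^ (1 - κ) := by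
  have : t ^ (1 - κ) = t ^ (-κ) * t := by
    rw [← Real.rpow_add_one ht.ne']; congr 1; ring
  rw [this]; ring

/-- the inner events at nearby times -/
theorem bad_near {Ω : Type} (T : Ω → ℤ × ℤ → ℝ) (μ : Seminorm ℝ (ℝ × ℝ)) (κ κ' : ℝ)
    (h0 : 0 < κ) (h : κ < κ') (h1 : κ' < 1) :
    ∀ᶠ t : ℝ in atTop, ∀ s : ℝ, s ≤ t → t ≤ s + 1 → Bad T μ κ t ⊆ Bad T μ κ' s := by
  filter_upwards [ev 2 (1 - κ') (1 - κ) (by linarith), eventually_ge_atTop 2] with t e1 e2 s hs hs'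
  intro ω hω hcon
  apply hω
  have ht0 : 0 < t := by linarith
  have hs0 : 0 < s := by linarith
  refine Set.Subset.trans (ball_mono μ _ _ ?_ ?_) (Set.Subset.trans hcon (fat_mono _ _ _ hs))
  · rw [in_eq κ t ht0]
    have : t ^ (1 - κ) ≤ t ^ (1 : ℝ) :=
      Real.rpow_le_rpow_of_exponent_le (by linarith) (by linarith)
    rw [Real.rpow_one] at this
    linarith
  · rw [in_eq κ t ht0, in_eq κ' s hs0]
    have g1 : s ^ (1 - κ') ≤ t ^ (1 - κ') := Real.rpow_le_rpow hs0.le hs (by linarith)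
    have g2 : 1 ≤ t ^ (1 - κ') := Real.one_le_rpow (by linarith) (by linarith)
    linarith

/-- the outer events at nearby times -/
theorem out_near {Ω : Type} (T : Ω → ℤ × ℤ → ℝ) (μ : Seminorm ℝ (ℝ × ℝ)) (κ κ' : ℝ)
    (h0 : 0 < κ) (h : κ < κ') (h1 : κ' < 1) :
    ∀ᶠ t : ℝ in atTop, ∀ s : ℝ, t ≤ s → s ≤ t + 1 → Out T μ κ t ⊆ Out T μ κ' s := by
  filter_upwards [ev 3 (1 - κ') (1 - κ) (by linarith), eventually_ge_atTop 2] with t e1 e2 s hs hs'
  intro ω hω hcon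
  apply hω
  have ht0 : 0 < t := by linarith
  have hs0 : 0 < s := by linarith
  refine Set.Subset.trans (fat_mono _ _ _ hs) (Set.Subset.trans hcon (ball_mono μ _ _ ?_ ?_))
  · rw [out_eq κ' s hs0]
    have := Real.rpow_nonneg hs0.le (1 - κ')
    linarith
  · rw [out_eq κ t ht0, out_eq κ' s hs0]
    have g1 : s ^ (1 - κ') ≤ (2 * t) ^ (1 - κ') := Real.rpow_le_rpow hs0.le (by linarith) (by linarith)
    have g2 : 1 ≤ t ^ (1 - κ') := Real.one_le_rpow (by linarith) (by linarith)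
    have g3 : (2 * t) ^ (1 - κ') ≤ 2 * t ^ (1 - κ') := by
      rw [Real.mul_rpow (by norm_num) ht0.le]
      apply mul_le_mul_of_nonneg_right _ (Real.rpow_nonneg ht0.le _)
      calc (2 : ℝ) ^ (1 - κ') ≤ 2 ^ (1 : ℝ) :=
            Real.rpow_le_rpow_of_exponent_le (by norm_num) (by linarith)
        _ = 2 := Real.rpow_one 2
    linarith

section
variable {Ω : Type} [MeasureSpace Ω] [IsProbabilityMeasure (volume : Measure Ω)]
variable {X : Sym2 (ℤ × ℤ) → Ω → ℝ}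

theorem bc (E : ℝ → Set Ω)
    (h : Asymptotics.IsBigO atTop (fun t : ℝ => (volume : Measure Ω).real (E t))
      (fun t : ℝ => t ^ (-2 : ℝ))) :
    ∀ᵐ ω ∂(volume : Measure Ω), ∀ᶠ n : ℕ in atTop, ω ∉ E n := by
  refine ae_eventually_notMem ?_
  have h1 : Asymptotics.IsBigO atTop (fun n : ℕ => (volume : Measure Ω).real (E n))
      (fun n : ℕ => (n : ℝ) ^ (-2 : ℝ)) := h.comp_tendsto tendsto_natCast_atTop_atTop
  have h2 : Summable fun n : ℕ => (volume : Measure Ω).real (E n) :=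
    summable_of_isBigO_nat (Real.summable_nat_rpow.2 (by norm_num)) h1
  have h3 : (fun n : ℕ => (volume : Measure Ω) (E n)) =
      fun n : ℕ => ENNReal.ofReal ((volume : Measure Ω).real (E n)) := by
    funext n
    rw [ofReal_measureReal]
  rw [h3]
  exact h2.tsum_ofReal_ne_top

/-- from the estimates to the almost sure statement -/
theorem to_as (T : Ω → ℤ × ℤ → ℝ) (μ : Seminorm ℝ (ℝ × ℝ)) (κ κ' : ℝ)
    (h0 : 0 < κ) (h : κ < κ') (h1 : κ' < 1)
    (hO : Asymptotics.IsBigO atTop (fun t : ℝ => (volume : Measure Ω).real (Out T μ κ' t))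
      (fun t : ℝ => t ^ (-2 : ℝ)))
    (hB : Asymptotics.IsBigO atTop (fun t : ℝ => (volume : Measure Ω).real (Bad T μ κ' t))
      (fun t : ℝ => t ^ (-2 : ℝ))) :
    ∀ᵐ ω ∂(volume : Measure Ω), ∀ᶠ t : ℝ in atTop, ω ∉ Out T μ κ t ∧ ω ∉ Bad T μ κ t := by
  have a1 := bc _ hO
  have a2 := bc _ hB
  filter_upwards [a1, a2] with ω b1 b2
  have hfl : Tendsto (fun t : ℝ => ⌊t⌋₊) atTop atTop := tendsto_nat_floor_atTop
  have c1 := ((tendsto_add_atTop_nat 1).comp hfl).eventually b1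
  have c2 := hfl.eventually b2
  filter_upwards [c1, c2, bad_near T μ κ κ' h0 h h1, out_near T μ κ κ' h0 h h1,
    eventually_ge_atTop 0] with t d1 d2 d3 d4 d5
  have f1 : (⌊t⌋₊ : ℝ) ≤ t := Nat.floor_le d5
  have f2 : t < (⌊t⌋₊ : ℝ) + 1 := Nat.lt_floor_add_one t
  constructor
  · intro hω
    refine d1 ?_
    have := d4 ((⌊t⌋₊ : ℝ) + 1) f2.le (by linarith) hω
    show ω ∈ Out T μ κ' ((⌊t⌋₊ + 1 : ℕ) : ℝ)
    push_cast
    exact this
  · intro hω
    exact d2 (d3 (⌊t⌋₊ : ℝ) f1 f2.le hω)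

/-- from the almost sure inner statement to the probabilities -/
theorem from_as (hX : Iid X) {μ : Seminorm ℝ (ℝ × ℝ)} (hμ : ∀ x, μ x = 0 → x = 0) (κ κ' : ℝ)
    (h00 : 0 < κ) (h : κ < κ') (h1 : κ' < 1)
    (ha : ∀ᵐ ω ∂(volume : Measure Ω), ∀ᶠ t : ℝ in atTop,
      ω ∉ Bad (fun ω v => D (env X ω) 0 v) μ κ' t) :
    Tendsto (fun t : ℝ => (volume : Measure Ω).real (Bad (fun ω v => D (env X ω) 0 v) μ κ t))
      atTop (𝓝 0) := by
  obtain ⟨c, C, hc, hC, hcC⟩ := cNORM μ hμ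
  obtain ⟨T', hT'⟩ : ∃ T' : ℤ × ℤ → Ω → ℝ, T' = fun v ω => D (fun e => max (env X ω e) 0) 0 v :=
    ⟨_, rfl⟩
  have hmeas : ∀ v, Measurable (T' v) := fun v => by
    rw [hT']
    exact (cME 0 v).comp (measurable_pi_iff.2 fun e => hX.meas e)
  have hae : ∀ᵐ ω ∂(volume : Measure Ω), ∀ v, T' v ω = D (env X ω) 0 v := by
    filter_upwards [cAE Ω X hX] with ω h v
    have h1 : env X ω = fun e => max (env X ω e) 0 := funext fun e => (max_eq_left (h e)).symm
    rw [hT']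
    exact congrArg (fun y => D y 0 v) h1.symm
  obtain ⟨B, hB⟩ : ∃ B : ℝ → Set Ω, B = fun t => {ω | ∃ v : ℤ × ℤ,
      μ (Pool.Agent.N662.FP.em v) ≤ t - t ^ (1 - κ') ∧ t < T' v ω} := ⟨_, rfl⟩
  have hBm : ∀ t, MeasurableSet (B t) := by
    intro t
    rw [hB]
    show MeasurableSet {ω | ∃ v : ℤ × ℤ,
      μ (Pool.Agent.N662.FP.em v) ≤ t - t ^ (1 - κ') ∧ t < T' v ω}
    rw [Set.ofPred_exists]
    exact MeasurableSet.iUnion fun v =>
      (MeasurableSet.const _).inter (measurableSet_lt measurable_const (hmeas v))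
  -- the measurable events do not occur for large times
  have hlim : ∀ᵐ ω ∂(volume : Measure Ω), ∀ᶠ t : ℝ in atTop, ω ∈ B t ↔ ω ∈ (∅ : Set Ω) := by
    filter_upwards [ha, hae] with ω b1 b2
    filter_upwards [b1, eventually_gt_atTop 1] with t b3 ht1
    refine ⟨fun hω => ?_, fun hω => hω.elim⟩
    exfalso
    apply b3
    rw [hB] at hω
    obtain ⟨v, hv1, hv2⟩ := hω
    rw [b2 v] at hv2
    intro hcon
    have ht0 : 0 < t := by linarith
    obtain ⟨q, hq⟩ : ∃ q, q = (1 - t ^ (-κ')) * t := ⟨_, rfl⟩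
    have hq' : q = t - t ^ (1 - κ') := by rw [hq, in_eq κ' t ht0]
    have hq0 : 0 < q := by
      rw [hq]
      have : t ^ (-κ') < 1 := Real.rpow_lt_one_of_one_lt_of_neg ht1 (by linarith)
      exact mul_pos (by linarith) ht0
    rw [← hq] at hcon
    rw [← hq'] at hv1
    have hin : Pool.Agent.N662.FP.em v ∈ q • {x : ℝ × ℝ | μ x ≤ 1} := by
      refine ⟨q⁻¹ • Pool.Agent.N662.FP.em v, ?_, ?_⟩
      · show μ (q⁻¹ • Pool.Agent.N662.FP.em v) ≤ 1
        rw [map_smul_eq_mul, Real.norm_eq_abs, abs_of_pos (inv_pos.2 hq0)]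
        calc q⁻¹ * μ (Pool.Agent.N662.FP.em v) ≤ q⁻¹ * q := by gcongr
          _ = 1 := inv_mul_cancel₀ hq0.ne'
      · show q • (q⁻¹ • Pool.Agent.N662.FP.em v) = Pool.Agent.N662.FP.em v
        rw [smul_smul, mul_inv_cancel₀ hq0.ne', one_smul]
    obtain ⟨v', hv', k1, k2⟩ := hcon hin
    have e1 : (v.1 : ℤ) = v'.1 := by
      have k1' : |((v.1 : ℝ)) - (v'.1 : ℝ)| ≤ 1 / 2 := k1
      have : |v.1 - v'.1| < 1 := by
        have : (|v.1 - v'.1| : ℝ) < 1 := by linarith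
        exact_mod_cast this
      have := Int.abs_lt_one_iff.1 this
      omega
    have e2 : (v.2 : ℤ) = v'.2 := by
      have k2' : |((v.2 : ℝ)) - (v'.2 : ℝ)| ≤ 1 / 2 := k2
      have : |v.2 - v'.2| < 1 := by
        have : (|v.2 - v'.2| : ℝ) < 1 := by linarith
        exact_mod_cast this
      have := Int.abs_lt_one_iff.1 this
      omega
    have e3 : v = v' := Prod.ext e1 e2
    rw [← e3] at hv'
    have : D (env X ω) 0 v ≤ t := hv'
    linarith
  have hlim2 := tendsto_measure_of_ae_tendsto_indicator_of_isFiniteMeasure (μ := (volume : Measure Ω))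
    atTop MeasurableSet.empty hBm hlim
  rw [measure_empty] at hlim2
  have hlim3 : Tendsto (fun t : ℝ => (volume : Measure Ω).real (B t)) atTop (𝓝 0) := by
    have := (ENNReal.tendsto_toReal (ENNReal.zero_ne_top)).comp hlim2
    rw [ENNReal.toReal_zero] at this
    exact this
  refine squeeze_zero' (Eventually.of_forall fun t => measureReal_nonneg) ?_ hlim3
  filter_upwards [ev 2 (1 - κ') (1 - κ) (by linarith), ev0 C (1 - κ') (by linarith),
    eventually_gt_atTop 1] with t e1 e2 ht1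
  have ht0 : 0 < t := by linarith
  have hsub : Bad (fun ω v => D (env X ω) 0 v) μ κ t ⊆ {ω | ∃ v : ℤ × ℤ,
      μ (Pool.Agent.N662.FP.em v) ≤ t - t ^ (1 - κ') ∧ t < D (env X ω) 0 v} := by
    intro ω hω
    have hω' : ¬ (((1 - t ^ (-κ)) * t) • {x : ℝ × ℝ | μ x ≤ 1} ⊆
      Fat (fun v => D (env X ω) 0 v) t) := hω
    rw [Set.not_subset] at hω'
    obtain ⟨x, hx, hxn⟩ := hω'
    refine ⟨(round x.1, round x.2), ?_, ?_⟩
    · obtain ⟨y, hy, hyx⟩ := hx
      have hy1 : μ y ≤ 1 := hy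
      have hyx' : ((1 - t ^ (-κ)) * t) • y = x := hyx
      have hpos : 0 ≤ (1 - t ^ (-κ)) * t := by
        rw [in_eq κ t ht0]
        have : t ^ (1 - κ) ≤ t ^ (1 : ℝ) :=
          Real.rpow_le_rpow_of_exponent_le (by linarith) (by linarith)
        rw [Real.rpow_one] at this
        linarith
      have g1 : μ x ≤ (1 - t ^ (-κ)) * t := by
        rw [← hyx', map_smul_eq_mul, Real.norm_eq_abs, abs_of_nonneg hpos]
        calc (1 - t ^ (-κ)) * t * μ y ≤ (1 - t ^ (-κ)) * t * 1 := by gcongr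
          _ = _ := mul_one _
      have g2 : μ (Pool.Agent.N662.FP.em (round x.1, round x.2) - x) ≤ C * (1 / 2) := by
        refine (hcC _).2.trans ?_
        gcongr
        apply max_le
        · show |((round x.1 : ℤ) : ℝ) - x.1| ≤ 1 / 2
          rw [abs_sub_comm]
          exact abs_sub_round x.1
        · show |((round x.2 : ℤ) : ℝ) - x.2| ≤ 1 / 2
          rw [abs_sub_comm]
          exact abs_sub_round x.2
      have g3 : μ (Pool.Agent.N662.FP.em (round x.1, round x.2)) ≤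
          μ (Pool.Agent.N662.FP.em (round x.1, round x.2) - x) + μ x := by
        have := map_add_le_add μ (Pool.Agent.N662.FP.em (round x.1, round x.2) - x) x
        rwa [sub_add_cancel] at this
      rw [in_eq κ t ht0] at g1
      linarith
    · by_contra hcon
      push Not at hcon
      apply hxn
      exact ⟨(round x.1, round x.2), hcon, abs_sub_round x.1, abs_sub_round x.2⟩
  have hcong : (volume : Measure Ω).real {ω | ∃ v : ℤ × ℤ,
      μ (Pool.Agent.N662.FP.em v) ≤ t - t ^ (1 - κ') ∧ t < D (env X ω) 0 v} =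
      (volume : Measure Ω).real (B t) := by
    refine measureReal_congr ?_
    filter_upwards [hae] with ω hω
    rw [hB]
    show (∃ v : ℤ × ℤ, μ (Pool.Agent.N662.FP.em v) ≤ t - t ^ (1 - κ') ∧ t < D (env X ω) 0 v) =
      (∃ v : ℤ × ℤ, μ (Pool.Agent.N662.FP.em v) ≤ t - t ^ (1 - κ') ∧ t < T' v ω)
    simp only [hω]
  exact (measureReal_mono hsub (measure_ne_top _ _)).trans hcong.le

/-- the equivalence with the almost sure statements -/
theorem eqas (hX : Iid X) {μ : Seminorm ℝ (ℝ × ℝ)}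
    (hG : Good (fun ω v => D (env X ω) 0 v) μ) (K : ℝ) (hK : K < 1) :
    List.TFAE [
      ∀ κ : ℝ, 0 < κ → κ < K → ∀ q : ℝ, 0 < q →
        Asymptotics.IsBigO atTop (fun t : ℝ => (volume : Measure Ω).real
          (Out (fun ω v => D (env X ω) 0 v) μ κ t)) (fun t : ℝ => t ^ (-q)) ∧
        Asymptotics.IsBigO atTop (fun t : ℝ => (volume : Measure Ω).real
          (Bad (fun ω v => D (env X ω) 0 v) μ κ t)) (fun t : ℝ => t ^ (-q)),
      ∀ κ : ℝ, 0 < κ → κ < K → ∃ c : ℝ, 0 < c ∧ ∀ᶠ t : ℝ in atTop,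
        (volume : Measure Ω).real (Out (fun ω v => D (env X ω) 0 v) μ κ t) ≤
          Real.exp (-(t ^ c)) ∧
        (volume : Measure Ω).real (Bad (fun ω v => D (env X ω) 0 v) μ κ t) ≤ Real.exp (-(t ^ c)),
      ∀ κ : ℝ, 0 < κ → κ < K → ∀ᵐ ω ∂(volume : Measure Ω), ∀ᶠ t : ℝ in atTop,
        ω ∉ Out (fun ω v => D (env X ω) 0 v) μ κ t ∧ ω ∉ Bad (fun ω v => D (env X ω) 0 v) μ κ t,
      ∀ κ : ℝ, 0 < κ → κ < K → ∀ᵐ ω ∂(volume : Measure Ω), ∀ᶠ t : ℝ in atTop,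
        ω ∉ Bad (fun ω v => D (env X ω) 0 v) μ κ t,
      ∀ κ : ℝ, 0 < κ → κ < K → ∀ q : ℝ, 0 < q →
        Asymptotics.IsBigO atTop (fun t : ℝ => (volume : Measure Ω).real
          (Bad (fun ω v => D (env X ω) 0 v) μ κ t)) (fun t : ℝ => t ^ (-q)),
      ∀ κ : ℝ, 0 < κ → κ < K → ∃ e : ℝ, e < Real.exp (-1) ∧ ∀ᶠ t : ℝ in atTop,
        (volume : Measure Ω).real (Bad (fun ω v => D (env X ω) 0 v) μ κ t) ≤ e,
      ∀ κ : ℝ, 0 < κ → κ < K → ∃ e : ℝ, e < Real.exp (-1) ∧ ∃ A : ℝ, 0 < A ∧ ∀ v : ℤ × ℤ,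
        (volume : Measure Ω).real
          {ω | μ (em v) + A * (1 + μ (em v)) ^ (1 - κ) ≤ D (env X ω) 0 v} ≤ e,
      ∀ κ : ℝ, 0 < κ → κ < K → ∃ A : ℝ, ∀ v : ℤ × ℤ,
        ∫ ω, |D (env X ω) 0 v - μ (em v)| ∂(volume : Measure Ω) ≤ A * (1 + μ (em v)) ^ (1 - κ),
      ∀ κ : ℝ, 0 < κ → κ < K → ∀ ε : ℝ, 0 < ε → Tendsto (fun v : ℤ × ℤ =>
        (volume : Measure Ω).real {ω | ε * (1 + μ (em v)) ^ (1 - κ) ≤
          |D (env X ω) 0 v - μ (em v)|}) cofinite (𝓝 0),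
      ∀ κ : ℝ, 0 < κ → κ < K → ∃ c : ℝ, 0 < c ∧ ∀ᶠ v : ℤ × ℤ in cofinite,
        (volume : Measure Ω).real {ω | (1 + μ (em v)) ^ (1 - κ) ≤
          |D (env X ω) 0 v - μ (em v)|} ≤ Real.exp (-(μ (em v) ^ c))] := by
  have old := eq hX hG K hK
  tfae_have 1 ↔ 2 := old.out 0 1
  tfae_have 1 ↔ 5 := old.out 0 2
  tfae_have 1 ↔ 6 := old.out 0 3
  tfae_have 1 ↔ 7 := old.out 0 4
  tfae_have 1 ↔ 8 := old.out 0 5
  tfae_have 1 ↔ 9 := old.out 0 6
  tfae_have 1 ↔ 10 := old.out 0 7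
  tfae_have 1 → 3 := by
    intro h κ h0 h1
    have hh := h ((κ + K) / 2) (by linarith) (by linarith) 2 (by norm_num)
    exact to_as _ μ κ ((κ + K) / 2) h0 (by linarith) (by linarith) hh.1 hh.2
  tfae_have 3 → 4 := by
    intro h κ h0 h1
    filter_upwards [h κ h0 h1] with ω hω
    filter_upwards [hω] with t ht
    exact ht.2
  tfae_have 4 → 6 := by
    intro h κ h0 h1
    refine ⟨Real.exp (-2), Real.exp_lt_exp.2 (by norm_num), ?_⟩
    have := from_as hX hG.norm κ ((κ + K) / 2) h0 (by linarith) (by linarith)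
      (h ((κ + K) / 2) (by linarith) (by linarith))
    filter_upwards [this.eventually (gt_mem_nhds (Real.exp_pos (-2)))] with t ht
    exact ht.le
  tfae_finish

end

end Pool.Agent.V7H97.FO
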