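import Pool.Agent.V7H97.FO.Scale

/-!
# The choice of the scales
-/

set_option autoImplicit false

open Filter

namespace Pool.Agent.V7H97.FO

open Pool.Agent.N662.FP

/-- comparison of powers -/
theorem ev (K p q : ℝ) (h : p < q) : ∀ᶠ n : ℝ in atTop, K * n ^ p ≤ n ^ q := by
  have h1 := (tendsto_rpow_atTop (sub_pos.2 h)).eventually (eventually_ge_atTop K)
  filter_upwards [h1, eventually_gt_atTop 0] with n hn hn0
  have e : n ^ q = n ^ (q - p) * n ^ p := by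
    rw [← Real.rpow_add hn0]; congr 1; ring
  rw [e]
  exact mul_le_mul_of_nonneg_right hn (Real.rpow_nonneg hn0.le _)

theorem ev0 (K q : ℝ) (h : 0 < q) : ∀ᶠ n : ℝ in atTop, K ≤ n ^ q :=
  (tendsto_rpow_atTop h).eventually (eventually_ge_atTop K)

/-- powers against stretched exponentials -/
theorem ev2 (K : ℝ) (a : ℕ) (b c c' : ℝ) (hb : 0 < b) (hc' : 0 < c') (hcc : c' < c) :
    ∀ᶠ n : ℝ in atTop, K * n ^ a * Real.exp (-(b * n ^ c)) ≤ 1 / 4 * Real.exp (-(n ^ c')) := by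
  obtain ⟨D, hD⟩ := (exp_O c' (a + 1) hc').bound
  have h1 := ev (2 / b) c' c hcc
  have h2 : ∀ᶠ n : ℝ in atTop, 4 * |K| * D ≤ n := eventually_ge_atTop _
  filter_upwards [hD, h1, h2, eventually_gt_atTop 0] with n h3 h4 h5 h6
  rw [Real.norm_eq_abs, Real.norm_eq_abs, abs_of_pos (Real.exp_pos _),
    abs_of_nonneg (Real.rpow_nonneg h6.le _)] at h3
  have h7 : 2 * n ^ c' ≤ b * n ^ c := by
    rw [div_mul_eq_mul_div, div_le_iff₀ hb] at h4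
    linarith
  have h8 : Real.exp (-(b * n ^ c)) ≤ Real.exp (-(n ^ c')) * Real.exp (-(n ^ c')) := by
    rw [← Real.exp_add]
    exact Real.exp_le_exp.2 (by linarith)
  have h9 : n ^ (-((a : ℝ) + 1)) = (n ^ (a + 1))⁻¹ := by
    rw [Real.rpow_neg h6.le]
    congr 1
    have : ((a : ℝ) + 1) = ((a + 1 : ℕ) : ℝ) := by push_cast; ring
    rw [this, Real.rpow_natCast]
  rw [h9] at h3
  have hE := Real.exp_pos (-(n ^ c'))
  have hna : 0 < n ^ a := by positivity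
  have h10 : |K| * n ^ a * Real.exp (-(n ^ c')) ≤ 1 / 4 := by
    have h11 : |K| * n ^ a * Real.exp (-(n ^ c')) ≤ |K| * n ^ a * (D * (n ^ (a + 1))⁻¹) := by
      gcongr
    refine h11.trans ?_
    have e : |K| * n ^ a * (D * (n ^ (a + 1))⁻¹) = |K| * D / n := by
      rw [pow_succ]; field_simp
    rw [e, div_le_iff₀ h6]
    linarith
  calc K * n ^ a * Real.exp (-(b * n ^ c)) ≤ |K| * n ^ a * Real.exp (-(b * n ^ c)) := by
        gcongr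
        exact le_abs_self K
    _ ≤ |K| * n ^ a * (Real.exp (-(n ^ c')) * Real.exp (-(n ^ c'))) := by gcongr
    _ = (|K| * n ^ a * Real.exp (-(n ^ c'))) * Real.exp (-(n ^ c')) := by ring
    _ ≤ _ := by gcongr

theorem half_pow (R : ℕ) (x : ℝ) (h : x ≤ R) : ((1 : ℝ) / 2) ^ R ≤ Real.exp (-(1 / 2 * x)) := by
  have h1 : (1 : ℝ) / 2 ≤ Real.exp (-(1 / 2)) := by
    have := Real.add_one_le_exp (-(1 / 2 : ℝ)); linarith
  calc ((1 : ℝ) / 2) ^ R ≤ (Real.exp (-(1 / 2))) ^ R := pow_le_pow_left₀ (by norm_num) h1 R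
    _ = Real.exp (-(1 / 2 * R)) := by rw [← Real.exp_nat_mul]; congr 1; ring
    _ ≤ _ := Real.exp_le_exp.2 (by linarith)

theorem as_loss {C n al e0 ep x1 m : ℝ} {L k : ℕ} (hn0 : 0 < n) (hC : 0 < C) (he0 : 0 ≤ e0)
    (he1 : e0 ≤ 1) (v1 : 2 ≤ n ^ al) (v3 : 4 * (4 * C + 4 * C + 1) * n ^ al ≤ n ^ (e0 - ep))
    (v4 : 4 * n ^ (al + x1) ≤ n ^ (e0 - ep)) (v5 : 8 * n ^ (ep + (1 - al) * e0) ≤ n ^ (e0 - ep))
    (hLu : (L : ℝ) ≤ n ^ al) (hm0 : 0 < m) (hmu : m ≤ 2 * n ^ (1 - al)) (hk1 : (k : ℝ) ≤ n ^ ep) :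
    4 * C + L * (4 * C + 1) + L * n ^ x1 + k * m ^ e0 ≤ n ^ (e0 - ep) := by
  have hnn : (0 : ℝ) ≤ n := hn0.le
  have hna0 : 0 < n ^ (1 - al) := Real.rpow_pos_of_pos hn0 _
  have hr0 : 0 < n ^ x1 := Real.rpow_pos_of_pos hn0 _
  have a1 : 4 * C + L * (4 * C + 1) ≤ n ^ (e0 - ep) / 4 := by
    have h2 : 4 * C + L * (4 * C + 1) ≤ n ^ al * (4 * C + 4 * C + 1) := by
      have h3 : 4 * C ≤ 4 * C * n ^ al := by
        have h5 : 1 ≤ n ^ al := by linarith only [v1]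
        have h6 : 4 * C * 1 ≤ 4 * C * n ^ al := mul_le_mul_of_nonneg_left h5 (by linarith only [hC])
        linarith only [h6]
      have h4 : (L : ℝ) * (4 * C + 1) ≤ n ^ al * (4 * C + 1) := by gcongr
      linarith only [h3, h4]
    linarith only [h2, v3]
  have a2 : L * n ^ x1 ≤ n ^ (e0 - ep) / 4 := by
    have h2 : L * n ^ x1 ≤ n ^ al * n ^ x1 := by gcongr
    rw [← Real.rpow_add hn0] at h2
    linarith only [h2, v4]
  have a3 : k * m ^ e0 ≤ n ^ (e0 - ep) / 4 := by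
    have h2 : m ^ e0 ≤ 2 * n ^ ((1 - al) * e0) := by
      calc m ^ e0 ≤ (2 * n ^ (1 - al)) ^ e0 := Real.rpow_le_rpow hm0.le hmu he0
        _ = 2 ^ e0 * (n ^ (1 - al)) ^ e0 := Real.mul_rpow (by norm_num) hna0.le
        _ ≤ 2 ^ (1 : ℝ) * (n ^ (1 - al)) ^ e0 := by
            gcongr
            norm_num
        _ = 2 * n ^ ((1 - al) * e0) := by rw [Real.rpow_one, ← Real.rpow_mul hnn]
    have h3 : k * m ^ e0 ≤ n ^ ep * (2 * n ^ ((1 - al) * e0)) := by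
      have : 0 ≤ m ^ e0 := Real.rpow_nonneg hm0.le _
      gcongr
    have h4 : n ^ ep * (2 * n ^ ((1 - al) * e0)) = 2 * n ^ (ep + (1 - al) * e0) := by
      rw [Real.rpow_add hn0]; ring
    linarith only [h3, h4, v5]
  have hp : 0 < n ^ (e0 - ep) := Real.rpow_pos_of_pos hn0 _
  linarith only [a1, a2, a3, hp]

theorem as_t {C K1 n al e0 G m : ℝ} {M : ℕ} (hn1 : 1 ≤ n) (hC : 0 < C) (hK : 1 ≤ K1)
    (hne0 : n ^ e0 ≤ n) (v8 : 16 ≤ n ^ (G / 2 + al))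
    (v6 : 16 * (2 + 2 * K1 + 4 * C + 1) * n ≤ n ^ (1 + G / 2))
    (hM1 : (M : ℝ) ≤ n ^ (G / 2 + al) / 8) (hm0 : 0 < m)
    (hm2 : m + 2 * C + 1 ≤ 2 * n ^ (1 - al)) :
    2 * (n + K1 * n ^ e0) + 4 * C + (M + 1) * (m + 2 * C + 1) ≤ n ^ (1 + G / 2) := by
  have hn0 : 0 < n := by linarith only [hn1]
  have h2 : ((M : ℝ) + 1) * (m + 2 * C + 1) ≤ n ^ (1 + G / 2) / 2 := by
    have h3 : (M : ℝ) + 1 ≤ n ^ (G / 2 + al) / 4 := by linarith only [hM1, v8]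
    have h4 : 0 ≤ m + 2 * C + 1 := by linarith only [hm0, hC]
    calc ((M : ℝ) + 1) * (m + 2 * C + 1) ≤ n ^ (G / 2 + al) / 4 * (2 * n ^ (1 - al)) := by
          gcongr
      _ = (n ^ (G / 2 + al) * n ^ (1 - al)) / 2 := by ring
      _ = n ^ (1 + G / 2) / 2 := by
          rw [← Real.rpow_add hn0]; congr 2; ring
  have h7 : K1 * n ^ e0 ≤ K1 * n := by gcongr
  have h8 : C * 1 ≤ C * n := by gcongr
  have h6 : 0 ≤ (2 + 2 * K1 + 4 * C + 1) * n := by positivity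
  have h5 : 2 * (n + K1 * n ^ e0) + 4 * C ≤ (2 + 2 * K1 + 4 * C + 1) * n := by
    linarith only [h7, h8, hn0]
  linarith only [h5, h6, v6, h2]

theorem as_t2 {C K1 n e0 G : ℝ} (hn1 : 1 ≤ n) (hC : 0 < C) (hK : 1 ≤ K1)
    (hne0 : n ^ e0 ≤ n) (v7 : 16 * (1 + 6 * K1 + 8 + 8 * K1 + 6 * C) * n ≤ n ^ (1 + G / 2)) :
    2 * (K1 * n ^ e0) + 6 * C ≤ n ^ (1 + G / 2) ∧
      4 * (2 * (K1 * n ^ e0) + 2 * (n + K1 * n ^ e0)) + 6 * C ≤ n ^ (1 + G / 2) := by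
  have hn0 : 0 < n := by linarith only [hn1]
  have h7 : K1 * n ^ e0 ≤ K1 * n := by gcongr
  have h8 : C * 1 ≤ C * n := by gcongr
  have h9 : 0 ≤ K1 * n := by positivity
  have h10 : 0 ≤ C * n := by positivity
  constructor
  · linarith only [h7, h8, h9, h10, hn0, v7]
  · linarith only [h7, h8, h9, h10, hn0, v7]

theorem as_tail {A cm d n G κ t x1 : ℝ} (hcm : 0 < cm) (hA : 0 < A) (hd : 0 < d) (hn1 : 1 ≤ n)
    (ht0 : 0 < t) (htn2 : t ≤ n ^ 2)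
    (hRt : (1 + 2 * t) ^ (1 - κ) ≤ 3 * n ^ ((1 + G / 2) * (1 - κ)))
    (hARt0 : 0 < A * (1 + 2 * t) ^ (1 - κ))
    (v10 : 1 * n ^ (13 * G / 32 + (1 + G / 2) * (1 - κ)) ≤ n ^ x1)
    (v11 : 2 * (4 / cm + 3) ^ 2 * n ^ 4 * Real.exp (-(d / (24 * A) * n ^ (13 * G / 32))) ≤
      1 / 4 * Real.exp (-(n ^ (G / 32)))) :
    (4 * t / cm + 3) ^ 2 * Real.exp (-(d * (n ^ x1 / 8) / (A * (1 + 2 * t) ^ (1 - κ)))) ≤ 1 / 8 := by
  have hn0 : 0 < n := by linarith only [hn1]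
  have h2 : (4 * t / cm + 3) ^ 2 ≤ (4 / cm + 3) ^ 2 * n ^ 4 := by
    have h3 : 4 * t / cm + 3 ≤ (4 / cm + 3) * n ^ 2 := by
      have h4 : 4 * t / cm ≤ 4 / cm * n ^ 2 := by
        rw [div_mul_eq_mul_div]; gcongr
      have h5 : (1 : ℝ) ≤ n ^ 2 := one_le_pow₀ hn1
      linarith only [h4, h5]
    have h6 : 0 ≤ 4 * t / cm + 3 := by positivity
    calc (4 * t / cm + 3) ^ 2 ≤ ((4 / cm + 3) * n ^ 2) ^ 2 := by gcongr
      _ = _ := by ring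
  have h3 : d / (24 * A) * n ^ (13 * G / 32) ≤ d * (n ^ x1 / 8) / (A * (1 + 2 * t) ^ (1 - κ)) := by
    rw [le_div_iff₀ hARt0]
    calc d / (24 * A) * n ^ (13 * G / 32) * (A * (1 + 2 * t) ^ (1 - κ))
        ≤ d / (24 * A) * n ^ (13 * G / 32) * (A * (3 * n ^ ((1 + G / 2) * (1 - κ)))) := by
          gcongr
      _ = d / 8 * (n ^ (13 * G / 32) * n ^ ((1 + G / 2) * (1 - κ))) := by
          field_simp; ring
      _ = d / 8 * n ^ (13 * G / 32 + (1 + G / 2) * (1 - κ)) := by rw [Real.rpow_add hn0]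
      _ ≤ d / 8 * n ^ x1 := by
          rw [one_mul] at v10
          gcongr
      _ = _ := by ring
  have h4 : Real.exp (-(d * (n ^ x1 / 8) / (A * (1 + 2 * t) ^ (1 - κ)))) ≤
      Real.exp (-(d / (24 * A) * n ^ (13 * G / 32))) := Real.exp_le_exp.2 (by linarith only [h3])
  have h5 : Real.exp (-(n ^ (G / 32))) ≤ 1 := by
    rw [Real.exp_le_one_iff]
    have := Real.rpow_pos_of_pos hn0 (G / 32)
    linarith only [this]
  calc (4 * t / cm + 3) ^ 2 * Real.exp (-(d * (n ^ x1 / 8) / (A * (1 + 2 * t) ^ (1 - κ))))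
      ≤ (4 / cm + 3) ^ 2 * n ^ 4 * Real.exp (-(d / (24 * A) * n ^ (13 * G / 32))) := by gcongr
    _ = (2 * (4 / cm + 3) ^ 2 * n ^ 4 * Real.exp (-(d / (24 * A) * n ^ (13 * G / 32)))) / 2 := by
        ring
    _ ≤ 1 / 8 := by linarith only [v11, h5]

theorem as_r {C K1 n e0 G x1 A κ t d l : ℝ} (hn0 : 0 < n) (hd : 0 < d) (hl : l = n ^ (-(G / 8)))
    (hARt : A * (1 + 2 * t) ^ (1 - κ) * (8 * (1 + 1 / d) + 1) ≤ n ^ x1 / 8)
    (hARt0 : 0 < A * (1 + 2 * t) ^ (1 - κ)) (v12 : 16 * K1 * n ^ (e0 - G / 8) ≤ n ^ x1)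
    (v13 : 64 * C * 1 ≤ n ^ x1) :
    A * (1 + 2 * t) ^ (1 - κ) ≤ n ^ x1 / 8 ∧
      2 * (1 + 1 / d) * (A * (1 + 2 * t) ^ (1 - κ)) / (n ^ x1 / 8) ≤ 1 / 4 ∧
      3 * (n ^ x1 / 8) + 2 * (l * (2 * (K1 * n ^ e0)) + 6 * C) ≤ n ^ x1 := by
  have hr0 : 0 < n ^ x1 := Real.rpow_pos_of_pos hn0 _
  have hd1 : 0 < 1 / d := by positivity
  have h1 : 0 < A * (1 + 2 * t) ^ (1 - κ) * (1 / d) := mul_pos hARt0 hd1
  refine ⟨?_, ?_, ?_⟩
  · linarith only [hARt, hARt0, h1]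
  · rw [div_le_iff₀ (by linarith only [hr0])]
    linarith only [hARt, hARt0, h1]
  · have h2 : l * (2 * (K1 * n ^ e0)) ≤ n ^ x1 / 8 := by
      have h3 : l * n ^ e0 = n ^ (e0 - G / 8) := by
        rw [hl, ← Real.rpow_add hn0]; congr 1; ring
      calc l * (2 * (K1 * n ^ e0)) = 2 * K1 * (l * n ^ e0) := by ring
        _ = 16 * K1 * n ^ (e0 - G / 8) / 8 := by rw [h3]; ring
        _ ≤ _ := by linarith only [v12]
    linarith only [h2, v13, hr0]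

theorem as_M {n al G : ℝ} {L P M : ℕ} (hn1 : 1 ≤ n) (hM0 : (0 : ℝ) < M)
    (hP2 : (P : ℝ) ≤ 2 * n ^ (G / 8) + 1) (v20 : 1 ≤ n ^ (G / 8)) (hLu : (L : ℝ) ≤ n ^ al)
    (v14 : 512 ≤ n ^ (G / 4)) (hM2 : n ^ (G / 2 + al) / 16 ≤ M) :
    L * (((P : ℝ) + 1) ^ 2 / M) ≤ 1 / 2 := by
  have hn0 : 0 < n := by linarith only [hn1]
  rw [← mul_div_assoc, div_le_iff₀ hM0]
  have h2 : (P : ℝ) + 1 ≤ 4 * n ^ (G / 8) := by linarith only [hP2, v20]
  have h3 : ((P : ℝ) + 1) ^ 2 ≤ 16 * n ^ (G / 4) := by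
    calc ((P : ℝ) + 1) ^ 2 ≤ (4 * n ^ (G / 8)) ^ 2 := by gcongr
      _ = 16 * (n ^ (G / 8) * n ^ (G / 8)) := by ring
      _ = 16 * n ^ (G / 4) := by rw [← Real.rpow_add hn0]; congr 2; ring
  have h4 : (L : ℝ) * ((P : ℝ) + 1) ^ 2 ≤ n ^ al * (16 * n ^ (G / 4)) := by gcongr
  have h5 : n ^ al * (16 * n ^ (G / 4)) * 512 ≤ 16 * n ^ (G / 2 + al) := by
    calc n ^ al * (16 * n ^ (G / 4)) * 512 ≤ n ^ al * (16 * n ^ (G / 4)) * n ^ (G / 4) := by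
          gcongr
      _ = 16 * (n ^ al * n ^ (G / 4) * n ^ (G / 4)) := by ring
      _ = 16 * n ^ (G / 2 + al) := by
          rw [← Real.rpow_add hn0, ← Real.rpow_add hn0]; congr 2; ring
  linarith only [h4, h5, hM2]

theorem as_err {C n al e0 c0 c1 ep m : ℝ} {R k : ℕ} (hn1 : 1 ≤ n) (hc0 : 0 < c0)
    (hR1 : 25 * n ≤ R) (hR2 : (R : ℝ) ≤ 26 * n) (hk2 : n ^ ep ≤ ((k + 1 : ℕ) : ℝ))
    (hmC : n ^ (1 - al) / 4 ≤ m - 2 * C)
    (v16 : 1 * n ^ 0 * Real.exp (-(1 / 2 * n ^ (1 : ℝ))) ≤ 1 / 4 * Real.exp (-(n ^ c1)))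
    (v17 : 2 * 53 ^ 2 * n ^ 2 * Real.exp (-(1 * n ^ (e0 * c0))) ≤ 1 / 4 * Real.exp (-(n ^ c1)))
    (v18 : 53 ^ 4 * n ^ 4 * Real.exp (-((1 / 4) ^ c0 * n ^ ((1 - al) * c0))) ≤
      1 / 4 * Real.exp (-(n ^ c1)))
    (v19 : 1 * n ^ 0 * Real.exp (-(1 / 2 * n ^ ep)) ≤ 1 / 4 * Real.exp (-(n ^ c1))) :
    (1 / 2) ^ R + 2 * (2 * (R : ℝ) + 1) ^ 2 * Real.exp (-((n ^ e0) ^ c0)) +
        (2 * (R : ℝ) + 1) ^ 4 * Real.exp (-((m - 2 * C) ^ c0)) + (1 / 2) ^ (k + 1) ≤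
        Real.exp (-(n ^ c1)) := by
  have hn0 : 0 < n := by linarith only [hn1]
  have hnn : (0 : ℝ) ≤ n := hn0.le
  have hna0 : 0 < n ^ (1 - al) := Real.rpow_pos_of_pos hn0 _
  have w1 : ((1 : ℝ) / 2) ^ R ≤ 1 / 4 * Real.exp (-(n ^ c1)) := by
    have h2 := half_pow R n (by linarith only [hR1, hn0])
    simp only [pow_zero, mul_one, Real.rpow_one, one_mul] at v16
    exact h2.trans v16
  have w4 : ((1 : ℝ) / 2) ^ (k + 1) ≤ 1 / 4 * Real.exp (-(n ^ c1)) := by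
    have h2 := half_pow (k + 1) (n ^ ep) hk2
    simp only [pow_zero, mul_one, one_mul] at v19
    exact h2.trans v19
  have hR3 : 2 * (R : ℝ) + 1 ≤ 53 * n := by linarith only [hR2, hn1]
  have w2 : 2 * (2 * (R : ℝ) + 1) ^ 2 * Real.exp (-((n ^ e0) ^ c0)) ≤
      1 / 4 * Real.exp (-(n ^ c1)) := by
    rw [← Real.rpow_mul hnn]
    calc 2 * (2 * (R : ℝ) + 1) ^ 2 * Real.exp (-(n ^ (e0 * c0)))
        ≤ 2 * (53 * n) ^ 2 * Real.exp (-(n ^ (e0 * c0))) := by gcongr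
      _ = 2 * 53 ^ 2 * n ^ 2 * Real.exp (-(1 * n ^ (e0 * c0))) := by rw [one_mul]; ring
      _ ≤ _ := v17
  have w3 : (2 * (R : ℝ) + 1) ^ 4 * Real.exp (-((m - 2 * C) ^ c0)) ≤
      1 / 4 * Real.exp (-(n ^ c1)) := by
    have h2 : (1 / 4) ^ c0 * n ^ ((1 - al) * c0) ≤ (m - 2 * C) ^ c0 := by
      rw [Real.rpow_mul hnn, ← Real.mul_rpow (by norm_num) hna0.le]
      exact Real.rpow_le_rpow (by positivity) (by linarith only [hmC]) hc0.le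
    have h3 : Real.exp (-((m - 2 * C) ^ c0)) ≤ Real.exp (-((1 / 4) ^ c0 * n ^ ((1 - al) * c0))) :=
      Real.exp_le_exp.2 (by linarith only [h2])
    calc (2 * (R : ℝ) + 1) ^ 4 * Real.exp (-((m - 2 * C) ^ c0))
        ≤ (53 * n) ^ 4 * Real.exp (-((1 / 4) ^ c0 * n ^ ((1 - al) * c0))) := by gcongr
      _ = 53 ^ 4 * n ^ 4 * Real.exp (-((1 / 4) ^ c0 * n ^ ((1 - al) * c0))) := by ring
      _ ≤ _ := v18
  linarith only [w1, w2, w3, w4]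

/-- number and width of the strips -/
theorem as_L {C N0 n al : ℝ} (hn1 : 1 ≤ n) (hC : 0 < C) (hal0 : 0 < al) (v1 : 2 ≤ n ^ al)
    (v2 : 8 * C + 8 + 4 * |N0| ≤ n ^ (1 - al)) :
    ∃ (L : ℕ) (m : ℝ), (L : ℝ) ≤ n ^ al ∧ L * (m + 2 * C + 1) = n - 4 * C ∧ 0 < m ∧
      m ≤ 2 * n ^ (1 - al) ∧ m + 2 * C + 1 ≤ 2 * n ^ (1 - al) ∧ 1 ≤ m - 2 * C ∧ N0 ≤ m - 2 * C ∧
      n ^ (1 - al) / 4 ≤ m - 2 * C := by
  have hn0 : 0 < n := by linarith only [hn1]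
  have hnn : (0 : ℝ) ≤ n := hn0.le
  obtain ⟨L, hL⟩ : ∃ L : ℕ, L = ⌊n ^ al⌋₊ := ⟨_, rfl⟩
  have hLu : (L : ℝ) ≤ n ^ al := by rw [hL]; exact Nat.floor_le (Real.rpow_nonneg hnn _)
  have hLl : n ^ al / 2 ≤ L := by
    have := Nat.lt_floor_add_one (n ^ al)
    rw [← hL] at this
    linarith only [this, v1]
  have hL0 : (0 : ℝ) < L := by linarith only [hLl, v1]
  have hna : n ^ al * n ^ (1 - al) = n := by
    rw [← Real.rpow_add hn0]; simp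
  obtain ⟨m, hm⟩ : ∃ m, m = (n - 4 * C) / L - (2 * C + 1) := ⟨_, rfl⟩
  have hmL : L * (m + 2 * C + 1) = n - 4 * C := by
    rw [hm]; field_simp; ring
  have hna0 : 0 < n ^ (1 - al) := Real.rpow_pos_of_pos hn0 _
  have hnal0 : 0 < n ^ al := Real.rpow_pos_of_pos hn0 _
  have hN := abs_nonneg N0
  have h5 : n ^ (1 - al) ≤ n := by
    have := Real.rpow_le_rpow_of_exponent_le hn1 (show 1 - al ≤ (1 : ℝ) by linarith only [hal0])
    rwa [Real.rpow_one] at this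
  have hm2 : m + 2 * C + 1 ≤ 2 * n ^ (1 - al) := by
    have h2 : (n ^ al / 2) * (m + 2 * C + 1) ≤ n := by
      have h3 : 0 ≤ m + 2 * C + 1 := by
        rw [hm]
        have h4 : n - 4 * C ≥ 0 := by linarith only [h5, v2, hN, hC]
        have h6 : 0 ≤ (n - 4 * C) / L := div_nonneg h4 hL0.le
        linarith only [h6]
      calc (n ^ al / 2) * (m + 2 * C + 1) ≤ L * (m + 2 * C + 1) :=
            mul_le_mul_of_nonneg_right hLl h3
        _ = n - 4 * C := hmL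
        _ ≤ n := by linarith only [hC]
    have h4 : (n ^ al / 2) * (m + 2 * C + 1) ≤ (n ^ al / 2) * (2 * n ^ (1 - al)) := by
      calc _ ≤ n := h2
        _ = n ^ al * n ^ (1 - al) := hna.symm
        _ = (n ^ al / 2) * (2 * n ^ (1 - al)) := by ring
    exact le_of_mul_le_mul_left h4 (by linarith only [hnal0])
  have hm1 : n ^ (1 - al) / 2 ≤ m := by
    have h2 : n ^ (1 - al) * (3 / 4) ≤ (n - 4 * C) / L := by
      rw [le_div_iff₀ hL0]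
      have h3 : n ^ (1 - al) * (3 / 4) * L ≤ n ^ (1 - al) * (3 / 4) * n ^ al := by gcongr
      have h4 : n ^ (1 - al) * (3 / 4) * n ^ al = n * (3 / 4) := by
        calc n ^ (1 - al) * (3 / 4) * n ^ al = (n ^ al * n ^ (1 - al)) * (3 / 4) := by ring
          _ = _ := by rw [hna]
      have h6 : 16 * C ≤ n := by
        have h8 : 2 * n ^ (1 - al) ≤ n ^ al * n ^ (1 - al) :=
          mul_le_mul_of_nonneg_right v1 hna0.le
        linarith only [h8, hna, v2, hN]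
      linarith only [h3, h4, h6]
    rw [hm]
    linarith only [h2, v2, hN, hC]
  have hm0 : 0 < m := by linarith only [hm1, hna0]
  have hmu : m ≤ 2 * n ^ (1 - al) := by linarith only [hm2, hC]
  have h3 := le_abs_self N0
  exact ⟨L, m, hLu, hmL, hm0, hmu, hm2, by linarith only [hm1, v2, hN, hC],
    by linarith only [hm1, v2, hN, h3, hC], by linarith only [hm1, v2, hN, hC]⟩

/-- the scales, for a large norm `n` -/
theorem asym (C K1 cm A d N0 c0 κ0 κ : ℝ) (hC : 0 < C) (hK : 1 ≤ K1) (hcm : 0 < cm) (hA : 0 < A)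
    (hd : 0 < d) (hc0 : 0 < c0) (h0 : 0 ≤ κ0) (h01 : κ0 < κ) (h1 : κ < 1) :
    ∃ c1 : ℝ, 0 < c1 ∧ ∀ᶠ n : ℝ in atTop, ∃ (L R P M k : ℕ) (m l r ρ t : ℝ),
      (0 < n ∧ L * (m + 2 * C + 1) = n - 4 * C ∧ 2 * C < m ∧ 25 * n ≤ R ∧ R ≤ 26 * n ∧ 0 < l ∧
        l ≤ 1 ∧ 2 ≤ l * P ∧ l * P ≤ 3 ∧ 0 < ρ ∧ 0 ≤ r ∧ 0 < M) ∧
      4 * C + L * (4 * C + 1) + L * r + k * m ^ (1 - κ0) ≤
        n ^ (1 - (κ0 + (κ - κ0) * (1 - κ0) / 128)) ∧
      2 * (n + K1 * n ^ (1 - κ0)) + 4 * C + (M + 1) * (m + 2 * C + 1) ≤ t ∧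
      2 * (K1 * n ^ (1 - κ0)) + 6 * C ≤ t ∧
      4 * (2 * (K1 * n ^ (1 - κ0)) + 2 * (n + K1 * n ^ (1 - κ0))) + 6 * C ≤ t ∧
      A * (1 + 2 * t) ^ (1 - κ) ≤ ρ ∧
      2 * (1 + 1 / d) * (A * (1 + 2 * t) ^ (1 - κ)) / ρ ≤ 1 / 4 ∧
      (4 * t / cm + 3) ^ 2 * Real.exp (-(d * ρ / (A * (1 + 2 * t) ^ (1 - κ)))) ≤ 1 / 8 ∧
      3 * ρ + 2 * (l * (2 * (K1 * n ^ (1 - κ0))) + 6 * C) ≤ r ∧
      L * (((P : ℝ) + 1) ^ 2 / M) ≤ 1 / 2 ∧
      N0 ≤ n ^ (1 - κ0) ∧ 1 ≤ m - 2 * C ∧ N0 ≤ m - 2 * C ∧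
      (1 / 2) ^ R + 2 * (2 * (R : ℝ) + 1) ^ 2 * Real.exp (-((n ^ (1 - κ0)) ^ c0)) +
        (2 * (R : ℝ) + 1) ^ 4 * Real.exp (-((m - 2 * C) ^ c0)) + (1 / 2) ^ (k + 1) ≤
        Real.exp (-(n ^ c1)) := by
  obtain ⟨e0, he0⟩ : ∃ e0, e0 = 1 - κ0 := ⟨_, rfl⟩
  obtain ⟨G, hG⟩ : ∃ G, G = κ - κ0 := ⟨_, rfl⟩
  have hG0 : 0 < G := by rw [hG]; linarith only [h01]
  have hGe : G < e0 := by rw [hG, he0]; linarith only [h1]
  have he1 : e0 ≤ 1 := by rw [he0]; linarith only [h0]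
  have hG1 : G < 1 := by linarith only [hGe, he1]
  obtain ⟨al, hal⟩ : ∃ al, al = G / 32 := ⟨_, rfl⟩
  obtain ⟨ep, hep⟩ : ∃ ep, ep = G * e0 / 128 := ⟨_, rfl⟩
  have hal0 : 0 < al := by rw [hal]; linarith only [hG0]
  have hal1 : al < 1 / 32 := by rw [hal]; linarith only [hG1]
  have he00 : 0 < e0 := by linarith only [hG0, hGe]
  have hep0 : 0 < ep := by
    rw [hep]; have : 0 < G * e0 := mul_pos hG0 he00
    linarith only [this]
  have hepG : ep ≤ G / 128 := by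
    rw [hep]; have : G * e0 ≤ G * 1 := mul_le_mul_of_nonneg_left he1 hG0.le
    linarith only [this]
  obtain ⟨x1, hx1⟩ : ∃ x1, x1 = (1 - al) * (e0 - G / 16) := ⟨_, rfl⟩
  have hx1l : e0 - 3 * G / 32 ≤ x1 := by
    rw [hx1]; have : al * (e0 - G / 16) ≤ al * 1 :=
      mul_le_mul_of_nonneg_left (by linarith only [he1, hG0]) hal0.le
    linarith only [this, hal]
  have hx1u : x1 ≤ e0 - G / 16 := by
    rw [hx1]; have : 0 ≤ al * (e0 - G / 16) := mul_nonneg hal0.le (by linarith only [hGe, hG0])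
    linarith only [this]
  have hx0 : 0 < x1 := by linarith only [hx1l, hGe, hG0]
  -- the final exponent
  obtain ⟨c1, hc1, hc1a, hc1b, hc1c, hc1d⟩ : ∃ c1 : ℝ, 0 < c1 ∧ c1 < ep ∧ c1 < e0 * c0 ∧
      c1 < (1 - al) * c0 ∧ c1 < 1 := by
    have p1 : 0 < e0 * c0 := mul_pos he00 hc0
    have p2 : 0 < (1 - al) * c0 := mul_pos (by linarith only [hal1]) hc0
    have p3 : 0 < min (min ep (e0 * c0)) (min ((1 - al) * c0) 1) :=
      lt_min (lt_min hep0 p1) (lt_min p2 one_pos)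
    refine ⟨min (min ep (e0 * c0)) (min ((1 - al) * c0) 1) / 2, ?_, ?_, ?_, ?_, ?_⟩
    · linarith only [p3]
    · have := (min_le_left (min ep (e0 * c0)) (min ((1 - al) * c0) 1)).trans (min_le_left _ _)
      linarith only [this, p3]
    · have := (min_le_left (min ep (e0 * c0)) (min ((1 - al) * c0) 1)).trans (min_le_right _ _)
      linarith only [this, p3]
    · have := (min_le_right (min ep (e0 * c0)) (min ((1 - al) * c0) 1)).trans (min_le_left _ _)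
      linarith only [this, p3]
    · have := (min_le_right (min ep (e0 * c0)) (min ((1 - al) * c0) 1)).trans (min_le_right _ _)
      linarith only [this, p3]
  refine ⟨c1, hc1, ?_⟩
  -- eventual inequalities
  have e2 : (1 + G / 2) * (1 - κ) < e0 - G / 2 := by
    have e1 : 1 - κ = e0 - G := by rw [he0, hG]; ring
    rw [e1]
    have e3 : G * e0 ≤ G * 1 := mul_le_mul_of_nonneg_left he1 hG0.le
    have e4 : 0 < G * G := mul_pos hG0 hG0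
    linarith only [e3, e4]
  have v1 := ev0 2 al hal0
  have v2 := ev (8 * C + 8 + 4 * |N0|) 0 (1 - al) (by linarith only [hal1])
  have v3 := ev (4 * (4 * C + 4 * C + 1)) al (e0 - ep) (by linarith only [hal, hepG, hGe, hG0])
  have v4 := ev 4 (al + x1) (e0 - ep) (by rw [hal]; linarith only [hx1u, hepG, hG0])
  have v5 := ev 8 (ep + (1 - al) * e0) (e0 - ep) (by
    have : al * e0 = 4 * ep := by rw [hal, hep]; ring
    linarith only [this, hep0])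
  have v6 := ev (16 * (2 + 2 * K1 + 4 * C + 1)) 1 (1 + G / 2) (by linarith only [hG0])
  have v7 := ev (16 * (1 + 6 * K1 + 8 + 8 * K1 + 6 * C)) 1 (1 + G / 2) (by linarith only [hG0])
  have v8 := ev0 16 (G / 2 + al) (by linarith only [hG0, hal0])
  -- ratio
  have v9 := ev (24 * A * (8 * (1 + 1 / d) + 1)) ((1 + G / 2) * (1 - κ)) x1 (by
    linarith only [e2, hx1l, hG0])
  have v10 := ev 1 (13 * G / 32 + (1 + G / 2) * (1 - κ)) x1 (by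
    linarith only [e2, hx1l, hG0])
  have v11 := ev2 (2 * (4 / cm + 3) ^ 2) 4 (d / (24 * A)) (13 * G / 32) (G / 32) (by positivity)
    (by linarith only [hG0]) (by linarith only [hG0])
  have v12 := ev (16 * K1) (e0 - G / 8) x1 (by linarith only [hx1l, hG0])
  have v13 := ev0 (64 * C * 1) x1 hx0
  have v14 := ev0 512 (G / 4) (by linarith only [hG0])
  have v15 := ev0 N0 e0 he00
  have v16 := ev2 1 0 (1 / 2) 1 c1 (by norm_num) hc1 hc1d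
  have v17 := ev2 (2 * 53 ^ 2) 2 1 (e0 * c0) c1 one_pos hc1 hc1b
  have v18 := ev2 (53 ^ 4) 4 ((1 / 4) ^ c0) ((1 - al) * c0) c1 (by positivity) hc1 hc1c
  have v19 := ev2 1 0 (1 / 2) ep c1 (by norm_num) hc1 hc1a
  have v20 := ev0 1 (G / 8) (by linarith only [hG0])
  filter_upwards [v1, v2, v3, v4, v5, v6, v7, v8, v9, v10, v11, v12, v13, v14, v15, v16, v17, v18,
    v19, v20, eventually_ge_atTop 1] with n v1 v2 v3 v4 v5 v6 v7 v8 v9 v10 v11 v12 v13 v14 v15 v16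
    v17 v18 v19 v20 hn1
  have hn0 : 0 < n := by linarith only [hn1]
  have hnn : (0 : ℝ) ≤ n := hn0.le
  rw [Real.rpow_zero, mul_one] at v2
  rw [Real.rpow_one] at v6 v7
  -- `L`
  obtain ⟨L, m, hLu, hmL, hm0, hmu, hm2, hmC1, hmC2, hmC3⟩ := as_L hn1 hC hal0 v1 v2
  -- `R`
  obtain ⟨R, hR⟩ : ∃ R : ℕ, R = ⌈25 * n⌉₊ := ⟨_, rfl⟩
  have hR1 : 25 * n ≤ R := by rw [hR]; exact Nat.le_ceil _
  have hR2 : (R : ℝ) ≤ 26 * n := by
    have := Nat.ceil_lt_add_one (show 0 ≤ 25 * n by linarith only [hn0])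
    rw [← hR] at this
    linarith only [this, hn1]
  -- `l`, `P`
  obtain ⟨l, hl⟩ : ∃ l, l = n ^ (-(G / 8)) := ⟨_, rfl⟩
  have hl0 : 0 < l := by rw [hl]; exact Real.rpow_pos_of_pos hn0 _
  have hlinv : l * n ^ (G / 8) = 1 := by
    rw [hl, ← Real.rpow_add hn0]; simp
  have hl1 : l ≤ 1 := by
    have h2 : l * 1 ≤ l * n ^ (G / 8) := mul_le_mul_of_nonneg_left v20 hl0.le
    linarith only [h2, hlinv]
  obtain ⟨P, hP⟩ : ∃ P : ℕ, P = ⌈2 * n ^ (G / 8)⌉₊ := ⟨_, rfl⟩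
  have hP1 : 2 * n ^ (G / 8) ≤ P := by rw [hP]; exact Nat.le_ceil _
  have hP2 : (P : ℝ) ≤ 2 * n ^ (G / 8) + 1 := by
    have := Nat.ceil_lt_add_one (show 0 ≤ 2 * n ^ (G / 8) by positivity)
    rw [← hP] at this
    exact this.le
  have hlP : 2 ≤ l * P := by
    calc (2 : ℝ) = l * (2 * n ^ (G / 8)) := by linarith only [hlinv]
      _ ≤ l * P := by gcongr
  have hlP3 : l * P ≤ 3 := by
    calc l * P ≤ l * (2 * n ^ (G / 8) + 1) := by gcongr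
      _ = 2 * (l * n ^ (G / 8)) + l := by ring
      _ ≤ 3 := by linarith only [hlinv, hl1]
  -- `M`
  obtain ⟨M, hM⟩ : ∃ M : ℕ, M = ⌊n ^ (G / 2 + al) / 8⌋₊ := ⟨_, rfl⟩
  have hM1 : (M : ℝ) ≤ n ^ (G / 2 + al) / 8 := by rw [hM]; exact Nat.floor_le (by positivity)
  have hM2 : n ^ (G / 2 + al) / 16 ≤ M := by
    have := Nat.lt_floor_add_one (n ^ (G / 2 + al) / 8)
    rw [← hM] at this
    linarith only [this, v8]
  have hM0 : (0 : ℝ) < M := by linarith only [hM2, v8]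
  -- `k`
  obtain ⟨k, hk⟩ : ∃ k : ℕ, k = ⌊n ^ ep⌋₊ := ⟨_, rfl⟩
  have hk1 : (k : ℝ) ≤ n ^ ep := by rw [hk]; exact Nat.floor_le (Real.rpow_nonneg hnn _)
  have hk2 : n ^ ep ≤ ((k + 1 : ℕ) : ℝ) := by
    have := Nat.lt_floor_add_one (n ^ ep)
    rw [← hk] at this
    push_cast
    exact this.le
  -- powers
  have hne0 : n ^ e0 ≤ n := by
    have := Real.rpow_le_rpow_of_exponent_le hn1 he1
    rwa [Real.rpow_one] at this
  obtain ⟨t, ht⟩ : ∃ t, t = n ^ (1 + G / 2) := ⟨_, rfl⟩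
  have ht1 : 1 ≤ t := by rw [ht]; exact Real.one_le_rpow hn1 (by linarith only [hG0])
  have ht0 : 0 < t := by linarith only [ht1]
  have htn2 : t ≤ n ^ 2 := by
    rw [ht, ← Real.rpow_natCast n 2]
    exact Real.rpow_le_rpow_of_exponent_le hn1 (by push_cast; linarith only [hG1])
  have hRt : (1 + 2 * t) ^ (1 - κ) ≤ 3 * n ^ ((1 + G / 2) * (1 - κ)) := by
    calc (1 + 2 * t) ^ (1 - κ) ≤ (3 * t) ^ (1 - κ) :=
          Real.rpow_le_rpow (by linarith only [ht0]) (by linarith only [ht1])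
            (by linarith only [h1])
      _ = 3 ^ (1 - κ) * t ^ (1 - κ) := Real.mul_rpow (by norm_num) ht0.le
      _ ≤ 3 ^ (1 : ℝ) * t ^ (1 - κ) := by
          gcongr
          · norm_num
          · linarith only [h0, h01]
      _ = 3 * n ^ ((1 + G / 2) * (1 - κ)) := by
          rw [Real.rpow_one, ht, ← Real.rpow_mul hnn]
  have hRt0 : 0 < (1 + 2 * t) ^ (1 - κ) := Real.rpow_pos_of_pos (by linarith only [ht0]) _
  have hcd : 0 < 8 * (1 + 1 / d) + 1 := by positivity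
  have hARt : A * (1 + 2 * t) ^ (1 - κ) * (8 * (1 + 1 / d) + 1) ≤ n ^ x1 / 8 := by
    calc A * (1 + 2 * t) ^ (1 - κ) * (8 * (1 + 1 / d) + 1)
        ≤ A * (3 * n ^ ((1 + G / 2) * (1 - κ))) * (8 * (1 + 1 / d) + 1) := by gcongr
      _ = (24 * A * (8 * (1 + 1 / d) + 1)) * n ^ ((1 + G / 2) * (1 - κ)) / 8 := by ring
      _ ≤ n ^ x1 / 8 := by linarith only [v9]
  have hARt0 : 0 < A * (1 + 2 * t) ^ (1 - κ) := mul_pos hA hRt0
  have hr0 : 0 < n ^ x1 := Real.rpow_pos_of_pos hn0 _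
  have e1 : 1 - (κ0 + (κ - κ0) * (1 - κ0) / 128) = e0 - ep := by
    rw [hep, hG, he0]; ring
  have b1 := as_loss hn0 hC he00.le he1 v1 v3 v4 v5 hLu hm0 hmu hk1
  have b2 := as_t hn1 hC hK hne0 v8 v6 hM1 hm0 hm2
  have b3 := as_t2 hn1 hC hK hne0 v7
  have b4 := as_tail hcm hA hd hn1 ht0 htn2 hRt hARt0 v10 v11
  have b5 := as_r hn0 hd hl hARt hARt0 v12 v13
  have b6 := as_M hn1 hM0 hP2 v20 hLu v14 hM2
  have b7 := as_err hn1 hc0 hR1 hR2 hk2 hmC3 v16 v17 v18 v19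
  rw [← ht] at b2 b3
  rw [e1, ← he0]
  exact ⟨L, R, P, M, k, m, l, n ^ x1, n ^ x1 / 8, t, ⟨hn0, hmL, by linarith only [hmC1], hR1, hR2,
    hl0, hl1, hlP, hlP3, by linarith only [hr0], hr0.le, by exact_mod_cast hM0⟩, b1, b2, b3.1, b3.2,
    b5.1, b5.2.1, b4, b5.2.2, b6, v15, hmC1, hmC2, b7⟩

end Pool.Agent.V7H97.FO
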