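import Pool.Agent.V7H97.FO.Split

/-!
# The choice of the scales for the splitting property
-/

set_option autoImplicit false

open Filter

namespace Pool.Agent.V7H97.FO

open Pool.Agent.N662.FP

theorem one_add_pow_le {n e : ℝ} (hn : 1 ≤ n) (h0 : 0 ≤ e) (h1 : e ≤ 1) :
    (1 + n) ^ e ≤ 2 * n ^ e := by
  calc (1 + n) ^ e ≤ (2 * n) ^ e := Real.rpow_le_rpow (by linarith) (by linarith) h0
    _ = 2 ^ e * n ^ e := Real.mul_rpow (by norm_num) (by linarith)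
    _ ≤ 2 ^ (1 : ℝ) * n ^ e := by
        have : 0 ≤ n ^ e := Real.rpow_nonneg (by linarith) _
        gcongr
        norm_num
    _ = 2 * n ^ e := by rw [Real.rpow_one]

theorem mul_pow_le {K y e : ℝ} (hK : 1 ≤ K) (hy : 0 ≤ y) (h1 : e ≤ 1) :
    (K * y) ^ e ≤ K * y ^ e := by
  calc (K * y) ^ e = K ^ e * y ^ e := Real.mul_rpow (by linarith) hy
    _ ≤ K ^ (1 : ℝ) * y ^ e := by
        have : 0 ≤ y ^ e := Real.rpow_nonneg hy _
        gcongr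
    _ = K * y ^ e := by rw [Real.rpow_one]

/-- data at scale `n` -/
structure Sc (A Ag A' Al C K1 cm c0 N0 Rc C7 κ lam lam' δ n : ℝ) (P R : ℕ)
    (l x ρ s4 s5 : ℝ) : Prop where
  hn : 1 ≤ n
  hl : 0 < l
  hl1 : l ≤ 1
  hP : 2 ≤ l * P
  hP3 : l * P ≤ 3
  hx : 0 < x
  hρ : 0 ≤ ρ
  hCS : C ≤ l * (n + 2 * (K1 * n ^ (1 - lam')))
  hS : n + Ag * (1 + n) ^ (1 - lam) + 8 * A * (1 + n) ^ (1 - κ) + 1 + K1 * n ^ (1 - lam') ≤
    n + 2 * (K1 * n ^ (1 - lam'))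
  hR : 25 * (n + Ag * (1 + n) ^ (1 - lam) + 8 * A * (1 + n) ^ (1 - κ) + 1) ≤ R
  hR3 : 3 ≤ R
  hR2 : (R : ℝ) ≤ Rc * n
  hs4 : 4 * (l * (n + 2 * (K1 * n ^ (1 - lam')))) + C +
    (l * (3 * (K1 * n ^ (1 - lam'))) + 2 * C) ≤ s4
  hs5 : n + 5 * (n + 2 * (K1 * n ^ (1 - lam'))) +
    2 * (3 * (K1 * n ^ (1 - lam')) + 2 * (n + 2 * (K1 * n ^ (1 - lam')))) + C ≤ s5
  hsz : Al * (C + s4) + (8 * A * (1 + n) ^ (1 - κ) + 1 + 2 * x + 2 * ρ +
    2 * (l * (3 * (K1 * n ^ (1 - lam')))) + 6 * C +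
    6 * (l * (n + 2 * (K1 * n ^ (1 - lam'))))) ≤ n / 4
  hEl : ((P : ℝ) + 1) ^ 2 * (A * (1 + s5) ^ (1 - κ) / x) ≤ 1 / 8
  hN0 : N0 ≤ n ^ (1 - lam')
  hE1 : 2 * (2 * (R : ℝ) + 1) ^ 2 * Real.exp (-((n ^ (1 - lam')) ^ c0)) ≤ 1 / 8
  hs40 : 0 ≤ s4
  hρw : A' * (1 + s4) ^ (1 - lam) ≤ ρ
  hEu : (2 * (R : ℝ) + 1) ^ 2 * ((2 * s4 / cm + 3) ^ 2 *
    (2 * Real.exp (-(ρ / (A' * (1 + s4) ^ (1 - lam)))))) ≤ 1 / 8
  hfin : 8 * A * (1 + n) ^ (1 - κ) + 1 + 2 * x + 2 * ρ +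
    2 * (l * (3 * (K1 * n ^ (1 - lam')))) + 6 * C ≤ C7 * n ^ (1 - δ)

theorem asym2 (A Ag A' Al C Cn cm c0 N0 κ lam lam' : ℝ) (hA : 0 < A) (hAg : 0 < Ag)
    (hA' : 0 < A') (hC : 0 < C) (hCn : 0 < Cn) (hcm : 0 < cm) (hc0 : 0 < c0)
    (h0 : 0 ≤ lam) (h1 : lam < κ) (h2 : κ < 1) (h3 : 0 ≤ lam') (h4 : lam' ≤ lam)
    (h5 : lam - lam' ≤ (κ - lam) / 16) :
    ∃ K1 Rc C7 : ℝ, 0 < Rc ∧ 1 + Rc * Cn ≤ K1 ∧ 0 < C7 ∧ ∀ᶠ n : ℝ in atTop,
      ∃ (P R : ℕ) (l x ρ s4 s5 : ℝ), Sc A Ag A' Al C K1 cm c0 N0 Rc C7 κ lam lam'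
        (lam + (κ - lam) * (1 - lam) / 16) n P R l x ρ s4 s5 := by
  obtain ⟨σ, hσ⟩ : ∃ σ, σ = (κ - lam) / 8 := ⟨_, rfl⟩
  obtain ⟨eg, heg⟩ : ∃ eg, eg = 1 - lam := ⟨_, rfl⟩
  obtain ⟨ek, hek⟩ : ∃ ek, ek = 1 - κ := ⟨_, rfl⟩
  obtain ⟨e1, he1⟩ : ∃ e1, e1 = 1 - lam' := ⟨_, rfl⟩
  obtain ⟨g, hg⟩ : ∃ g, g = eg - σ * eg / 2 := ⟨_, rfl⟩
  have hσ0 : 0 < σ := by rw [hσ]; linarith only [h1]
  have hσ1 : σ < 1 / 8 := by rw [hσ]; linarith only [h0, h2]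
  have heg0 : 0 < eg := by rw [heg]; linarith only [h1, h2]
  have heg1 : eg ≤ 1 := by rw [heg]; linarith only [h0]
  have hek0 : 0 < ek := by rw [hek]; linarith only [h2]
  have hekg : ek = eg - 8 * σ := by rw [hek, heg, hσ]; ring
  have he1g : eg ≤ e1 := by rw [heg, he1]; linarith only [h4]
  have he1g2 : e1 ≤ eg + σ / 2 := by rw [heg, he1, hσ]; linarith only [h5]
  have he11 : e1 ≤ 1 := by rw [he1]; linarith only [h3]
  have he10 : 0 < e1 := by linarith only [heg0, he1g]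
  have hσeg0 : 0 < σ * eg := mul_pos hσ0 heg0
  have hσeg : σ * eg ≤ σ * 1 := mul_le_mul_of_nonneg_left heg1 hσ0.le
  have hg1 : g < 1 := by rw [hg]; linarith only [hσeg0, heg1]
  have hg0 : 0 < g := by rw [hg]; linarith only [hσeg, hekg, hek0, hσ0]
  have hδ : 1 - (lam + (κ - lam) * (1 - lam) / 16) = g := by
    rw [hg, heg, hσ]; ring
  obtain ⟨K2, hK2⟩ : ∃ K2, K2 = 2 + 2 * Ag + 16 * A := ⟨_, rfl⟩
  have hK20 : 2 ≤ K2 := by rw [hK2]; linarith only [hAg, hA]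
  obtain ⟨K1, hK1⟩ : ∃ K1, K1 = 2 + 2 * Ag + 16 * A + 26 * K2 * Cn := ⟨_, rfl⟩
  have hKC : 0 < K2 * Cn := by positivity
  have hK10 : 2 ≤ K1 := by rw [hK1]; linarith only [hAg, hA, hKC]
  obtain ⟨K6, hK6⟩ : ∃ K6, K6 = 4 * (1 + 2 * K1) + 3 * K1 + 3 * C := ⟨_, rfl⟩
  have hK60 : 0 < K6 := by rw [hK6]; linarith only [hK10, hC]
  obtain ⟨K5, hK5⟩ : ∃ K5, K5 = 1 + 9 * (1 + 2 * K1) + 6 * K1 + C := ⟨_, rfl⟩
  have hK50 : 0 < K5 := by rw [hK5]; linarith only [hK10, hC]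
  obtain ⟨K7, hK7⟩ : ∃ K7, K7 = A' * (1 + K6) := ⟨_, rfl⟩
  have hK70 : 0 < K7 := by rw [hK7]; positivity
  refine ⟨K1, 26 * K2, 16 * A + 1 + 2 + 2 * K7 + 6 * K1 + 6 * C, by linarith only [hK20], ?_, ?_, ?_⟩
  · rw [hK1]; linarith only [hAg, hA]
  · linarith only [hA, hK70, hK10, hC]
  have v1 := ev0 C (1 - σ) (by linarith only [hσ1])
  have v2 := ev (24 * (Al * K6 + 6 * K1 + 6 * (1 + 2 * K1))) (1 - σ) 1 (by linarith only [hσ0])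
  have v3 := ev (24 * (16 * A)) ek 1 (by linarith only [hekg, hσ0, heg1])
  have v4 := ev (24 * 2) (ek + 3 * σ) 1 (by linarith only [hekg, hσ0, heg1])
  have v5 := ev (24 * (2 * K7)) g 1 hg1
  have v6 := ev0 (128 * A * (1 + K5)) σ hσ0
  have v7 := ev0 N0 e1 he10
  have v8 := ev2 (2 * (53 * K2) ^ 2) 2 1 (e1 * c0) (e1 * c0 / 2) one_pos
    (by positivity) (by have : 0 < e1 * c0 := by positivity
                        linarith only [this])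
  have v9 := ev2 (4 * ((53 * K2) ^ 2 * (2 * K6 / cm + 3) ^ 2)) 4 1 (σ * eg / 2) (σ * eg / 4)
    one_pos (by positivity) (by linarith only [hσeg0])
  have v10 := ev0 (24 * (Al * C + 1 + 6 * C)) 1 one_pos
  have v11 := ev0 1 (e1 * c0 / 2) (by positivity)
  filter_upwards [v1, v2, v3, v4, v5, v6, v7, v8, v9, v10, v11, eventually_ge_atTop 1] with
    n v1 v2 v3 v4 v5 v6 v7 v8 v9 v10 v11 hn1
  rw [Real.rpow_one] at v2 v3 v4 v5 v10
  have hn0 : 0 < n := by linarith only [hn1]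
  have hnn : (0 : ℝ) ≤ n := hn0.le
  -- powers
  have q1 : 0 < n ^ e1 := Real.rpow_pos_of_pos hn0 _
  have q2 : n ^ e1 ≤ n := by
    have := Real.rpow_le_rpow_of_exponent_le hn1 he11
    rwa [Real.rpow_one] at this
  have q3 : n ^ eg ≤ n ^ e1 := Real.rpow_le_rpow_of_exponent_le hn1 he1g
  have q4 : n ^ ek ≤ n ^ e1 :=
    Real.rpow_le_rpow_of_exponent_le hn1 (by linarith only [hekg, he1g, hσ0])
  have q5 : 1 ≤ n ^ e1 := Real.one_le_rpow hn1 he10.le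
  have q6 : (1 + n) ^ eg ≤ 2 * n ^ eg := one_add_pow_le hn1 heg0.le heg1
  have q7 : (1 + n) ^ ek ≤ 2 * n ^ ek :=
    one_add_pow_le hn1 hek0.le (by linarith only [hekg, hσ0, heg1])
  have q6' : Ag * (1 + n) ^ eg ≤ Ag * (2 * n ^ eg) := by gcongr
  have q7' : 8 * A * (1 + n) ^ ek ≤ 8 * A * (2 * n ^ ek) := by gcongr
  have q8 : Ag * n ^ eg ≤ Ag * n ^ e1 := by gcongr
  have q9 : A * n ^ ek ≤ A * n ^ e1 := by gcongr
  have q10 : A * n ^ e1 ≤ A * n := by gcongr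
  have q11 : Ag * n ^ e1 ≤ Ag * n := by gcongr
  have hsum : Ag * (1 + n) ^ eg + 8 * A * (1 + n) ^ ek + 1 ≤ K1 * n ^ e1 := by
    have k1 : 0 < K2 * Cn * n ^ e1 := by positivity
    have k2 : K1 * n ^ e1 = 2 * n ^ e1 + 2 * (Ag * n ^ e1) + 16 * (A * n ^ e1) +
        26 * (K2 * Cn * n ^ e1) := by rw [hK1]; ring
    rw [k2]
    linarith only [q6', q7', q8, q9, q5, k1]
  have hsum2 : n + Ag * (1 + n) ^ eg + 8 * A * (1 + n) ^ ek + 1 ≤ K2 * n := by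
    have k2 : K2 * n = 2 * n + 2 * (Ag * n) + 16 * (A * n) := by rw [hK2]; ring
    rw [k2]
    linarith only [q6', q7', q8, q9, q10, q11, hn1]
  -- `R`
  obtain ⟨R, hR⟩ : ∃ R : ℕ, R = ⌈25 * (K2 * n)⌉₊ := ⟨_, rfl⟩
  have hK2n : 2 ≤ K2 * n := by
    calc (2 : ℝ) = 2 * 1 := by ring
      _ ≤ K2 * n := by gcongr
  have hR1 : 25 * (K2 * n) ≤ R := by rw [hR]; exact Nat.le_ceil _
  have hR2 : (R : ℝ) ≤ 26 * K2 * n := by
    have := Nat.ceil_lt_add_one (show 0 ≤ 25 * (K2 * n) by positivity)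
    rw [← hR] at this
    linarith only [this, hK2n]
  have hR3 : 3 ≤ R := by
    have : (3 : ℝ) ≤ R := by linarith only [hR1, hK2n]
    exact_mod_cast this
  have hRR : 2 * (R : ℝ) + 1 ≤ 53 * K2 * n := by linarith only [hR2, hK2n]
  -- `l`, `P`
  obtain ⟨l, hl⟩ : ∃ l, l = n ^ (-σ) := ⟨_, rfl⟩
  have hl0 : 0 < l := by rw [hl]; exact Real.rpow_pos_of_pos hn0 _
  have hlinv : l * n ^ σ = 1 := by
    rw [hl, ← Real.rpow_add hn0]; simp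
  have hns1 : 1 ≤ n ^ σ := Real.one_le_rpow hn1 hσ0.le
  have hl1 : l ≤ 1 := by
    have h2 : l * 1 ≤ l * n ^ σ := mul_le_mul_of_nonneg_left hns1 hl0.le
    linarith only [h2, hlinv]
  obtain ⟨P, hP⟩ : ∃ P : ℕ, P = ⌈2 * n ^ σ⌉₊ := ⟨_, rfl⟩
  have hP1 : 2 * n ^ σ ≤ P := by rw [hP]; exact Nat.le_ceil _
  have hP2 : (P : ℝ) ≤ 2 * n ^ σ + 1 := by
    have := Nat.ceil_lt_add_one (show 0 ≤ 2 * n ^ σ by positivity)
    rw [← hP] at this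
    exact this.le
  have hlP : 2 ≤ l * P := by
    calc (2 : ℝ) = l * (2 * n ^ σ) := by linarith only [hlinv]
      _ ≤ l * P := by gcongr
  have hlP3 : l * P ≤ 3 := by
    calc l * P ≤ l * (2 * n ^ σ + 1) := by gcongr
      _ = 2 * (l * n ^ σ) + l := by ring
      _ ≤ 3 := by linarith only [hlinv, hl1]
  -- products with `l`
  have w1 : l * n = n ^ (1 - σ) := by
    rw [hl]
    have := (Real.rpow_add_one hn0.ne' (-σ)).symm
    rw [this]; congr 1; ring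
  have w2 : l * n ^ e1 = n ^ (e1 - σ) := by
    rw [hl, ← Real.rpow_add hn0]; congr 1; ring
  have w3 : n ^ (e1 - σ) ≤ n ^ (1 - σ) :=
    Real.rpow_le_rpow_of_exponent_le hn1 (by linarith only [he11])
  have w4 : n ^ (e1 - σ) ≤ n ^ g :=
    Real.rpow_le_rpow_of_exponent_le hn1 (by rw [hg]; linarith only [he1g2, hσeg])
  have w5 : 1 ≤ n ^ (1 - σ) := Real.one_le_rpow hn1 (by linarith only [hσ1])
  have w6 : 0 < n ^ (1 - σ) := by linarith only [w5]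
  have lS : l * (n + 2 * (K1 * n ^ e1)) ≤ (1 + 2 * K1) * n ^ (1 - σ) := by
    have : l * (n + 2 * (K1 * n ^ e1)) = l * n + 2 * K1 * (l * n ^ e1) := by ring
    rw [this, w1, w2]
    have k1 : K1 * n ^ (e1 - σ) ≤ K1 * n ^ (1 - σ) := by gcongr
    linarith only [k1]
  have lB : l * (3 * (K1 * n ^ e1)) = 3 * (K1 * n ^ (e1 - σ)) := by
    rw [← w2]; ring
  have lB1 : K1 * n ^ (e1 - σ) ≤ K1 * n ^ (1 - σ) := by gcongr
  have lB2 : K1 * n ^ (e1 - σ) ≤ K1 * n ^ g := by gcongr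
  have hCw : C * 1 ≤ C * n ^ (1 - σ) := by gcongr
  -- `s4`
  obtain ⟨s4, hs4⟩ : ∃ s4, s4 = K6 * n ^ (1 - σ) := ⟨_, rfl⟩
  have hs40 : 0 < s4 := by rw [hs4]; positivity
  have hs4' : 4 * (l * (n + 2 * (K1 * n ^ e1))) + C + (l * (3 * (K1 * n ^ e1)) + 2 * C) ≤ s4 := by
    rw [hs4, hK6, lB]
    have k1 : (4 * (1 + 2 * K1) + 3 * K1 + 3 * C) * n ^ (1 - σ) =
        4 * ((1 + 2 * K1) * n ^ (1 - σ)) + 3 * (K1 * n ^ (1 - σ)) + 3 * (C * n ^ (1 - σ)) := by ring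
    rw [k1]
    linarith only [lS, lB1, hCw]
  -- `s5`
  have hs5 : n + 5 * (n + 2 * (K1 * n ^ e1)) + 2 * (3 * (K1 * n ^ e1) +
      2 * (n + 2 * (K1 * n ^ e1))) + C ≤ K5 * n := by
    have k1 : K1 * n ^ e1 ≤ K1 * n := by gcongr
    have k2 : C * 1 ≤ C * n := by gcongr
    have k3 : K5 * n = n + 9 * (n + 2 * (K1 * n)) + 6 * (K1 * n) + C * n := by rw [hK5]; ring
    rw [k3]
    linarith only [k1, k2]
  -- `x`
  obtain ⟨x, hx⟩ : ∃ x, x = n ^ (ek + 3 * σ) := ⟨_, rfl⟩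
  have hx0 : 0 < x := by rw [hx]; exact Real.rpow_pos_of_pos hn0 _
  have hxg : x ≤ n ^ g := by
    rw [hx]
    exact Real.rpow_le_rpow_of_exponent_le hn1 (by rw [hg]; linarith only [hekg, hσeg, hσ0])
  have hEl : ((P : ℝ) + 1) ^ 2 * (A * (1 + K5 * n) ^ ek / x) ≤ 1 / 8 := by
    have k1 : (P : ℝ) + 1 ≤ 4 * n ^ σ := by linarith only [hP2, hns1]
    have k2 : ((P : ℝ) + 1) ^ 2 ≤ 16 * (n ^ σ * n ^ σ) := by
      calc ((P : ℝ) + 1) ^ 2 ≤ (4 * n ^ σ) ^ 2 := by gcongr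
        _ = _ := by ring
    have k3 : (1 + K5 * n) ^ ek ≤ (1 + K5) * n ^ ek := by
      calc (1 + K5 * n) ^ ek ≤ ((1 + K5) * n) ^ ek :=
            Real.rpow_le_rpow (by positivity) (by linarith only [hn1]) hek0.le
        _ ≤ (1 + K5) * n ^ ek := mul_pow_le (by linarith only [hK50]) hnn
            (by linarith only [hekg, hσ0, heg1])
    have k4 : x = n ^ ek * (n ^ σ * n ^ σ * n ^ σ) := by
      rw [hx, ← Real.rpow_add hn0, ← Real.rpow_add hn0, ← Real.rpow_add hn0]; congr 1; ring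
    have q12 : 0 < n ^ ek := Real.rpow_pos_of_pos hn0 _
    have q13 : 0 < n ^ σ := by linarith only [hns1]
    calc ((P : ℝ) + 1) ^ 2 * (A * (1 + K5 * n) ^ ek / x) ≤
          16 * (n ^ σ * n ^ σ) * (A * ((1 + K5) * n ^ ek) / x) := by gcongr
      _ = 16 * A * (1 + K5) / n ^ σ := by
          rw [k4]; field_simp
      _ ≤ 1 / 8 := by
          rw [div_le_iff₀ q13]
          linarith only [v6]
  -- `ρ`
  obtain ⟨ρ, hρ⟩ : ∃ ρ, ρ = K7 * n ^ g := ⟨_, rfl⟩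
  have hρ0 : 0 < ρ := by
    rw [hρ]; have := Real.rpow_pos_of_pos hn0 g; positivity
  obtain ⟨Wd, hWd⟩ : ∃ Wd, Wd = A' * (1 + s4) ^ eg := ⟨_, rfl⟩
  have hWd0 : 0 < Wd := by
    rw [hWd]; have : 0 < (1 + s4) ^ eg := Real.rpow_pos_of_pos (by linarith only [hs40]) _
    positivity
  have hWd1 : Wd ≤ K7 * n ^ ((1 - σ) * eg) := by
    rw [hWd, hK7, mul_assoc]
    refine mul_le_mul_of_nonneg_left ?_ hA'.le
    calc (1 + s4) ^ eg ≤ ((1 + K6) * n ^ (1 - σ)) ^ eg := by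
          refine Real.rpow_le_rpow (by linarith only [hs40]) ?_ heg0.le
          rw [hs4]; linarith only [w5]
      _ ≤ (1 + K6) * (n ^ (1 - σ)) ^ eg := mul_pow_le (by linarith only [hK60]) w6.le heg1
      _ = (1 + K6) * n ^ ((1 - σ) * eg) := by rw [← Real.rpow_mul hnn]
  have hρe : ρ = K7 * n ^ ((1 - σ) * eg) * n ^ (σ * eg / 2) := by
    rw [hρ, mul_assoc, ← Real.rpow_add hn0, hg]; congr 2; ring
  have hne1 : 1 ≤ n ^ (σ * eg / 2) := Real.one_le_rpow hn1 (by positivity)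
  have hρW : Wd ≤ ρ := by
    rw [hρe]
    calc Wd ≤ K7 * n ^ ((1 - σ) * eg) := hWd1
      _ = K7 * n ^ ((1 - σ) * eg) * 1 := (mul_one _).symm
      _ ≤ _ := by gcongr
  have hratio : n ^ (σ * eg / 2) ≤ ρ / Wd := by
    rw [le_div_iff₀ hWd0, hρe, mul_comm]
    gcongr
  have hEu : (2 * (R : ℝ) + 1) ^ 2 * ((2 * s4 / cm + 3) ^ 2 * (2 * Real.exp (-(ρ / Wd)))) ≤
      1 / 8 := by
    have k1 : (2 * (R : ℝ) + 1) ^ 2 ≤ (53 * K2) ^ 2 * n ^ 2 := by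
      calc (2 * (R : ℝ) + 1) ^ 2 ≤ (53 * K2 * n) ^ 2 := by gcongr
        _ = _ := by ring
    have k2 : (2 * s4 / cm + 3) ^ 2 ≤ (2 * K6 / cm + 3) ^ 2 * n ^ 2 := by
      have k3 : n ^ (1 - σ) ≤ n := by
        have := Real.rpow_le_rpow_of_exponent_le hn1 (show 1 - σ ≤ (1 : ℝ) by linarith only [hσ0])
        rwa [Real.rpow_one] at this
      have k4 : 2 * s4 / cm + 3 ≤ (2 * K6 / cm + 3) * n := by
        have k5 : 2 * s4 / cm ≤ 2 * K6 / cm * n := by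
          rw [hs4]
          calc 2 * (K6 * n ^ (1 - σ)) / cm = 2 * K6 / cm * n ^ (1 - σ) := by ring
            _ ≤ 2 * K6 / cm * n := by gcongr
        linarith only [k5, hn1]
      calc (2 * s4 / cm + 3) ^ 2 ≤ ((2 * K6 / cm + 3) * n) ^ 2 := by gcongr
        _ = _ := by ring
    have k6 : Real.exp (-(ρ / Wd)) ≤ Real.exp (-(1 * n ^ (σ * eg / 2))) :=
      Real.exp_le_exp.2 (by linarith only [hratio])
    have k7 : Real.exp (-(n ^ (σ * eg / 4))) ≤ 1 := by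
      rw [Real.exp_le_one_iff]
      have := Real.rpow_pos_of_pos hn0 (σ * eg / 4)
      linarith only [this]
    calc (2 * (R : ℝ) + 1) ^ 2 * ((2 * s4 / cm + 3) ^ 2 * (2 * Real.exp (-(ρ / Wd)))) ≤
          (53 * K2) ^ 2 * n ^ 2 * ((2 * K6 / cm + 3) ^ 2 * n ^ 2 *
            (2 * Real.exp (-(1 * n ^ (σ * eg / 2))))) := by gcongr
      _ = (4 * ((53 * K2) ^ 2 * (2 * K6 / cm + 3) ^ 2) * n ^ 4 *
            Real.exp (-(1 * n ^ (σ * eg / 2)))) / 2 := by ring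
      _ ≤ 1 / 8 := by linarith only [v9, k7]
  have hE1 : 2 * (2 * (R : ℝ) + 1) ^ 2 * Real.exp (-((n ^ e1) ^ c0)) ≤ 1 / 8 := by
    rw [← Real.rpow_mul hnn]
    have k7 : Real.exp (-(n ^ (e1 * c0 / 2))) ≤ 1 / 2 := by
      have k8 : Real.exp (-(n ^ (e1 * c0 / 2))) ≤ Real.exp (-1) :=
        Real.exp_le_exp.2 (by linarith only [v11])
      have k9 : Real.exp (-1) ≤ 1 / 2 := by
        rw [Real.exp_neg, inv_eq_one_div]
        have := Real.add_one_le_exp (1 : ℝ)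
        exact one_div_le_one_div_of_le (by norm_num) (by linarith only [this])
      linarith only [k8, k9]
    calc 2 * (2 * (R : ℝ) + 1) ^ 2 * Real.exp (-(n ^ (e1 * c0))) ≤
          2 * (53 * K2 * n) ^ 2 * Real.exp (-(n ^ (e1 * c0))) := by gcongr
      _ = 2 * (53 * K2) ^ 2 * n ^ 2 * Real.exp (-(1 * n ^ (e1 * c0))) := by rw [one_mul]; ring
      _ ≤ 1 / 8 := by linarith only [v8, k7]
  have q14 : n ^ ek ≤ n ^ g :=
    Real.rpow_le_rpow_of_exponent_le hn1 (by rw [hg]; linarith only [hekg, hσeg, hσ0])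
  have q15 : 1 ≤ n ^ g := Real.one_le_rpow hn1 hg0.le
  refine ⟨P, R, l, x, ρ, s4, K5 * n, ?_⟩
  refine ⟨hn1, hl0, hl1, hlP, hlP3, hx0, hρ0.le, ?_, ?_, ?_, hR3, hR2, ?_, ?_, ?_, ?_, ?_, ?_,
    hs40.le, ?_, ?_, ?_⟩
  · rw [← he1]
    have : l * n ≤ l * (n + 2 * (K1 * n ^ e1)) := by
      have k1 : 0 ≤ K1 * n ^ e1 := by positivity
      refine mul_le_mul_of_nonneg_left (by linarith only [k1]) hl0.le
    rw [w1] at this
    linarith only [this, v1]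
  · rw [← he1, ← heg, ← hek]; linarith only [hsum]
  · rw [← heg, ← hek]; linarith only [hsum2, hR1]
  · rw [← he1]; exact hs4'
  · rw [← he1]; exact hs5
  · rw [← he1, ← hek, lB, hs4]
    have k1 : 24 * (Al * K6 + 6 * K1 + 6 * (1 + 2 * K1)) * n ^ (1 - σ) =
        24 * (Al * (K6 * n ^ (1 - σ))) + 144 * (K1 * n ^ (1 - σ)) +
          144 * ((1 + 2 * K1) * n ^ (1 - σ)) := by ring
    rw [k1] at v2
    have k2 : Al * (C + K6 * n ^ (1 - σ)) = Al * C + Al * (K6 * n ^ (1 - σ)) := by ring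
    rw [k2]
    rw [← hx] at v4
    have k3 : 24 * (2 * K7) * n ^ g = 48 * ρ := by rw [hρ]; ring
    rw [k3] at v5
    linarith only [v2, v3, v4, v5, v10, lS, lB1, q7', hn0]
  · rw [← hek]; exact hEl
  · rw [← he1]; exact v7
  · rw [← he1]; exact hE1
  · rw [← heg, ← hWd]; exact hρW
  · rw [← heg, ← hWd]; exact hEu
  · rw [hδ, ← he1, ← hek, lB, hρ]
    have k1 : A * n ^ ek ≤ A * n ^ g := by gcongr
    have k2 : C * 1 ≤ C * n ^ g := by gcongr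
    have k3 : (16 * A + 1 + 2 + 2 * K7 + 6 * K1 + 6 * C) * n ^ g =
        16 * (A * n ^ g) + n ^ g + 2 * n ^ g + 2 * (K7 * n ^ g) + 6 * (K1 * n ^ g) +
          6 * (C * n ^ g) := by ring
    rw [k3]
    linarith only [q7', k1, k2, q15, hxg, lB2]

end Pool.Agent.V7H97.FO
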