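import Pool.Agent.V7H97.FO.Two

/-!
# The choice of the scales for the fluctuation step
-/

set_option autoImplicit false

open Filter

namespace Pool.Agent.V7H97.FO

open Pool.Agent.N662.FP

/-- data at scale `n` -/
structure Sc3 (A1 A' Ag C Cn c0 N0 Cd be ek e1 ep y n : ℝ) (k R : ℕ)
    (m S B B0 a1 L p1 p2 r U q : ℝ) : Prop where
  hn : 1 ≤ n
  hm : 0 < m
  hkm : (k : ℝ) * m + 2 * (3 * S) = n
  hr : 0 < r
  hrA : A' * (1 + (m + 2 * C)) ^ be ≤ r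
  ha1 : a1 = r + r * n ^ ep
  hp2 : p2 = Real.exp (-(n ^ ep))
  hR : 25 * (m + 2 * C + a1 + 1) ≤ R
  hS : m + 2 * C + a1 + 1 + B0 ≤ S
  hB : 2 * B0 + a1 + 1 + 8 * C ≤ B
  hS0 : 0 ≤ S
  hq : 0 < q
  hB0 : B0 = 1 * q ^ e1
  hp1 : p1 = Real.exp (-((q ^ e1) ^ c0))
  hN : N0 ≤ q ^ e1
  hCn : m + 2 * C + Cn * R ≤ q
  hL : m + 2 * C + a1 ≤ L
  hL1 : m + 2 * C + 1 ≤ L
  hU : 9 * S + 3 * B + C ≤ U
  hU0 : 0 ≤ U
  hfin : 3 * ((6 * B + 4 * C + 4 * C * k + (k + 2) * (Ag * (1 + U) ^ ek)) +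
    2 * (A1 * (1 + U) ^ be) + k * (L * ((1 / 2) ^ R + (2 * (R : ℝ) + 1) ^ 2 * (2 * p1) + p2) +
        Cd * r ^ 2 / (L - (m + 2 * C)))) ≤ n ^ y

theorem asym3 (A1 A' Ag C Cn c0 N0 Cd κ lam lam' : ℝ) (hA1 : 0 < A1) (hA' : 0 < A') (hAg : 0 < Ag)
    (hC : 0 < C) (hCn : 0 < Cn) (hc0 : 0 < c0) (hCd : 0 ≤ Cd)
    (h0 : 0 ≤ lam) (h1 : lam < κ) (h2 : κ < 1) (h3 : 0 ≤ lam') (h4 : lam' ≤ lam)
    (h5 : lam - lam' ≤ (κ - lam) * (1 - lam) / 64) :
    ∀ᶠ n : ℝ in atTop, ∃ (k R : ℕ) (m S B B0 a1 L p1 p2 r U q : ℝ),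
      Sc3 A1 A' Ag C Cn c0 N0 Cd (1 - lam) (1 - κ) (1 - lam') ((κ - lam) * (1 - lam) / 64)
        (1 - (lam + (κ - lam) * (1 - lam) / 16)) n k R m S B B0 a1 L p1 p2 r U q := by
  obtain ⟨g, hg⟩ : ∃ g, g = κ - lam := ⟨_, rfl⟩
  obtain ⟨be, hbe⟩ : ∃ be, be = 1 - lam := ⟨_, rfl⟩
  obtain ⟨G, hG⟩ : ∃ G, G = g * be := ⟨_, rfl⟩
  obtain ⟨ek, hek⟩ : ∃ ek, ek = 1 - κ := ⟨_, rfl⟩
  obtain ⟨e1, he1⟩ : ∃ e1, e1 = 1 - lam' := ⟨_, rfl⟩
  obtain ⟨ep, hep⟩ : ∃ ep, ep = G / 64 := ⟨_, rfl⟩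
  obtain ⟨σ, hσ⟩ : ∃ σ, σ = g / 2 := ⟨_, rfl⟩
  obtain ⟨y, hy⟩ : ∃ y, y = be - G / 16 := ⟨_, rfl⟩
  have hg0 : 0 < g := by rw [hg]; linarith only [h1]
  have hbe0 : 0 < be := by rw [hbe]; linarith only [h1, h2]
  have hbe1 : be ≤ 1 := by rw [hbe]; linarith only [h0]
  have hgb : g ≤ be := by rw [hg, hbe]; linarith only [h2]
  have hek0 : 0 < ek := by rw [hek]; linarith only [h2]
  have hekb : ek = be - g := by rw [hek, hbe, hg]; ring
  have hG0 : 0 < G := by rw [hG]; positivity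
  have hGg : G ≤ g := by
    rw [hG]
    calc g * be ≤ g * 1 := mul_le_mul_of_nonneg_left hbe1 hg0.le
      _ = g := mul_one g
  have hGb : G ≤ be := hGg.trans hgb
  have hep0 : 0 < ep := by rw [hep]; linarith only [hG0]
  have hσ0 : 0 < σ := by rw [hσ]; linarith only [hg0]
  have hσ1 : σ ≤ 1 / 2 := by rw [hσ]; linarith only [hgb, hbe1]
  have hσep : 32 * ep ≤ σ := by rw [hσ, hep]; linarith only [hGg]
  have he1b : be ≤ e1 := by rw [hbe, he1]; linarith only [h4]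
  have he1b2 : e1 ≤ be + ep := by
    rw [he1, hbe, hep, hG, hg, hbe]; linarith only [h5]
  have he11 : e1 ≤ 1 := by rw [he1]; linarith only [h3]
  have he10 : 0 < e1 := by linarith only [hbe0, he1b]
  have hepe : ep = (κ - lam) * (1 - lam) / 64 := by rw [hep, hG, hg, hbe]
  have hye : y = 1 - (lam + (κ - lam) * (1 - lam) / 16) := by rw [hy, hG, hg, hbe]; ring
  rw [← hye, ← hepe, ← hbe, ← hek, ← he1]
  -- exponents
  obtain ⟨sx, hsx⟩ : ∃ sx, sx = 1 - σ := ⟨_, rfl⟩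
  have hsx0 : 1 / 2 ≤ sx := by rw [hsx]; linarith only [hσ1]
  have hsx1 : sx + 3 * ep < 1 := by rw [hsx]; linarith only [hσep, hep0]
  obtain ⟨x1, hx1⟩ : ∃ x1, x1 = sx * be + 3 * ep := ⟨_, rfl⟩
  obtain ⟨x3, hx3⟩ : ∃ x3, x3 = ek + σ + 3 * ep := ⟨_, rfl⟩
  have hσbe : σ * be = G / 2 := by rw [hσ, hG]; ring
  have hx1e : x1 = be - G / 2 + 3 * ep := by rw [hx1, hsx, sub_mul, one_mul, hσbe]
  have hx1y : x1 < y := by rw [hx1e, hy, hep]; linarith only [hG0]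
  have hx3y : x3 < y := by rw [hx3, hy, hekb, hσ, hep]; linarith only [hG0, hGg]
  have hσy : σ < y := by rw [hy, hσ]; linarith only [hGb, hgb, hbe0]
  have hy0 : 0 < y := by linarith only [hσy, hσ0]
  have hsxbe : sx * be ≤ sx := by
    calc sx * be ≤ sx * 1 := mul_le_mul_of_nonneg_left hbe1 (by linarith only [hsx0])
      _ = sx := mul_one sx
  have hqe : (sx + 2 * ep) * e1 ≤ x1 := by
    rw [hx1]
    have k1 : sx * e1 ≤ sx * (be + ep) := mul_le_mul_of_nonneg_left he1b2 (by linarith only [hsx0])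
    have k2 : sx * ep ≤ 1 * ep := mul_le_mul_of_nonneg_right (by linarith only [hsx1, hep0]) hep0.le
    have k3 : 2 * ep * e1 ≤ 2 * ep * 1 := mul_le_mul_of_nonneg_left he11 (by linarith only [hep0])
    have k4 : (sx + 2 * ep) * e1 = sx * e1 + 2 * ep * e1 := by ring
    have k5 : sx * (be + ep) = sx * be + sx * ep := by ring
    rw [k4]
    linarith only [k1, k2, k3, k5]
  have hqe0 : 0 < (sx + 2 * ep) * e1 := mul_pos (by linarith only [hsx0, hep0]) he10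
  have hqe1 : (sx + 2 * ep) * e1 ≤ sx + 2 * ep := by
    calc (sx + 2 * ep) * e1 ≤ (sx + 2 * ep) * 1 :=
          mul_le_mul_of_nonneg_left he11 (by linarith only [hsx0, hep0])
      _ = _ := mul_one _
  -- constants
  obtain ⟨KR, hKR⟩ : ∃ KR, KR = 25 * (2 + 2 * C + 4 * A') + 1 := ⟨_, rfl⟩
  have hKR0 : 1 ≤ KR := by rw [hKR]; linarith only [hC, hA']
  obtain ⟨KB, hKB⟩ : ∃ KB, KB = 3 + 4 * A' + 8 * C := ⟨_, rfl⟩
  have hKB0 : 3 ≤ KB := by rw [hKB]; linarith only [hC, hA']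
  obtain ⟨KU, hKU⟩ : ∃ KU, KU = 10 + 3 * KB + C := ⟨_, rfl⟩
  have hKU0 : 1 ≤ KU := by rw [hKU]; linarith only [hC, hKB0]
  have v1 := ev 12 (sx + 3 * ep) 1 hsx1
  have v2 := ev (3 + 2 * C + 4 * A') (sx + 2 * ep) (sx + 3 * ep) (by linarith only [hep0])
  have v3 := ev (1 + 2 * C + Cn * KR) (sx + ep) (sx + 2 * ep) (by linarith only [hep0])
  have v4 := ev0 N0 ((sx + 2 * ep) * e1) hqe0
  have v5 := ev0 (1 + 2 * C) sx (by linarith only [hsx0])
  have v6 := ev (72 * KB + 24 * A1 * KU) x1 y hx1y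
  have v7 := ev (144 * C) σ y hσy
  have v8 := ev (48 * (Ag * KU)) x3 y hx3y
  have v9 := ev0 36 y hy0
  have v10 := ev2 2 5 (1 / 8) sx (sx / 2) (by norm_num) (by linarith only [hsx0])
    (by linarith only [hsx0])
  have v11 := ev2 (4 * (2 * KR + 1) ^ 2) 7 1 ((sx + 2 * ep) * e1 * c0)
    ((sx + 2 * ep) * e1 * c0 / 2) one_pos (by positivity)
    (by have : 0 < (sx + 2 * ep) * e1 * c0 := by positivity
        linarith only [this])
  have v12 := ev2 2 5 1 ep (ep / 2) one_pos (by linarith only [hep0]) (by linarith only [hep0])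
  have v13 := ev0 (16 * (A' ^ 2 * Cd)) 1 one_pos
  filter_upwards [v1, v2, v3, v4, v5, v6, v7, v8, v9, v10, v11, v12, v13,
    eventually_ge_atTop 2] with n v1 v2 v3 v4 v5 v6 v7 v8 v9 v10 v11 v12 v13 hn2
  rw [Real.rpow_one] at v1 v13
  have hn1 : 1 ≤ n := by linarith only [hn2]
  have hn0 : 0 < n := by linarith only [hn2]
  have hnn : (0 : ℝ) ≤ n := hn0.le
  have mono : ∀ a b : ℝ, a ≤ b → n ^ a ≤ n ^ b := fun a b h =>
    Real.rpow_le_rpow_of_exponent_le hn1 h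
  have posn : ∀ a : ℝ, 0 < n ^ a := fun a => Real.rpow_pos_of_pos hn0 a
  have onen : ∀ a : ℝ, 0 ≤ a → 1 ≤ n ^ a := fun a h => Real.one_le_rpow hn1 h
  -- `S`
  obtain ⟨S, hS⟩ : ∃ S, S = n ^ (sx + 3 * ep) := ⟨_, rfl⟩
  rw [← hS] at v1 v2
  have hS0 : 0 < S := by rw [hS]; exact posn _
  -- `k`
  obtain ⟨k, hk⟩ : ∃ k : ℕ, k = ⌈n ^ σ⌉₊ := ⟨_, rfl⟩
  have hσn := onen σ hσ0.le
  have hk1 : n ^ σ ≤ k := by rw [hk]; exact Nat.le_ceil _
  have hk2 : (k : ℝ) ≤ n ^ σ + 1 := by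
    have := Nat.ceil_lt_add_one (posn σ).le
    rw [← hk] at this
    exact this.le
  have hk0 : (0 : ℝ) < k := by linarith only [hk1, hσn]
  have hσn1 : n ^ σ ≤ n := by
    have := mono σ 1 (by linarith only [hσ1])
    rwa [Real.rpow_one] at this
  -- `m`
  obtain ⟨m, hm⟩ : ∃ m, m = (n - 6 * S) / k := ⟨_, rfl⟩
  have hkm : (k : ℝ) * m + 2 * (3 * S) = n := by
    rw [hm]; field_simp; ring
  have hsn : n ^ σ * n ^ sx = n := by
    rw [← Real.rpow_add hn0, hsx]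
    have : σ + (1 - σ) = 1 := by ring
    rw [this, Real.rpow_one]
  have hm0 : 0 < m := by
    rw [hm]
    exact div_pos (by linarith only [v1, hn0]) hk0
  have hmM : m ≤ n ^ sx := by
    rw [hm, div_le_iff₀ hk0]
    calc n - 6 * S ≤ n := by linarith only [hS0]
      _ = n ^ sx * n ^ σ := by rw [mul_comm, hsn]
      _ ≤ n ^ sx * k := mul_le_mul_of_nonneg_left hk1 (posn _).le
  have hmM2 : n ^ sx / 4 ≤ m := by
    rw [hm, le_div_iff₀ hk0]
    calc n ^ sx / 4 * k ≤ n ^ sx / 4 * (n ^ σ + 1) :=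
          mul_le_mul_of_nonneg_left hk2 (by have := posn sx; linarith only [this])
      _ ≤ n ^ sx / 4 * (n ^ σ + n ^ σ) :=
          mul_le_mul_of_nonneg_left (by linarith only [hσn])
            (by have := posn sx; linarith only [this])
      _ = (n ^ σ * n ^ sx) / 2 := by ring
      _ ≤ n - 6 * S := by rw [hsn]; linarith only [v1]
  -- `r`
  obtain ⟨r, hr⟩ : ∃ r, r = A' * (1 + (m + 2 * C)) ^ be := ⟨_, rfl⟩
  have hmC : 0 < 1 + (m + 2 * C) := by linarith only [hm0, hC]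
  have hr0 : 0 < r := by
    rw [hr]; have := Real.rpow_pos_of_pos hmC be; positivity
  have hr1 : r ≤ 2 * A' * n ^ (sx * be) := by
    rw [hr]
    have k1 : (1 + (m + 2 * C)) ^ be ≤ 2 * n ^ (sx * be) := by
      calc (1 + (m + 2 * C)) ^ be ≤ (2 * n ^ sx) ^ be :=
            Real.rpow_le_rpow hmC.le (by linarith only [hmM, v5]) hbe0.le
        _ ≤ 2 * (n ^ sx) ^ be := mul_pow_le (by norm_num) (posn _).le hbe1
        _ = 2 * n ^ (sx * be) := by rw [← Real.rpow_mul hnn]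
    calc A' * (1 + (m + 2 * C)) ^ be ≤ A' * (2 * n ^ (sx * be)) :=
          mul_le_mul_of_nonneg_left k1 hA'.le
      _ = _ := by ring
  -- `a1`
  obtain ⟨a1, ha1⟩ : ∃ a1, a1 = r + r * n ^ ep := ⟨_, rfl⟩
  have hepn := onen ep hep0.le
  have ha11 : a1 ≤ 4 * A' * n ^ (sx * be + ep) := by
    have k1 : r * 1 ≤ r * n ^ ep := mul_le_mul_of_nonneg_left hepn hr0.le
    have k2 : r * n ^ ep ≤ 2 * A' * n ^ (sx * be) * n ^ ep :=
      mul_le_mul_of_nonneg_right hr1 (posn _).le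
    have k3 : n ^ (sx * be + ep) = n ^ (sx * be) * n ^ ep := Real.rpow_add hn0 _ _
    rw [ha1, k3]
    have k4 : 4 * A' * (n ^ (sx * be) * n ^ ep) = 2 * (2 * A' * n ^ (sx * be) * n ^ ep) := by ring
    rw [k4]
    linarith only [k1, k2]
  have ha10 : 0 < a1 := by rw [ha1]; have := posn ep; positivity
  have ha12 : a1 ≤ 4 * A' * n ^ (sx + ep) := by
    refine ha11.trans (mul_le_mul_of_nonneg_left (mono _ _ (by linarith only [hsxbe])) ?_)
    linarith only [hA']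
  have ha13 : a1 ≤ 4 * A' * n ^ x1 := by
    refine ha11.trans (mul_le_mul_of_nonneg_left (mono _ _ (by rw [hx1]; linarith only [hep0])) ?_)
    linarith only [hA']
  -- `q`, `B0`
  obtain ⟨q, hq⟩ : ∃ q, q = n ^ (sx + 2 * ep) := ⟨_, rfl⟩
  have hq0 : 0 < q := by rw [hq]; exact posn _
  have hqp : q ^ e1 = n ^ ((sx + 2 * ep) * e1) := by rw [hq, ← Real.rpow_mul hnn]
  obtain ⟨B0, hB0⟩ : ∃ B0, B0 = 1 * q ^ e1 := ⟨_, rfl⟩
  have hB01 : B0 ≤ n ^ (sx + 2 * ep) := by rw [hB0, one_mul, hqp]; exact mono _ _ hqe1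
  have hB02 : B0 ≤ n ^ x1 := by rw [hB0, one_mul, hqp]; exact mono _ _ hqe
  have hB00 : 0 < B0 := by rw [hB0, one_mul, hqp]; exact posn _
  have z1 : n ^ sx ≤ n ^ (sx + ep) := mono _ _ (by linarith only [hep0])
  have z2 : n ^ (sx + ep) ≤ n ^ (sx + 2 * ep) := mono _ _ (by linarith only [hep0])
  have z3 : 1 ≤ n ^ (sx + ep) := onen _ (by linarith only [hsx0, hep0])
  have z4 : 1 ≤ n ^ x1 := onen _ (by rw [hx1]; have : 0 ≤ sx * be := by positivity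
                                     linarith only [this, hep0])
  have hsum : m + 2 * C + a1 + 1 ≤ (2 + 2 * C + 4 * A') * n ^ (sx + ep) := by
    have k1 : C * 1 ≤ C * n ^ (sx + ep) := mul_le_mul_of_nonneg_left z3 hC.le
    have k2 : (2 + 2 * C + 4 * A') * n ^ (sx + ep) = 2 * n ^ (sx + ep) + 2 * (C * n ^ (sx + ep)) +
      4 * A' * n ^ (sx + ep) := by ring
    rw [k2]
    linarith only [k1, hmM, z1, z3, ha12]
  have hSS : m + 2 * C + a1 + 1 + B0 ≤ S := by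
    have k1 : (2 + 2 * C + 4 * A') * n ^ (sx + ep) ≤ (2 + 2 * C + 4 * A') * n ^ (sx + 2 * ep) :=
      mul_le_mul_of_nonneg_left z2 (by linarith only [hC, hA'])
    have k2 : (3 + 2 * C + 4 * A') * n ^ (sx + 2 * ep) =
      (2 + 2 * C + 4 * A') * n ^ (sx + 2 * ep) + n ^ (sx + 2 * ep) := by ring
    rw [k2] at v2
    linarith only [k1, v2, hsum, hB01]
  -- `R`
  obtain ⟨R, hR⟩ : ∃ R : ℕ, R = ⌈25 * (m + 2 * C + a1 + 1)⌉₊ := ⟨_, rfl⟩
  have hR1 : 25 * (m + 2 * C + a1 + 1) ≤ R := by rw [hR]; exact Nat.le_ceil _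
  have hR2 : (R : ℝ) ≤ KR * n ^ (sx + ep) := by
    have k1 := Nat.ceil_lt_add_one (show 0 ≤ 25 * (m + 2 * C + a1 + 1) by positivity)
    rw [← hR] at k1
    have k2 : KR * n ^ (sx + ep) = 25 * ((2 + 2 * C + 4 * A') * n ^ (sx + ep)) +
      n ^ (sx + ep) := by rw [hKR]; ring
    rw [k2]
    linarith only [k1, hsum, z3]
  have hRn : (R : ℝ) ≤ KR * n := by
    refine hR2.trans (mul_le_mul_of_nonneg_left ?_ (by linarith only [hKR0]))
    have := mono (sx + ep) 1 (by linarith only [hsx1, hep0])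
    rwa [Real.rpow_one] at this
  have hCnq : m + 2 * C + Cn * R ≤ q := by
    have k1 : Cn * R ≤ Cn * (KR * n ^ (sx + ep)) := mul_le_mul_of_nonneg_left hR2 hCn.le
    have k2 : C * 1 ≤ C * n ^ (sx + ep) := mul_le_mul_of_nonneg_left z3 hC.le
    have k3 : (1 + 2 * C + Cn * KR) * n ^ (sx + ep) = n ^ (sx + ep) + 2 * (C * n ^ (sx + ep)) +
      Cn * (KR * n ^ (sx + ep)) := by ring
    rw [k3, ← hq] at v3
    linarith only [v3, k1, k2, hmM, z1]
  -- `B`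
  obtain ⟨B, hB⟩ : ∃ B, B = 2 * B0 + a1 + 1 + 8 * C := ⟨_, rfl⟩
  have hB1 : B ≤ KB * n ^ x1 := by
    have k1 : C * 1 ≤ C * n ^ x1 := mul_le_mul_of_nonneg_left z4 hC.le
    have k2 : KB * n ^ x1 = 3 * n ^ x1 + 4 * A' * n ^ x1 + 8 * (C * n ^ x1) := by rw [hKB]; ring
    rw [k2, hB]
    linarith only [k1, hB02, ha13, z4]
  have hBp : 0 < B := by rw [hB]; linarith only [hB00, ha10, hC]
  -- `U`
  obtain ⟨U, hU⟩ : ∃ U, U = 9 * S + 3 * B + C := ⟨_, rfl⟩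
  have hU0 : 0 < U := by rw [hU]; linarith only [hS0, hBp, hC]
  have hx1s : x1 ≤ sx + 3 * ep := by rw [hx1]; linarith only [hsxbe]
  have hU1 : 1 + U ≤ KU * n ^ (sx + 3 * ep) := by
    have k1 : B ≤ KB * n ^ (sx + 3 * ep) :=
      hB1.trans (mul_le_mul_of_nonneg_left (mono _ _ hx1s) (by linarith only [hKB0]))
    have k0 : 1 ≤ n ^ (sx + 3 * ep) := onen _ (by linarith only [hsx0, hep0])
    have k2 : C * 1 ≤ C * n ^ (sx + 3 * ep) := mul_le_mul_of_nonneg_left k0 hC.le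
    have k3 : KU * n ^ (sx + 3 * ep) = 10 * n ^ (sx + 3 * ep) + 3 * (KB * n ^ (sx + 3 * ep)) +
      C * n ^ (sx + 3 * ep) := by rw [hKU]; ring
    rw [k3, hU, hS]
    linarith only [k0, k1, k2]
  have hUb : (1 + U) ^ be ≤ KU * n ^ x1 := by
    calc (1 + U) ^ be ≤ (KU * n ^ (sx + 3 * ep)) ^ be :=
          Real.rpow_le_rpow (by linarith only [hU0]) hU1 hbe0.le
      _ ≤ KU * (n ^ (sx + 3 * ep)) ^ be := mul_pow_le hKU0 (posn _).le hbe1
      _ = KU * n ^ ((sx + 3 * ep) * be) := by rw [← Real.rpow_mul hnn]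
      _ ≤ KU * n ^ x1 := by
          refine mul_le_mul_of_nonneg_left (mono _ _ ?_) (by linarith only [hKU0])
          have k1 : 3 * ep * be ≤ 3 * ep * 1 :=
            mul_le_mul_of_nonneg_left hbe1 (by linarith only [hep0])
          have k2 : (sx + 3 * ep) * be = sx * be + 3 * ep * be := by ring
          rw [hx1, k2]
          linarith only [k1]
  have hekl : ek ≤ 1 := by rw [hekb]; linarith only [hbe1, hg0]
  have hUk : n ^ σ * (1 + U) ^ ek ≤ KU * n ^ x3 := by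
    have k5 : (1 + U) ^ ek ≤ KU * n ^ (ek + 3 * ep) := by
      calc (1 + U) ^ ek ≤ (KU * n ^ (sx + 3 * ep)) ^ ek :=
            Real.rpow_le_rpow (by linarith only [hU0]) hU1 hek0.le
        _ ≤ KU * (n ^ (sx + 3 * ep)) ^ ek := mul_pow_le hKU0 (posn _).le hekl
        _ = KU * n ^ ((sx + 3 * ep) * ek) := by rw [← Real.rpow_mul hnn]
        _ ≤ KU * n ^ (ek + 3 * ep) := by
            refine mul_le_mul_of_nonneg_left (mono _ _ ?_) (by linarith only [hKU0])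
            have k1 : 3 * ep * ek ≤ 3 * ep * 1 :=
              mul_le_mul_of_nonneg_left hekl (by linarith only [hep0])
            have k3 : sx * ek ≤ 1 * ek :=
              mul_le_mul_of_nonneg_right (by linarith only [hsx1, hep0]) hek0.le
            have k2 : (sx + 3 * ep) * ek = sx * ek + 3 * ep * ek := by ring
            rw [k2]
            linarith only [k1, k3]
    calc n ^ σ * (1 + U) ^ ek ≤ n ^ σ * (KU * n ^ (ek + 3 * ep)) :=
          mul_le_mul_of_nonneg_left k5 (posn _).le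
      _ = KU * (n ^ σ * n ^ (ek + 3 * ep)) := by ring
      _ = KU * n ^ x3 := by
          rw [← Real.rpow_add hn0, hx3]
          congr 2
          ring
  -- `L`
  have hSn : S ≤ n := by linarith only [v1, hS0, hn0]
  have hn4 : 2 * n ≤ n ^ 4 := by
    have k1 : 2 * n ≤ n * n := mul_le_mul_of_nonneg_right hn2 hnn
    have k2 : 1 ≤ n ^ 2 := one_le_pow₀ hn1
    calc 2 * n ≤ n * n := k1
      _ = n ^ 2 * 1 := by ring
      _ ≤ n ^ 2 * n ^ 2 := mul_le_mul_of_nonneg_left k2 (by positivity)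
      _ = n ^ 4 := by ring
  have hLm : n ^ 4 / 2 ≤ n ^ 4 - (m + 2 * C) := by
    linarith only [hSS, hSn, hn4, ha10, hB00, hn0]
  -- the small terms
  have hk3 : (k : ℝ) ≤ 2 * n := by linarith only [hk2, hσn, hσn1]
  have hn40 : 0 < n ^ 4 := by positivity
  have s1 : (k : ℝ) * (n ^ 4 * (1 / 2) ^ R) ≤ 1 / 4 := by
    have k1 : ((1 : ℝ) / 2) ^ R ≤ Real.exp (-(1 / 8 * n ^ sx)) := by
      have k2 := half_pow R (n ^ sx / 4) (by linarith only [hR1, hmM2, hm0, hC, ha10])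
      refine k2.trans (Real.exp_le_exp.2 (by linarith only []))
    have k7 : Real.exp (-(n ^ (sx / 2))) ≤ 1 := by
      rw [Real.exp_le_one_iff]; have := posn (sx / 2); linarith only [this]
    calc (k : ℝ) * (n ^ 4 * (1 / 2) ^ R) ≤ 2 * n * (n ^ 4 * Real.exp (-(1 / 8 * n ^ sx))) := by
          gcongr
      _ = 2 * n ^ 5 * Real.exp (-(1 / 8 * n ^ sx)) := by ring
      _ ≤ 1 / 4 := by linarith only [v10, k7]
  have s2 : (k : ℝ) * (n ^ 4 * ((2 * (R : ℝ) + 1) ^ 2 * (2 * Real.exp (-((q ^ e1) ^ c0))))) ≤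
      1 / 4 := by
    have k1 : (q ^ e1) ^ c0 = n ^ ((sx + 2 * ep) * e1 * c0) := by
      rw [hqp, ← Real.rpow_mul hnn]
    rw [k1]
    have k2 : 2 * (R : ℝ) + 1 ≤ (2 * KR + 1) * n := by
      have k3 : (2 * KR + 1) * n = 2 * (KR * n) + n := by ring
      rw [k3]; linarith only [hRn, hn1]
    have k7 : Real.exp (-(n ^ ((sx + 2 * ep) * e1 * c0 / 2))) ≤ 1 := by
      rw [Real.exp_le_one_iff]
      have := posn ((sx + 2 * ep) * e1 * c0 / 2)
      linarith only [this]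
    calc (k : ℝ) * (n ^ 4 * ((2 * (R : ℝ) + 1) ^ 2 *
          (2 * Real.exp (-(n ^ ((sx + 2 * ep) * e1 * c0)))))) ≤
          2 * n * (n ^ 4 * (((2 * KR + 1) * n) ^ 2 *
          (2 * Real.exp (-(n ^ ((sx + 2 * ep) * e1 * c0)))))) := by gcongr
      _ = 4 * (2 * KR + 1) ^ 2 * n ^ 7 * Real.exp (-(1 * n ^ ((sx + 2 * ep) * e1 * c0))) := by
          rw [one_mul]; ring
      _ ≤ 1 / 4 := by linarith only [v11, k7]
  have s3 : (k : ℝ) * (n ^ 4 * Real.exp (-(n ^ ep))) ≤ 1 / 4 := by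
    have k7 : Real.exp (-(n ^ (ep / 2))) ≤ 1 := by
      rw [Real.exp_le_one_iff]; have := posn (ep / 2); linarith only [this]
    calc (k : ℝ) * (n ^ 4 * Real.exp (-(n ^ ep))) ≤ 2 * n * (n ^ 4 * Real.exp (-(n ^ ep))) := by
          gcongr
      _ = 2 * n ^ 5 * Real.exp (-(1 * n ^ ep)) := by rw [one_mul]; ring
      _ ≤ 1 / 4 := by linarith only [v12, k7]
  have s4 : (k : ℝ) * (Cd * r ^ 2 / (n ^ 4 - (m + 2 * C))) ≤ 1 := by
    have k1 : r ≤ 2 * A' * n := by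
      refine hr1.trans (mul_le_mul_of_nonneg_left ?_ (by linarith only [hA']))
      have := mono (sx * be) 1 (by linarith only [hsxbe, hsx1, hep0])
      rwa [Real.rpow_one] at this
    have k2 : Cd * r ^ 2 / (n ^ 4 - (m + 2 * C)) ≤ Cd * (2 * A' * n) ^ 2 / (n ^ 4 / 2) := by
      gcongr
    calc (k : ℝ) * (Cd * r ^ 2 / (n ^ 4 - (m + 2 * C))) ≤
          2 * n * (Cd * (2 * A' * n) ^ 2 / (n ^ 4 / 2)) := by
          refine mul_le_mul hk3 k2 ?_ (by positivity)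
          exact div_nonneg (by positivity) (by linarith only [hLm, hn40])
      _ = 16 * (A' ^ 2 * Cd) / n := by field_simp; ring
      _ ≤ 1 := by rw [div_le_one hn0]; exact v13
  refine ⟨k, R, m, S, B, B0, a1, n ^ 4, Real.exp (-((q ^ e1) ^ c0)), Real.exp (-(n ^ ep)), r, U, q,
    ⟨hn1, hm0, hkm, hr0, hr.ge, ha1, rfl, hR1, hSS, hB.ge, hS0.le, hq0, hB0, rfl, ?_, hCnq, ?_, ?_,
      hU.ge, hU0.le, ?_⟩⟩
  · rw [hqp]; exact v4
  · linarith only [hSS, hSn, hn4, hB00, hn0]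
  · linarith only [hSS, hSn, hn4, hB00, hn0, ha10]
  · have t1 : 4 * C + 4 * C * k ≤ 12 * C * n ^ σ := by
      have k1 : C * k ≤ C * (n ^ σ + 1) := mul_le_mul_of_nonneg_left hk2 hC.le
      have k2 : C * 1 ≤ C * n ^ σ := mul_le_mul_of_nonneg_left hσn hC.le
      have k3 : C * (n ^ σ + 1) = C * n ^ σ + C * 1 := by ring
      have k4 : 12 * C * n ^ σ = 12 * (C * n ^ σ) := by ring
      rw [k4]
      linarith only [k1, k2, k3]
    have t2 : ((k : ℝ) + 2) * (Ag * (1 + U) ^ ek) ≤ 4 * (Ag * KU) * n ^ x3 := by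
      have k0 : 0 ≤ (1 + U) ^ ek := Real.rpow_nonneg (by linarith only [hU0]) _
      have k1 : (k : ℝ) + 2 ≤ 4 * n ^ σ := by linarith only [hk2, hσn]
      calc ((k : ℝ) + 2) * (Ag * (1 + U) ^ ek) ≤ 4 * n ^ σ * (Ag * (1 + U) ^ ek) :=
            mul_le_mul_of_nonneg_right k1 (by positivity)
        _ = 4 * Ag * (n ^ σ * (1 + U) ^ ek) := by ring
        _ ≤ 4 * Ag * (KU * n ^ x3) := mul_le_mul_of_nonneg_left hUk (by positivity)
        _ = _ := by ring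
    have t3 : A1 * (1 + U) ^ be ≤ A1 * (KU * n ^ x1) := mul_le_mul_of_nonneg_left hUb hA1.le
    have t4 : (k : ℝ) * (n ^ 4 * ((1 / 2) ^ R + (2 * (R : ℝ) + 1) ^ 2 *
        (2 * Real.exp (-((q ^ e1) ^ c0))) + Real.exp (-(n ^ ep))) +
        Cd * r ^ 2 / (n ^ 4 - (m + 2 * C))) =
        (k : ℝ) * (n ^ 4 * (1 / 2) ^ R) + (k : ℝ) * (n ^ 4 * ((2 * (R : ℝ) + 1) ^ 2 *
        (2 * Real.exp (-((q ^ e1) ^ c0))))) + (k : ℝ) * (n ^ 4 * Real.exp (-(n ^ ep))) +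
        (k : ℝ) * (Cd * r ^ 2 / (n ^ 4 - (m + 2 * C))) := by ring
    rw [t4]
    have t5 : (72 * KB + 24 * A1 * KU) * n ^ x1 = 72 * (KB * n ^ x1) +
      24 * (A1 * (KU * n ^ x1)) := by ring
    rw [t5] at v6
    have t6 : 144 * C * n ^ σ = 12 * (12 * C * n ^ σ) := by ring
    rw [t6] at v7
    have t7 : 48 * (Ag * KU) * n ^ x3 = 12 * (4 * (Ag * KU) * n ^ x3) := by ring
    rw [t7] at v8
    linarith only [t1, t2, t3, v6, v7, v8, v9, s1, s2, s3, s4, hB1, hBp]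

end Pool.Agent.V7H97.FO
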