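import Pool.Agent.V7H97.FO.Restr

/-!
# One block: confinement of near geodesics to a tube
-/

set_option autoImplicit false

open MeasureTheory ProbabilityTheory Filter Set
open scoped Pointwise Topology

namespace Pool.Agent.V7H97.FO

open Pool.Agent.N662.FP
open Pool.Agent.N390.FL.TI (sg sg_inj D_shift)

/-- paths that are almost optimal stay in the tube -/
theorem confine {μ : Seminorm ℝ (ℝ × ℝ)} {C : ℝ} (hC0 : 0 < C)
    {φ ψ : (ℝ × ℝ) →ₗ[ℝ] ℝ} {u τ : ℝ × ℝ} (hF : Fr μ φ ψ u τ)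
    (x : Sym2 (ℤ × ℤ) → ℝ) (hx : ∀ e, 0 ≤ x e) (w : ℤ × ℤ) (m S B Y B0 a1 : ℝ) (R : ℕ)
    (hm : 0 ≤ m) (hw : μ (em w - m • u) ≤ 2 * C)
    (hfast : ¬ Fast x R) (hlow : ∀ z ∈ Bx R, μ (em z) - B0 ≤ D x 0 z ∧ μ (em (w - z)) - B0 ≤ D x z w)
    (hup : D x 0 w ≤ μ (em w) + a1) (hR : 25 * (μ (em w) + a1 + 1) ≤ R)
    (hS : μ (em w) + a1 + 1 + B0 ≤ S) (hB : 2 * B0 + a1 + 1 + 8 * C ≤ B)
    (hY : ∀ y : ℝ, df μ φ (S • u + y • τ) ≤ B → df μ φ (S • u + (-y) • τ) ≤ B → |y| ≤ Y)
    (s : ℝ) (hs : D x 0 w < s) (hs1 : s ≤ D x 0 w + 1) :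
    Cr x {z | |ψ (em z)| ≤ Y} 0 w s := by
  obtain ⟨hne, hbd, hD0, -⟩ := cGE x hx 0 w
  obtain ⟨s1, hs2, hs3⟩ := exists_lt_of_csInf_lt hne (show sInf (PS x 0 w) < s from hs)
  obtain ⟨N, p, p0, pN, padj, pinj, psum⟩ := cSAW x hx 0 w s1 hs2
  have hNR : N < R := by
    by_contra h1
    rw [not_lt] at h1
    refine hfast ⟨p, p0, fun i hi => padj i (by omega),
      fun i hi j hj => pinj i (by omega) j (by omega), ?_⟩
    have h2 : ∑ i ∈ Finset.range R, x s(p i, p (i + 1)) ≤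
        ∑ i ∈ Finset.range N, x s(p i, p (i + 1)) :=
      Finset.sum_le_sum_of_subset_of_nonneg (Finset.range_mono h1) fun i _ _ => hx _
    linarith
  have hbox := path_box p N R p0 hNR.le padj
  have htime : ∀ i ≤ N, D x 0 (p i) + D x (p i) w ≤ μ (em w) + a1 + 1 := by
    intro i hi
    have d1 : D x 0 (p i) ≤ ∑ j ∈ Finset.range i, x s(p j, p (j + 1)) := by
      obtain ⟨-, hb, -, -⟩ := cGE x hx 0 (p i)
      exact csInf_le hb ⟨i, p, p0, rfl, fun j hj => padj j (by omega), rfl⟩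
    have d2 : D x (p i) w ≤ ∑ j ∈ Finset.Ico i N, x s(p j, p (j + 1)) := by
      obtain ⟨-, hb, -, -⟩ := cGE x hx (p i) w
      refine csInf_le hb ⟨N - i, fun j => p (i + j), rfl, ?_, fun j hj => padj (i + j) (by omega), ?_⟩
      · show p (i + (N - i)) = w
        rw [← pN]; congr 1; omega
      · rw [Finset.sum_Ico_eq_sum_range]; rfl
    have d3 : ∑ j ∈ Finset.range i, x s(p j, p (j + 1)) +
        ∑ j ∈ Finset.Ico i N, x s(p j, p (j + 1)) =
        ∑ j ∈ Finset.range N, x s(p j, p (j + 1)) :=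
      Finset.sum_range_add_sum_Ico _ hi
    linarith
  -- coordinates of the end point
  obtain ⟨e, he⟩ : ∃ e, e = em w - m • u := ⟨_, rfl⟩
  rw [← he] at hw
  have hwe : em w = m • u + e := by rw [he]; abel
  have hφw : φ (em w) = m + φ e := by
    rw [hwe, map_add, map_smul, hF.fu, smul_eq_mul, mul_one]
  have hψw : ψ (em w) = ψ e := by
    rw [hwe, map_add, map_smul, hF.pu, smul_zero, zero_add]
  have hμw : μ (em w) ≤ m + 2 * C := by
    rw [hwe]
    refine (map_add_le_add μ _ _).trans ?_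
    rw [map_smul_eq_mul, hF.mu, mul_one, Real.norm_eq_abs, abs_of_nonneg hm]
    linarith
  have hφe := (abs_le.1 ((hF.abs_ph e).trans hw))
  have hψe : |ψ e| ≤ 4 * C := (hF.abs_ps e).trans (by linarith)
  refine ⟨N, p, p0, pN, padj, ?_, by linarith⟩
  intro i hi
  show |ψ (em (p i))| ≤ Y
  obtain ⟨b1, b2⟩ := hlow (p i) (hbox i hi)
  have ht := htime i hi
  obtain ⟨-, -, nn1, -⟩ := cGE x hx 0 (p i)
  obtain ⟨-, -, nn2, -⟩ := cGE x hx (p i) w
  have e1 : φ (em (w - p i)) = φ (em w) - φ (em (p i)) := by rw [em_sub, map_sub]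
  have e2 : ψ (em (w - p i)) = ψ e - ψ (em (p i)) := by rw [em_sub, map_sub, hψw]
  have k1 : φ (em (p i)) ≤ S := by
    have := hF.le (em (p i)); linarith
  have k2 : φ (em (w - p i)) ≤ S := by
    have := hF.le (em (w - p i)); linarith
  have dd1 := df_nonneg hF (em (p i))
  have dd2 := df_nonneg hF (em (w - p i))
  have dd3 : df μ φ (em (p i)) + df μ φ (em (w - p i)) ≤ B - 4 * C := by
    unfold df
    rw [e1, hφw]
    linarith [hφe.1]
  apply hY
  · have e3 : S • u + ψ (em (p i)) • τ = em (p i) + (S - φ (em (p i))) • u := by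
      conv_rhs => rw [hF.dec (em (p i))]
      simp only [map_add, map_smul, hF.fu, hF.ft, smul_eq_mul, mul_one, mul_zero, add_zero]
      module
    rw [e3]
    refine (df_add_u hF _ _ (by linarith)).trans (by linarith)
  · have e4 : S • u + (-ψ (em (p i))) • τ =
        (em (w - p i) + (S - φ (em (w - p i))) • u) + (-ψ e) • τ := by
      conv_rhs => rw [hF.dec (em (w - p i))]
      simp only [map_add, map_smul, hF.fu, hF.ft, smul_eq_mul, mul_one, mul_zero, add_zero, e2]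
      module
    rw [e4]
    refine (df_add _ _).trans ?_
    rw [df_t hF, abs_neg]
    have := df_add_u hF (em (w - p i)) (S - φ (em (w - p i))) (by linarith)
    linarith

/-- a bad block for the environment `x` seen from the starting point -/
def BadB (μ : Seminorm ℝ (ℝ × ℝ)) (B0 a1 : ℝ) (R : ℕ) (w : ℤ × ℤ) (x : Sym2 (ℤ × ℤ) → ℝ) : Prop :=
  Fast x R ∨ (∃ z ∈ Bx R, D x 0 z < μ (em z) - B0 ∨ D x z w < μ (em (w - z)) - B0) ∨
    μ (em w) + a1 < D x 0 w

/-- a block from `z` to `z + w` that is not bad: restricting to the tube changes nothing -/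
theorem block_det {μ : Seminorm ℝ (ℝ × ℝ)} {C : ℝ} (hC0 : 0 < C)
    {φ ψ : (ℝ × ℝ) →ₗ[ℝ] ℝ} {u τ : ℝ × ℝ} (hF : Fr μ φ ψ u τ)
    (x : Sym2 (ℤ × ℤ) → ℝ) (hx : ∀ e, 0 ≤ x e) (z w : ℤ × ℤ) (m S B Y B0 a1 a L : ℝ) (R : ℕ)
    (hm : 0 ≤ m) (hw : μ (em w - m • u) ≤ 2 * C)
    (hbad : ¬ BadB μ B0 a1 R w (fun e => x (sg z e)))
    (hR : 25 * (μ (em w) + a1 + 1) ≤ R)
    (hS : μ (em w) + a1 + 1 + B0 ≤ S) (hB : 2 * B0 + a1 + 1 + 8 * C ≤ B)
    (hY : ∀ y : ℝ, df μ φ (S • u + y • τ) ≤ B → df μ φ (S • u + (-y) • τ) ≤ B → |y| ≤ Y)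
    (hz : |ψ (em z) - a| ≤ 2 * C) (hL : μ (em w) + a1 ≤ L) (hL0 : 0 ≤ L) :
    min (D (rx {y | |ψ (em y) - a| ≤ Y + 2 * C} L x) z (z + w)) L = D x z (z + w) := by
  unfold BadB at hbad
  rw [not_or, not_or] at hbad
  obtain ⟨h1, h2, h3⟩ := hbad
  have h2' : ∀ y ∈ Bx R, μ (em y) - B0 ≤ D (fun e => x (sg z e)) 0 y ∧
      μ (em (w - y)) - B0 ≤ D (fun e => x (sg z e)) y w := by
    intro y hy
    by_contra h4
    refine h2 ⟨y, hy, ?_⟩
    rw [not_and_or, not_le, not_le] at h4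
    exact h4
  have h3' := not_lt.1 h3
  have hsh : D x z (z + w) = D (fun e => x (sg z e)) 0 w := D_shift x z w
  have hle : D (rx {y | |ψ (em y) - a| ≤ Y + 2 * C} L x) z (z + w) ≤ D x z (z + w) := by
    refine D_rx_le _ L x hL0 hx _ _ fun s hs hs1 => ?_
    rw [hsh] at hs hs1
    have h5 := confine hC0 hF (fun e => x (sg z e)) (fun e => hx _) w m S B Y B0 a1 R hm hw h1 h2'
      h3' hR hS hB hY s hs hs1
    have h6 := Cr_move x {y | |ψ (em y)| ≤ Y} {y | |ψ (em y) - a| ≤ Y + 2 * C} z 0 w s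
      (fun y hy => ?_) h5
    · rw [add_zero] at h6
      exact h6
    · have h7 : |ψ (em y)| ≤ Y := hy
      show |ψ (em (z + y)) - a| ≤ Y + 2 * C
      rw [em_add, map_add]
      have e : ψ (em z) + ψ (em y) - a = (ψ (em z) - a) + ψ (em y) := by ring
      rw [e]
      exact (abs_add_le _ _).trans (by linarith)
  have hge := D_rx_ge {y | |ψ (em y) - a| ≤ Y + 2 * C} L x hL0 hx z (z + w)
  have hDL : D x z (z + w) ≤ L := by rw [hsh]; linarith
  rw [min_eq_left hDL] at hge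
  have heq : D (rx {y | |ψ (em y) - a| ≤ Y + 2 * C} L x) z (z + w) = D x z (z + w) :=
    le_antisymm hle hge
  rw [heq, min_eq_left hDL]

section
variable {Ω : Type} [MeasureSpace Ω] [IsProbabilityMeasure (volume : Measure Ω)]
variable {X : Sym2 (ℤ × ℤ) → Ω → ℝ}

theorem Iid_shift (hX : Iid X) (g : ℤ × ℤ) : Iid (fun e => X (sg g e)) :=
  ⟨fun _ => hX.meas _, hX.ind.precomp (sg_inj g), fun _ => hX.law _⟩

theorem shift_lt (hX : Iid X) (g w : ℤ × ℤ) (s : ℝ) :
    (volume : Measure Ω).real {ω | D (env (fun e => X (sg g e)) ω) 0 w < s} =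
      (volume : Measure Ω).real {ω | D (env X ω) 0 w < s} := by
  have h := law_lt hX g (g + w) s
  rw [add_sub_cancel_left] at h
  rw [← h]
  congr 1
  ext ω
  have e1 : D (env X ω) g (g + w) = D (env (fun e => X (sg g e)) ω) 0 w := D_shift (env X ω) g w
  rw [mem_setOf_eq, mem_setOf_eq, e1]

theorem shift_gt (hX : Iid X) (g w : ℤ × ℤ) (s : ℝ) :
    (volume : Measure Ω).real {ω | s < D (env (fun e => X (sg g e)) ω) 0 w} =
      (volume : Measure Ω).real {ω | s < D (env X ω) 0 w} := by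
  have h := D_law hX g w (Ioi s) measurableSet_Ioi
  have h' : (volume : Measure Ω).real {ω | s < D (env X ω) g (g + w)} =
      (volume : Measure Ω).real {ω | s < D (env X ω) 0 w} := h
  rw [← h']
  congr 1
  ext ω
  have e1 : D (env X ω) g (g + w) = D (env (fun e => X (sg g e)) ω) 0 w := D_shift (env X ω) g w
  rw [mem_setOf_eq, mem_setOf_eq, e1]

/-- bad blocks are unlikely -/
theorem block_prob (hX : Iid X) {μ : Seminorm ℝ (ℝ × ℝ)} (B0 a1 p1 p2 : ℝ) (R : ℕ) (z w : ℤ × ℤ)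
    (hlow : ∀ y ∈ Bx R, (volume : Measure Ω).real {ω | D (env X ω) 0 y < μ (em y) - B0} ≤ p1)
    (hlow2 : ∀ y ∈ Bx R, (volume : Measure Ω).real
      {ω | D (env X ω) 0 (w - y) < μ (em (w - y)) - B0} ≤ p1)
    (hup : (volume : Measure Ω).real {ω | μ (em w) + a1 < D (env X ω) 0 w} ≤ p2) :
    (volume : Measure Ω).real {ω | BadB μ B0 a1 R w (fun e => env X ω (sg z e))} ≤
      (1 / 2) ^ R + (2 * (R : ℝ) + 1) ^ 2 * (2 * p1) + p2 := by
  have hX' := Iid_shift hX z
  obtain ⟨X', hXX⟩ : ∃ X' : Sym2 (ℤ × ℤ) → Ω → ℝ, X' = fun e => X (sg z e) := ⟨_, rfl⟩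
  rw [← hXX] at hX'
  have e : {ω | BadB μ B0 a1 R w (fun e => env X ω (sg z e))} ⊆
      ({ω | Fast (env X' ω) R} ∪ ⋃ y ∈ Bx R, ({ω | D (env X' ω) 0 y < μ (em y) - B0} ∪
        {ω | D (env X' ω) y w < μ (em (w - y)) - B0})) ∪ {ω | μ (em w) + a1 < D (env X' ω) 0 w} := by
    rw [hXX]
    rintro ω (h | ⟨y, hy, h | h⟩ | h)
    · exact Or.inl (Or.inl h)
    · exact Or.inl (Or.inr (mem_iUnion₂.2 ⟨y, hy, Or.inl h⟩))
    · exact Or.inl (Or.inr (mem_iUnion₂.2 ⟨y, hy, Or.inr h⟩))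
    · exact Or.inr h
  refine (measureReal_mono e (measure_ne_top _ _)).trans ((measureReal_union_le _ _).trans ?_)
  have i1 := measureReal_union_le (μ := (volume : Measure Ω)) {ω | Fast (env X' ω) R}
    (⋃ y ∈ Bx R, ({ω | D (env X' ω) 0 y < μ (em y) - B0} ∪
        {ω | D (env X' ω) y w < μ (em (w - y)) - B0}))
  have i2 : (volume : Measure Ω).real {ω | Fast (env X' ω) R} ≤ (1 / 2) ^ R := by
    have h3 := cCNT Ω X' hX' R
    rw [measureReal_def]
    refine (ENNReal.toReal_mono (by simp) h3).trans ?_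
    rw [ENNReal.toReal_pow]
    simp
  have i3 : (volume : Measure Ω).real (⋃ y ∈ Bx R, ({ω | D (env X' ω) 0 y < μ (em y) - B0} ∪
        {ω | D (env X' ω) y w < μ (em (w - y)) - B0})) ≤ (2 * (R : ℝ) + 1) ^ 2 * (2 * p1) := by
    refine (measureReal_biUnion_finset_le _ _).trans
      ((Finset.sum_le_card_nsmul _ _ (2 * p1) fun y hy => ?_).trans ?_)
    · refine (measureReal_union_le _ _).trans ?_
      have j1 : (volume : Measure Ω).real {ω | D (env X' ω) 0 y < μ (em y) - B0} ≤ p1 := by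
        rw [hXX, shift_lt hX z y]
        exact hlow y hy
      have j2 : (volume : Measure Ω).real {ω | D (env X' ω) y w < μ (em (w - y)) - B0} ≤ p1 := by
        rw [law_lt hX', hXX, shift_lt hX z (w - y)]
        exact hlow2 y hy
      linarith
    · rw [nsmul_eq_mul, card_Bx]
  have i4 : (volume : Measure Ω).real {ω | μ (em w) + a1 < D (env X' ω) 0 w} ≤ p2 := by
    rw [hXX, shift_gt hX z w]
    exact hup
  linarith

/-- the truncated restricted passage time approximates the passage time of the block -/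
theorem block_L1 (hX : Iid X) {μ : Seminorm ℝ (ℝ × ℝ)} (hG : Good (fun ω v => D (env X ω) 0 v) μ)
    {C : ℝ} (hC0 : 0 < C)
    {φ ψ : (ℝ × ℝ) →ₗ[ℝ] ℝ} {u τ : ℝ × ℝ} (hF : Fr μ φ ψ u τ)
    (z w : ℤ × ℤ) (m S B Y B0 a1 a L p1 p2 r : ℝ) (R : ℕ)
    (hm : 0 ≤ m) (hw : μ (em w - m • u) ≤ 2 * C)
    (hlow : ∀ y ∈ Bx R, (volume : Measure Ω).real {ω | D (env X ω) 0 y < μ (em y) - B0} ≤ p1)
    (hlow2 : ∀ y ∈ Bx R, (volume : Measure Ω).real
      {ω | D (env X ω) 0 (w - y) < μ (em (w - y)) - B0} ≤ p1)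
    (hup : (volume : Measure Ω).real {ω | μ (em w) + a1 < D (env X ω) 0 w} ≤ p2)
    (hR : 25 * (μ (em w) + a1 + 1) ≤ R)
    (hS : μ (em w) + a1 + 1 + B0 ≤ S) (hB : 2 * B0 + a1 + 1 + 8 * C ≤ B)
    (hY : ∀ y : ℝ, df μ φ (S • u + y • τ) ≤ B → df μ φ (S • u + (-y) • τ) ≤ B → |y| ≤ Y)
    (hz : |ψ (em z) - a| ≤ 2 * C) (hL : μ (em w) + a1 ≤ L) (hL1 : μ (em w) + 1 ≤ L)
    (hr : 0 < r) (hUP : (volume : Measure Ω).real {ω | μ (em w) + r ≤ D (env X ω) 0 w} ≤
      Real.exp (-(1 + 1))) :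
    Integrable (fun ω => min (D (rx {y | |ψ (em y) - a| ≤ Y + 2 * C} L (env X ω)) z (z + w)) L)
      (volume : Measure Ω) ∧
    ∫ ω, |D (env X ω) z (z + w) -
        min (D (rx {y | |ψ (em y) - a| ≤ Y + 2 * C} L (env X ω)) z (z + w)) L|
        ∂(volume : Measure Ω) ≤
      L * ((1 / 2) ^ R + (2 * (R : ℝ) + 1) ^ 2 * (2 * p1) + p2) +
        (∑' k : ℕ, (2 * (k : ℝ) + 1) * Real.exp (-1) ^ k) * r ^ 2 / (L - μ (em w)) := by
  have hμw := apply_nonneg μ (em w)
  have hL0 : 0 ≤ L := by linarith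
  obtain ⟨G, hGd⟩ : ∃ G : Set (ℤ × ℤ), G = {y | |ψ (em y) - a| ≤ Y + 2 * C} := ⟨_, rfl⟩
  obtain ⟨Dr, hDr⟩ : ∃ Dr : Ω → ℝ, Dr = fun ω => min (D (rx G L (env X ω)) z (z + w)) L := ⟨_, rfl⟩
  have hmeas : Measurable Dr := by
    rw [hDr]
    exact (D_rx_meas _ X G L hL0 (fun e _ => hX.meas e) z (z + w)).min measurable_const
  have hDr0 : ∀ ω, 0 ≤ Dr ω := by
    intro ω
    rw [hDr]
    exact le_min (cGE _ (rx_nonneg G L (env X ω) hL0) z (z + w)).2.2.1 hL0
  have hDrL : ∀ ω, Dr ω ≤ L := fun ω => by rw [hDr]; exact min_le_right _ _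
  have hint : Integrable Dr (volume : Measure Ω) := by
    refine Integrable.mono' (integrable_const L) hmeas.aestronglyMeasurable
      (Eventually.of_forall fun ω => ?_)
    rw [Real.norm_of_nonneg (hDr0 ω)]
    exact hDrL ω
  rw [← hGd]
  refine ⟨by rw [← hDr]; exact hint, ?_⟩
  have hDi : Integrable (fun ω => D (env X ω) z (z + w)) (volume : Measure Ω) :=
    cINT Ω X hX z (z + w)
  obtain ⟨g, hg⟩ : ∃ g : Ω → ℝ, g = fun ω => |D (env X ω) z (z + w) - Dr ω| := ⟨_, rfl⟩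
  have hgi : Integrable g (volume : Measure Ω) := by
    rw [hg]; exact (hDi.sub hint).abs
  have hgoal : ∫ ω, |D (env X ω) z (z + w) - min (D (rx G L (env X ω)) z (z + w)) L|
      ∂(volume : Measure Ω) = ∫ ω, g ω ∂(volume : Measure Ω) := by
    rw [hg, hDr]
  rw [hgoal]
  -- the exceptional set
  have hns : NullMeasurableSet {ω | 0 < g ω} (volume : Measure Ω) :=
    nullMeasurableSet_lt aemeasurable_const hgi.aemeasurable
  obtain ⟨P, hP⟩ : ∃ P, P = (1 / 2) ^ R + (2 * (R : ℝ) + 1) ^ 2 * (2 * p1) + p2 := ⟨_, rfl⟩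
  have hpr : (volume : Measure Ω).real {ω | 0 < g ω} ≤ P := by
    rw [hP]
    refine le_trans ?_ (block_prob hX B0 a1 p1 p2 R z w hlow hlow2 hup)
    refine ENNReal.toReal_mono (measure_ne_top _ _) (measure_mono_ae ?_)
    filter_upwards [cAE Ω X hX] with ω hω h1
    have h1' : 0 < g ω := h1
    show BadB μ B0 a1 R w (fun e => env X ω (sg z e))
    by_contra hcon
    have h2 := block_det hC0 hF (env X ω) hω z w m S B Y B0 a1 a L R hm hw hcon hR hS hB hY hz hL hL0
    rw [← hGd] at h2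
    rw [hg] at h1'
    have h3 : Dr ω = D (env X ω) z (z + w) := by rw [hDr]; exact h2
    have h4 : |D (env X ω) z (z + w) - Dr ω| = 0 := by rw [h3, sub_self, abs_zero]
    have h1'' : 0 < |D (env X ω) z (z + w) - Dr ω| := h1'
    linarith
  -- the upper tail
  obtain ⟨Cd, hCd⟩ : ∃ Cd, Cd = ∑' k : ℕ, (2 * (k : ℝ) + 1) * Real.exp (-1) ^ k := ⟨_, rfl⟩
  have hLw : 0 < L - μ (em w) := by linarith
  have htail : ∫ ω, max (D (env X ω) z (z + w) - L) 0 ∂(volume : Measure Ω) ≤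
      Cd * r ^ 2 / (L - μ (em w)) := by
    have h1 := upper_sq hG w r 1 hr one_pos hUP
    rw [← hCd] at h1
    -- translate to the origin
    have h2 : ∫ ω, max (D (env X ω) z (z + w) - L) 0 ∂(volume : Measure Ω) =
        ∫ ω, max (D (env (fun e => X (sg z e)) ω) 0 w - L) 0 ∂(volume : Measure Ω) := by
      refine integral_congr_ae (Eventually.of_forall fun ω => ?_)
      have e1 : D (env X ω) z (z + w) = D (env (fun e => X (sg z e)) ω) 0 w :=
        D_shift (env X ω) z w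
      show max (D (env X ω) z (z + w) - L) 0 = _
      rw [e1]
    -- the law
    have h3 : ∫ ω, max (D (env X ω) z (z + w) - L) 0 ∂(volume : Measure Ω) =
        ∫ ω, max (D (env X ω) 0 w - L) 0 ∂(volume : Measure Ω) := by
      have a1 : AEMeasurable (fun ω => D (env X ω) z (z + w)) (volume : Measure Ω) :=
        hDi.aemeasurable
      have a2 : AEMeasurable (fun ω => D (env X ω) 0 w) (volume : Measure Ω) :=
        (hG.int w).aemeasurable
      have a3 : Measure.map (fun ω => D (env X ω) z (z + w)) (volume : Measure Ω) =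
          Measure.map (fun ω => D (env X ω) 0 w) (volume : Measure Ω) := by
        ext s hs
        rw [Measure.map_apply_of_aemeasurable a1 hs, Measure.map_apply_of_aemeasurable a2 hs]
        have h4 := D_law hX z w s hs
        rw [measureReal_def, measureReal_def] at h4
        exact (ENNReal.toReal_eq_toReal_iff' (measure_ne_top _ _) (measure_ne_top _ _)).1 h4
      have a4 : AEStronglyMeasurable (fun y : ℝ => max (y - L) 0)
          (Measure.map (fun ω => D (env X ω) z (z + w)) (volume : Measure Ω)) :=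
        ((measurable_id.sub_const L).max measurable_const).aestronglyMeasurable
      have a5 : AEStronglyMeasurable (fun y : ℝ => max (y - L) 0)
          (Measure.map (fun ω => D (env X ω) 0 w) (volume : Measure Ω)) :=
        ((measurable_id.sub_const L).max measurable_const).aestronglyMeasurable
      rw [← integral_map a1 a4, ← integral_map a2 a5, a3]
    rw [h3]
    have h4 : ∫ ω, max (D (env X ω) 0 w - L) 0 ∂(volume : Measure Ω) ≤
        ∫ ω, max (D (env X ω) 0 w - μ (em w)) 0 ^ 2 / (L - μ (em w)) ∂(volume : Measure Ω) := by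
      refine integral_mono (((hG.int w).sub (integrable_const L)).pos_part) (h1.1.div_const _)
        fun ω => ?_
      show max (D (env X ω) 0 w - L) 0 ≤ max (D (env X ω) 0 w - μ (em w)) 0 ^ 2 / (L - μ (em w))
      rw [le_div_iff₀ hLw]
      rcases le_total (D (env X ω) 0 w) L with h5 | h5
      · rw [max_eq_right (by linarith), zero_mul]
        positivity
      · rw [max_eq_left (by linarith), max_eq_left (by linarith)]
        nlinarith
    refine h4.trans ?_
    rw [integral_div]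
    exact div_le_div_of_nonneg_right h1.2 hLw.le
  rw [← hCd, ← hP]
  have hmaxi : Integrable (fun ω => max (D (env X ω) z (z + w) - L) 0) (volume : Measure Ω) :=
    (hDi.sub (integrable_const L)).pos_part
  have hind : Integrable ({ω | 0 < g ω}.indicator (fun _ => L)) (volume : Measure Ω) :=
    (integrable_const _).indicator₀ hns
  have h6 : ∫ ω, g ω ∂(volume : Measure Ω) ≤
      ∫ ω, ({ω | 0 < g ω}.indicator (fun _ => L) ω + max (D (env X ω) z (z + w) - L) 0)
        ∂(volume : Measure Ω) := by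
    refine integral_mono_ae hgi (hind.add hmaxi) ?_
    filter_upwards [cAE Ω X hX] with ω hω
    have k1 := (cGE (env X ω) hω z (z + w)).2.2.1
    have k2 := hDr0 ω
    have k3 := hDrL ω
    by_cases k4 : 0 < g ω
    · rw [Set.indicator_of_mem (show ω ∈ {ω | 0 < g ω} from k4)]
      rw [hg]
      show |D (env X ω) z (z + w) - Dr ω| ≤ L + max (D (env X ω) z (z + w) - L) 0
      have k5 := le_max_left (D (env X ω) z (z + w) - L) 0
      have k6 := le_max_right (D (env X ω) z (z + w) - L) 0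
      rw [abs_le]
      constructor <;> linarith
    · have k5 : g ω = 0 := by
        refine le_antisymm (not_lt.1 k4) ?_
        rw [hg]; exact abs_nonneg _
      rw [k5]
      have k6 := le_max_right (D (env X ω) z (z + w) - L) 0
      have k7 : 0 ≤ {ω | 0 < g ω}.indicator (fun _ => L) ω :=
        Set.indicator_nonneg (fun _ _ => hL0) _
      linarith
  refine h6.trans ?_
  rw [integral_add hind hmaxi, integral_indicator₀ hns]
  simp only [integral_const, measureReal_restrict_apply_univ, smul_eq_mul]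
  have h7 : (volume : Measure Ω).real {ω | 0 < g ω} * L ≤ L * P := by
    rw [mul_comm]
    exact mul_le_mul_of_nonneg_left hpr hL0
  linarith

end

end Pool.Agent.V7H97.FO
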