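import Pool.Agent.V7H97.FO.Iter

/-!
# The equivalence
-/

set_option autoImplicit false

open MeasureTheory ProbabilityTheory Filter Set
open scoped Pointwise Topology

namespace Pool.Agent.V7H97.FO

open Pool.Agent.N662.FP

section
variable {Ω : Type} [MeasureSpace Ω] [IsProbabilityMeasure (volume : Measure Ω)]
variable {X : Sym2 (ℤ × ℤ) → Ω → ℝ}

/-- both tails at one point -/
theorem both (hX : Iid X) {μ : Seminorm ℝ (ℝ × ℝ)}
    (hG : Good (fun ω v => D (env X ω) 0 v) μ) (κ κ' e A : ℝ) (h0 : 0 < κ') (h01 : κ' < κ)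
    (h1 : κ < 1) (hA : 0 < A) (he : e < Real.exp (-1))
    (hUP : ∀ v : ℤ × ℤ, (volume : Measure Ω).real
      {ω | μ (em v) + A * (1 + μ (em v)) ^ (1 - κ) ≤ D (env X ω) 0 v} ≤ e) :
    ∃ c : ℝ, 0 < c ∧ ∀ᶠ v : ℤ × ℤ in cofinite, (volume : Measure Ω).real
      {ω | (1 + μ (em v)) ^ (1 - κ') ≤ |D (env X ω) 0 v - μ (em v)|} ≤
        Real.exp (-(μ (em v) ^ c)) := by
  obtain ⟨d, hd, hed⟩ := ex_d e he
  have hUP' : ∀ v : ℤ × ℤ, (volume : Measure Ω).real
      {ω | μ (em v) + A * (1 + μ (em v)) ^ (1 - κ) ≤ D (env X ω) 0 v} ≤ Real.exp (-(1 + d)) :=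
    fun v => (hUP v).trans hed
  obtain ⟨c1, N, hc1, hN⟩ := lower hX hG κ ((κ + κ') / 2) A d (by linarith) (by linarith) h1 hA hd
    hUP'
  obtain ⟨c, hc, hca, hcb⟩ : ∃ c : ℝ, 0 < c ∧ c < c1 ∧ c < κ - κ' := by
    refine ⟨min c1 (κ - κ') / 2, ?_, ?_, ?_⟩
    · have : 0 < min c1 (κ - κ') := lt_min hc1 (by linarith)
      linarith
    · have : 0 < min c1 (κ - κ') := lt_min hc1 (by linarith)
      have := min_le_left c1 (κ - κ')
      linarith
    · have : 0 < min c1 (κ - κ') := lt_min hc1 (by linarith)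
      have := min_le_right c1 (κ - κ')
      linarith
  refine ⟨c, hc, ?_⟩
  have v1 := ev2 1 0 (d / (2 * A)) (κ - κ') c (by positivity) hc hcb
  have v2 := ev2 1 0 1 c1 c one_pos hc hca
  have v3 := ev (2 * A) (1 - κ) (1 - κ') (by linarith)
  have ht := tends cNORM μ hG.norm
  have ht' : Tendsto (fun v : ℤ × ℤ => 1 + μ (Pool.Agent.N662.FP.em v)) cofinite atTop :=
    tendsto_atTop_add_const_left _ _ ht
  filter_upwards [ht.eventually v1, ht.eventually v2, ht'.eventually v3,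
    ht.eventually (eventually_ge_atTop N), ht.eventually (eventually_ge_atTop 1)] with v v1 v2 v3 v4 v5
  obtain ⟨x, hx⟩ : ∃ x, x = μ (Pool.Agent.N662.FP.em v) := ⟨_, rfl⟩
  have hNv := hN v v4
  have hu := hUP' v
  rw [← hx] at v1 v2 v3 v4 v5 hNv hu ⊢
  have hx0 : 0 < x := by linarith
  have hw : 0 < A * (1 + x) ^ (1 - κ) := by positivity
  obtain ⟨w, hwd⟩ : ∃ w, w = A * (1 + x) ^ (1 - κ) := ⟨_, rfl⟩
  rw [← hwd] at hw hu
  have h2 : 2 * w ≤ (1 + x) ^ (1 - κ') := by rw [hwd]; linarith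
  rw [hx] at hu
  have h3 := (hG.one v w d hw hd hu).1 ((1 + x) ^ (1 - κ') - w) (by linarith)
  rw [← hx] at h3
  have e1 : x + w + ((1 + x) ^ (1 - κ') - w) = x + (1 + x) ^ (1 - κ') := by ring
  rw [e1] at h3
  have h4 : d / (2 * A) * x ^ (κ - κ') ≤ d * ((1 + x) ^ (1 - κ') - w) / w := by
    rw [le_div_iff₀ hw]
    have h5 : x ^ (κ - κ') ≤ (1 + x) ^ (κ - κ') := Real.rpow_le_rpow hx0.le (by linarith) (by linarith)
    have h6 : (1 + x) ^ (κ - κ') * (1 + x) ^ (1 - κ) = (1 + x) ^ (1 - κ') := by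
      rw [← Real.rpow_add (by linarith)]; congr 1; ring
    calc d / (2 * A) * x ^ (κ - κ') * w ≤ d / (2 * A) * (1 + x) ^ (κ - κ') * w := by gcongr
      _ = d / 2 * ((1 + x) ^ (κ - κ') * (1 + x) ^ (1 - κ)) := by rw [hwd]; field_simp
      _ = d / 2 * (1 + x) ^ (1 - κ') := by rw [h6]
      _ ≤ d * ((1 + x) ^ (1 - κ') - w) := by
          have : d * (2 * w) ≤ d * (1 + x) ^ (1 - κ') := by gcongr
          linarith
  have h5 : (volume : Measure Ω).real {ω | x + (1 + x) ^ (1 - κ') ≤ D (env X ω) 0 v} ≤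
      1 / 4 * Real.exp (-(x ^ c)) := by
    refine h3.trans (le_trans ?_ v1)
    rw [pow_zero, mul_one, one_mul]
    exact Real.exp_le_exp.2 (by linarith)
  have h6 : (volume : Measure Ω).real {ω | D (env X ω) 0 v < x - x ^ (1 - (κ + κ') / 2)} ≤
      1 / 4 * Real.exp (-(x ^ c)) := by
    refine hNv.trans (le_trans (le_of_eq ?_) v2)
    rw [pow_zero, mul_one, one_mul, one_mul]
  have h7 : {ω | (1 + x) ^ (1 - κ') ≤ |D (env X ω) 0 v - x|} ⊆
      {ω | x + (1 + x) ^ (1 - κ') ≤ D (env X ω) 0 v} ∪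
      {ω | D (env X ω) 0 v < x - x ^ (1 - (κ + κ') / 2)} := by
    intro ω hω
    have h8 : (1 + x) ^ (1 - κ') ≤ |D (env X ω) 0 v - x| := hω
    rcases le_abs.1 h8 with h9 | h9
    · left
      show x + (1 + x) ^ (1 - κ') ≤ D (env X ω) 0 v
      linarith
    · right
      show D (env X ω) 0 v < x - x ^ (1 - (κ + κ') / 2)
      have h10 : x ^ (1 - (κ + κ') / 2) < (1 + x) ^ (1 - (κ + κ') / 2) :=
        Real.rpow_lt_rpow hx0.le (by linarith) (by linarith)
      have h11 : (1 + x) ^ (1 - (κ + κ') / 2) ≤ (1 + x) ^ (1 - κ') :=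
        Real.rpow_le_rpow_of_exponent_le (by linarith) (by linarith)
      linarith
  refine (measureReal_mono h7 (measure_ne_top _ _)).trans ((measureReal_union_le _ _).trans ?_)
  have := Real.exp_pos (-(x ^ c))
  linarith

theorem eq (hX : Iid X) {μ : Seminorm ℝ (ℝ × ℝ)}
    (hG : Good (fun ω v => D (env X ω) 0 v) μ) (K : ℝ) (hK : K < 1) :
    List.TFAE [
      ∀ κ : ℝ, 0 < κ → κ < K → ∀ q : ℝ, 0 < q →
        Asymptotics.IsBigO atTop (fun t : ℝ => (volume : Measure Ω).real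
          (Out (fun ω v => D (env X ω) 0 v) μ κ t)) (fun t : ℝ => t ^ (-q)) ∧
        Asymptotics.IsBigO atTop (fun t : ℝ => (volume : Measure Ω).real
          (Bad (fun ω v => D (env X ω) 0 v) μ κ t)) (fun t : ℝ => t ^ (-q)),
      ∀ κ : ℝ, 0 < κ → κ < K → ∃ c : ℝ, 0 < c ∧ ∀ᶠ t : ℝ in atTop,
        (volume : Measure Ω).real (Out (fun ω v => D (env X ω) 0 v) μ κ t) ≤
          Real.exp (-(t ^ c)) ∧
        (volume : Measure Ω).real (Bad (fun ω v => D (env X ω) 0 v) μ κ t) ≤ Real.exp (-(t ^ c)),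
      ∀ κ : ℝ, 0 < κ → κ < K → ∀ q : ℝ, 0 < q →
        Asymptotics.IsBigO atTop (fun t : ℝ => (volume : Measure Ω).real
          (Bad (fun ω v => D (env X ω) 0 v) μ κ t)) (fun t : ℝ => t ^ (-q)),
      ∀ κ : ℝ, 0 < κ → κ < K → ∃ e : ℝ, e < Real.exp (-1) ∧ ∀ᶠ t : ℝ in atTop,
        (volume : Measure Ω).real (Bad (fun ω v => D (env X ω) 0 v) μ κ t) ≤ e,
      ∀ κ : ℝ, 0 < κ → κ < K → ∃ e : ℝ, e < Real.exp (-1) ∧ ∃ A : ℝ, 0 < A ∧ ∀ v : ℤ × ℤ,
        (volume : Measure Ω).real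
          {ω | μ (em v) + A * (1 + μ (em v)) ^ (1 - κ) ≤ D (env X ω) 0 v} ≤ e,
      ∀ κ : ℝ, 0 < κ → κ < K → ∃ A : ℝ, ∀ v : ℤ × ℤ,
        ∫ ω, |D (env X ω) 0 v - μ (em v)| ∂(volume : Measure Ω) ≤ A * (1 + μ (em v)) ^ (1 - κ),
      ∀ κ : ℝ, 0 < κ → κ < K → ∀ ε : ℝ, 0 < ε → Tendsto (fun v : ℤ × ℤ =>
        (volume : Measure Ω).real {ω | ε * (1 + μ (em v)) ^ (1 - κ) ≤
          |D (env X ω) 0 v - μ (em v)|}) cofinite (𝓝 0),
      ∀ κ : ℝ, 0 < κ → κ < K → ∃ c : ℝ, 0 < c ∧ ∀ᶠ v : ℤ × ℤ in cofinite,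
        (volume : Measure Ω).real {ω | (1 + μ (em v)) ^ (1 - κ) ≤
          |D (env X ω) 0 v - μ (em v)|} ≤ Real.exp (-(μ (em v) ^ c))] := by
  have old := tfae cNORM cDD2 cEE hG K hK
  tfae_have 1 → 3 := fun h κ h0 h1 q hq => (h κ h0 h1 q hq).2
  tfae_have 3 → 4 := (old.out 1 0).1
  tfae_have 4 → 5 := (old.out 0 3).1
  tfae_have 5 → 6 := (old.out 3 4).1
  tfae_have 6 → 7 := (old.out 4 5).1
  tfae_have 7 → 5 := (old.out 5 3).1
  tfae_have 5 → 8 := by
    intro h κ h0 h1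
    obtain ⟨e, he, A, hA, hh⟩ := h ((κ + K) / 2) (by linarith) (by linarith)
    exact both hX hG ((κ + K) / 2) κ e A h0 (by linarith) (by linarith) hA he hh
  tfae_have 8 → 7 := by
    intro h κ h0 h1 ε hε
    obtain ⟨c, hc, hh⟩ := h ((κ + K) / 2) (by linarith) (by linarith)
    have ht := tends cNORM μ hG.norm
    have ht' : Tendsto (fun v : ℤ × ℤ => 1 + μ (Pool.Agent.N662.FP.em v)) cofinite atTop :=
      tendsto_atTop_add_const_left _ _ ht
    have l1 : Tendsto (fun v : ℤ × ℤ => Real.exp (-(μ (Pool.Agent.N662.FP.em v) ^ c))) cofinite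
        (𝓝 0) :=
      Real.tendsto_exp_neg_atTop_nhds_zero.comp ((tendsto_rpow_atTop hc).comp ht)
    refine squeeze_zero' (Eventually.of_forall fun v => measureReal_nonneg) ?_ l1
    have v1 := ev (1 / ε) (1 - (κ + K) / 2) (1 - κ) (by linarith)
    filter_upwards [hh, ht'.eventually v1] with v h2 h3
    refine le_trans (measureReal_mono (fun ω hω => ?_) (measure_ne_top _ _)) h2
    have h4 : ε * (1 + μ (Pool.Agent.N662.FP.em v)) ^ (1 - κ) ≤
      |D (env X ω) 0 v - μ (Pool.Agent.N662.FP.em v)| := hω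
    show (1 + μ (Pool.Agent.N662.FP.em v)) ^ (1 - (κ + K) / 2) ≤
      |D (env X ω) 0 v - μ (Pool.Agent.N662.FP.em v)|
    rw [one_div, inv_mul_le_iff₀ hε] at h3
    exact h3.trans h4
  tfae_have 5 → 2 := by
    intro h κ h0 h1
    obtain ⟨e, he, A, hA, hh⟩ := h ((κ + K) / 2) (by linarith) (by linarith)
    obtain ⟨c1, hc1, k1⟩ := d_c cEE hG ((κ + K) / 2) (by linarith) (by linarith) A hA e he hh κ h0
      (by linarith)
    obtain ⟨d, hd, hed⟩ := ex_d e he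
    have hL := lower hX hG ((κ + K) / 2) ((κ + (κ + K) / 2) / 2) A d (by linarith) (by linarith)
      (by linarith) hA hd fun v => (hh v).trans hed
    obtain ⟨c2, hc2, k2⟩ := outer hX hG.norm ((κ + (κ + K) / 2) / 2) κ h0 (by linarith)
      (by linarith) hL
    refine ⟨min c1 c2, lt_min hc1 hc2, ?_⟩
    filter_upwards [k1, k2, eventually_ge_atTop 1] with t m1 m2 ht
    refine ⟨m2.trans (Real.exp_le_exp.2 ?_), m1.trans (Real.exp_le_exp.2 ?_)⟩
    · have := Real.rpow_le_rpow_of_exponent_le ht (min_le_right c1 c2)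
      linarith
    · have := Real.rpow_le_rpow_of_exponent_le ht (min_le_left c1 c2)
      linarith
  tfae_have 2 → 1 := by
    intro h κ h0 h1 q hq
    obtain ⟨c, hc, hcc⟩ := h κ h0 h1
    constructor
    · refine (Asymptotics.IsBigO.of_bound 1 ?_).trans (exp_O c q hc)
      filter_upwards [hcc] with t ht
      rw [Real.norm_of_nonneg measureReal_nonneg, Real.norm_of_nonneg (Real.exp_pos _).le, one_mul]
      exact ht.1
    · refine (Asymptotics.IsBigO.of_bound 1 ?_).trans (exp_O c q hc)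
      filter_upwards [hcc] with t ht
      rw [Real.norm_of_nonneg measureReal_nonneg, Real.norm_of_nonneg (Real.exp_pos _).le, one_mul]
      exact ht.2
  tfae_finish

end

end Pool.Agent.V7H97.FO
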