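import Pool.Agent.V7H97.FO.Split2
import Pool.Agent.V7H97.FO.Main

/-!
# Rate of convergence of the mean passage time from its fluctuations
-/

set_option autoImplicit false

open MeasureTheory ProbabilityTheory Filter Set
open scoped Pointwise Topology

namespace Pool.Agent.V7H97.FO

open Pool.Agent.N662.FP

section
variable {Ω : Type} [MeasureSpace Ω] [IsProbabilityMeasure (volume : Measure Ω)]
variable {X : Sym2 (ℤ × ℤ) → Ω → ℝ}

/-- the mean passage time -/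
noncomputable def mt (X : Sym2 (ℤ × ℤ) → Ω → ℝ) (v : ℤ × ℤ) : ℝ :=
  ∫ ω, D (env X ω) 0 v ∂(volume : Measure Ω)

theorem mt_zero (hX : Iid X) : mt X 0 = 0 := by
  unfold mt
  have h1 : ∀ᵐ ω ∂(volume : Measure Ω), D (env X ω) 0 0 = 0 := by
    filter_upwards [cAE Ω X hX] with ω hω
    obtain ⟨-, hb, h3, -⟩ := cGE (env X ω) hω 0 0
    refine le_antisymm ?_ h3
    exact csInf_le hb ⟨0, fun _ => 0, rfl, rfl, fun i hi => absurd hi (Nat.not_lt_zero i), by simp⟩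
  rw [integral_congr_ae h1]
  simp

theorem mt_add (hX : Iid X) (v w : ℤ × ℤ) : mt X (v + w) ≤ mt X v + mt X w := by
  unfold mt
  rw [← cTI Ω X hX v w, ← integral_add (cINT Ω X hX 0 v) (cINT Ω X hX v (v + w))]
  refine integral_mono_ae (cINT Ω X hX 0 (v + w))
    ((cINT Ω X hX 0 v).add (cINT Ω X hX v (v + w))) ?_
  filter_upwards [cAE Ω X hX] with ω hω
  exact cTRI (env X ω) hω 0 v (v + w)

theorem mt_nonneg (hX : Iid X) (v : ℤ × ℤ) : 0 ≤ mt X v := by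
  unfold mt
  refine integral_nonneg_of_ae ?_
  filter_upwards [cAE Ω X hX] with ω hω
  exact (cGE (env X ω) hω 0 v).2.2.1

theorem mt_nsmul (hX : Iid X) (n : ℕ) (w : ℤ × ℤ) : mt X (n • w) ≤ n * mt X w := by
  induction n with
  | zero => simp [mt_zero hX]
  | succ n ih =>
    rw [succ_nsmul]
    refine (mt_add hX _ _).trans ?_
    push_cast
    linarith

theorem mt_lin (hX : Iid X) (μ : Seminorm ℝ (ℝ × ℝ)) (hμ : ∀ x, μ x = 0 → x = 0) :
    ∃ Al : ℝ, 0 < Al ∧ ∀ v, mt X v ≤ Al * μ (em v) := by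
  obtain ⟨cm, Cn, hcm, hCn, hnorm⟩ := cNORM μ hμ
  obtain ⟨H, hH⟩ : ∃ H, H = mt X (1, 0) + mt X (-1, 0) + mt X (0, 1) + mt X (0, -1) := ⟨_, rfl⟩
  have h1 := mt_nonneg hX (1, 0)
  have h2 := mt_nonneg hX (-1, 0)
  have h3 := mt_nonneg hX (0, 1)
  have h4 := mt_nonneg hX (0, -1)
  have hH0 : 0 ≤ H := by linarith
  refine ⟨2 * (H + 1) / cm, by positivity, fun v => ?_⟩
  have key : ∀ (a : ℤ) (e : ℤ × ℤ), mt X e ≤ H → mt X (-e) ≤ H → mt X (a • e) ≤ |(a : ℝ)| * H := by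
    intro a e he he'
    obtain ⟨n, rfl | rfl⟩ := Int.eq_nat_or_neg a
    · rw [natCast_zsmul]
      refine (mt_nsmul hX n e).trans ?_
      rw [Int.cast_natCast, abs_of_nonneg (Nat.cast_nonneg n)]
      exact mul_le_mul_of_nonneg_left he (Nat.cast_nonneg n)
    · rw [neg_smul, natCast_zsmul, ← smul_neg]
      refine (mt_nsmul hX n (-e)).trans ?_
      rw [Int.cast_neg, Int.cast_natCast, abs_neg, abs_of_nonneg (Nat.cast_nonneg n)]
      exact mul_le_mul_of_nonneg_left he' (Nat.cast_nonneg n)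
  have e1 : v = v.1 • ((1, 0) : ℤ × ℤ) + v.2 • ((0, 1) : ℤ × ℤ) := by ext <;> simp
  have k1 := key v.1 (1, 0) (by linarith) (by
    have : (-((1, 0) : ℤ × ℤ)) = (-1, 0) := by ext <;> simp
    rw [this]; linarith)
  have k2 := key v.2 (0, 1) (by linarith) (by
    have : (-((0, 1) : ℤ × ℤ)) = (0, -1) := by ext <;> simp
    rw [this]; linarith)
  have h5 := (hnorm (em v)).1
  have h6 : |(v.1 : ℝ)| ≤ μ (em v) / cm := by
    rw [le_div_iff₀ hcm, mul_comm]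
    exact (mul_le_mul_of_nonneg_left (le_max_left _ _) hcm.le).trans h5
  have h7 : |(v.2 : ℝ)| ≤ μ (em v) / cm := by
    rw [le_div_iff₀ hcm, mul_comm]
    exact (mul_le_mul_of_nonneg_left (le_max_right _ _) hcm.le).trans h5
  have h8 : 0 ≤ μ (em v) / cm := (abs_nonneg _).trans h6
  calc mt X v = mt X (v.1 • ((1, 0) : ℤ × ℤ) + v.2 • ((0, 1) : ℤ × ℤ)) := by rw [← e1]
    _ ≤ mt X (v.1 • ((1, 0) : ℤ × ℤ)) + mt X (v.2 • ((0, 1) : ℤ × ℤ)) := mt_add hX _ _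
    _ ≤ |(v.1 : ℝ)| * H + |(v.2 : ℝ)| * H := add_le_add k1 k2
    _ ≤ μ (em v) / cm * (H + 1) + μ (em v) / cm * (H + 1) := by gcongr <;> linarith
    _ = 2 * (H + 1) / cm * μ (em v) := by ring

theorem mt_lim (hX : Iid X) (μ : Seminorm ℝ (ℝ × ℝ)) (κ A : ℝ) (hκ : 0 < κ) (hκ1 : κ < 1)
    (hSp : ∀ v : ℤ × ℤ, ∫ ω, |D (env X ω) 0 v - mt X v| ∂(volume : Measure Ω) ≤
      A * (1 + μ (em v)) ^ (1 - κ)) (v : ℤ × ℤ)
    (hlim : ∀ᵐ ω ∂(volume : Measure Ω),
      Tendsto (fun n : ℕ => D (env X ω) 0 ((n : ℤ) • v) / (n : ℝ)) atTop (𝓝 (μ (em v))))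
    (ε : ℝ) (hε : 0 < ε) : ∃ k : ℕ, 0 < k ∧ mt X ((k : ℤ) • v) ≤ k * (μ (em v) + ε) := by
  by_contra hcon
  have hc : ∀ k : ℕ, 0 < k → k * (μ (em v) + ε) < mt X ((k : ℤ) • v) := by
    intro k hk
    by_contra h1
    exact hcon ⟨k, hk, not_lt.1 h1⟩
  have hmeas : ∀ n : ℕ, AEStronglyMeasurable
      (fun ω => D (env X ω) 0 ((n : ℤ) • v) / (n : ℝ)) (volume : Measure Ω) :=
    fun n => ((cINT Ω X hX 0 ((n : ℤ) • v)).div_const _).aestronglyMeasurable
  have h1 := tendstoInMeasure_of_tendsto_ae hmeas hlim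
  rw [tendstoInMeasure_iff_measureReal_dist] at h1
  have h2 := (h1 (ε / 2) (by linarith)).eventually (gt_mem_nhds (show (0 : ℝ) < 1 / 4 by norm_num))
  -- the error term
  have hμ0 := apply_nonneg μ (em v)
  have h3 : ∀ᶠ x : ℝ in atTop, 8 * |A| * (1 + μ (em v)) / ε * x ^ (1 - κ) ≤ x ^ (1 : ℝ) :=
    ev _ _ _ (by linarith)
  have h4 : ∀ᶠ n : ℕ in atTop, 8 * |A| * (1 + μ (em v)) / ε * (n : ℝ) ^ (1 - κ) ≤ (n : ℝ) ^ (1 : ℝ) :=
    tendsto_natCast_atTop_atTop.eventually h3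
  obtain ⟨n, m1, m2, m3⟩ := (h2.and (h4.and (eventually_ge_atTop 1))).exists
  have hn0 : (0 : ℝ) < n := by exact_mod_cast m3
  have hn1 : (1 : ℝ) ≤ n := by exact_mod_cast m3
  rw [Real.rpow_one] at m2
  have hcn := hc n (by omega)
  have he : 0 < (n : ℝ) * (ε / 2) := by positivity
  have k1 := mk _ (cINT Ω X hX 0 ((n : ℤ) • v)) (mt X ((n : ℤ) • v)) _ he
  have hμn : μ (em ((n : ℤ) • v)) = n * μ (em v) := by
    rw [natCast_zsmul, em_nsmul, map_smul_eq_mul, Real.norm_eq_abs, abs_of_pos hn0]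
  have k2 : (∫ ω, |D (env X ω) 0 ((n : ℤ) • v) - mt X ((n : ℤ) • v)| ∂(volume : Measure Ω)) /
      (n * (ε / 2)) ≤ 1 / 4 := by
    rw [div_le_iff₀ he]
    refine (hSp _).trans ?_
    rw [hμn]
    have k3 : (1 + n * μ (em v)) ^ (1 - κ) ≤ (1 + μ (em v)) * (n : ℝ) ^ (1 - κ) := by
      calc (1 + n * μ (em v)) ^ (1 - κ) ≤ ((1 + μ (em v)) * n) ^ (1 - κ) :=
            Real.rpow_le_rpow (by positivity) (by linarith) (by linarith)
        _ ≤ (1 + μ (em v)) * (n : ℝ) ^ (1 - κ) :=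
            mul_pow_le (by linarith) hn0.le (by linarith)
    have k4 : A * (1 + n * μ (em v)) ^ (1 - κ) ≤
        |A| * ((1 + μ (em v)) * (n : ℝ) ^ (1 - κ)) := by
      have : 0 ≤ (1 + n * μ (em v)) ^ (1 - κ) := by positivity
      calc A * (1 + n * μ (em v)) ^ (1 - κ) ≤ |A| * (1 + n * μ (em v)) ^ (1 - κ) :=
            mul_le_mul_of_nonneg_right (le_abs_self A) this
        _ ≤ _ := mul_le_mul_of_nonneg_left k3 (abs_nonneg A)
    rw [div_mul_eq_mul_div, div_le_iff₀ hε] at m2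
    linarith
  have k5 : (volume : Measure Ω).real univ ≤
      (volume : Measure Ω).real ({ω | ε / 2 ≤ dist (D (env X ω) 0 ((n : ℤ) • v) / (n : ℝ))
        (μ (em v))} ∪ {ω | n * (ε / 2) ≤ |D (env X ω) 0 ((n : ℤ) • v) - mt X ((n : ℤ) • v)|}) := by
    refine measureReal_mono (fun ω _ => ?_) (measure_ne_top _ _)
    by_contra h5
    rw [mem_union, not_or] at h5
    obtain ⟨h6, h7⟩ := h5
    have h6' : |D (env X ω) 0 ((n : ℤ) • v) / (n : ℝ) - μ (em v)| < ε / 2 := by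
      by_contra h8
      exact h6 (not_lt.1 h8)
    have h7' : |D (env X ω) 0 ((n : ℤ) • v) - mt X ((n : ℤ) • v)| < n * (ε / 2) := by
      by_contra h8
      exact h7 (not_lt.1 h8)
    have h8 := (abs_lt.1 h6').2
    have h9 := (abs_lt.1 h7').1
    have h10 : D (env X ω) 0 ((n : ℤ) • v) < n * (μ (em v) + ε / 2) := by
      have : D (env X ω) 0 ((n : ℤ) • v) / (n : ℝ) < μ (em v) + ε / 2 := by linarith
      rw [div_lt_iff₀ hn0] at this
      linarith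
    linarith
  have k6 : (volume : Measure Ω).real univ = 1 := by simp
  have k7 := measureReal_union_le (μ := (volume : Measure Ω))
    {ω | ε / 2 ≤ dist (D (env X ω) 0 ((n : ℤ) • v) / (n : ℝ)) (μ (em v))}
    {ω | n * (ε / 2) ≤ |D (env X ω) 0 ((n : ℤ) • v) - mt X ((n : ℤ) • v)|}
  linarith

/-- rate of convergence of the mean with exponent `lam` -/
def Gr (X : Sym2 (ℤ × ℤ) → Ω → ℝ) (μ : Seminorm ℝ (ℝ × ℝ)) (lam : ℝ) : Prop :=
  ∃ A : ℝ, 0 < A ∧ ∀ v : ℤ × ℤ, mt X v ≤ μ (em v) + A * (1 + μ (em v)) ^ (1 - lam)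

theorem Gr_mono {μ : Seminorm ℝ (ℝ × ℝ)} {lam lam' : ℝ} (h : lam' ≤ lam) (hG : Gr X μ lam) :
    Gr X μ lam' := by
  obtain ⟨A, hA, hh⟩ := hG
  refine ⟨A, hA, fun v => (hh v).trans ?_⟩
  have h1 := apply_nonneg μ (em v)
  have h2 : (1 + μ (em v)) ^ (1 - lam) ≤ (1 + μ (em v)) ^ (1 - lam') :=
    Real.rpow_le_rpow_of_exponent_le (by linarith) (by linarith)
  have := mul_le_mul_of_nonneg_left h2 hA.le
  linarith

/-- typical upper bounds -/
theorem up_of (hX : Iid X) {μ : Seminorm ℝ (ℝ × ℝ)} (κ lam A Ag : ℝ) (hA : 0 < A)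
    (hlam : lam ≤ κ)
    (hSp : ∀ v : ℤ × ℤ, ∫ ω, |D (env X ω) 0 v - mt X v| ∂(volume : Measure Ω) ≤
      A * (1 + μ (em v)) ^ (1 - κ))
    (hGl : ∀ v : ℤ × ℤ, mt X v ≤ μ (em v) + Ag * (1 + μ (em v)) ^ (1 - lam)) (v : ℤ × ℤ) :
    (volume : Measure Ω).real {ω | μ (em v) + (Ag + A * Real.exp 2) * (1 + μ (em v)) ^ (1 - lam) ≤
      D (env X ω) 0 v} ≤ Real.exp (-(1 + 1)) := by
  have h1 := apply_nonneg μ (em v)
  have h2 : (1 + μ (em v)) ^ (1 - κ) ≤ (1 + μ (em v)) ^ (1 - lam) :=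
    Real.rpow_le_rpow_of_exponent_le (by linarith) (by linarith)
  have h3 : 0 < (1 + μ (em v)) ^ (1 - κ) := Real.rpow_pos_of_pos (by linarith) _
  have h4 : 0 < A * Real.exp 2 * (1 + μ (em v)) ^ (1 - κ) := by positivity
  refine le_trans (measureReal_mono (μ := (volume : Measure Ω)) (s₂ := {ω |
    A * Real.exp 2 * (1 + μ (em v)) ^ (1 - κ) ≤ |D (env X ω) 0 v - mt X v|}) (fun ω hω => ?_)
    (measure_ne_top _ _)) ((mk _ (cINT Ω X hX 0 v) (mt X v) _ h4).trans ?_)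
  · have h5 : μ (em v) + (Ag + A * Real.exp 2) * (1 + μ (em v)) ^ (1 - lam) ≤
      D (env X ω) 0 v := hω
    show A * Real.exp 2 * (1 + μ (em v)) ^ (1 - κ) ≤ |D (env X ω) 0 v - mt X v|
    refine le_trans ?_ (le_abs_self _)
    have h6 := hGl v
    have h7 : A * Real.exp 2 * (1 + μ (em v)) ^ (1 - κ) ≤
        A * Real.exp 2 * (1 + μ (em v)) ^ (1 - lam) := by gcongr
    linarith
  · rw [div_le_iff₀ h4]
    refine (hSp v).trans (le_of_eq ?_)
    have h8 : Real.exp (-(1 + 1)) * Real.exp 2 = 1 := by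
      rw [← Real.exp_add]; norm_num
    calc A * (1 + μ (em v)) ^ (1 - κ) =
          (Real.exp (-(1 + 1)) * Real.exp 2) * (A * (1 + μ (em v)) ^ (1 - κ)) := by
            rw [h8, one_mul]
      _ = _ := by ring

theorem Gr_step (hX : Iid X) {μ : Seminorm ℝ (ℝ × ℝ)} {Al : ℝ} (hS : Sa (mt X) μ Al)
    (hAl : 0 < Al) (hG : Good (fun ω v => D (env X ω) 0 v) μ) (κ A lam : ℝ) (hA : 0 < A)
    (h0 : 0 ≤ lam) (h1 : lam < κ) (h2 : κ < 1)
    (hSp : ∀ v : ℤ × ℤ, ∫ ω, |D (env X ω) 0 v - mt X v| ∂(volume : Measure Ω) ≤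
      A * (1 + μ (em v)) ^ (1 - κ)) (hGr : Gr X μ lam) :
    Gr X μ (lam + (κ - lam) * (1 - lam) / 16) := by
  obtain ⟨Ag, hAg, hGl⟩ := hGr
  have hUP := up_of hX κ lam A Ag hA h1.le hSp hGl
  have hA' : 0 < Ag + A * Real.exp 2 := by positivity
  obtain ⟨lam', h3, h4, h5, hLS⟩ : ∃ lam' : ℝ, 0 ≤ lam' ∧ lam' ≤ lam ∧
      lam - lam' ≤ (κ - lam) / 16 ∧ LS X μ lam' := by
    rcases h0.eq_or_lt with h6 | h6
    · exact ⟨0, le_rfl, h0, by linarith, LS_zero hX μ⟩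
    · refine ⟨max (lam / 2) (lam - (κ - lam) / 16), le_max_of_le_left (by linarith),
        max_le (by linarith) (by linarith), ?_, ?_⟩
      · have := le_max_right (lam / 2) (lam - (κ - lam) / 16)
        linarith
      · exact lower hX hG lam _ _ 1 (lt_max_of_lt_left (by linarith))
          (max_lt (by linarith) (by linarith)) (by linarith) hA' one_pos hUP
  obtain ⟨C, N0, hC, hspl⟩ := split_gen hX hS hAl hG κ lam lam' A Ag (Ag + A * Real.exp 2) hA hAg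
    hA' h0 h1 h2 h3 h4 h5 hSp hGl hUP hLS
  have k1 : 0 < (κ - lam) * (1 - lam) := mul_pos (by linarith) (by linarith)
  have k2 : (κ - lam) * (1 - lam) ≤ 1 * (1 - lam) :=
    mul_le_mul_of_nonneg_right (by linarith) (by linarith)
  exact rate hS hC (by linarith) (by linarith) hspl

theorem Gr_all (hX : Iid X) {μ : Seminorm ℝ (ℝ × ℝ)}
    (hG : Good (fun ω v => D (env X ω) 0 v) μ)
    (hlim : ∀ v : ℤ × ℤ, ∀ᵐ ω ∂(volume : Measure Ω),
      Tendsto (fun n : ℕ => D (env X ω) 0 ((n : ℤ) • v) / (n : ℝ)) atTop (𝓝 (μ (em v))))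
    (κ κ' A : ℝ) (h0 : 0 < κ') (h1 : κ' < κ) (h2 : κ < 1)
    (hSp : ∀ v : ℤ × ℤ, ∫ ω, |D (env X ω) 0 v - mt X v| ∂(volume : Measure Ω) ≤
      A * (1 + μ (em v)) ^ (1 - κ)) : Gr X μ κ' := by
  obtain ⟨Al, hAl, hlin⟩ := mt_lin hX μ hG.norm
  have hS : Sa (mt X) μ Al := ⟨hG.norm, mt_zero hX, mt_add hX,
    fun v => cFAT Ω X hX v _ (hlim v), hlin,
    fun v ε hε => mt_lim hX μ κ A (h0.trans h1) h2 hSp v (hlim v) ε hε⟩
  have hSp' : ∀ v : ℤ × ℤ, ∫ ω, |D (env X ω) 0 v - mt X v| ∂(volume : Measure Ω) ≤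
      (|A| + 1) * (1 + μ (em v)) ^ (1 - κ) := by
    intro v
    refine (hSp v).trans ?_
    have h3 := apply_nonneg μ (em v)
    have h4 : 0 ≤ (1 + μ (em v)) ^ (1 - κ) := Real.rpow_nonneg (by linarith) _
    exact mul_le_mul_of_nonneg_right (by have := le_abs_self A; linarith) h4
  obtain ⟨δ, hδ⟩ : ∃ δ, δ = (κ - κ') * (1 - κ') / 16 := ⟨_, rfl⟩
  have hδ0 : 0 < δ := by
    rw [hδ]
    have : 0 < (κ - κ') * (1 - κ') := mul_pos (by linarith) (by linarith)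
    linarith
  have key : ∀ j : ℕ, Gr X μ (min κ' (j * δ)) := by
    intro j
    induction j with
    | zero =>
      have : min κ' (((0 : ℕ) : ℝ) * δ) = 0 := by
        rw [Nat.cast_zero, zero_mul]; exact min_eq_right h0.le
      rw [this]
      refine ⟨Al, hAl, fun v => ?_⟩
      have h3 := apply_nonneg μ (em v)
      rw [sub_zero, Real.rpow_one]
      have := hlin v
      nlinarith
    | succ j ih =>
      obtain ⟨κ0, hκ0⟩ : ∃ κ0, κ0 = min κ' ((j : ℝ) * δ) := ⟨_, rfl⟩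
      rw [← hκ0] at ih
      have k1 : 0 ≤ κ0 := by
        rw [hκ0]; exact le_min h0.le (by positivity)
      have k2 : κ0 ≤ κ' := by rw [hκ0]; exact min_le_left _ _
      have hs := Gr_step hX hS hAl hG κ (|A| + 1) κ0 (by positivity) k1 (by linarith) h2 hSp' ih
      refine Gr_mono ?_ hs
      have k3 : δ ≤ (κ - κ0) * (1 - κ0) / 16 := by
        rw [hδ]
        have : (κ - κ') * (1 - κ') ≤ (κ - κ0) * (1 - κ0) :=
          mul_le_mul (by linarith) (by linarith) (by linarith) (by linarith)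
        linarith
      rcases le_total κ' ((j : ℝ) * δ) with k4 | k4
      · have k5 : κ0 = κ' := by rw [hκ0]; exact min_eq_left k4
        refine (min_le_left _ _).trans ?_
        linarith
      · have k5 : κ0 = (j : ℝ) * δ := by rw [hκ0]; exact min_eq_right k4
        refine (min_le_right _ _).trans ?_
        push_cast
        linarith
  obtain ⟨j, hj⟩ := exists_nat_ge (κ' / δ)
  have h3 := key j
  rwa [min_eq_left] at h3
  rwa [div_le_iff₀ hδ0] at hj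

end

end Pool.Agent.V7H97.FO
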