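import Pool.Agent.V7H97.FO.Block
import Pool.Agent.V7H97.FO.Boot

/-!
# Chains of blocks
-/

set_option autoImplicit false

open MeasureTheory ProbabilityTheory Filter Set
open scoped Pointwise Topology

namespace Pool.Agent.V7H97.FO

open Pool.Agent.N662.FP

section
variable {Ω : Type} [MeasureSpace Ω] [IsProbabilityMeasure (volume : Measure Ω)]
variable {X : Sym2 (ℤ × ℤ) → Ω → ℝ}

theorem law_int (hX : Iid X) (a w : ℤ × ℤ) (f : ℝ → ℝ) (hf : Measurable f) :
    ∫ ω, f (D (env X ω) a (a + w)) ∂(volume : Measure Ω) =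
      ∫ ω, f (D (env X ω) 0 w) ∂(volume : Measure Ω) := by
  have a1 : AEMeasurable (fun ω => D (env X ω) a (a + w)) (volume : Measure Ω) :=
    (cINT Ω X hX a (a + w)).aemeasurable
  have a2 : AEMeasurable (fun ω => D (env X ω) 0 w) (volume : Measure Ω) :=
    (cINT Ω X hX 0 w).aemeasurable
  have a3 : Measure.map (fun ω => D (env X ω) a (a + w)) (volume : Measure Ω) =
      Measure.map (fun ω => D (env X ω) 0 w) (volume : Measure Ω) := by
    ext s hs
    rw [Measure.map_apply_of_aemeasurable a1 hs, Measure.map_apply_of_aemeasurable a2 hs]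
    have h4 := D_law hX a w s hs
    rw [measureReal_def, measureReal_def] at h4
    exact (ENNReal.toReal_eq_toReal_iff' (measure_ne_top _ _) (measure_ne_top _ _)).1 h4
  rw [← integral_map a1 hf.aestronglyMeasurable, ← integral_map a2 hf.aestronglyMeasurable, a3]

theorem path_chain (x : Sym2 (ℤ × ℤ) → ℝ) (hx : ∀ e, 0 ≤ x e) (Z : ℕ → ℤ × ℤ) (k : ℕ)
    (a b : ℤ × ℤ) : D x a b ≤ D x a (Z 0) + ∑ i ∈ Finset.range k, D x (Z i) (Z (i + 1)) +
      D x (Z k) b := by
  have key : ∀ j : ℕ, D x a (Z j) ≤ D x a (Z 0) + ∑ i ∈ Finset.range j, D x (Z i) (Z (i + 1)) := by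
    intro j
    induction j with
    | zero => simp
    | succ j ih =>
      rw [Finset.sum_range_succ]
      have := cTRI x hx a (Z j) (Z (j + 1))
      linarith
  have h1 := key k
  have h2 := cTRI x hx a (Z k) b
  linarith

theorem chain_L1 (hX : Iid X) {μ : Seminorm ℝ (ℝ × ℝ)} {C : ℝ} (hC0 : 0 < C)
    {φ ψ : (ℝ × ℝ) →ₗ[ℝ] ℝ} {u τ : ℝ × ℝ} (hF : Fr μ φ ψ u τ) (v : ℤ × ℤ) (n : ℝ)
    (hv : em v = n • u) (hn : 0 ≤ n) (k : ℕ) (m h a : ℝ) (hm : 0 ≤ m) (hh : 0 ≤ h)
    (hkm : (k : ℝ) * m + 2 * h = n) (Z : ℕ → ℤ × ℤ)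
    (hZ : ∀ i, μ (em (Z i) - ((h + (i : ℝ) * m) • u + a • τ)) ≤ C)
    (B6 : ℝ) (h6 : df μ φ (h • u + a • τ) ≤ B6) (h6' : df μ φ (h • u + (-a) • τ) ≤ B6)
    (hlow : ∀ w, μ (em w) ≤ mt X w) (U Eg E2 E3 : ℝ) (hU : h + |a| + C ≤ U)
    (hU' : m + 2 * C ≤ U) (hEg : ∀ w, μ (em w) ≤ U → mt X w ≤ μ (em w) + Eg)
    (hE2 : ∀ w, μ (em w) ≤ U → ∫ ω, |D (env X ω) 0 w - μ (em w)| ∂(volume : Measure Ω) ≤ E2)
    (F : ℕ → Ω → ℝ) (hFi : ∀ i < k, Integrable (F i) (volume : Measure Ω))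
    (hF3 : ∀ i < k, ∫ ω, |D (env X ω) (Z i) (Z (i + 1)) - F i ω| ∂(volume : Measure Ω) ≤ E3) :
    ∫ ω, |D (env X ω) 0 v - (μ (em (Z 0)) + μ (em (v - Z k)) + ∑ i ∈ Finset.range k, F i ω)|
      ∂(volume : Measure Ω) ≤
      (2 * B6 + 4 * C + 4 * C * k + (k + 2) * Eg) + 2 * E2 + k * E3 := by
  -- errors of the points
  choose e he using fun i : ℕ => (⟨em (Z i) - ((h + (i : ℝ) * m) • u + a • τ), rfl⟩ :
    ∃ e, e = em (Z i) - ((h + (i : ℝ) * m) • u + a • τ))
  have he' : ∀ i, μ (e i) ≤ C := fun i => by rw [he i]; exact hZ i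
  have hZe : ∀ i : ℕ, em (Z i) = (h + (i : ℝ) * m) • u + a • τ + e i := fun i => by
    rw [he i]; abel
  have hdfe : ∀ x : ℝ × ℝ, df μ φ x ≤ 2 * μ x := by
    intro x
    have h1 := (abs_le.1 (hF.abs_ph x)).1
    unfold df
    linarith
  have hdiff : ∀ i : ℕ, em (Z (i + 1) - Z i) = m • u + (e (i + 1) - e i) := by
    intro i
    rw [em_sub, hZe, hZe]
    push_cast
    module
  have hee : ∀ i : ℕ, μ (e (i + 1) - e i) ≤ 2 * C := by
    intro i
    refine (map_sub_le_add μ _ _).trans ?_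
    linarith [he' i, he' (i + 1)]
  have hnegu : μ (-e k) ≤ C := by rw [map_neg_eq_map]; exact he' k
  have hlast : em (v - Z k) = (h • u + (-a) • τ) + (-e k) := by
    rw [em_sub, hv, hZe, ← hkm]
    module
  have hfirst : em (Z 0) = (h • u + a • τ) + e 0 := by
    rw [hZe]
    push_cast
    module
  -- sizes
  have hμuτ : ∀ s t : ℝ, μ (s • u + t • τ) ≤ |s| + |t| := by
    intro s t
    refine (map_add_le_add μ _ _).trans ?_
    rw [map_smul_eq_mul, map_smul_eq_mul, hF.mu, hF.mt, mul_one, mul_one, Real.norm_eq_abs,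
      Real.norm_eq_abs]
  have s0 : μ (em (Z 0)) ≤ U := by
    rw [hfirst]
    have h1 := hμuτ h a
    rw [abs_of_nonneg hh] at h1
    have h2 := map_add_le_add μ (h • u + a • τ) (e 0)
    linarith [he' 0]
  have s1 : μ (em (v - Z k)) ≤ U := by
    rw [hlast]
    have h1 := hμuτ h (-a)
    rw [abs_of_nonneg hh, abs_neg] at h1
    have h2 := map_add_le_add μ (h • u + (-a) • τ) (-e k)
    linarith
  have s2 : ∀ i, μ (em (Z (i + 1) - Z i)) ≤ U := by
    intro i
    rw [hdiff i]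
    have h2 := map_add_le_add μ (m • u) (e (i + 1) - e i)
    rw [map_smul_eq_mul, hF.mu, mul_one, Real.norm_eq_abs, abs_of_nonneg hm] at h2
    linarith [hee i]
  -- defects
  have hμdf : ∀ x, μ x = φ x + df μ φ x := fun x => by unfold df; ring
  have d0 : df μ φ (em (Z 0)) ≤ B6 + 2 * C := by
    rw [hfirst]
    refine (df_add _ _).trans ?_
    linarith [hdfe (e 0), he' 0]
  have d1 : df μ φ (em (v - Z k)) ≤ B6 + 2 * C := by
    rw [hlast]
    refine (df_add _ _).trans ?_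
    linarith [hdfe (-e k)]
  have d2 : ∀ i, df μ φ (em (Z (i + 1) - Z i)) ≤ 4 * C := by
    intro i
    rw [hdiff i]
    refine (df_add _ _).trans ?_
    rw [df_u hF m hm]
    linarith [hdfe (e (i + 1) - e i), hee i]
  -- telescoping
  have htel : φ (em (Z 0)) + ∑ i ∈ Finset.range k, φ (em (Z (i + 1) - Z i)) + φ (em (v - Z k)) = n := by
    have h1 : ∑ i ∈ Finset.range k, φ (em (Z (i + 1) - Z i)) = φ (em (Z k)) - φ (em (Z 0)) := by
      rw [← Finset.sum_range_sub (fun i => φ (em (Z i))) k]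
      refine Finset.sum_congr rfl fun i _ => ?_
      rw [em_sub, map_sub]
    rw [h1, em_sub, map_sub, hv, map_smul, hF.fu, smul_eq_mul, mul_one]
    ring
  -- the means
  have m0 : ∫ ω, D (env X ω) 0 (Z 0) ∂(volume : Measure Ω) ≤ μ (em (Z 0)) + Eg := hEg _ s0
  have hti : ∀ a b : ℤ × ℤ, ∫ ω, D (env X ω) a b ∂(volume : Measure Ω) = mt X (b - a) := by
    intro a b
    have h1 := cTI Ω X hX a (b - a)
    rw [add_sub_cancel] at h1
    exact h1
  have m1 : ∫ ω, D (env X ω) (Z k) v ∂(volume : Measure Ω) ≤ μ (em (v - Z k)) + Eg := by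
    rw [hti]; exact hEg _ s1
  have m2 : ∀ i, ∫ ω, D (env X ω) (Z i) (Z (i + 1)) ∂(volume : Measure Ω) ≤
      μ (em (Z (i + 1) - Z i)) + Eg := by
    intro i
    rw [hti]; exact hEg _ (s2 i)
  have hint : ∀ a b : ℤ × ℤ, Integrable (fun ω => D (env X ω) a b) (volume : Measure Ω) :=
    fun a b => cINT Ω X hX a b
  obtain ⟨S, hS⟩ : ∃ S : Ω → ℝ, S = fun ω => D (env X ω) 0 (Z 0) +
      ∑ i ∈ Finset.range k, D (env X ω) (Z i) (Z (i + 1)) + D (env X ω) (Z k) v := ⟨_, rfl⟩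
  have hsumi : Integrable (fun ω => ∑ i ∈ Finset.range k, D (env X ω) (Z i) (Z (i + 1)))
      (volume : Measure Ω) := integrable_finsetSum _ fun i _ => hint _ _
  have hSi : Integrable S (volume : Measure Ω) := by
    rw [hS]; exact ((hint _ _).add hsumi).add (hint _ _)
  have hSm : ∫ ω, S ω ∂(volume : Measure Ω) ≤ n + (2 * B6 + 4 * C + 4 * C * k + (k + 2) * Eg) := by
    rw [hS]
    have e1 : ∫ ω, (D (env X ω) 0 (Z 0) + ∑ i ∈ Finset.range k, D (env X ω) (Z i) (Z (i + 1)) +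
        D (env X ω) (Z k) v) ∂(volume : Measure Ω) =
        ∫ ω, D (env X ω) 0 (Z 0) ∂(volume : Measure Ω) +
        ∑ i ∈ Finset.range k, ∫ ω, D (env X ω) (Z i) (Z (i + 1)) ∂(volume : Measure Ω) +
        ∫ ω, D (env X ω) (Z k) v ∂(volume : Measure Ω) := by
      rw [← integral_finsetSum _ (fun i _ => hint _ _), ← integral_add (hint _ _) hsumi]
      exact integral_add ((hint _ _).add hsumi) (hint _ _)
    rw [e1]
    have e2 : ∑ i ∈ Finset.range k, ∫ ω, D (env X ω) (Z i) (Z (i + 1)) ∂(volume : Measure Ω) ≤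
        ∑ i ∈ Finset.range k, (φ (em (Z (i + 1) - Z i)) + (4 * C + Eg)) := by
      refine Finset.sum_le_sum fun i _ => (m2 i).trans ?_
      rw [hμdf]
      linarith [d2 i]
    rw [Finset.sum_add_distrib, Finset.sum_const, Finset.card_range, nsmul_eq_mul] at e2
    have e3 := hμdf (em (Z 0))
    have e4 := hμdf (em (v - Z k))
    nlinarith
  have hDm : n ≤ ∫ ω, D (env X ω) 0 v ∂(volume : Measure Ω) := by
    have h1 := hlow v
    rw [hv, map_smul_eq_mul, hF.mu, mul_one, Real.norm_eq_abs, abs_of_nonneg hn] at h1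
    exact h1
  -- the end pieces
  have f0 : ∫ ω, |D (env X ω) 0 (Z 0) - μ (em (Z 0))| ∂(volume : Measure Ω) ≤ E2 := hE2 _ s0
  have f1 : ∫ ω, |D (env X ω) (Z k) v - μ (em (v - Z k))| ∂(volume : Measure Ω) ≤ E2 := by
    have h1 := law_int hX (Z k) (v - Z k) (fun y => |y - μ (em (v - Z k))|)
      (measurable_id.sub_const _).abs
    rw [add_sub_cancel] at h1
    rw [h1]
    exact hE2 _ s1
  have hFs : Integrable (fun ω => ∑ i ∈ Finset.range k, F i ω) (volume : Measure Ω) :=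
    integrable_finsetSum _ fun i hi => hFi i (Finset.mem_range.1 hi)
  have hFd : ∀ i ∈ Finset.range k, Integrable
      (fun ω => |D (env X ω) (Z i) (Z (i + 1)) - F i ω|) (volume : Measure Ω) :=
    fun i hi => ((hint _ _).sub (hFi i (Finset.mem_range.1 hi))).abs
  have hFds : Integrable (fun ω => ∑ i ∈ Finset.range k,
      |D (env X ω) (Z i) (Z (i + 1)) - F i ω|) (volume : Measure Ω) := integrable_finsetSum _ hFd
  have i0 : Integrable (fun ω => |D (env X ω) 0 (Z 0) - μ (em (Z 0))|) (volume : Measure Ω) :=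
    ((hint _ _).sub (integrable_const _)).abs
  have i1 : Integrable (fun ω => |D (env X ω) (Z k) v - μ (em (v - Z k))|) (volume : Measure Ω) :=
    ((hint _ _).sub (integrable_const _)).abs
  have hmain : ∫ ω, |D (env X ω) 0 v - (μ (em (Z 0)) + μ (em (v - Z k)) +
      ∑ i ∈ Finset.range k, F i ω)| ∂(volume : Measure Ω) ≤
      ∫ ω, ((S ω - D (env X ω) 0 v) + (|D (env X ω) 0 (Z 0) - μ (em (Z 0))| +
        |D (env X ω) (Z k) v - μ (em (v - Z k))| + ∑ i ∈ Finset.range k,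
          |D (env X ω) (Z i) (Z (i + 1)) - F i ω|)) ∂(volume : Measure Ω) := by
    refine integral_mono_ae ((hint _ _).sub ((integrable_const _).add hFs)).abs
      ((hSi.sub (hint _ _)).add ((i0.add i1).add hFds)) ?_
    filter_upwards [cAE Ω X hX] with ω hω
    have h1 := path_chain (env X ω) hω Z k 0 v
    have h2 : D (env X ω) 0 v ≤ S ω := by rw [hS]; exact h1
    have h3 : |∑ i ∈ Finset.range k, D (env X ω) (Z i) (Z (i + 1)) -
        ∑ i ∈ Finset.range k, F i ω| ≤ ∑ i ∈ Finset.range k,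
          |D (env X ω) (Z i) (Z (i + 1)) - F i ω| := by
      rw [← Finset.sum_sub_distrib]
      exact Finset.abs_sum_le_sum_abs _ _
    have h4 : S ω = D (env X ω) 0 (Z 0) + ∑ i ∈ Finset.range k, D (env X ω) (Z i) (Z (i + 1)) +
      D (env X ω) (Z k) v := by rw [hS]
    show |D (env X ω) 0 v - (μ (em (Z 0)) + μ (em (v - Z k)) + ∑ i ∈ Finset.range k, F i ω)| ≤ _
    have h5 := le_abs_self (D (env X ω) 0 (Z 0) - μ (em (Z 0)))
    have h6 := neg_abs_le (D (env X ω) 0 (Z 0) - μ (em (Z 0)))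
    have h7 := le_abs_self (D (env X ω) (Z k) v - μ (em (v - Z k)))
    have h8 := neg_abs_le (D (env X ω) (Z k) v - μ (em (v - Z k)))
    have h9 := abs_le.1 h3
    rw [abs_le]
    constructor <;> linarith [h9.1, h9.2]
  refine hmain.trans ?_
  have j1 : Integrable (fun ω => S ω - D (env X ω) 0 v) (volume : Measure Ω) := hSi.sub (hint _ _)
  have j2 : Integrable (fun ω => |D (env X ω) 0 (Z 0) - μ (em (Z 0))| +
    |D (env X ω) (Z k) v - μ (em (v - Z k))|) (volume : Measure Ω) := i0.add i1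
  have j3 : Integrable (fun ω => |D (env X ω) 0 (Z 0) - μ (em (Z 0))| +
    |D (env X ω) (Z k) v - μ (em (v - Z k))| + ∑ i ∈ Finset.range k,
          |D (env X ω) (Z i) (Z (i + 1)) - F i ω|) (volume : Measure Ω) := j2.add hFds
  rw [integral_add j1 j3, integral_sub hSi (hint _ _),
    integral_add j2 hFds, integral_add i0 i1, integral_finsetSum _ hFd]
  have h10 : ∑ i ∈ Finset.range k, ∫ ω, |D (env X ω) (Z i) (Z (i + 1)) - F i ω|
      ∂(volume : Measure Ω) ≤ k * E3 := by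
    refine (Finset.sum_le_card_nsmul _ _ E3 fun i hi => hF3 i (Finset.mem_range.1 hi)).trans ?_
    rw [Finset.card_range, nsmul_eq_mul]
  linarith

end

end Pool.Agent.V7H97.FO
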