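import Pool.Agent.V7H97.FO.Var

/-!
# Q1 is a statement on the variance
-/

set_option autoImplicit false

open MeasureTheory ProbabilityTheory Filter Set
open scoped Pointwise Topology ENNReal

namespace Pool.Agent.V7H97.FO

open Pool.Agent.N662.FP

section
variable {Ω : Type} [MeasureSpace Ω] [IsProbabilityMeasure (volume : Measure Ω)]
variable {X : Sym2 (ℤ × ℤ) → Ω → ℝ}

/-- comparison of sizes -/
theorem size_cmp (μ : Seminorm ℝ (ℝ × ℝ)) (hμ : ∀ x, μ x = 0 → x = 0) :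
    ∃ C : ℝ, 1 ≤ C ∧ ∀ v : ℤ × ℤ, 1 + μ (em v) ≤ C * (1 + |(v.1 : ℝ)| + |(v.2 : ℝ)|) ∧
      1 + |(v.1 : ℝ)| + |(v.2 : ℝ)| ≤ C * (1 + μ (em v)) := by
  obtain ⟨cm, Cn, hcm, hCn, hnorm⟩ := cNORM μ hμ
  refine ⟨1 + Cn + 2 / cm, by have : 0 < 2 / cm := by positivity
                              linarith, fun v => ?_⟩
  have h1 := abs_nonneg (v.1 : ℝ)
  have h2 := abs_nonneg (v.2 : ℝ)
  have h3 := apply_nonneg μ (em v)
  have h4 : 0 < 2 / cm := by positivity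
  obtain ⟨h5, h6⟩ := hnorm (em v)
  constructor
  · have h7 : max |(em v).1| |(em v).2| ≤ |(v.1 : ℝ)| + |(v.2 : ℝ)| := by
      refine max_le ?_ ?_
      · show |(v.1 : ℝ)| ≤ _
        linarith
      · show |(v.2 : ℝ)| ≤ _
        linarith
    have h8 : Cn * max |(em v).1| |(em v).2| ≤ Cn * (|(v.1 : ℝ)| + |(v.2 : ℝ)|) := by gcongr
    have h9 : 0 ≤ 2 / cm * (1 + |(v.1 : ℝ)| + |(v.2 : ℝ)|) := by positivity
    nlinarith
  · have h7 : |(v.1 : ℝ)| ≤ μ (em v) / cm := by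
      rw [le_div_iff₀ hcm, mul_comm]
      exact (mul_le_mul_of_nonneg_left (le_max_left _ _) hcm.le).trans h5
    have h8 : |(v.2 : ℝ)| ≤ μ (em v) / cm := by
      rw [le_div_iff₀ hcm, mul_comm]
      exact (mul_le_mul_of_nonneg_left (le_max_right _ _) hcm.le).trans h5
    have h9 : 2 / cm * μ (em v) = μ (em v) / cm + μ (em v) / cm := by ring
    have h10 : 0 ≤ Cn * (1 + μ (em v)) := by positivity
    nlinarith

theorem pow_cmp {a b C e : ℝ} (ha : 0 ≤ a) (hC : 0 ≤ C) (hb : 0 ≤ b) (h : a ≤ C * b) (he : 0 ≤ e) :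
    a ^ e ≤ C ^ e * b ^ e := by
  rw [← Real.mul_rpow hC hb]
  exact Real.rpow_le_rpow ha h he

theorem l1_of_var (f : Ω → ℝ) (hf : MemLp f 2 (volume : Measure Ω)) (c : ℝ) (hc : 0 ≤ c)
    (h : variance f (volume : Measure Ω) ≤ c ^ 2) :
    ∫ ω, |f ω - ∫ ω', f ω' ∂(volume : Measure Ω)| ∂(volume : Measure Ω) ≤ c := by
  obtain ⟨m, hm⟩ : ∃ m, m = ∫ ω', f ω' ∂(volume : Measure Ω) := ⟨_, rfl⟩
  rw [← hm]
  have h1 : MemLp (fun ω => f ω - m) 2 (volume : Measure Ω) := hf.sub (memLp_const m)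
  have h2 : MemLp (fun ω => |f ω - m|) 2 (volume : Measure Ω) := h1.norm
  have h3 := variance_nonneg (fun ω => |f ω - m|) (volume : Measure Ω)
  rw [variance_eq_sub h2] at h3
  have h4 : variance f (volume : Measure Ω) =
      ∫ ω, (f ω - m) ^ 2 ∂(volume : Measure Ω) := by
    rw [variance_eq_integral hf.aemeasurable, hm]
  have h5 : ∫ ω, ((fun ω => |f ω - m|) ^ 2) ω ∂(volume : Measure Ω) =
      ∫ ω, (f ω - m) ^ 2 ∂(volume : Measure Ω) := by
    refine integral_congr_ae (Eventually.of_forall fun ω => ?_)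
    show |f ω - m| ^ 2 = (f ω - m) ^ 2
    exact sq_abs _
  rw [h5, ← h4] at h3
  have h6 : (∫ ω, |f ω - m| ∂(volume : Measure Ω)) ^ 2 ≤ c ^ 2 := by linarith
  exact (le_abs_self _).trans (abs_le_of_sq_le_sq h6 hc)

theorem var_of (hX : Iid X) {μ : Seminorm ℝ (ℝ × ℝ)}
    (hG : Good (fun ω v => D (env X ω) 0 v) μ) (κ e A c : ℝ) (hκ1 : κ < 1) (hA : 0 < A)
    (hc : 0 < c) (he : e < Real.exp (-1))
    (hUP : ∀ v : ℤ × ℤ, (volume : Measure Ω).real
      {ω | μ (em v) + A * (1 + μ (em v)) ^ (1 - κ) ≤ D (env X ω) 0 v} ≤ e)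
    (h8 : ∀ᶠ v : ℤ × ℤ in cofinite, (volume : Measure Ω).real {ω | (1 + μ (em v)) ^ (1 - κ) ≤
          |D (env X ω) 0 v - μ (em v)|} ≤ Real.exp (-(μ (em v) ^ c))) :
    ∃ B : ℝ, 0 ≤ B ∧ ∀ v : ℤ × ℤ, variance (fun ω => D (env X ω) 0 v) (volume : Measure Ω) ≤
      B * (1 + μ (em v)) ^ (2 * (1 - κ)) := by
  classical
  obtain ⟨d, hd, hed⟩ := ex_d e he
  obtain ⟨Cd, hCd⟩ : ∃ Cd, Cd = ∑' k : ℕ, (2 * (k : ℝ) + 1) * Real.exp (-d) ^ k := ⟨_, rfl⟩
  have hCd0 : 0 ≤ Cd := by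
    rw [hCd]; exact tsum_nonneg fun k => by positivity
  have v1 := ev2 1 2 1 c (c / 2) one_pos (by linarith) (by linarith)
  have ht := tends cNORM μ hG.norm
  have hev : ∀ᶠ v : ℤ × ℤ in cofinite,
      variance (fun ω => D (env X ω) 0 v) (volume : Measure Ω) ≤
        (Cd * A ^ 2 + 2) * (1 + μ (em v)) ^ (2 * (1 - κ)) := by
    filter_upwards [h8, ht.eventually v1] with v k1 k2
    have h3 := apply_nonneg μ (em v)
    obtain ⟨y, hy⟩ : ∃ y, y = (1 + μ (em v)) ^ (1 - κ) := ⟨_, rfl⟩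
    have hy1 : 1 ≤ y := by rw [hy]; exact Real.one_le_rpow (by linarith) (by linarith)
    have hy2 : (1 + μ (em v)) ^ (2 * (1 - κ)) = y ^ 2 := by
      rw [hy, mul_comm, Real.rpow_mul (by linarith), Real.rpow_two]
    have hw : 0 < A * y := by positivity
    have hu := hUP v
    rw [← hy] at hu k1
    have k3 := second hX hG v (A * y) d y hw hd (hu.trans hed)
    rw [← hCd] at k3
    rw [hy2]
    have k4 : μ (em v) ^ 2 * (volume : Measure Ω).real {ω | y ≤ |D (env X ω) 0 v - μ (em v)|} ≤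
        y ^ 2 := by
      have k5 : μ (em v) ^ 2 * (volume : Measure Ω).real {ω | y ≤ |D (env X ω) 0 v - μ (em v)|} ≤
          μ (em v) ^ 2 * Real.exp (-(μ (em v) ^ c)) := by gcongr
      rw [one_mul, one_mul] at k2
      have k6 : Real.exp (-(μ (em v) ^ (c / 2))) ≤ 1 := by
        rw [Real.exp_le_one_iff]
        have := Real.rpow_nonneg h3 (c / 2)
        linarith
      have k7 : 1 ≤ y ^ 2 := one_le_pow₀ hy1
      have k8 : μ (em v) ^ 2 * Real.exp (-(μ (em v) ^ c)) ≤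
          1 / 4 * Real.exp (-(μ (em v) ^ (c / 2))) := k2
      linarith
    calc _ ≤ _ := k3
      _ ≤ Cd * (A * y) ^ 2 + y ^ 2 + y ^ 2 := by linarith
      _ = (Cd * A ^ 2 + 2) * y ^ 2 := by ring
  rw [Filter.eventually_cofinite] at hev
  refine ⟨(Cd * A ^ 2 + 2) + ∑ v ∈ hev.toFinset,
    variance (fun ω => D (env X ω) 0 v) (volume : Measure Ω), ?_, fun v => ?_⟩
  · have : 0 ≤ ∑ v ∈ hev.toFinset, variance (fun ω => D (env X ω) 0 v) (volume : Measure Ω) :=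
      Finset.sum_nonneg fun v _ => variance_nonneg _ _
    positivity
  · have h3 := apply_nonneg μ (em v)
    have hS : 0 ≤ ∑ v ∈ hev.toFinset, variance (fun ω => D (env X ω) 0 v) (volume : Measure Ω) :=
      Finset.sum_nonneg fun v _ => variance_nonneg _ _
    have hy1 : 1 ≤ (1 + μ (em v)) ^ (2 * (1 - κ)) :=
      Real.one_le_rpow (by linarith) (by linarith)
    by_cases hv : v ∈ hev.toFinset
    · have h4 := Finset.single_le_sum
        (f := fun v => variance (fun ω => D (env X ω) 0 v) (volume : Measure Ω))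
        (fun w _ => variance_nonneg _ _) hv
      have h5 : 0 ≤ Cd * A ^ 2 + 2 := by positivity
      have h6 : variance (fun ω => D (env X ω) 0 v) (volume : Measure Ω) ≤ (Cd * A ^ 2 + 2) +
          ∑ v ∈ hev.toFinset, variance (fun ω => D (env X ω) 0 v) (volume : Measure Ω) := by
        linarith
      refine h6.trans ?_
      exact le_mul_of_one_le_right (by linarith) hy1
    · have h4 : variance (fun ω => D (env X ω) 0 v) (volume : Measure Ω) ≤
        (Cd * A ^ 2 + 2) * (1 + μ (em v)) ^ (2 * (1 - κ)) := by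
        by_contra hcon
        exact hv (hev.mem_toFinset.2 hcon)
      refine h4.trans ?_
      refine mul_le_mul_of_nonneg_right (by linarith) (by linarith)

theorem eq2 (hX : Iid X) {μ : Seminorm ℝ (ℝ × ℝ)}
    (hG : Good (fun ω v => D (env X ω) 0 v) μ)
    (hlim : ∀ v : ℤ × ℤ, ∀ᵐ ω ∂(volume : Measure Ω),
      Tendsto (fun n : ℕ => D (env X ω) 0 ((n : ℤ) • v) / (n : ℝ)) atTop (𝓝 (μ (em v))))
    (K : ℝ) (hK : K < 1) :
    List.TFAE [
      ∀ κ : ℝ, 0 < κ → κ < K → ∀ q : ℝ, 0 < q →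
        Asymptotics.IsBigO atTop (fun t : ℝ => (volume : Measure Ω).real
          (Out (fun ω v => D (env X ω) 0 v) μ κ t)) (fun t : ℝ => t ^ (-q)) ∧
        Asymptotics.IsBigO atTop (fun t : ℝ => (volume : Measure Ω).real
          (Bad (fun ω v => D (env X ω) 0 v) μ κ t)) (fun t : ℝ => t ^ (-q)),
      ∀ κ : ℝ, 0 < κ → κ < K → ∃ A : ℝ, ∀ v : ℤ × ℤ,
        variance (fun ω => D (env X ω) 0 v) (volume : Measure Ω) ≤
          A * (1 + |(v.1 : ℝ)| + |(v.2 : ℝ)|) ^ (2 * (1 - κ)),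
      ∀ κ : ℝ, 0 < κ → κ < K → ∃ A : ℝ, ∀ v : ℤ × ℤ,
        ∫ ω, |D (env X ω) 0 v - ∫ ω', D (env X ω') 0 v ∂(volume : Measure Ω)|
          ∂(volume : Measure Ω) ≤ A * (1 + |(v.1 : ℝ)| + |(v.2 : ℝ)|) ^ (1 - κ),
      ∀ κ : ℝ, 0 < κ → κ < K → ∃ (A : ℝ) (a : ℤ × ℤ → ℝ), ∀ v : ℤ × ℤ,
        ∫ ω, |D (env X ω) 0 v - a v| ∂(volume : Measure Ω) ≤
          A * (1 + |(v.1 : ℝ)| + |(v.2 : ℝ)|) ^ (1 - κ)] := by
  obtain ⟨C, hC1, hCc⟩ := size_cmp μ hG.norm
  have hC0 : 0 ≤ C := by linarith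
  have old := eq hX hG K hK
  tfae_have 1 → 2 := by
    intro h κ h0 h1
    have h5 : ∀ κ : ℝ, 0 < κ → κ < K → ∃ e : ℝ, e < Real.exp (-1) ∧ ∃ A : ℝ, 0 < A ∧
        ∀ v : ℤ × ℤ, (volume : Measure Ω).real
          {ω | μ (em v) + A * (1 + μ (em v)) ^ (1 - κ) ≤ D (env X ω) 0 v} ≤ e :=
      (old.out 0 4).1 h
    have h8 : ∀ κ : ℝ, 0 < κ → κ < K → ∃ c : ℝ, 0 < c ∧ ∀ᶠ v : ℤ × ℤ in cofinite,
        (volume : Measure Ω).real {ω | (1 + μ (em v)) ^ (1 - κ) ≤
          |D (env X ω) 0 v - μ (em v)|} ≤ Real.exp (-(μ (em v) ^ c)) :=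
      (old.out 0 7).1 h
    obtain ⟨e, he, A, hA, hUP⟩ := h5 κ h0 h1
    obtain ⟨c, hc, h9⟩ := h8 κ h0 h1
    obtain ⟨B, hB, hvar⟩ := var_of hX hG κ e A c (by linarith) hA hc he hUP h9
    refine ⟨B * C ^ (2 * (1 - κ)), fun v => (hvar v).trans ?_⟩
    rw [mul_assoc]
    refine mul_le_mul_of_nonneg_left ?_ hB
    have := apply_nonneg μ (em v)
    exact pow_cmp (by linarith) hC0 (by positivity) (hCc v).1 (by linarith)
  tfae_have 2 → 3 := by
    intro h κ h0 h1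
    obtain ⟨A, hh⟩ := h κ h0 h1
    refine ⟨Real.sqrt |A|, fun v => ?_⟩
    obtain ⟨y, hy⟩ : ∃ y, y = (1 + |(v.1 : ℝ)| + |(v.2 : ℝ)|) := ⟨_, rfl⟩
    have hy0 : 0 < y := by rw [hy]; positivity
    have h2 := hh v
    rw [← hy] at h2 ⊢
    refine l1_of_var _ (memLp2 hX hG v) _ (by positivity) (h2.trans ?_)
    rw [mul_pow, Real.sq_sqrt (abs_nonneg A), mul_comm 2 (1 - κ), Real.rpow_mul hy0.le,
      Real.rpow_two]
    exact mul_le_mul_of_nonneg_right (le_abs_self A) (sq_nonneg _)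
  tfae_have 3 → 4 := by
    intro h κ h0 h1
    obtain ⟨A, hh⟩ := h κ h0 h1
    exact ⟨A, fun v => ∫ ω', D (env X ω') 0 v ∂(volume : Measure Ω), hh⟩
  tfae_have 4 → 1 := by
    intro h
    have h5 : ∀ κ : ℝ, 0 < κ → κ < K → ∃ e : ℝ, e < Real.exp (-1) ∧ ∃ A : ℝ, 0 < A ∧
        ∀ v : ℤ × ℤ, (volume : Measure Ω).real
          {ω | μ (em v) + A * (1 + μ (em v)) ^ (1 - κ) ≤ D (env X ω) 0 v} ≤ e := by
      intro κ h0 h1
      obtain ⟨κ2, hκ2⟩ : ∃ κ2, κ2 = (κ + K) / 2 := ⟨_, rfl⟩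
      have k1 : κ < κ2 := by rw [hκ2]; linarith
      have k2 : κ2 < K := by rw [hκ2]; linarith
      obtain ⟨A, a, hh⟩ := h κ2 (by linarith) k2
      obtain ⟨B, hB⟩ : ∃ B, B = 2 * |A| * C ^ (1 - κ2) + 1 := ⟨_, rfl⟩
      have hB0 : 0 < B := by rw [hB]; positivity
      have hSp : ∀ v : ℤ × ℤ, ∫ ω, |D (env X ω) 0 v - mt X v| ∂(volume : Measure Ω) ≤
          B * (1 + μ (em v)) ^ (1 - κ2) := by
        intro v
        have g0 := apply_nonneg μ (em v)
        have g1 : Integrable (fun ω => |D (env X ω) 0 v - a v|) (volume : Measure Ω) :=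
          ((hG.int v).sub (integrable_const _)).abs
        have g2 : |mt X v - a v| ≤ ∫ ω, |D (env X ω) 0 v - a v| ∂(volume : Measure Ω) := by
          have e1 : mt X v - a v = ∫ ω, (D (env X ω) 0 v - a v) ∂(volume : Measure Ω) := by
            rw [integral_sub (hG.int v) (integrable_const _)]
            simp [mt]
          rw [e1]
          exact abs_integral_le_integral_abs
        have g3 : ∫ ω, |D (env X ω) 0 v - mt X v| ∂(volume : Measure Ω) ≤
            ∫ ω, (|D (env X ω) 0 v - a v| + |mt X v - a v|) ∂(volume : Measure Ω) := by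
          refine integral_mono ((hG.int v).sub (integrable_const _)).abs
            (g1.add (integrable_const _)) fun ω => ?_
          have e2 : D (env X ω) 0 v - mt X v = (D (env X ω) 0 v - a v) - (mt X v - a v) := by ring
          show |D (env X ω) 0 v - mt X v| ≤ |D (env X ω) 0 v - a v| + |mt X v - a v|
          rw [e2]
          exact abs_sub _ _
        rw [integral_add g1 (integrable_const _), integral_const] at g3
        have : (volume : Measure Ω).real univ = 1 := by simp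
        rw [this, one_smul] at g3
        have g4 := hh v
        have g5 : (1 + |(v.1 : ℝ)| + |(v.2 : ℝ)|) ^ (1 - κ2) ≤
            C ^ (1 - κ2) * (1 + μ (em v)) ^ (1 - κ2) :=
          pow_cmp (by positivity) hC0 (by linarith) (hCc v).2 (by linarith)
        have g6 : 0 ≤ (1 + |(v.1 : ℝ)| + |(v.2 : ℝ)|) ^ (1 - κ2) := by positivity
        have g7 : A * (1 + |(v.1 : ℝ)| + |(v.2 : ℝ)|) ^ (1 - κ2) ≤
            |A| * (C ^ (1 - κ2) * (1 + μ (em v)) ^ (1 - κ2)) := by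
          calc A * (1 + |(v.1 : ℝ)| + |(v.2 : ℝ)|) ^ (1 - κ2) ≤
                |A| * (1 + |(v.1 : ℝ)| + |(v.2 : ℝ)|) ^ (1 - κ2) :=
                mul_le_mul_of_nonneg_right (le_abs_self A) g6
            _ ≤ _ := mul_le_mul_of_nonneg_left g5 (abs_nonneg A)
        have g8 : 0 ≤ (1 + μ (em v)) ^ (1 - κ2) := Real.rpow_nonneg (by linarith) _
        rw [hB]
        nlinarith
      obtain ⟨Ag, hAg, hGl⟩ := Gr_all hX hG hlim κ2 κ B h0 k1 (by linarith) hSp
      refine ⟨Real.exp (-(1 + 1)), Real.exp_lt_exp.2 (by norm_num), Ag + B * Real.exp 2,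
        by positivity, fun v => ?_⟩
      exact up_of hX κ2 κ B Ag hB0 k1.le hSp hGl v
    exact (old.out 4 0).1 h5
  tfae_finish

end

end Pool.Agent.V7H97.FO
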