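import Pool.Agent.V7H97.FO.Asym3
import Pool.Agent.V7H97.FO.Main2

/-!
# The fluctuations are controlled by the rate of convergence of the mean
-/

set_option autoImplicit false

open MeasureTheory ProbabilityTheory Filter Set
open scoped Pointwise Topology

namespace Pool.Agent.V7H97.FO

open Pool.Agent.N662.FP

section
variable {Ω : Type} [MeasureSpace Ω] [IsProbabilityMeasure (volume : Measure Ω)]
variable {X : Sym2 (ℤ × ℤ) → Ω → ℝ}

theorem up_of_L1 (hX : Iid X) {μ : Seminorm ℝ (ℝ × ℝ)} (lam A : ℝ) (hA : 0 < A)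
    (hSp : ∀ v : ℤ × ℤ, ∫ ω, |D (env X ω) 0 v - μ (em v)| ∂(volume : Measure Ω) ≤
      A * (1 + μ (em v)) ^ (1 - lam)) (v : ℤ × ℤ) :
    (volume : Measure Ω).real {ω | μ (em v) + A * Real.exp 2 * (1 + μ (em v)) ^ (1 - lam) ≤
      D (env X ω) 0 v} ≤ Real.exp (-(1 + 1)) := by
  have h1 := apply_nonneg μ (em v)
  have h3 : 0 < (1 + μ (em v)) ^ (1 - lam) := Real.rpow_pos_of_pos (by linarith) _
  have h4 : 0 < A * Real.exp 2 * (1 + μ (em v)) ^ (1 - lam) := by positivity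
  refine le_trans (measureReal_mono (μ := (volume : Measure Ω)) (s₂ := {ω |
    A * Real.exp 2 * (1 + μ (em v)) ^ (1 - lam) ≤ |D (env X ω) 0 v - μ (em v)|}) (fun ω hω => ?_)
    (measure_ne_top _ _)) ((mk _ (cINT Ω X hX 0 v) (μ (em v)) _ h4).trans ?_)
  · have h5 : μ (em v) + A * Real.exp 2 * (1 + μ (em v)) ^ (1 - lam) ≤ D (env X ω) 0 v := hω
    show A * Real.exp 2 * (1 + μ (em v)) ^ (1 - lam) ≤ |D (env X ω) 0 v - μ (em v)|
    exact le_trans (by linarith) (le_abs_self _)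
  · rw [div_le_iff₀ h4]
    refine (hSp v).trans (le_of_eq ?_)
    have h8 : Real.exp (-(1 + 1)) * Real.exp 2 = 1 := by
      rw [← Real.exp_add]; norm_num
    calc A * (1 + μ (em v)) ^ (1 - lam) =
          (Real.exp (-(1 + 1)) * Real.exp 2) * (A * (1 + μ (em v)) ^ (1 - lam)) := by
            rw [h8, one_mul]
      _ = _ := by ring

theorem fluc_step (hX : Iid X) {μ : Seminorm ℝ (ℝ × ℝ)}
    (hG : Good (fun ω v => D (env X ω) 0 v) μ)
    (hlim : ∀ v : ℤ × ℤ, ∀ᵐ ω ∂(volume : Measure Ω),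
      Tendsto (fun n : ℕ => D (env X ω) 0 ((n : ℤ) • v) / (n : ℝ)) atTop (𝓝 (μ (em v))))
    (κ lam A1 : ℝ) (hA1 : 0 < A1) (h0 : 0 ≤ lam) (h1 : lam < κ) (h2 : κ < 1)
    (hSp : ∀ v : ℤ × ℤ, ∫ ω, |D (env X ω) 0 v - μ (em v)| ∂(volume : Measure Ω) ≤
      A1 * (1 + μ (em v)) ^ (1 - lam)) (hGr : Gr X μ κ) :
    ∃ A : ℝ, 0 < A ∧ ∀ v : ℤ × ℤ, ∃ b : ℝ, ∫ ω, |D (env X ω) 0 v - b| ∂(volume : Measure Ω) ≤
      A * (1 + μ (em v)) ^ (1 - (lam + (κ - lam) * (1 - lam) / 16)) := by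
  obtain ⟨C, hC⟩ := exists_Ct μ hG.norm
  obtain ⟨cm, Cn, hcm, hCn, hnorm⟩ := cNORM μ hG.norm
  obtain ⟨Ag, hAg, hGl⟩ := hGr
  have hC0 := hC.pos
  obtain ⟨A', hA'⟩ : ∃ A', A' = A1 * Real.exp 2 := ⟨_, rfl⟩
  have hA'0 : 0 < A' := by rw [hA']; positivity
  have hUP := up_of_L1 hX lam A1 hA1 hSp
  rw [← hA'] at hUP
  obtain ⟨G, hGd⟩ : ∃ G, G = (κ - lam) * (1 - lam) := ⟨_, rfl⟩
  have hG0 : 0 < G := by rw [hGd]; exact mul_pos (by linarith) (by linarith)
  have hG1 : G ≤ 1 - lam := by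
    rw [hGd]
    calc (κ - lam) * (1 - lam) ≤ 1 * (1 - lam) :=
          mul_le_mul_of_nonneg_right (by linarith) (by linarith)
      _ = 1 - lam := one_mul _
  obtain ⟨lam', h3, h4, h5, hLS⟩ : ∃ lam' : ℝ, 0 ≤ lam' ∧ lam' ≤ lam ∧
      lam - lam' ≤ G / 64 ∧ LS X μ lam' := by
    rcases h0.eq_or_lt with h6 | h6
    · exact ⟨0, le_rfl, h0, by linarith, LS_zero hX μ⟩
    · refine ⟨max (lam / 2) (lam - G / 64), le_max_of_le_left (by linarith),
        max_le (by linarith) (by linarith), ?_, ?_⟩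
      · have := le_max_right (lam / 2) (lam - G / 64)
        linarith
      · exact lower hX hG lam _ _ 1 (lt_max_of_lt_left (by linarith))
          (max_lt (by linarith) (by linarith)) (by linarith) hA'0 one_pos hUP
  obtain ⟨c0, N0, hc0, hL0⟩ := hLS
  obtain ⟨Cd, hCd⟩ : ∃ Cd, Cd = ∑' j : ℕ, (2 * (j : ℝ) + 1) * Real.exp (-1) ^ j := ⟨_, rfl⟩
  have hCd0 : 0 ≤ Cd := by
    rw [hCd]; exact tsum_nonneg fun k => by positivity
  obtain ⟨N, hN⟩ := eventually_atTop.1 (asym3 A1 A' Ag C Cn c0 N0 Cd κ lam lam' hA1 hA'0 hAg hC0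
    hCn hc0 hCd0 h0 h1 h2 h3 h4 (by rw [← hGd]; exact h5))
  obtain ⟨y, hy⟩ : ∃ y, y = 1 - (lam + (κ - lam) * (1 - lam) / 16) := ⟨_, rfl⟩
  rw [← hy]
  have hy0 : 0 ≤ y := by rw [hy, ← hGd]; linarith
  refine ⟨A1 * (1 + max N 1) ^ (1 - lam) + 1, by
    have : 0 < (1 + max N 1) ^ (1 - lam) :=
      Real.rpow_pos_of_pos (by have := le_max_right N 1; linarith) _
    positivity, fun v => ?_⟩
  obtain ⟨n, hn⟩ : ∃ n, n = μ (em v) := ⟨_, rfl⟩
  have hnn : 0 ≤ n := by rw [hn]; exact apply_nonneg μ _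
  rw [← hn]
  rcases lt_or_ge n (max N 1) with hlt | hge
  · refine ⟨μ (em v), (hSp v).trans ?_⟩
    rw [← hn]
    have k1 : (1 + n) ^ (1 - lam) ≤ (1 + max N 1) ^ (1 - lam) :=
      Real.rpow_le_rpow (by linarith) (by linarith) (by linarith)
    have k2 : 1 ≤ (1 + n) ^ y := Real.one_le_rpow (by linarith) hy0
    have k3 : 0 ≤ (1 + max N 1) ^ (1 - lam) :=
      Real.rpow_nonneg (by have := le_max_right N 1; linarith) _
    calc A1 * (1 + n) ^ (1 - lam) ≤ A1 * (1 + max N 1) ^ (1 - lam) :=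
          mul_le_mul_of_nonneg_left k1 hA1.le
      _ = A1 * (1 + max N 1) ^ (1 - lam) * 1 := (mul_one _).symm
      _ ≤ (A1 * (1 + max N 1) ^ (1 - lam) + 1) * (1 + n) ^ y :=
          mul_le_mul (by linarith) k2 zero_le_one (by positivity)
  · have hn1 : 1 ≤ n := (le_max_right _ _).trans hge
    obtain ⟨k, R, m, S, B, B0, a1, L, p1, p2, r, U, q, sc⟩ := hN n ((le_max_left _ _).trans hge)
    have hv0 : em v ≠ 0 := by
      intro h
      rw [h, map_zero] at hn
      linarith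
    obtain ⟨φ, ψ, u, τ, hF, hvu⟩ := exists_frame μ hG.norm (em v) hv0
    rw [← hn] at hvu
    have hm := sc.hm
    have hr := sc.hr
    have hB00 : 0 < B0 := by
      rw [sc.hB0, one_mul]; exact Real.rpow_pos_of_pos sc.hq _
    have ha10 : 0 < a1 := by
      rw [sc.ha1]
      have := Real.rpow_pos_of_pos (show 0 < n by linarith) ((κ - lam) * (1 - lam) / 64)
      positivity
    have hB1 : 0 ≤ B := by have := sc.hB; linarith
    obtain ⟨Y, hY0, hYle, hY1, hY2⟩ := exists_width hF B S hB1 sc.hS0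
    have hμw : ∀ w : ℤ × ℤ, μ (em w - m • u) ≤ 2 * C → μ (em w) ≤ m + 2 * C := by
      intro w h
      have e1 : em w = m • u + (em w - m • u) := by abel
      rw [e1]
      refine (map_add_le_add μ _ _).trans ?_
      rw [map_smul_eq_mul, hF.mu, mul_one, Real.norm_eq_abs, abs_of_pos hm]
      linarith
    have hbox : ∀ z ∈ Bx R, μ (em z) ≤ Cn * R := by
      intro z hz
      rw [mem_Bx] at hz
      refine (hnorm _).2.trans ?_
      refine mul_le_mul_of_nonneg_left (max_le ?_ ?_) hCn.le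
      · have : |(z.1 : ℝ)| ≤ R := by exact_mod_cast hz.1
        exact this
      · have : |(z.2 : ℝ)| ≤ R := by exact_mod_cast hz.2
        exact this
    have hlowz : ∀ z : ℤ × ℤ, μ (em z) ≤ q →
        (volume : Measure Ω).real {ω | D (env X ω) 0 z < μ (em z) - B0} ≤ p1 := by
      intro z hz
      have h6 := low hX 1 lam' c0 N0 q le_rfl h3 (by linarith) sc.hq hc0 hL0 sc.hN z
        (by rw [one_mul]; exact hz)
      rw [← sc.hB0, ← sc.hp1] at h6
      exact h6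
    have hCnq := sc.hCn
    have hUPw : ∀ w : ℤ × ℤ, μ (em w - m • u) ≤ 2 * C →
        (volume : Measure Ω).real {ω | μ (em w) + r ≤ D (env X ω) 0 w} ≤ Real.exp (-(1 + 1)) := by
      intro w hw
      refine le_trans (measureReal_mono (fun ω hω => ?_) (measure_ne_top _ _)) (hUP w)
      have h6 : μ (em w) + r ≤ D (env X ω) 0 w := hω
      show μ (em w) + A' * (1 + μ (em w)) ^ (1 - lam) ≤ D (env X ω) 0 w
      have h7 := sc.hrA
      have h8 : (1 + μ (em w)) ^ (1 - lam) ≤ (1 + (m + 2 * C)) ^ (1 - lam) :=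
        Real.rpow_le_rpow (by have := apply_nonneg μ (em w); linarith)
          (by have := hμw w hw; linarith) (by linarith)
      have h9 := mul_le_mul_of_nonneg_left h8 hA'0.le
      linarith
    obtain ⟨b, hb⟩ := fluct_one hX hG hC hF v n hvu hnn k m S hm sc.hkm B Y B0 a1 L p1 p2 r U
      (Ag * (1 + U) ^ (1 - κ)) (A1 * (1 + U) ^ (1 - lam)) R
      (fun z hz => hlowz z (by have := hbox z hz; linarith))
      (fun w hw z hz => hlowz (w - z) (by
        have k1 := hbox z hz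
        have k2 := hμw w hw
        have k3 : μ (em (w - z)) ≤ μ (em w) + μ (em z) := by
          rw [em_sub]; exact map_sub_le_add μ _ _
        linarith))
      (fun w hw => by
        have k1 := (hG.one w r 1 hr one_pos (hUPw w hw)).1
          (r * n ^ ((κ - lam) * (1 - lam) / 64)) (by
            have := Real.rpow_pos_of_pos (show 0 < n by linarith) ((κ - lam) * (1 - lam) / 64)
            positivity)
        have k2 : 1 * (r * n ^ ((κ - lam) * (1 - lam) / 64)) / r =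
            n ^ ((κ - lam) * (1 - lam) / 64) := by field_simp
        rw [k2] at k1
        refine le_trans (measureReal_mono (fun ω hω => ?_) (measure_ne_top _ _)) (k1.trans ?_)
        · have k3 : μ (em w) + a1 < D (env X ω) 0 w := hω
          show μ (em w) + r + r * n ^ ((κ - lam) * (1 - lam) / 64) ≤ D (env X ω) 0 w
          rw [sc.ha1] at k3
          linarith
        · rw [sc.hp2]
          exact Real.exp_le_exp.2 (by linarith))
      hUPw hr sc.hR sc.hS sc.hB hB00.le ha10.le hYle hY1 hY2 sc.hL sc.hL1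
      (fun w => cFAT Ω X hX w _ (hlim w)) sc.hU
      (fun w hw => by
        have k0 := apply_nonneg μ (em w)
        refine (hGl w).trans ?_
        have k1 : (1 + μ (em w)) ^ (1 - κ) ≤ (1 + U) ^ (1 - κ) :=
          Real.rpow_le_rpow (by linarith) (by linarith) (by linarith)
        have := mul_le_mul_of_nonneg_left k1 hAg.le
        linarith)
      (fun w hw => by
        have k0 := apply_nonneg μ (em w)
        refine (hSp w).trans ?_
        have k1 : (1 + μ (em w)) ^ (1 - lam) ≤ (1 + U) ^ (1 - lam) :=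
          Real.rpow_le_rpow (by linarith) (by linarith) (by linarith)
        exact mul_le_mul_of_nonneg_left k1 hA1.le)
    refine ⟨b, hb.trans ?_⟩
    rw [← hCd]
    refine sc.hfin.trans ?_
    rw [← hy]
    have k1 : n ^ y ≤ (1 + n) ^ y := Real.rpow_le_rpow hnn (by linarith) hy0
    have k2 : 0 ≤ (1 + n) ^ y := Real.rpow_nonneg (by linarith) _
    have k3 : 0 ≤ A1 * (1 + max N 1) ^ (1 - lam) := by
      have : 0 ≤ (1 + max N 1) ^ (1 - lam) :=
        Real.rpow_nonneg (by have := le_max_right N 1; linarith) _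
      positivity
    nlinarith

/-- fluctuations about the time constant with exponent `lam` -/
def FL (X : Sym2 (ℤ × ℤ) → Ω → ℝ) (μ : Seminorm ℝ (ℝ × ℝ)) (lam : ℝ) : Prop :=
  ∃ A : ℝ, 0 < A ∧ ∀ v : ℤ × ℤ, ∫ ω, |D (env X ω) 0 v - μ (em v)| ∂(volume : Measure Ω) ≤
    A * (1 + μ (em v)) ^ (1 - lam)

theorem FL_zero (hX : Iid X) {μ : Seminorm ℝ (ℝ × ℝ)} (hμ : ∀ x, μ x = 0 → x = 0) : FL X μ 0 := by
  obtain ⟨Al, hAl, hlin⟩ := mt_lin hX μ hμ
  refine ⟨Al + 1, by linarith, fun v => ?_⟩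
  have h1 := apply_nonneg μ (em v)
  have h2 : ∫ ω, |D (env X ω) 0 v - μ (em v)| ∂(volume : Measure Ω) ≤
      ∫ ω, (D (env X ω) 0 v + μ (em v)) ∂(volume : Measure Ω) := by
    refine integral_mono_ae ((cINT Ω X hX 0 v).sub (integrable_const _)).abs
      ((cINT Ω X hX 0 v).add (integrable_const _)) ?_
    filter_upwards [cAE Ω X hX] with ω hω
    have h3 := (cGE (env X ω) hω 0 v).2.2.1
    show |D (env X ω) 0 v - μ (em v)| ≤ D (env X ω) 0 v + μ (em v)
    rw [abs_le]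
    constructor <;> linarith
  rw [integral_add (cINT Ω X hX 0 v) (integrable_const _), integral_const] at h2
  have : (volume : Measure Ω).real univ = 1 := by simp
  rw [this, one_smul] at h2
  have h4 := hlin v
  unfold mt at h4
  rw [sub_zero, Real.rpow_one]
  nlinarith

theorem FL_step (hX : Iid X) {μ : Seminorm ℝ (ℝ × ℝ)}
    (hG : Good (fun ω v => D (env X ω) 0 v) μ)
    (hlim : ∀ v : ℤ × ℤ, ∀ᵐ ω ∂(volume : Measure Ω),
      Tendsto (fun n : ℕ => D (env X ω) 0 ((n : ℤ) • v) / (n : ℝ)) atTop (𝓝 (μ (em v))))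
    (κ lam lam' : ℝ) (h0 : 0 ≤ lam) (h1 : lam < κ) (h2 : κ < 1) (h3 : 0 < lam')
    (h4 : lam' < lam + (κ - lam) * (1 - lam) / 16) (hSp : FL X μ lam) (hGr : Gr X μ κ) :
    FL X μ lam' := by
  obtain ⟨A1, hA1, hSp'⟩ := hSp
  obtain ⟨A, hA, hb⟩ := fluc_step hX hG hlim κ lam A1 hA1 h0 h1 h2 hSp' hGr
  obtain ⟨K, hK⟩ : ∃ K, K = lam + (κ - lam) * (1 - lam) / 16 := ⟨_, rfl⟩
  rw [← hK] at hb h4
  have hK1 : K < 1 := by
    rw [hK]
    have k1 : (κ - lam) * (1 - lam) ≤ 1 * (1 - lam) :=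
      mul_le_mul_of_nonneg_right (by linarith) (by linarith)
    linarith
  obtain ⟨C, hC1, hCc⟩ := size_cmp μ hG.norm
  have hC0 : 0 ≤ C := by linarith
  choose b hb using hb
  have h4' : ∀ κ : ℝ, 0 < κ → κ < K → ∃ (A : ℝ) (a : ℤ × ℤ → ℝ), ∀ v : ℤ × ℤ,
        ∫ ω, |D (env X ω) 0 v - a v| ∂(volume : Measure Ω) ≤
          A * (1 + |(v.1 : ℝ)| + |(v.2 : ℝ)|) ^ (1 - κ) := by
    intro κ1 k0 k1
    refine ⟨A * C ^ (1 - κ1), b, fun v => (hb v).trans ?_⟩
    have g0 := apply_nonneg μ (em v)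
    have g1 : (1 + μ (em v)) ^ (1 - K) ≤ (1 + μ (em v)) ^ (1 - κ1) :=
      Real.rpow_le_rpow_of_exponent_le (by linarith) (by linarith)
    have g2 : (1 + μ (em v)) ^ (1 - κ1) ≤
        C ^ (1 - κ1) * (1 + |(v.1 : ℝ)| + |(v.2 : ℝ)|) ^ (1 - κ1) :=
      pow_cmp (by linarith) hC0 (by positivity) (hCc v).1 (by linarith)
    calc A * (1 + μ (em v)) ^ (1 - K) ≤
          A * (C ^ (1 - κ1) * (1 + |(v.1 : ℝ)| + |(v.2 : ℝ)|) ^ (1 - κ1)) :=
          mul_le_mul_of_nonneg_left (g1.trans g2) hA.le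
      _ = _ := by ring
  have hQ := ((eq2 hX hG hlim K hK1).out 3 0).1 h4'
  have h6 : ∀ κ : ℝ, 0 < κ → κ < K → ∃ A : ℝ, ∀ v : ℤ × ℤ,
        ∫ ω, |D (env X ω) 0 v - μ (em v)| ∂(volume : Measure Ω) ≤
          A * (1 + μ (em v)) ^ (1 - κ) := ((eq hX hG K hK1).out 0 5).1 hQ
  obtain ⟨A2, hA2⟩ := h6 lam' h3 h4
  refine ⟨|A2| + 1, by positivity, fun v => (hA2 v).trans ?_⟩
  have g0 := apply_nonneg μ (em v)
  have g1 : 0 ≤ (1 + μ (em v)) ^ (1 - lam') := Real.rpow_nonneg (by linarith) _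
  exact mul_le_mul_of_nonneg_right (by have := le_abs_self A2; linarith) g1

theorem FL_all (hX : Iid X) {μ : Seminorm ℝ (ℝ × ℝ)}
    (hG : Good (fun ω v => D (env X ω) 0 v) μ)
    (hlim : ∀ v : ℤ × ℤ, ∀ᵐ ω ∂(volume : Measure Ω),
      Tendsto (fun n : ℕ => D (env X ω) 0 ((n : ℤ) • v) / (n : ℝ)) atTop (𝓝 (μ (em v))))
    (κ κ' : ℝ) (h0 : 0 < κ') (h1 : κ' < κ) (h2 : κ < 1) (hGr : Gr X μ κ) : FL X μ κ' := by
  obtain ⟨δ, hδ⟩ : ∃ δ, δ = (κ - κ') * (1 - κ') / 32 := ⟨_, rfl⟩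
  have hδ0 : 0 < δ := by
    rw [hδ]
    have : 0 < (κ - κ') * (1 - κ') := mul_pos (by linarith) (by linarith)
    linarith
  have key : ∀ j : ℕ, FL X μ (min κ' (j * δ)) := by
    intro j
    induction j with
    | zero =>
      have : min κ' (((0 : ℕ) : ℝ) * δ) = 0 := by
        rw [Nat.cast_zero, zero_mul]; exact min_eq_right h0.le
      rw [this]
      exact FL_zero hX hG.norm
    | succ j ih =>
      obtain ⟨κ0, hκ0⟩ : ∃ κ0, κ0 = min κ' ((j : ℝ) * δ) := ⟨_, rfl⟩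
      rw [← hκ0] at ih
      have k1 : 0 ≤ κ0 := by
        rw [hκ0]; exact le_min h0.le (by positivity)
      have k2 : κ0 ≤ κ' := by rw [hκ0]; exact min_le_left _ _
      have k3 : 2 * δ ≤ (κ - κ0) * (1 - κ0) / 16 := by
        rw [hδ]
        have : (κ - κ') * (1 - κ') ≤ (κ - κ0) * (1 - κ0) :=
          mul_le_mul (by linarith) (by linarith) (by linarith) (by linarith)
        linarith
      refine FL_step hX hG hlim κ κ0 _ k1 (by linarith) h2 ?_ ?_ ih hGr
      · exact lt_min h0 (by positivity)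
      · rcases le_total κ' ((j : ℝ) * δ) with k4 | k4
        · have k5 : κ0 = κ' := by rw [hκ0]; exact min_eq_left k4
          refine lt_of_le_of_lt (min_le_left _ _) ?_
          linarith
        · have k5 : κ0 = (j : ℝ) * δ := by rw [hκ0]; exact min_eq_right k4
          refine lt_of_le_of_lt (min_le_right _ _) ?_
          push_cast
          linarith
  obtain ⟨j, hj⟩ := exists_nat_ge (κ' / δ)
  have h3 := key j
  rwa [min_eq_left] at h3
  rwa [div_le_iff₀ hδ0] at hj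

end

end Pool.Agent.V7H97.FO
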