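import Pool.Agent.V7H97.FO.Step

/-!
# From a splitting property of the mean passage time to a rate of convergence
-/

set_option autoImplicit false

open MeasureTheory ProbabilityTheory Filter Set
open scoped Pointwise Topology

namespace Pool.Agent.V7H97.FO

open Pool.Agent.N662.FP

/-- a subadditive function on the lattice with limit norm `μ` -/
structure Sa (h : ℤ × ℤ → ℝ) (μ : Seminorm ℝ (ℝ × ℝ)) (Al : ℝ) : Prop where
  norm : ∀ x, μ x = 0 → x = 0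
  zero : h 0 = 0
  add : ∀ v w, h (v + w) ≤ h v + h w
  le : ∀ v, μ (em v) ≤ h v
  lin : ∀ v, h v ≤ Al * μ (em v)
  lim : ∀ (v : ℤ × ℤ) (ε : ℝ), 0 < ε → ∃ k : ℕ, 0 < k ∧ h ((k : ℤ) • v) ≤ k * (μ (em v) + ε)

/-- the normalised generators of size at most `m` -/
def Sg (h : ℤ × ℤ → ℝ) (m : ℝ) : Set (ℝ × ℝ) :=
  {x | x = 0 ∨ ∃ w : ℤ × ℤ, 0 < h w ∧ h w ≤ m ∧ x = (h w)⁻¹ • em w}

/-- their convex hull -/
def Kh (h : ℤ × ℤ → ℝ) (m : ℝ) : Set (ℝ × ℝ) := convexHull ℝ (Sg h m)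

section
variable {h : ℤ × ℤ → ℝ} {μ : Seminorm ℝ (ℝ × ℝ)} {Al : ℝ}

theorem Kh_conv (h : ℤ × ℤ → ℝ) (m : ℝ) : Convex ℝ (Kh h m) := convex_convexHull ℝ _

theorem Kh_zero (h : ℤ × ℤ → ℝ) (m : ℝ) : (0 : ℝ × ℝ) ∈ Kh h m :=
  subset_convexHull ℝ _ (Or.inl rfl)

theorem Kh_mono {m m' : ℝ} (hm : m ≤ m') : Kh h m ⊆ Kh h m' := by
  refine convexHull_mono ?_
  rintro x (h0 | ⟨w, h1, h2, h3⟩)
  · exact Or.inl h0
  · exact Or.inr ⟨w, h1, h2.trans hm, h3⟩

theorem Kh_add {m a b : ℝ} {x y : ℝ × ℝ} (ha : 0 ≤ a) (hb : 0 ≤ b) (hx : x ∈ a • Kh h m)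
    (hy : y ∈ b • Kh h m) : x + y ∈ (a + b) • Kh h m := by
  rw [(Kh_conv h m).add_smul ha hb]
  exact Set.add_mem_add hx hy

theorem Kh_le {m a b : ℝ} {x : ℝ × ℝ} (ha : 0 ≤ a) (hab : a ≤ b) (hx : x ∈ a • Kh h m) :
    x ∈ b • Kh h m := by
  have h1 : (0 : ℝ × ℝ) ∈ (b - a) • Kh h m := ⟨0, Kh_zero h m, smul_zero _⟩
  have h2 := Kh_add ha (sub_nonneg.2 hab) hx h1
  rwa [add_zero, add_sub_cancel] at h2

theorem Kh_smul {m a c : ℝ} {x : ℝ × ℝ} (hx : x ∈ a • Kh h m) : c • x ∈ (c * a) • Kh h m := by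
  obtain ⟨y, hy, rfl⟩ := hx
  exact ⟨y, hy, by simp only [smul_smul]⟩

theorem Kh_gen (hS : Sa h μ Al) {m : ℝ} {w : ℤ × ℤ} (hw : h w ≤ m) : em w ∈ h w • Kh h m := by
  have h0 : 0 ≤ h w := (apply_nonneg μ _).trans (hS.le w)
  rcases h0.eq_or_lt with h1 | h1
  · have h2 : μ (em w) = 0 := le_antisymm (by rw [h1]; exact hS.le w) (apply_nonneg μ _)
    rw [hS.norm _ h2, ← h1]
    exact ⟨0, Kh_zero h m, smul_zero _⟩
  · exact ⟨(h w)⁻¹ • em w, subset_convexHull ℝ _ (Or.inr ⟨w, h1, hw, rfl⟩),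
      by simp only [smul_smul]; rw [mul_inv_cancel₀ h1.ne', one_smul]⟩

/-- every vector is a combination of unit vectors -/
theorem Kh_ball (hS : Sa h μ Al) : ∃ c m0 : ℝ, 0 < c ∧ ∀ (m : ℝ) (e : ℝ × ℝ), m0 ≤ m →
    e ∈ (c * μ e) • Kh h m := by
  obtain ⟨cm, Cn, hcm, hCn, hnorm⟩ := cNORM μ hS.norm
  obtain ⟨H, hH⟩ : ∃ H, H = h (1, 0) + h (-1, 0) + h (0, 1) + h (0, -1) := ⟨_, rfl⟩
  have hn : ∀ w, 0 ≤ h w := fun w => (apply_nonneg μ _).trans (hS.le w)
  have h1 := hn (1, 0)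
  have h2 := hn (-1, 0)
  have h3 := hn (0, 1)
  have h4 := hn (0, -1)
  have hH0 : 0 ≤ H := by linarith
  refine ⟨2 * (H + 1) / cm, H, by positivity, fun m e hm => ?_⟩
  have key : ∀ (t : ℝ) (w : ℤ × ℤ), h w ≤ H → h (-w) ≤ H → t • em w ∈ (|t| * H) • Kh h m := by
    intro t w hw hw'
    rcases le_total 0 t with ht | ht
    · rw [abs_of_nonneg ht]
      have := Kh_smul (c := t) (Kh_gen hS (m := m) (w := w) (hw.trans hm))
      exact Kh_le (mul_nonneg ht (hn w)) (mul_le_mul_of_nonneg_left hw ht) this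
    · rw [abs_of_nonpos ht]
      have e1 : t • em w = (-t) • em (-w) := by
        have : em (-w) = -em w := by
          unfold Pool.Agent.N662.FP.em
          ext <;> simp
        rw [this, smul_neg, neg_smul, neg_neg]
      rw [e1]
      have := Kh_smul (c := -t) (Kh_gen hS (m := m) (w := -w) (hw'.trans hm))
      exact Kh_le (mul_nonneg (by linarith) (hn _)) (mul_le_mul_of_nonneg_left hw' (by linarith))
        this
  have e1 : e = e.1 • em (1, 0) + e.2 • em (0, 1) := by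
    unfold Pool.Agent.N662.FP.em
    ext <;> simp
  have k1 := key e.1 (1, 0) (by linarith) (by
    have : (-((1, 0) : ℤ × ℤ)) = (-1, 0) := by ext <;> simp
    rw [this]; linarith)
  have k2 := key e.2 (0, 1) (by linarith) (by
    have : (-((0, 1) : ℤ × ℤ)) = (0, -1) := by ext <;> simp
    rw [this]; linarith)
  have k3 := Kh_add (by positivity) (by positivity) k1 k2
  rw [← e1] at k3
  refine Kh_le (by positivity) ?_ k3
  have h5 := (hnorm e).1
  have h6 : |e.1| ≤ μ e / cm := by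
    rw [le_div_iff₀ hcm, mul_comm]
    exact (mul_le_mul_of_nonneg_left (le_max_left _ _) hcm.le).trans h5
  have h7 : |e.2| ≤ μ e / cm := by
    rw [le_div_iff₀ hcm, mul_comm]
    exact (mul_le_mul_of_nonneg_left (le_max_right _ _) hcm.le).trans h5
  have h8 : 0 ≤ μ e / cm := (abs_nonneg _).trans h6
  calc |e.1| * H + |e.2| * H ≤ μ e / cm * (H + 1) + μ e / cm * (H + 1) := by
        gcongr <;> linarith
    _ = 2 * (H + 1) / cm * μ e := by ring

/-- the splitting property -/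
def Spl (h : ℤ × ℤ → ℝ) (μ : Seminorm ℝ (ℝ × ℝ)) (δ C N0 : ℝ) : Prop :=
  ∀ v : ℤ × ℤ, N0 ≤ h v → ∃ (w1 w2 : ℤ × ℤ) (t : ℝ), 0 ≤ t ∧ h w1 ≤ 3 / 4 * h v ∧
    h w2 ≤ 3 / 4 * h v ∧ μ (em (w1 + w2) - (1 + t) • em v) ≤ C ∧
    h w1 + h w2 ≤ h v + t * μ (em v) + C * h v ^ (1 - δ)

theorem Kh_step (hS : Sa h μ Al) {δ C N0 : ℝ} (hC : 0 < C) (hδ : 0 < δ) (hδ1 : δ < 1)
    (hspl : Spl h μ δ C N0) : ∃ C' m0 : ℝ, 0 < C' ∧ 1 ≤ m0 ∧ ∀ m, m0 ≤ m →
      Kh h (4 / 3 * m) ⊆ (1 + C' * m ^ (-δ)) • Kh h m := by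
  obtain ⟨c, m1, hc, hball⟩ := Kh_ball hS
  refine ⟨C + c * C, max (max m1 N0) 1, by positivity, le_max_right _ _, fun m hm => ?_⟩
  have hm1 : m1 ≤ m := (le_max_left _ _).trans ((le_max_left _ _).trans hm)
  have hmN : N0 ≤ m := (le_max_right _ _).trans ((le_max_left _ _).trans hm)
  have hmo : 1 ≤ m := (le_max_right _ _).trans hm
  have hm0 : 0 < m := by linarith
  have hr0 : 0 ≤ (C + c * C) * m ^ (-δ) := by positivity
  refine convexHull_min ?_ ((Kh_conv h m).smul _)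
  rintro x (h0 | ⟨w, h1, h2, h3⟩)
  · rw [h0]
    exact ⟨0, Kh_zero h m, smul_zero _⟩
  · rcases le_or_gt (h w) m with hwm | hwm
    · have k1 : x ∈ (1 : ℝ) • Kh h m := by
        rw [one_smul]
        exact subset_convexHull ℝ _ (Or.inr ⟨w, h1, hwm, h3⟩)
      exact Kh_le zero_le_one (by linarith) k1
    · obtain ⟨w1, w2, t, ht, k1, k2, k3, k4⟩ := hspl w (hmN.trans hwm.le)
      have hn : ∀ w, 0 ≤ h w := fun w => (apply_nonneg μ _).trans (hS.le w)
      have g1 := Kh_gen hS (m := m) (w := w1) (by linarith)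
      have g2 := Kh_gen hS (m := m) (w := w2) (by linarith)
      have g3 := Kh_add (hn w1) (hn w2) g1 g2
      obtain ⟨e, he⟩ : ∃ e, e = (1 + t) • em w - em (w1 + w2) := ⟨_, rfl⟩
      have he' : μ e ≤ C := by
        rw [he, ← map_neg_eq_map, neg_sub]; exact k3
      have g4 := Kh_le (by positivity) (mul_le_mul_of_nonneg_left he' hc.le) (hball m e hm1)
      have g5 := Kh_add (add_nonneg (hn w1) (hn w2)) (by positivity) g3 g4
      have e1 : em w1 + em w2 + e = (1 + t) • em w := by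
        rw [he, em_add]; abel
      rw [e1] at g5
      obtain ⟨E, hE⟩ : ∃ E, E = C * h w ^ (1 - δ) + c * C := ⟨_, rfl⟩
      have hE0 : 0 ≤ E := by rw [hE]; positivity
      have hμw := hS.le w
      have g6 : (1 + t) • em w ∈ ((1 + t) * (h w + E)) • Kh h m := by
        refine Kh_le (by have := hn w1; have := hn w2; positivity) ?_ g5
        have : 0 ≤ t * (h w - μ (em w)) := mul_nonneg ht (by linarith)
        have : 0 ≤ t * E := by positivity
        nlinarith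
      have h1t : 0 < 1 + t := by linarith
      have g7 := Kh_smul (c := (1 + t)⁻¹) g6
      rw [smul_smul, inv_mul_cancel₀ h1t.ne', one_smul, ← mul_assoc, inv_mul_cancel₀ h1t.ne',
        one_mul] at g7
      have g8 := Kh_smul (c := (h w)⁻¹) g7
      rw [← h3] at g8
      refine Kh_le (by positivity) ?_ g8
      have e2 : (h w)⁻¹ * (h w + E) = 1 + E / h w := by field_simp
      rw [e2]
      have hw1 : 1 ≤ h w := by linarith
      have e3 : E / h w ≤ (C + c * C) * h w ^ (-δ) := by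
        rw [div_le_iff₀ h1, hE]
        have e4 : h w ^ (-δ) * h w = h w ^ (1 - δ) := by
          rw [← Real.rpow_add_one h1.ne']; congr 1; ring
        have e5 : 1 ≤ h w ^ (1 - δ) := Real.one_le_rpow hw1 (by linarith)
        have e6 : c * C * 1 ≤ c * C * h w ^ (1 - δ) := by gcongr
        calc C * h w ^ (1 - δ) + c * C ≤ (C + c * C) * h w ^ (1 - δ) := by linarith
          _ = (C + c * C) * h w ^ (-δ) * h w := by rw [mul_assoc, e4]
      have e7 : h w ^ (-δ) ≤ m ^ (-δ) :=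
        Real.rpow_le_rpow_of_nonpos hm0 hwm.le (by linarith)
      have e8 : (C + c * C) * h w ^ (-δ) ≤ (C + c * C) * m ^ (-δ) := by gcongr
      linarith

theorem Kh_iter (hS : Sa h μ Al) {δ C N0 : ℝ} (hC : 0 < C) (hδ : 0 < δ) (hδ1 : δ < 1)
    (hspl : Spl h μ δ C N0) : ∃ C' m0 : ℝ, 0 < C' ∧ 1 ≤ m0 ∧ ∀ m, m0 ≤ m → ∀ m',
      Kh h m' ⊆ (1 + C' * m ^ (-δ)) • Kh h m := by
  obtain ⟨C1, m1, hC1, hm1, hst⟩ := Kh_step hS hC hδ hδ1 hspl
  obtain ⟨q, hq⟩ : ∃ q : ℝ, q = (4 / 3 : ℝ) ^ (-δ) := ⟨_, rfl⟩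
  have hq0 : 0 < q := by rw [hq]; positivity
  have hq1 : q < 1 := by
    rw [hq]; exact Real.rpow_lt_one_of_one_lt_of_neg (by norm_num) (by linarith)
  have h1q : 0 < 1 - q := by linarith
  obtain ⟨C2, hC2⟩ : ∃ C2, C2 = C1 / (1 - q) := ⟨_, rfl⟩
  have hC20 : 0 < C2 := by rw [hC2]; positivity
  obtain ⟨m2, hm2⟩ := eventually_atTop.1 (ev0 C2 δ hδ)
  refine ⟨2 * C2, max m1 m2, by positivity, hm1.trans (le_max_left _ _), fun m hm m' => ?_⟩
  have hmm1 : m1 ≤ m := (le_max_left _ _).trans hm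
  have hmm2 : m2 ≤ m := (le_max_right _ _).trans hm
  have hm0 : 0 < m := by linarith
  obtain ⟨y, hy⟩ : ∃ y, y = C1 * m ^ (-δ) := ⟨_, rfl⟩
  have hy0 : 0 < y := by rw [hy]; positivity
  have key : ∀ j : ℕ, Kh h ((4 / 3) ^ j * m) ⊆
      (Real.exp (y * ∑ i ∈ Finset.range j, q ^ i)) • Kh h m := by
    intro j
    induction j with
    | zero => simp
    | succ j ih =>
      have h1 : m1 ≤ (4 / 3) ^ j * m := by
        have : (1 : ℝ) ≤ (4 / 3) ^ j := one_le_pow₀ (by norm_num)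
        calc m1 ≤ m := hmm1
          _ = 1 * m := (one_mul m).symm
          _ ≤ (4 / 3) ^ j * m := by gcongr
      have h2 := hst _ h1
      have e1 : 4 / 3 * ((4 / 3) ^ j * m) = (4 / 3) ^ (j + 1) * m := by rw [pow_succ]; ring
      rw [e1] at h2
      have e2 : C1 * ((4 / 3) ^ j * m) ^ (-δ) = y * q ^ j := by
        rw [Real.mul_rpow (by positivity) hm0.le, hy, hq, ← Real.rpow_natCast, ← Real.rpow_mul
          (by norm_num), ← Real.rpow_natCast, ← Real.rpow_mul (by norm_num), mul_comm (-δ) (j : ℝ)]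
        ring
      rw [e2] at h2
      intro x hx
      obtain ⟨x', hx', rfl⟩ := h2 hx
      have h3 := Kh_smul (c := 1 + y * q ^ j) (ih hx')
      refine Kh_le (by positivity) ?_ h3
      rw [Finset.sum_range_succ, mul_add, Real.exp_add, mul_comm]
      gcongr
      have := Real.add_one_le_exp (y * q ^ j)
      linarith
  obtain ⟨j, hj⟩ := pow_unbounded_of_one_lt (m' / m) (show (1 : ℝ) < 4 / 3 by norm_num)
  rw [div_lt_iff₀ hm0] at hj
  refine (Kh_mono hj.le).trans fun x hx => Kh_le (by positivity) ?_ (key j hx)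
  have h4 : ∑ i ∈ Finset.range j, q ^ i ≤ 1 / (1 - q) := by
    rw [geom_sum_eq hq1.ne, ← neg_div_neg_eq, neg_sub, neg_sub]
    have : 0 ≤ q ^ j := by positivity
    gcongr
    linarith
  have h5 : y * ∑ i ∈ Finset.range j, q ^ i ≤ C2 * m ^ (-δ) := by
    calc y * ∑ i ∈ Finset.range j, q ^ i ≤ y * (1 / (1 - q)) := by gcongr
      _ = C2 * m ^ (-δ) := by rw [hy, hC2]; ring
  have h6 : C2 * m ^ (-δ) ≤ 1 := by
    rw [Real.rpow_neg hm0.le, ← div_eq_mul_inv, div_le_one (Real.rpow_pos_of_pos hm0 _)]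
    exact hm2 m hmm2
  have h7 : 0 ≤ C2 * m ^ (-δ) := by positivity
  refine (Real.exp_le_exp.2 h5).trans ?_
  have h8 := Real.exp_bound' h7 h6 (n := 1) one_pos
  simp at h8
  have h9 : (C2 * m ^ (-δ)) * (1 + 1) ≤ 2 * C2 * m ^ (-δ) := by linarith
  nlinarith

end

end Pool.Agent.V7H97.FO
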