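import Pool.Agent.V7H97.FO.Step

/-!
# The bootstrap, and the outer event
-/

set_option autoImplicit false

open MeasureTheory ProbabilityTheory Filter Set
open scoped Pointwise

namespace Pool.Agent.V7H97.FO

open Pool.Agent.N662.FP

section
variable {Ω : Type} [MeasureSpace Ω] [IsProbabilityMeasure (volume : Measure Ω)]
variable {X : Sym2 (ℤ × ℤ) → Ω → ℝ}

theorem LS_zero (hX : Iid X) (μ : Seminorm ℝ (ℝ × ℝ)) : LS X μ 0 := by
  refine ⟨1, 0, one_pos, fun v _ => ?_⟩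
  have h2 : (volume : Measure Ω) {ω | D (env X ω) 0 v < μ (em v) - μ (em v) ^ ((1 : ℝ) - 0)} = 0 := by
    have hae : ∀ᵐ ω ∂(volume : Measure Ω),
        ¬ (D (env X ω) 0 v < μ (em v) - μ (em v) ^ ((1 : ℝ) - 0)) := by
      filter_upwards [cAE Ω X hX] with ω hω
      obtain ⟨-, -, h3, -⟩ := cGE (env X ω) hω 0 v
      rw [not_lt, sub_zero, Real.rpow_one]
      linarith
    exact measure_eq_zero_iff_ae_notMem.2 hae
  rw [measureReal_def, h2]
  simp [Real.exp_nonneg]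

theorem LS_mono {μ : Seminorm ℝ (ℝ × ℝ)} {κ κ' : ℝ} (h : κ' ≤ κ) (hL : LS X μ κ) : LS X μ κ' := by
  obtain ⟨c, N, hc, hN⟩ := hL
  refine ⟨c, max N 1, hc, fun v hv => ?_⟩
  have h1 : N ≤ μ (em v) := (le_max_left _ _).trans hv
  have h2 : 1 ≤ μ (em v) := (le_max_right _ _).trans hv
  refine le_trans (measureReal_mono (fun ω hω => ?_) (measure_ne_top _ _)) (hN v h1)
  have h3 : D (env X ω) 0 v < μ (em v) - μ (em v) ^ (1 - κ') := hω
  show D (env X ω) 0 v < μ (em v) - μ (em v) ^ (1 - κ)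
  have h4 : μ (em v) ^ (1 - κ) ≤ μ (em v) ^ (1 - κ') :=
    Real.rpow_le_rpow_of_exponent_le h2 (by linarith)
  linarith

/-- the lower tail from typical upper bounds -/
theorem lower (hX : Iid X) {μ : Seminorm ℝ (ℝ × ℝ)}
    (hG : Good (fun ω v => D (env X ω) 0 v) μ) (κ κ' A d : ℝ) (h0 : 0 < κ') (h01 : κ' < κ)
    (h1 : κ < 1) (hA : 0 < A) (hd : 0 < d)
    (hUP : ∀ v : ℤ × ℤ, (volume : Measure Ω).real
      {ω | μ (em v) + A * (1 + μ (em v)) ^ (1 - κ) ≤ D (env X ω) 0 v} ≤ Real.exp (-(1 + d))) :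
    LS X μ κ' := by
  obtain ⟨δ, hδ⟩ : ∃ δ, δ = (κ - κ') * (1 - κ') / 128 := ⟨_, rfl⟩
  have hδ0 : 0 < δ := by
    rw [hδ]
    have : 0 < (κ - κ') * (1 - κ') := mul_pos (by linarith) (by linarith)
    linarith
  have key : ∀ j : ℕ, LS X μ (min κ' (j * δ)) := by
    intro j
    induction j with
    | zero =>
      have : min κ' (((0 : ℕ) : ℝ) * δ) = 0 := by
        rw [Nat.cast_zero, zero_mul]; exact min_eq_right h0.le
      rw [this]
      exact LS_zero hX μ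
    | succ j ih =>
      obtain ⟨κ0, hκ0⟩ : ∃ κ0, κ0 = min κ' ((j : ℝ) * δ) := ⟨_, rfl⟩
      rw [← hκ0] at ih
      have k1 : 0 ≤ κ0 := by
        rw [hκ0]; exact le_min h0.le (by positivity)
      have k2 : κ0 ≤ κ' := by rw [hκ0]; exact min_le_left _ _
      have hs := step hX hG κ0 κ A d k1 (by linarith) h1 hA hd hUP ih
      refine LS_mono ?_ hs
      have k3 : δ ≤ (κ - κ0) * (1 - κ0) / 128 := by
        rw [hδ]
        have : (κ - κ') * (1 - κ') ≤ (κ - κ0) * (1 - κ0) :=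
          mul_le_mul (by linarith) (by linarith) (by linarith) (by linarith)
        linarith
      rcases le_total κ' ((j : ℝ) * δ) with k4 | k4
      · have k5 : κ0 = κ' := by rw [hκ0]; exact min_eq_left k4
        refine (min_le_left _ _).trans ?_
        linarith
      · have k5 : κ0 = (j : ℝ) * δ := by rw [hκ0]; exact min_eq_right k4
        refine (min_le_right _ _).trans ?_
        push_cast
        linarith
  obtain ⟨j, hj⟩ := exists_nat_ge (κ' / δ)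
  have h2 := key j
  rwa [min_eq_left] at h2
  rwa [div_le_iff₀ hδ0] at hj

/-- the outer event: a part of the fattened cluster is outside `(1 + t ^ (-κ)) t` times the limit
shape -/
def Out {Ω : Type} (T : Ω → ℤ × ℤ → ℝ) (μ : Seminorm ℝ (ℝ × ℝ)) (κ t : ℝ) : Set Ω :=
  {ω | ¬ (Fat (T ω) t ⊆ ((1 + t ^ (-κ)) * t) • {x : ℝ × ℝ | μ x ≤ 1})}

theorem path_level (x : Sym2 (ℤ × ℤ) → ℝ) (hx : ∀ e, 0 ≤ x e) (μ : Seminorm ℝ (ℝ × ℝ)) (C : ℝ)
    (hstep : ∀ z z' : ℤ × ℤ, |z'.1 - z.1| + |z'.2 - z.2| = 1 → μ (em z' - em z) ≤ C)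
    (v : ℤ × ℤ) (s lev : ℝ) (hs : D x 0 v < s) (hlev : 0 ≤ lev) (hv : lev < μ (em v)) :
    ∃ w : ℤ × ℤ, lev < μ (em w) ∧ μ (em w) ≤ lev + C ∧ D x 0 w < s := by
  classical
  obtain ⟨hne, hbd, -, -⟩ := cGE x hx 0 v
  obtain ⟨s', ⟨n, p, p0, pn, padj, psum⟩, hs'⟩ := exists_lt_of_csInf_lt hne hs
  have hex : ∃ i, i ≤ n ∧ lev < μ (em (p i)) := ⟨n, le_rfl, by rw [pn]; exact hv⟩
  obtain ⟨i, hi, hmin⟩ : ∃ i, (i ≤ n ∧ lev < μ (em (p i))) ∧ ∀ j < i, ¬ (j ≤ n ∧ lev < μ (em (p j))) :=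
    ⟨Nat.find hex, Nat.find_spec hex, fun j hj => Nat.find_min hex hj⟩
  obtain ⟨hin, hil⟩ := hi
  refine ⟨p i, hil, ?_, ?_⟩
  · rcases Nat.eq_zero_or_pos i with h0 | h0
    · rw [h0, p0] at hil
      have : Pool.Agent.N662.FP.em 0 = 0 := by unfold Pool.Agent.N662.FP.em; ext <;> simp
      rw [this, map_zero] at hil
      linarith
    · have h1 := hmin (i - 1) (by omega)
      have h2 : μ (em (p (i - 1))) ≤ lev := by
        by_contra h3
        exact h1 ⟨by omega, not_le.1 h3⟩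
      have h3 := padj (i - 1) (by omega)
      rw [Nat.sub_add_cancel h0] at h3
      have h4 := hstep _ _ h3
      have h5 : em (p i) = (em (p i) - em (p (i - 1))) + em (p (i - 1)) := by abel
      rw [h5]
      refine (map_add_le_add μ _ _).trans ?_
      linarith
  · obtain ⟨-, hbd', -, -⟩ := cGE x hx 0 (p i)
    have h1 : D x 0 (p i) ≤ ∑ j ∈ Finset.range i, x s(p j, p (j + 1)) :=
      csInf_le hbd' ⟨i, p, p0, rfl, fun j hj => padj j (by omega), rfl⟩
    have h2 : ∑ j ∈ Finset.range i, x s(p j, p (j + 1)) ≤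
        ∑ j ∈ Finset.range n, x s(p j, p (j + 1)) :=
      Finset.sum_le_sum_of_subset_of_nonneg (Finset.range_mono hin) fun i _ _ => hx _
    linarith

/-- the outer event from the lower tail -/
theorem outer (hX : Iid X) {μ : Seminorm ℝ (ℝ × ℝ)} (hμ : ∀ x, μ x = 0 → x = 0)
    (κ κ' : ℝ) (h0 : 0 < κ') (h01 : κ' < κ) (h1 : κ < 1) (hL : LS X μ κ) :
    ∃ c : ℝ, 0 < c ∧ ∀ᶠ t : ℝ in atTop, (volume : Measure Ω).real
      (Out (fun ω v => D (env X ω) 0 v) μ κ' t) ≤ Real.exp (-(t ^ c)) := by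
  classical
  obtain ⟨C, hC⟩ := exists_Ct μ hμ
  obtain ⟨cm, Cn, hcm, hCn, hnorm⟩ := cNORM μ hμ
  obtain ⟨c0, N0, hc0, hL0⟩ := hL
  have hC0 := hC.pos
  refine ⟨c0 / 2, by linarith, ?_⟩
  have v1 := ev 6 (1 - κ) (1 - κ') (by linarith)
  have v2 := ev0 (2 * (Cn + C + 2)) (1 - κ') (by linarith)
  have v3 := ev 1 (1 - κ') 1 (by linarith)
  have v4 := ev2 ((6 / cm + 3) ^ 2) 2 1 c0 (c0 / 2) one_pos (by linarith) (by linarith)
  filter_upwards [v1, v2, v3, v4, eventually_ge_atTop 1, eventually_ge_atTop N0,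
    eventually_ge_atTop C, eventually_ge_atTop Cn] with t v1 v2 v3 v4 t1 t2 t3 t4
  rw [Real.rpow_one, one_mul] at v3
  have ht0 : 0 < t := by linarith
  obtain ⟨q, hq⟩ : ∃ q, q = t ^ (1 - κ') := ⟨_, rfl⟩
  rw [← hq] at v1 v2 v3
  have hq' : (1 + t ^ (-κ')) * t = t + q := by
    rw [hq, show (1 : ℝ) - κ' = -κ' + 1 by ring, Real.rpow_add_one ht0.ne']; ring
  obtain ⟨Q, hQ⟩ : ∃ Q : ℕ, Q = ⌈3 * t / cm⌉₊ := ⟨_, rfl⟩
  have hQ1 : 3 * t / cm ≤ Q := by rw [hQ]; exact Nat.le_ceil _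
  have hQ2 : (Q : ℝ) ≤ 3 * t / cm + 1 := by
    have := Nat.ceil_lt_add_one (show 0 ≤ 3 * t / cm by positivity)
    rw [← hQ] at this
    exact this.le
  obtain ⟨F, hF⟩ : ∃ F : Finset (ℤ × ℤ), F = (Bx Q).filter
    (fun z => t + q - Cn < μ (em z) ∧ μ (em z) ≤ 3 * t) := ⟨_, rfl⟩
  have hincl : ∀ᵐ ω ∂(volume : Measure Ω),
      (ω ∈ Out (fun ω v => D (env X ω) 0 v) μ κ' t) →
      ω ∈ ⋃ w ∈ F, {ω | D (env X ω) 0 w < t + 1} := by
    filter_upwards [cAE Ω X hX] with ω hω h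
    have h2 : ¬ (Fat (D (env X ω) 0) t ⊆ ((1 + t ^ (-κ')) * t) • {x : ℝ × ℝ | μ x ≤ 1}) := h
    rw [Set.not_subset] at h2
    obtain ⟨x, ⟨v, hv1, hv2, hv3⟩, hx⟩ := h2
    rw [hq'] at hx
    have hx' : t + q < μ x := by
      by_contra h3
      rw [not_lt] at h3
      apply hx
      have hpos : 0 < t + q := by linarith
      refine ⟨(t + q)⁻¹ • x, ?_, ?_⟩
      · show μ ((t + q)⁻¹ • x) ≤ 1
        rw [map_smul_eq_mul, Real.norm_eq_abs, abs_of_pos (inv_pos.2 hpos), inv_mul_le_iff₀ hpos,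
          mul_one]
        exact h3
      · show (t + q) • (t + q)⁻¹ • x = x
        rw [smul_smul, mul_inv_cancel₀ hpos.ne', one_smul]
    have h4 : μ (x - em v) ≤ Cn := by
      refine (hnorm _).2.trans ?_
      have h5 : max |(x - em v).1| |(x - em v).2| ≤ 1 := by
        refine max_le ?_ ?_
        · exact le_trans hv2 (by norm_num)
        · exact le_trans hv3 (by norm_num)
      calc Cn * _ ≤ Cn * 1 := by gcongr
        _ = Cn := mul_one _
    have h5 : μ x ≤ μ (x - em v) + μ (em v) := by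
      have : x = (x - em v) + em v := by abel
      conv_lhs => rw [this]
      exact map_add_le_add μ _ _
    obtain ⟨w, w1, w2, w3⟩ := path_level (env X ω) hω μ C hC.step v (t + 1) (t + q - Cn)
      (by linarith) (by linarith) (by linarith)
    refine mem_iUnion₂.2 ⟨w, ?_, w3⟩
    have w4 : μ (em w) ≤ 3 * t := by linarith
    rw [hF]
    refine Finset.mem_filter.2 ⟨?_, w1, w4⟩
    rw [mem_Bx]
    have h6 := (hnorm (em w)).1.trans w4
    have h7 : max |(em w).1| |(em w).2| ≤ Q := by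
      refine le_trans ?_ hQ1
      rw [le_div_iff₀ hcm, mul_comm]; exact h6
    have h8 : |(w.1 : ℝ)| ≤ Q := (le_max_left _ _).trans h7
    have h9 : |(w.2 : ℝ)| ≤ Q := (le_max_right _ _).trans h7
    exact ⟨by exact_mod_cast h8, by exact_mod_cast h9⟩
  have hprob : ∀ w ∈ F, (volume : Measure Ω).real {ω | D (env X ω) 0 w < t + 1} ≤
      Real.exp (-(t ^ c0)) := by
    intro w hw
    rw [hF] at hw
    obtain ⟨-, w1, w2⟩ := Finset.mem_filter.1 hw
    have w3 : t ≤ μ (em w) := by linarith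
    refine le_trans (measureReal_mono (fun ω hω => ?_) (measure_ne_top _ _))
      ((hL0 w (t2.trans w3)).trans (Real.exp_le_exp.2 ?_))
    · have h3 : D (env X ω) 0 w < t + 1 := hω
      show D (env X ω) 0 w < μ (em w) - μ (em w) ^ (1 - κ)
      have h4 : μ (em w) ^ (1 - κ) ≤ 3 * t ^ (1 - κ) := by
        calc μ (em w) ^ (1 - κ) ≤ (3 * t) ^ (1 - κ) :=
              Real.rpow_le_rpow (apply_nonneg μ _) w2 (by linarith)
          _ = 3 ^ (1 - κ) * t ^ (1 - κ) := Real.mul_rpow (by norm_num) ht0.le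
          _ ≤ 3 ^ (1 : ℝ) * t ^ (1 - κ) := by
              gcongr
              · norm_num
              · linarith
          _ = 3 * t ^ (1 - κ) := by rw [Real.rpow_one]
      linarith
    · have := Real.rpow_le_rpow ht0.le w3 hc0.le
      linarith
  have h2 : (volume : Measure Ω).real (Out (fun ω v => D (env X ω) 0 v) μ κ' t) ≤
      (volume : Measure Ω).real (⋃ w ∈ F, {ω | D (env X ω) 0 w < t + 1}) := by
    rw [measureReal_def, measureReal_def]
    exact ENNReal.toReal_mono (measure_ne_top _ _) (measure_mono_ae hincl)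
  refine h2.trans ((measureReal_biUnion_finset_le _ _).trans
    ((Finset.sum_le_card_nsmul _ _ _ hprob).trans ?_))
  rw [nsmul_eq_mul]
  have h3 : (F.card : ℝ) ≤ (6 / cm + 3) ^ 2 * t ^ 2 := by
    have h4 : (F.card : ℝ) ≤ ((Bx Q).card : ℝ) := by
      rw [hF]; exact_mod_cast Finset.card_filter_le _ _
    rw [card_Bx] at h4
    refine h4.trans ?_
    have h5 : 2 * (Q : ℝ) + 1 ≤ (6 / cm + 3) * t := by
      have : 6 / cm * t = 2 * (3 * t / cm) := by ring
      linarith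
    calc (2 * (Q : ℝ) + 1) ^ 2 ≤ ((6 / cm + 3) * t) ^ 2 := pow_le_pow_left₀ (by positivity) h5 2
      _ = _ := by ring
  rw [one_mul] at v4
  have h6 := Real.exp_pos (-(t ^ (c0 / 2)))
  calc (F.card : ℝ) * Real.exp (-(t ^ c0)) ≤ (6 / cm + 3) ^ 2 * t ^ 2 * Real.exp (-(t ^ c0)) := by
        gcongr
    _ ≤ 1 / 4 * Real.exp (-(t ^ (c0 / 2))) := v4
    _ ≤ _ := by linarith

end

end Pool.Agent.V7H97.FO
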