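import Pool.Agent.V7H97.FO.Fluc

/-!
# Q1 is a statement on the mean
-/

set_option autoImplicit false

open MeasureTheory ProbabilityTheory Filter Set
open scoped Pointwise Topology

namespace Pool.Agent.V7H97.FO

open Pool.Agent.N662.FP

section
variable {Ω : Type} [MeasureSpace Ω] [IsProbabilityMeasure (volume : Measure Ω)]
variable {X : Sym2 (ℤ × ℤ) → Ω → ℝ}

/-- the second moment grows at most quadratically -/
theorem sq_mult (hX : Iid X) {μ : Seminorm ℝ (ℝ × ℝ)}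
    (hG : Good (fun ω v => D (env X ω) 0 v) μ) (v : ℤ × ℤ) (k : ℕ) :
    Integrable (fun ω => D (env X ω) 0 ((k : ℤ) • v) ^ 2) (volume : Measure Ω) ∧
    ∫ ω, D (env X ω) 0 ((k : ℤ) • v) ^ 2 ∂(volume : Measure Ω) ≤
      k ^ 2 * ∫ ω, D (env X ω) 0 v ^ 2 ∂(volume : Measure Ω) := by
  have hi : ∀ w, Integrable (fun ω => D (env X ω) 0 w ^ 2) (volume : Measure Ω) :=
    fun w => (memLp2 hX hG w).integrable_sq
  refine ⟨hi _, ?_⟩
  have hj : ∀ a : ℤ × ℤ, Integrable (fun ω => D (env X ω) a (a + v) ^ 2) (volume : Measure Ω) := by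
    intro a
    have a1 : AEMeasurable (fun ω => D (env X ω) a (a + v)) (volume : Measure Ω) :=
      (cINT Ω X hX a (a + v)).aemeasurable
    have a2 : AEMeasurable (fun ω => D (env X ω) 0 v) (volume : Measure Ω) :=
      (cINT Ω X hX 0 v).aemeasurable
    have a3 : Measure.map (fun ω => D (env X ω) a (a + v)) (volume : Measure Ω) =
        Measure.map (fun ω => D (env X ω) 0 v) (volume : Measure Ω) := by
      ext s hs
      rw [Measure.map_apply_of_aemeasurable a1 hs, Measure.map_apply_of_aemeasurable a2 hs]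
      have h4 := D_law hX a v s hs
      rw [measureReal_def, measureReal_def] at h4
      exact (ENNReal.toReal_eq_toReal_iff' (measure_ne_top _ _) (measure_ne_top _ _)).1 h4
    have hf : Measurable (fun y : ℝ => y ^ 2) := measurable_id.pow_const 2
    have h5 : Integrable (fun y : ℝ => y ^ 2)
        (Measure.map (fun ω => D (env X ω) 0 v) (volume : Measure Ω)) :=
      (integrable_map_measure hf.aestronglyMeasurable a2).2 (hi v)
    rw [← a3] at h5
    exact (integrable_map_measure hf.aestronglyMeasurable a1).1 h5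
  have h1 : ∫ ω, D (env X ω) 0 ((k : ℤ) • v) ^ 2 ∂(volume : Measure Ω) ≤
      ∫ ω, (k : ℝ) * ∑ i ∈ Finset.range k, D (env X ω) ((i : ℤ) • v) ((i : ℤ) • v + v) ^ 2
        ∂(volume : Measure Ω) := by
    refine integral_mono_ae (hi _) ((integrable_finsetSum _ fun i _ => hj _).const_mul _) ?_
    filter_upwards [cAE Ω X hX] with ω hω
    have h2 := cSUB (env X ω) hω v k
    have h3 := (cGE (env X ω) hω 0 ((k : ℤ) • v)).2.2.1
    have h4 := sq_sum_le_card_mul_sum_sq (s := Finset.range k)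
      (f := fun i : ℕ => D (env X ω) ((i : ℤ) • v) ((i : ℤ) • v + v))
    rw [Finset.card_range] at h4
    exact (pow_le_pow_left₀ h3 h2 2).trans h4
  rw [integral_const_mul, integral_finsetSum _ fun i _ => hj _] at h1
  refine h1.trans (le_of_eq ?_)
  have h5 : ∀ i ∈ Finset.range k, ∫ ω, D (env X ω) ((i : ℤ) • v) ((i : ℤ) • v + v) ^ 2
      ∂(volume : Measure Ω) = ∫ ω, D (env X ω) 0 v ^ 2 ∂(volume : Measure Ω) := fun i _ =>
    law_int hX ((i : ℤ) • v) v (fun y => y ^ 2) (measurable_id.pow_const 2)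
  rw [Finset.sum_congr rfl h5, Finset.sum_const, Finset.card_range, nsmul_eq_mul]
  ring

/-- the mean passage time along the multiples of a vector -/
theorem mean_lim (hX : Iid X) {μ : Seminorm ℝ (ℝ × ℝ)}
    (hG : Good (fun ω v => D (env X ω) 0 v) μ) (v : ℤ × ℤ)
    (hlim : ∀ᵐ ω ∂(volume : Measure Ω),
      Tendsto (fun n : ℕ => D (env X ω) 0 ((n : ℤ) • v) / (n : ℝ)) atTop (𝓝 (μ (em v))))
    (ε : ℝ) (hε : 0 < ε) : ∀ᶠ k : ℕ in atTop, mt X ((k : ℤ) • v) ≤ k * (μ (em v) + ε) := by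
  obtain ⟨M, hM⟩ : ∃ M, M = ∫ ω, D (env X ω) 0 v ^ 2 ∂(volume : Measure Ω) := ⟨_, rfl⟩
  have hM0 : 0 ≤ M := by rw [hM]; exact integral_nonneg fun ω => sq_nonneg _
  obtain ⟨T, hT⟩ : ∃ T, T = 4 * M / ε + 1 := ⟨_, rfl⟩
  have hT0 : 0 < T := by rw [hT]; positivity
  have hMT : M / T ≤ ε / 4 := by
    rw [div_le_iff₀ hT0, hT]
    have : ε / 4 * (4 * M / ε + 1) = M + ε / 4 := by field_simp
    rw [this]; linarith
  have hmeas : ∀ n : ℕ, AEStronglyMeasurable
      (fun ω => D (env X ω) 0 ((n : ℤ) • v) / (n : ℝ)) (volume : Measure Ω) :=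
    fun n => ((cINT Ω X hX 0 ((n : ℤ) • v)).div_const _).aestronglyMeasurable
  have h1 := tendstoInMeasure_of_tendsto_ae hmeas hlim
  rw [tendstoInMeasure_iff_measureReal_dist] at h1
  have h2 := (h1 (ε / 2) (by linarith)).eventually
    (gt_mem_nhds (show (0 : ℝ) < ε / (4 * T) by positivity))
  filter_upwards [h2, eventually_gt_atTop 0] with k h3 hk
  have hk0 : (0 : ℝ) < k := by exact_mod_cast hk
  obtain ⟨f, hf⟩ : ∃ f : Ω → ℝ, f = fun ω => D (env X ω) 0 ((k : ℤ) • v) / (k : ℝ) := ⟨_, rfl⟩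
  obtain ⟨E, hE⟩ : ∃ E : Set Ω, E = {ω | ε / 2 ≤ dist (D (env X ω) 0 ((k : ℤ) • v) / (k : ℝ))
    (μ (em v))} := ⟨_, rfl⟩
  rw [← hE] at h3
  have hEn : NullMeasurableSet E (volume : Measure Ω) := by
    rw [hE]
    refine nullMeasurableSet_le aemeasurable_const ?_
    exact ((hmeas k).dist aestronglyMeasurable_const).aemeasurable
  obtain ⟨hs1, hs2⟩ := sq_mult hX hG v k
  rw [← hM] at hs2
  have hfi : Integrable f (volume : Measure Ω) := by
    rw [hf]; exact (cINT Ω X hX 0 ((k : ℤ) • v)).div_const _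
  have hf2 : Integrable (fun ω => f ω ^ 2 / T) (volume : Measure Ω) := by
    have : (fun ω => f ω ^ 2 / T) = fun ω => D (env X ω) 0 ((k : ℤ) • v) ^ 2 / ((k : ℝ) ^ 2 * T) := by
      funext ω
      rw [hf]
      show (D (env X ω) 0 ((k : ℤ) • v) / (k : ℝ)) ^ 2 / T = _
      rw [div_pow, div_div]
    rw [this]
    exact hs1.div_const _
  have hind : Integrable (E.indicator (fun _ => T)) (volume : Measure Ω) :=
    (integrable_const _).indicator₀ hEn
  have h4 : ∫ ω, f ω ∂(volume : Measure Ω) ≤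
      ∫ ω, ((μ (em v) + ε / 2) + (E.indicator (fun _ => T) ω + f ω ^ 2 / T))
        ∂(volume : Measure Ω) := by
    refine integral_mono_ae hfi ((integrable_const _).add (hind.add hf2))
      (Eventually.of_forall fun ω => ?_)
    show f ω ≤ (μ (em v) + ε / 2) + (E.indicator (fun _ => T) ω + f ω ^ 2 / T)
    have k1 : 0 ≤ f ω ^ 2 / T := by positivity
    have k2 := apply_nonneg μ (em v)
    by_cases hω : ω ∈ E
    · rw [Set.indicator_of_mem hω]
      rcases le_total (f ω) T with h5 | h5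
      · linarith
      · have h6 : f ω ≤ f ω ^ 2 / T := by
          rw [le_div_iff₀ hT0]
          have : 0 ≤ f ω := by linarith
          nlinarith
        linarith
    · rw [Set.indicator_of_notMem hω]
      have h7 : dist (f ω) (μ (em v)) < ε / 2 := by
        by_contra h8
        refine hω ?_
        rw [hE, hf] at *
        exact not_lt.1 h8
      rw [Real.dist_eq] at h7
      have := (abs_lt.1 h7).2
      linarith
  have j1 : Integrable (fun ω => E.indicator (fun _ => T) ω + f ω ^ 2 / T) (volume : Measure Ω) :=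
    hind.add hf2
  rw [integral_add (integrable_const _) j1, integral_add hind hf2, integral_indicator₀ hEn] at h4
  simp only [integral_const, measureReal_restrict_apply_univ, smul_eq_mul] at h4
  have hu : (volume : Measure Ω).real univ = 1 := by simp
  rw [hu, one_mul] at h4
  have h8 : ∫ ω, f ω ^ 2 / T ∂(volume : Measure Ω) ≤ M / T := by
    rw [integral_div]
    refine div_le_div_of_nonneg_right ?_ hT0.le
    have e1 : ∫ ω, f ω ^ 2 ∂(volume : Measure Ω) =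
        (∫ ω, D (env X ω) 0 ((k : ℤ) • v) ^ 2 ∂(volume : Measure Ω)) / (k : ℝ) ^ 2 := by
      rw [← integral_div]
      refine integral_congr_ae (Eventually.of_forall fun ω => ?_)
      show f ω ^ 2 = _
      rw [hf]
      exact div_pow _ _ _
    rw [e1, div_le_iff₀ (by positivity)]
    linarith
  have h9 : (volume : Measure Ω).real E * T ≤ ε / 4 := by
    have := mul_le_mul_of_nonneg_right h3.le hT0.le
    refine this.trans (le_of_eq ?_)
    field_simp
  have h10 : ∫ ω, f ω ∂(volume : Measure Ω) = mt X ((k : ℤ) • v) / k := by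
    rw [hf]
    unfold mt
    exact integral_div _ _
  rw [h10] at h4
  have h11 : mt X ((k : ℤ) • v) / k ≤ μ (em v) + ε := by linarith
  rw [div_le_iff₀ hk0] at h11
  linarith

/-- from the doubling bound to the rate of convergence -/
theorem doubling (hX : Iid X) {μ : Seminorm ℝ (ℝ × ℝ)}
    (hG : Good (fun ω v => D (env X ω) 0 v) μ)
    (hlim : ∀ v : ℤ × ℤ, ∀ᵐ ω ∂(volume : Measure Ω),
      Tendsto (fun n : ℕ => D (env X ω) 0 ((n : ℤ) • v) / (n : ℝ)) atTop (𝓝 (μ (em v))))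
    (κ A : ℝ) (hκ : 0 < κ) (hκ1 : κ < 1)
    (h : ∀ v : ℤ × ℤ, 2 * mt X v ≤ mt X (v + v) + A * (1 + |(v.1 : ℝ)| + |(v.2 : ℝ)|) ^ (1 - κ)) :
    ∃ A' : ℝ, ∀ v : ℤ × ℤ, mt X v ≤ μ (em v) + A' * (1 + |(v.1 : ℝ)| + |(v.2 : ℝ)|) ^ (1 - κ) := by
  obtain ⟨q, hq⟩ : ∃ q : ℝ, q = (2 : ℝ) ^ (-κ) := ⟨_, rfl⟩
  have hq0 : 0 < q := by rw [hq]; positivity
  have hq1 : q < 1 := by
    rw [hq]; exact Real.rpow_lt_one_of_one_lt_of_neg (by norm_num) (by linarith)
  obtain ⟨c, hc⟩ : ∃ c, c = 1 / (2 * (1 - q)) := ⟨_, rfl⟩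
  have h1q : 0 < 1 - q := by linarith
  have hc0 : 0 < c := by rw [hc]; positivity
  have hcq : c * (1 - q) = 1 / 2 := by rw [hc]; field_simp
  refine ⟨|A| * c, fun v => ?_⟩
  obtain ⟨s, hs⟩ : ∃ s, s = (1 + |(v.1 : ℝ)| + |(v.2 : ℝ)|) := ⟨_, rfl⟩
  have hs1 : 1 ≤ s := by
    rw [hs]; have := abs_nonneg (v.1 : ℝ); have := abs_nonneg (v.2 : ℝ); linarith
  have hs0 : 0 < s := by linarith
  rw [← hs]
  have hsp : 0 < s ^ (1 - κ) := Real.rpow_pos_of_pos hs0 _
  have key : ∀ j : ℕ, mt X v ≤ mt X (((2 ^ j : ℕ) : ℤ) • v) / 2 ^ j +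
      |A| * c * (1 - q ^ j) * s ^ (1 - κ) := by
    intro j
    induction j with
    | zero => simp
    | succ j ih =>
      refine ih.trans ?_
      have h1 := h (((2 ^ j : ℕ) : ℤ) • v)
      have e1 : ((2 ^ j : ℕ) : ℤ) • v + ((2 ^ j : ℕ) : ℤ) • v = ((2 ^ (j + 1) : ℕ) : ℤ) • v := by
        rw [← add_smul]
        congr 1
        push_cast
        ring
      rw [e1] at h1
      have h2p : (1 : ℝ) ≤ 2 ^ j := one_le_pow₀ (by norm_num)
      have e2 : (1 + |(((((2 ^ j : ℕ) : ℤ) • v).1 : ℤ) : ℝ)| +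
          |(((((2 ^ j : ℕ) : ℤ) • v).2 : ℤ) : ℝ)|) ≤ 2 ^ j * s := by
        have a1 : (((((2 ^ j : ℕ) : ℤ) • v).1 : ℤ) : ℝ) = 2 ^ j * (v.1 : ℝ) := by
          simp
        have a2 : (((((2 ^ j : ℕ) : ℤ) • v).2 : ℤ) : ℝ) = 2 ^ j * (v.2 : ℝ) := by
          simp
        rw [a1, a2, abs_mul, abs_mul, abs_of_pos (show (0 : ℝ) < 2 ^ j by positivity), hs]
        linarith
      have e3 : (1 + |(((((2 ^ j : ℕ) : ℤ) • v).1 : ℤ) : ℝ)| +
          |(((((2 ^ j : ℕ) : ℤ) • v).2 : ℤ) : ℝ)|) ^ (1 - κ) ≤ 2 ^ j * q ^ j * s ^ (1 - κ) := by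
        refine (Real.rpow_le_rpow (by positivity) e2 (by linarith)).trans (le_of_eq ?_)
        rw [Real.mul_rpow (by positivity) hs0.le]
        congr 1
        rw [hq, ← Real.rpow_natCast, ← Real.rpow_mul (by norm_num), ← Real.rpow_natCast,
          ← Real.rpow_mul (by norm_num), ← Real.rpow_add (by norm_num)]
        congr 1
        ring
      have h3 : 2 * mt X (((2 ^ j : ℕ) : ℤ) • v) ≤ mt X (((2 ^ (j + 1) : ℕ) : ℤ) • v) +
          |A| * (2 ^ j * q ^ j * s ^ (1 - κ)) := by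
        refine h1.trans (add_le_add le_rfl ?_)
        have a3 : 0 ≤ (1 + |(((((2 ^ j : ℕ) : ℤ) • v).1 : ℤ) : ℝ)| +
          |(((((2 ^ j : ℕ) : ℤ) • v).2 : ℤ) : ℝ)|) ^ (1 - κ) := by positivity
        exact (mul_le_mul_of_nonneg_right (le_abs_self A) a3).trans
          (mul_le_mul_of_nonneg_left e3 (abs_nonneg A))
      have h2j : (0 : ℝ) < 2 ^ j := by positivity
      have h4 : mt X (((2 ^ j : ℕ) : ℤ) • v) / 2 ^ j ≤
          mt X (((2 ^ (j + 1) : ℕ) : ℤ) • v) / 2 ^ (j + 1) + |A| * (q ^ j * s ^ (1 - κ)) / 2 := by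
        obtain ⟨B, hB⟩ : ∃ B, B = mt X (((2 ^ (j + 1) : ℕ) : ℤ) • v) := ⟨_, rfl⟩
        rw [← hB] at h3 ⊢
        have e4 : B / 2 ^ (j + 1) * 2 ^ j = B / 2 := by
          rw [pow_succ]; field_simp
        have e5 : |A| * (q ^ j * s ^ (1 - κ)) / 2 * 2 ^ j =
            (|A| * (2 ^ j * q ^ j * s ^ (1 - κ))) / 2 := by ring
        rw [div_le_iff₀ h2j, add_mul, e4, e5]
        linarith
      have h5 : |A| * c * (1 - q ^ (j + 1)) * s ^ (1 - κ) =
          |A| * c * (1 - q ^ j) * s ^ (1 - κ) + |A| * (q ^ j * s ^ (1 - κ)) / 2 := by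
        rw [pow_succ]
        linear_combination (|A| * q ^ j * s ^ (1 - κ)) * hcq
      rw [h5]
      linarith
  refine le_of_forall_pos_le_add fun ε hε => ?_
  have h6 := mean_lim hX hG v (hlim v) ε hε
  have h7 : Tendsto (fun j : ℕ => 2 ^ j) atTop (atTop : Filter ℕ) :=
    tendsto_pow_atTop_atTop_of_one_lt (by norm_num)
  obtain ⟨j, hj⟩ := (h7.eventually h6).exists
  have h8 := key j
  have h2j : (0 : ℝ) < 2 ^ j := by positivity
  have h9 : mt X (((2 ^ j : ℕ) : ℤ) • v) / 2 ^ j ≤ μ (em v) + ε := by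
    rw [div_le_iff₀ h2j]
    have : (((2 ^ j : ℕ) : ℕ) : ℝ) = 2 ^ j := by push_cast; ring
    rw [this] at hj
    linarith
  have h10 : |A| * c * (1 - q ^ j) * s ^ (1 - κ) ≤ |A| * c * s ^ (1 - κ) := by
    have : 0 ≤ q ^ j := by positivity
    refine mul_le_mul_of_nonneg_right ?_ hsp.le
    have h11 : 0 ≤ |A| * c := by positivity
    nlinarith
  linarith

theorem eq3 (hX : Iid X) {μ : Seminorm ℝ (ℝ × ℝ)}
    (hG : Good (fun ω v => D (env X ω) 0 v) μ)
    (hlim : ∀ v : ℤ × ℤ, ∀ᵐ ω ∂(volume : Measure Ω),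
      Tendsto (fun n : ℕ => D (env X ω) 0 ((n : ℤ) • v) / (n : ℝ)) atTop (𝓝 (μ (em v))))
    (K : ℝ) (hK : K < 1) :
    List.TFAE [
      ∀ κ : ℝ, 0 < κ → κ < K → ∀ q : ℝ, 0 < q →
        Asymptotics.IsBigO atTop (fun t : ℝ => (volume : Measure Ω).real
          (Out (fun ω v => D (env X ω) 0 v) μ κ t)) (fun t : ℝ => t ^ (-q)) ∧
        Asymptotics.IsBigO atTop (fun t : ℝ => (volume : Measure Ω).real
          (Bad (fun ω v => D (env X ω) 0 v) μ κ t)) (fun t : ℝ => t ^ (-q)),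
      ∀ κ : ℝ, 0 < κ → κ < K → ∃ A : ℝ, ∀ v : ℤ × ℤ,
        ∫ ω, D (env X ω) 0 v ∂(volume : Measure Ω) ≤
          μ (em v) + A * (1 + |(v.1 : ℝ)| + |(v.2 : ℝ)|) ^ (1 - κ),
      ∀ κ : ℝ, 0 < κ → κ < K → ∃ A : ℝ, ∀ v : ℤ × ℤ,
        2 * ∫ ω, D (env X ω) 0 v ∂(volume : Measure Ω) ≤
          ∫ ω, D (env X ω) 0 (v + v) ∂(volume : Measure Ω) +
            A * (1 + |(v.1 : ℝ)| + |(v.2 : ℝ)|) ^ (1 - κ)] := by
  obtain ⟨C, hC1, hCc⟩ := size_cmp μ hG.norm
  have hC0 : 0 ≤ C := by linarith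
  have old := eq hX hG K hK
  tfae_have 1 → 2 := by
    intro h κ h0 h1
    have h6 : ∀ κ : ℝ, 0 < κ → κ < K → ∃ A : ℝ, ∀ v : ℤ × ℤ,
        ∫ ω, |D (env X ω) 0 v - μ (em v)| ∂(volume : Measure Ω) ≤
          A * (1 + μ (em v)) ^ (1 - κ) := (old.out 0 5).1 h
    obtain ⟨A, hA⟩ := h6 κ h0 h1
    refine ⟨|A| * C ^ (1 - κ), fun v => ?_⟩
    have g0 := apply_nonneg μ (em v)
    have g1 : 0 ≤ (1 + μ (em v)) ^ (1 - κ) := Real.rpow_nonneg (by linarith) _
    have g2 : (1 + μ (em v)) ^ (1 - κ) ≤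
        C ^ (1 - κ) * (1 + |(v.1 : ℝ)| + |(v.2 : ℝ)|) ^ (1 - κ) :=
      pow_cmp (by linarith) hC0 (by positivity) (hCc v).1 (by linarith)
    have g3 : ∫ ω, D (env X ω) 0 v ∂(volume : Measure Ω) - μ (em v) ≤
        ∫ ω, |D (env X ω) 0 v - μ (em v)| ∂(volume : Measure Ω) := by
      have e1 : ∫ ω, D (env X ω) 0 v ∂(volume : Measure Ω) - μ (em v) =
          ∫ ω, (D (env X ω) 0 v - μ (em v)) ∂(volume : Measure Ω) := by
        rw [integral_sub (hG.int v) (integrable_const _)]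
        simp
      rw [e1]
      exact (le_abs_self _).trans abs_integral_le_integral_abs
    have g4 : A * (1 + μ (em v)) ^ (1 - κ) ≤ |A| * (1 + μ (em v)) ^ (1 - κ) :=
      mul_le_mul_of_nonneg_right (le_abs_self A) g1
    have g5 : |A| * (1 + μ (em v)) ^ (1 - κ) ≤
        |A| * (C ^ (1 - κ) * (1 + |(v.1 : ℝ)| + |(v.2 : ℝ)|) ^ (1 - κ)) :=
      mul_le_mul_of_nonneg_left g2 (abs_nonneg A)
    have := hA v
    linarith
  tfae_have 2 → 3 := by
    intro h κ h0 h1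
    obtain ⟨A, hA⟩ := h κ h0 h1
    refine ⟨2 * A, fun v => ?_⟩
    have g1 := hA v
    have g2 := cFAT Ω X hX (v + v) _ (hlim (v + v))
    have g3 : μ (em (v + v)) = 2 * μ (em v) := by
      rw [em_add, ← two_smul ℝ (em v), map_smul_eq_mul]
      simp
    rw [g3] at g2
    linarith
  tfae_have 3 → 1 := by
    intro h
    have h6 : ∀ κ : ℝ, 0 < κ → κ < K → ∃ A : ℝ, ∀ v : ℤ × ℤ,
        ∫ ω, |D (env X ω) 0 v - μ (em v)| ∂(volume : Measure Ω) ≤
          A * (1 + μ (em v)) ^ (1 - κ) := by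
      intro κ h0 h1
      obtain ⟨κ2, hκ2⟩ : ∃ κ2, κ2 = (κ + K) / 2 := ⟨_, rfl⟩
      have k1 : κ < κ2 := by rw [hκ2]; linarith
      have k2 : κ2 < K := by rw [hκ2]; linarith
      obtain ⟨A, hA⟩ := h κ2 (by linarith) k2
      obtain ⟨A', hA'⟩ := doubling hX hG hlim κ2 A (by linarith) (by linarith) hA
      have hGr : Gr X μ κ2 := by
        refine ⟨|A'| * C ^ (1 - κ2) + 1, by positivity, fun v => (hA' v).trans ?_⟩
        have g0 := apply_nonneg μ (em v)
        have g2 : (1 + |(v.1 : ℝ)| + |(v.2 : ℝ)|) ^ (1 - κ2) ≤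
            C ^ (1 - κ2) * (1 + μ (em v)) ^ (1 - κ2) :=
          pow_cmp (by positivity) hC0 (by linarith) (hCc v).2 (by linarith)
        have g3 : 0 ≤ (1 + |(v.1 : ℝ)| + |(v.2 : ℝ)|) ^ (1 - κ2) := by positivity
        have g4 : A' * (1 + |(v.1 : ℝ)| + |(v.2 : ℝ)|) ^ (1 - κ2) ≤
            |A'| * (C ^ (1 - κ2) * (1 + μ (em v)) ^ (1 - κ2)) :=
          (mul_le_mul_of_nonneg_right (le_abs_self A') g3).trans
            (mul_le_mul_of_nonneg_left g2 (abs_nonneg A'))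
        have g5 : 0 ≤ (1 + μ (em v)) ^ (1 - κ2) := Real.rpow_nonneg (by linarith) _
        have g6 : (|A'| * C ^ (1 - κ2) + 1) * (1 + μ (em v)) ^ (1 - κ2) =
            |A'| * (C ^ (1 - κ2) * (1 + μ (em v)) ^ (1 - κ2)) + (1 + μ (em v)) ^ (1 - κ2) := by
          ring
        rw [g6]
        linarith
      obtain ⟨A3, hA3, h3⟩ := FL_all hX hG hlim κ2 κ h0 k1 (by linarith) hGr
      exact ⟨A3, h3⟩
    exact (old.out 5 0).1 h6
  tfae_finish

end

end Pool.Agent.V7H97.FO
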