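import Pool.Agent.N662.FP.Cl

/-!
# Supporting functionals of a norm of the plane and coordinates adapted to a direction
-/

set_option autoImplicit false

namespace Pool.Agent.V7H97.FO

open Pool.Agent.N662.FP

/-- Coordinates adapted to a direction: `φ` is a supporting functional of the norm `μ` at `u`,
`τ` spans the kernel of `φ`, and `ψ` is the second coordinate. -/
structure Fr (μ : Seminorm ℝ (ℝ × ℝ)) (φ ψ : (ℝ × ℝ) →ₗ[ℝ] ℝ) (u τ : ℝ × ℝ) : Prop where
  le : ∀ x, φ x ≤ μ x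
  fu : φ u = 1
  mu : μ u = 1
  ft : φ τ = 0
  mt : μ τ = 1
  dec : ∀ x, x = φ x • u + ψ x • τ

/-- the defect -/
def df (μ : Seminorm ℝ (ℝ × ℝ)) (φ : (ℝ × ℝ) →ₗ[ℝ] ℝ) (x : ℝ × ℝ) : ℝ := μ x - φ x

variable {μ : Seminorm ℝ (ℝ × ℝ)} {φ ψ : (ℝ × ℝ) →ₗ[ℝ] ℝ} {u τ : ℝ × ℝ}

theorem Fr.ne (h : Fr μ φ ψ u τ) : τ ≠ 0 := by
  intro h0
  have := h.mt
  rw [h0, map_zero] at this
  norm_num at this

theorem Fr.pu (h : Fr μ φ ψ u τ) : ψ u = 0 := by
  have h1 := h.dec u
  rw [h.fu, one_smul] at h1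
  have h2 : ψ u • τ = 0 := by
    have : u + ψ u • τ = u + 0 := by rw [← h1, add_zero]
    exact add_left_cancel this
  rcases smul_eq_zero.1 h2 with h3 | h3
  · exact h3
  · exact absurd h3 h.ne

theorem Fr.pt (h : Fr μ φ ψ u τ) : ψ τ = 1 := by
  have h1 := h.dec τ
  rw [h.ft, zero_smul, zero_add] at h1
  have h2 : (ψ τ - 1) • τ = 0 := by
    rw [sub_smul, one_smul, ← h1, sub_self]
  rcases smul_eq_zero.1 h2 with h3 | h3
  · linarith
  · exact absurd h3 h.ne

theorem Fr.abs_ph (h : Fr μ φ ψ u τ) (x : ℝ × ℝ) : |φ x| ≤ μ x := by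
  rw [abs_le]
  constructor
  · have h1 := h.le (-x)
    rw [map_neg, map_neg_eq_map] at h1
    linarith
  · exact h.le x

theorem Fr.abs_ps (h : Fr μ φ ψ u τ) (x : ℝ × ℝ) : |ψ x| ≤ 2 * μ x := by
  have h1 : ψ x • τ = x - φ x • u := by
    rw [eq_sub_iff_add_eq, add_comm]; exact (h.dec x).symm
  have h2 : μ (ψ x • τ) = |ψ x| := by
    rw [map_smul_eq_mul, h.mt, mul_one, Real.norm_eq_abs]
  have h3 : μ (φ x • u) = |φ x| := by
    rw [map_smul_eq_mul, h.mu, mul_one, Real.norm_eq_abs]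
  have h4 : μ (x - φ x • u) ≤ μ x + μ (φ x • u) := map_sub_le_add μ _ _
  rw [← h1, h2, h3] at h4
  have := h.abs_ph x
  linarith

theorem df_nonneg (h : Fr μ φ ψ u τ) (x : ℝ × ℝ) : 0 ≤ df μ φ x := sub_nonneg.2 (h.le x)

theorem df_add (x y : ℝ × ℝ) : df μ φ (x + y) ≤ df μ φ x + df μ φ y := by
  unfold df
  rw [map_add φ]
  have := map_add_le_add μ x y
  linarith

theorem df_smul (c : ℝ) (hc : 0 ≤ c) (x : ℝ × ℝ) : df μ φ (c • x) = c * df μ φ x := by
  unfold df
  rw [map_smul_eq_mul, Real.norm_eq_abs, abs_of_nonneg hc, map_smul, smul_eq_mul]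
  ring

theorem df_u (h : Fr μ φ ψ u τ) (c : ℝ) (hc : 0 ≤ c) : df μ φ (c • u) = 0 := by
  rw [df_smul c hc, df, h.fu, h.mu, sub_self, mul_zero]

theorem df_t (h : Fr μ φ ψ u τ) (c : ℝ) : df μ φ (c • τ) = |c| := by
  unfold df
  rw [map_smul_eq_mul, h.mt, map_smul, h.ft, Real.norm_eq_abs, smul_eq_mul]
  ring

/-- adding a nonnegative multiple of `u` does not increase the defect -/
theorem df_add_u (h : Fr μ φ ψ u τ) (x : ℝ × ℝ) (c : ℝ) (hc : 0 ≤ c) :
    df μ φ (x + c • u) ≤ df μ φ x := by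
  have := df_add (μ := μ) (φ := φ) x (c • u)
  rw [df_u h c hc, add_zero] at this
  exact this

/-- Existence of adapted coordinates. -/
theorem exists_frame (μ : Seminorm ℝ (ℝ × ℝ)) (hμ : ∀ x, μ x = 0 → x = 0) (v : ℝ × ℝ)
    (hv : v ≠ 0) : ∃ (φ ψ : (ℝ × ℝ) →ₗ[ℝ] ℝ) (u τ : ℝ × ℝ), Fr μ φ ψ u τ ∧ v = μ v • u := by
  have hv0 : 0 < μ v := lt_of_le_of_ne (apply_nonneg μ v) fun h => hv (hμ v h.symm)
  set u : ℝ × ℝ := (μ v)⁻¹ • v with hu
  have hmu : μ u = 1 := by
    rw [hu, map_smul_eq_mul, Real.norm_eq_abs, abs_of_pos (by positivity), inv_mul_cancel₀ hv0.ne']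
  have hu0 : u ≠ 0 := by
    intro h0; rw [h0, map_zero] at hmu; norm_num at hmu
  -- Hahn-Banach
  obtain ⟨φ, hφ1, hφ2⟩ : ∃ φ : (ℝ × ℝ) →ₗ[ℝ] ℝ, φ u = 1 ∧ ∀ x, φ x ≤ μ x := by
    obtain ⟨g, hg1, hg2⟩ := exists_extension_of_le_sublinear
      (LinearPMap.mkSpanSingleton u (1 : ℝ) hu0) μ
      (fun c hc x => by rw [map_smul_eq_mul, Real.norm_eq_abs, abs_of_pos hc])
      (fun x y => map_add_le_add μ x y)
      (by
        rintro ⟨x, hx⟩
        obtain ⟨c, rfl⟩ := Submodule.mem_span_singleton.1 hx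
        have h1 : (LinearPMap.mkSpanSingleton u (1 : ℝ) hu0) ⟨c • u, hx⟩ = c • (1 : ℝ) :=
          LinearPMap.mkSpanSingleton'_apply _ _ _ _ _
        rw [h1]
        show c • (1 : ℝ) ≤ μ (c • u)
        rw [map_smul_eq_mul, hmu, mul_one, Real.norm_eq_abs, smul_eq_mul, mul_one]
        exact le_abs_self c)
    refine ⟨g, ?_, hg2⟩
    have h2 := hg1 ⟨u, Submodule.mem_span_singleton_self u⟩
    refine h2.trans ?_
    exact LinearPMap.mkSpanSingleton'_apply_self _ _ _ _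
  -- the kernel
  obtain ⟨A, hA⟩ : ∃ A, φ (1, 0) = A := ⟨_, rfl⟩
  obtain ⟨B, hB⟩ : ∃ B, φ (0, 1) = B := ⟨_, rfl⟩
  have hφx : ∀ x : ℝ × ℝ, φ x = A * x.1 + B * x.2 := by
    intro x
    have h1 : x = x.1 • ((1, 0) : ℝ × ℝ) + x.2 • ((0, 1) : ℝ × ℝ) := by ext <;> simp
    conv_lhs => rw [h1]
    rw [map_add, map_smul, map_smul, hA, hB, smul_eq_mul, smul_eq_mul]
    ring
  have hu1 : A * u.1 + B * u.2 = 1 := by rw [← hφx, hφ1]
  set τ0 : ℝ × ℝ := (-B, A) with hτ0
  have hτ0ne : τ0 ≠ 0 := by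
    intro h0
    have h1 : -B = 0 := congrArg Prod.fst h0
    have h2 : A = 0 := congrArg Prod.snd h0
    rw [h2, neg_eq_zero.1 h1] at hu1
    norm_num at hu1
  have hτp : 0 < μ τ0 := lt_of_le_of_ne (apply_nonneg μ τ0) fun h => hτ0ne (hμ τ0 h.symm)
  obtain ⟨c, hc⟩ : ∃ c, c = (μ τ0)⁻¹ := ⟨_, rfl⟩
  have hc0 : 0 < c := by rw [hc]; positivity
  refine ⟨φ, (1 / c) • (u.1 • LinearMap.snd ℝ ℝ ℝ - u.2 • LinearMap.fst ℝ ℝ ℝ), u, c • τ0,
    ⟨hφ2, hφ1, hmu, ?_, ?_, ?_⟩, ?_⟩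
  · rw [map_smul, hφx, hτ0]
    simp only [smul_eq_mul]
    ring
  · rw [map_smul_eq_mul, Real.norm_eq_abs, abs_of_pos hc0, hc, inv_mul_cancel₀ hτp.ne']
  · intro x
    rw [hφx x]
    simp only [LinearMap.smul_apply, LinearMap.sub_apply, LinearMap.snd_apply, LinearMap.fst_apply,
      smul_eq_mul, hτ0]
    ext
    · simp only [Prod.fst_add, Prod.smul_fst, smul_eq_mul]
      have : 1 / c * (u.1 * x.2 - u.2 * x.1) * (c * -B) = -(u.1 * x.2 - u.2 * x.1) * B := by
        field_simp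
      rw [this]
      linear_combination (-x.1) * hu1
    · simp only [Prod.snd_add, Prod.smul_snd, smul_eq_mul]
      have : 1 / c * (u.1 * x.2 - u.2 * x.1) * (c * A) = (u.1 * x.2 - u.2 * x.1) * A := by
        field_simp
      rw [this]
      linear_combination (-x.2) * hu1
  · rw [hu, smul_smul, mul_inv_cancel₀ hv0.ne', one_smul]

/-- The range of the second coordinate of the points with small defect. -/
theorem exists_width (h : Fr μ φ ψ u τ) (B S : ℝ) (hB : 0 ≤ B) (hS : 0 ≤ S) :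
    ∃ Y : ℝ, 0 ≤ Y ∧ Y ≤ B + 2 * S ∧
      (∀ y : ℝ, df μ φ (S • u + y • τ) ≤ B → df μ φ (S • u + (-y) • τ) ≤ B → |y| ≤ Y) ∧
      ∀ (S' l y : ℝ), S ≤ S' → 0 ≤ l → l ≤ 1 → |y| ≤ l * Y → df μ φ (S' • u + y • τ) ≤ l * B := by
  set J : Set ℝ := {y | df μ φ (S • u + y • τ) ≤ B ∧ df μ φ (S • u + (-y) • τ) ≤ B} with hJ
  have hb : ∀ y ∈ J, |y| ≤ B + 2 * S := by
    intro y hy
    have h1 : μ (y • τ) = |y| := by rw [map_smul_eq_mul, h.mt, mul_one, Real.norm_eq_abs]
    have h2 : μ (y • τ) ≤ μ (S • u + y • τ) + μ (S • u) := by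
      have : y • τ = (S • u + y • τ) - S • u := by abel
      conv_lhs => rw [this]
      exact map_sub_le_add μ _ _
    have h3 : μ (S • u) = S := by
      rw [map_smul_eq_mul, h.mu, mul_one, Real.norm_eq_abs, abs_of_nonneg hS]
    have h4 : φ (S • u + y • τ) = S := by
      rw [map_add, map_smul, map_smul, h.fu, h.ft]; simp
    have h5 : μ (S • u + y • τ) - φ (S • u + y • τ) ≤ B := hy.1
    rw [h1, h3] at h2
    rw [h4] at h5
    linarith
  have h0 : (0 : ℝ) ∈ J := by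
    constructor
    · rw [zero_smul, add_zero, df_u h S hS]; exact hB
    · rw [neg_zero, zero_smul, add_zero, df_u h S hS]; exact hB
  have hcont : Continuous (fun x : ℝ × ℝ => μ x) := by
    obtain ⟨c, C, hc, hC, hcC⟩ := cNORM μ (fun x hx => by
      by_contra hne
      -- `μ x = 0` forces `x = 0`
      have h1 := h.dec x
      have h2 : φ x = 0 := by
        have := h.abs_ph x; rw [hx] at this
        exact abs_nonpos_iff.1 this
      have h3 : ψ x = 0 := by
        have := h.abs_ps x; rw [hx, mul_zero] at this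
        exact abs_nonpos_iff.1 this
      rw [h2, h3] at h1
      simp at h1
      exact hne h1)
    have hL : LipschitzWith (Real.toNNReal C) μ := by
      refine LipschitzWith.of_dist_le_mul fun x y => ?_
      rw [Real.dist_eq, dist_eq_norm, Real.coe_toNNReal C hC.le]
      refine (abs_sub_map_le_sub μ x y).trans ((hcC (x - y)).2.trans (le_of_eq ?_))
      rw [Prod.norm_def, Real.norm_eq_abs, Real.norm_eq_abs]
    exact hL.continuous
  have hφc : Continuous (fun x : ℝ × ℝ => φ x) := LinearMap.continuous_of_finiteDimensional φ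
  have hdfc : Continuous (fun x : ℝ × ℝ => df μ φ x) := hcont.sub hφc
  have hcl : IsClosed J := by
    have e : J = {y : ℝ | df μ φ (S • u + y • τ) ≤ B} ∩ {y : ℝ | df μ φ (S • u + (-y) • τ) ≤ B} := rfl
    rw [e]
    refine (isClosed_le ?_ continuous_const).inter (isClosed_le ?_ continuous_const)
    · exact hdfc.comp (continuous_const.add (continuous_id.smul continuous_const))
    · exact hdfc.comp (continuous_const.add (continuous_neg.smul continuous_const))
  have hbdd : BddAbove J := ⟨B + 2 * S, fun y hy => (le_abs_self y).trans (hb y hy)⟩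
  have hcomp : IsCompact J := by
    refine Metric.isCompact_of_isClosed_isBounded hcl ?_
    refine (Metric.isBounded_Icc (-(B + 2 * S)) (B + 2 * S)).subset fun y hy => ?_
    exact abs_le.1 (hb y hy)
  obtain ⟨Y, hY⟩ : ∃ Y, Y = sSup J := ⟨_, rfl⟩
  have hYJ : Y ∈ J := by rw [hY]; exact hcomp.sSup_mem ⟨0, h0⟩
  have hsym : ∀ y ∈ J, -y ∈ J := fun y hy => ⟨hy.2, by rw [neg_neg]; exact hy.1⟩
  have hle : ∀ y ∈ J, y ≤ Y := fun y hy => by rw [hY]; exact le_csSup hbdd hy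
  have hY0 : 0 ≤ Y := hle 0 h0
  have hseg : ∀ y : ℝ, |y| ≤ Y → df μ φ (S • u + y • τ) ≤ B := by
    intro y hy
    rcases hY0.eq_or_lt with h1 | h1
    · rw [← h1] at hy
      rw [abs_nonpos_iff.1 hy]
      exact h0.1
    · obtain ⟨hy1, hy2⟩ := abs_le.1 hy
      obtain ⟨a, ha⟩ : ∃ a, a = (Y + y) / (2 * Y) := ⟨_, rfl⟩
      have ha0 : 0 ≤ a := by rw [ha]; apply div_nonneg <;> linarith
      have ha1 : a ≤ 1 := by rw [ha, div_le_one (by linarith)]; linarith
      have e : S • u + y • τ = a • (S • u + Y • τ) + (1 - a) • (S • u + (-Y) • τ) := by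
        have e1 : y = a * Y + (1 - a) * (-Y) := by
          rw [ha]; field_simp; ring
        conv_lhs => rw [e1]
        module
      rw [e]
      refine (df_add _ _).trans ?_
      rw [df_smul a ha0, df_smul (1 - a) (by linarith)]
      have h3 := hYJ.1
      have h4 := hYJ.2
      nlinarith
  refine ⟨Y, hY0, (le_abs_self Y).trans (hb Y hYJ), ?_, ?_⟩
  · intro y h1 h2
    rw [abs_le]
    have h3 : y ∈ J := ⟨h1, h2⟩
    constructor
    · have := hle _ (hsym y h3); linarith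
    · exact hle y h3
  · intro S' l y hS' hl hl1 hy
    rcases hl.eq_or_lt with h1 | h1
    · rw [← h1] at hy ⊢
      rw [zero_mul] at hy ⊢
      rw [abs_nonpos_iff.1 hy, zero_smul, add_zero, df_u h S' (hS.trans hS')]
    · have e : S' • u + y • τ = l • (S • u + (y / l) • τ) + (S' - l * S) • u := by
        have e1 : y = l * (y / l) := by field_simp
        conv_lhs => rw [e1]
        module
      have hnn : 0 ≤ S' - l * S := by nlinarith
      rw [e]
      refine (df_add_u h _ _ hnn).trans ?_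
      rw [df_smul l hl]
      have h3 : |y / l| ≤ Y := by
        rw [abs_div, abs_of_pos h1, div_le_iff₀ h1]; linarith
      exact mul_le_mul_of_nonneg_left (hseg _ h3) hl

end Pool.Agent.V7H97.FO
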