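import Pool.Agent.V7H97.FO.Prob

/-!
# Decomposition of a path into crossings of strips
-/

set_option autoImplicit false

namespace Pool.Agent.V7H97.FO

open Pool.Agent.N662.FP

theorem slabs (f : ℕ → ℝ) (N : ℕ) (C m : ℝ) (hC : 0 < C) (hm : 2 * C < m)
    (hf : ∀ i < N, |f (i + 1) - f i| ≤ C) (α : ℕ → ℝ) (L : ℕ)
    (h0 : ∀ j < L, f 0 ≤ α j) (hN : ∀ j < L, α j + m ≤ f N)
    (hα : ∀ j, j + 1 < L → α j + m ≤ α (j + 1)) :
    ∃ a b : ℕ → ℕ, (∀ j < L, a j < b j ∧ b j ≤ N ∧ f (a j) ≤ α j + C ∧ α j + m - C ≤ f (b j) ∧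
      ∀ i, a j ≤ i → i ≤ b j → α j ≤ f i ∧ f i ≤ α j + m) ∧
      ∀ j, j + 1 < L → b j ≤ a (j + 1) := by
  classical
  obtain ⟨b, hb⟩ : ∃ b : ℕ → ℕ, b = fun j => if h : ∃ i, α j + m - C ≤ f i then Nat.find h else 0 :=
    ⟨_, rfl⟩
  have hex : ∀ j < L, ∃ i, α j + m - C ≤ f i := fun j hj => ⟨N, by have := hN j hj; linarith⟩
  have hb1 : ∀ j < L, α j + m - C ≤ f (b j) := by
    intro j hj
    rw [hb]
    simp only [dif_pos (hex j hj)]
    exact Nat.find_spec (hex j hj)
  have hb2 : ∀ j < L, ∀ i, α j + m - C ≤ f i → b j ≤ i := by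
    intro j hj i hi
    rw [hb]
    simp only [dif_pos (hex j hj)]
    exact Nat.find_min' (hex j hj) hi
  have hbN : ∀ j < L, b j ≤ N := fun j hj => hb2 j hj N (by have := hN j hj; linarith)
  have hbpos : ∀ j < L, 0 < b j := by
    intro j hj
    rcases Nat.eq_zero_or_pos (b j) with h | h
    · have h1 := hb1 j hj
      rw [h] at h1
      have := h0 j hj
      linarith
    · exact h
  have hblt : ∀ j < L, f (b j) < α j + m := by
    intro j hj
    have h1 := hbpos j hj
    have h2 : f (b j - 1) < α j + m - C := by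
      by_contra h
      have := hb2 j hj (b j - 1) (not_lt.1 h)
      omega
    have h3 := hf (b j - 1) (by have := hbN j hj; omega)
    rw [show b j - 1 + 1 = b j by omega] at h3
    have := (abs_le.1 h3).2
    linarith
  obtain ⟨a, ha⟩ : ∃ a : ℕ → ℕ, a = fun j => Nat.findGreatest (fun i => f i ≤ α j + C) (b j) :=
    ⟨_, rfl⟩
  have ha1 : ∀ j < L, f (a j) ≤ α j + C := by
    intro j hj
    rw [ha]
    exact Nat.findGreatest_spec (P := fun i => f i ≤ α j + C) (m := 0) (n := b j) (Nat.zero_le _)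
      (by have := h0 j hj; show f 0 ≤ α j + C; linarith)
  have ha2 : ∀ j < L, a j ≤ b j := fun j _ => by rw [ha]; exact Nat.findGreatest_le _
  have ha3 : ∀ j < L, ∀ i, a j < i → i ≤ b j → α j + C < f i := by
    intro j hj i h1 h2
    by_contra h
    rw [ha] at h1
    exact Nat.findGreatest_is_greatest (P := fun i => f i ≤ α j + C) h1 h2 (not_lt.1 h)
  have ha4 : ∀ j < L, a j < b j := by
    intro j hj
    rcases (ha2 j hj).eq_or_lt with h | h
    · have h1 := ha1 j hj
      rw [h] at h1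
      have := hb1 j hj
      linarith
    · exact h
  refine ⟨a, b, ?_, ?_⟩
  · intro j hj
    refine ⟨ha4 j hj, hbN j hj, ha1 j hj, hb1 j hj, ?_⟩
    intro i h1 h2
    constructor
    · rcases h1.eq_or_lt with h | h
      · rw [← h]
        have h3 := ha3 j hj (a j + 1) (by omega) (ha4 j hj)
        have h4 := hf (a j) (by have := ha4 j hj; have := hbN j hj; omega)
        have := (abs_le.1 h4).2
        linarith
      · have := ha3 j hj i h h2
        linarith
    · rcases h2.eq_or_lt with h | h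
      · rw [h]
        exact (hblt j hj).le
      · by_contra h3
        have := hb2 j hj i (by linarith [not_le.1 h3])
        omega
  · intro j hj
    have h1 : b j ≤ b (j + 1) := by
      apply hb2 j (by omega)
      have := hb1 (j + 1) hj
      have := hα j hj
      linarith
    rw [ha]
    refine Nat.le_findGreatest h1 ?_
    have := hblt j (by omega)
    have := hα j hj
    show f (b j) ≤ α (j + 1) + C
    linarith

theorem sum_slabs (w : ℕ → ℝ) (hw : ∀ i, 0 ≤ w i) (a b : ℕ → ℕ) (L N : ℕ)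
    (h1 : ∀ j < L, a j < b j ∧ b j ≤ N) (h2 : ∀ j, j + 1 < L → b j ≤ a (j + 1)) :
    ∑ j ∈ Finset.range L, ∑ i ∈ Finset.Ico (a j) (b j), w i ≤ ∑ i ∈ Finset.range N, w i := by
  have hmono : ∀ s t : ℕ, s ≤ t → ∑ i ∈ Finset.range s, w i ≤ ∑ i ∈ Finset.range t, w i :=
    fun s t hst => Finset.sum_le_sum_of_subset_of_nonneg (Finset.range_mono hst) fun i _ _ => hw i
  have key : ∀ k, k + 1 ≤ L → ∑ j ∈ Finset.range (k + 1), ∑ i ∈ Finset.Ico (a j) (b j), w i ≤
      ∑ i ∈ Finset.range (b k), w i := by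
    intro k
    induction k with
    | zero =>
      intro hk
      rw [Finset.sum_range_one]
      refine Finset.sum_le_sum_of_subset_of_nonneg ?_ fun i _ _ => hw i
      intro i hi
      rw [Finset.mem_Ico] at hi
      exact Finset.mem_range.2 hi.2
    | succ k ih =>
      intro hk
      rw [Finset.sum_range_succ]
      have h3 := ih (by omega)
      have h4 := hmono _ _ (h2 k (by omega))
      have h5 : ∑ i ∈ Finset.range (b (k + 1)), w i =
          ∑ i ∈ Finset.range (a (k + 1)), w i + ∑ i ∈ Finset.Ico (a (k + 1)) (b (k + 1)), w i := by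
        rw [Finset.sum_range_add_sum_Ico _ (h1 (k + 1) (by omega)).1.le]
      rw [h5]
      linarith
  rcases Nat.eq_zero_or_pos L with h | h
  · subst h
    simp only [Finset.range_zero, Finset.sum_empty]
    exact Finset.sum_nonneg fun i _ => hw i
  · obtain ⟨k, rfl⟩ : ∃ k, L = k + 1 := ⟨L - 1, by omega⟩
    exact (key k le_rfl).trans (hmono _ _ (h1 k (by omega)).2)

theorem em_sub (a b : ℤ × ℤ) : em (a - b) = em a - em b := by
  unfold Pool.Agent.N662.FP.em
  ext <;> simp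

theorem em_add (a b : ℤ × ℤ) : em (a + b) = em a + em b := by
  unfold Pool.Agent.N662.FP.em
  ext <;> simp

/-- the crossings of the strips by a path -/
theorem crossings (x : Sym2 (ℤ × ℤ) → ℝ) (hx : ∀ e, 0 ≤ x e) (φ : (ℝ × ℝ) →ₗ[ℝ] ℝ) (C m : ℝ)
    (hC : 0 < C) (hm : 2 * C < m)
    (hstep : ∀ z z' : ℤ × ℤ, |z'.1 - z.1| + |z'.2 - z.2| = 1 → |φ (em z') - φ (em z)| ≤ C)
    (p : ℕ → ℤ × ℤ) (N : ℕ) (v : ℤ × ℤ) (hp0 : p 0 = 0) (hpN : p N = v)
    (hadj : ∀ i < N, |(p (i + 1)).1 - (p i).1| + |(p (i + 1)).2 - (p i).2| = 1)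
    (g : ℕ → ℤ × ℤ) (L : ℕ) (hg0 : ∀ j < L, 0 ≤ φ (em (g j)))
    (hgN : ∀ j < L, φ (em (g j)) + m ≤ φ (em v))
    (hgg : ∀ j, j + 1 < L → φ (em (g j)) + m ≤ φ (em (g (j + 1)))) :
    ∃ (a b : ℕ → ℕ) (t : ℕ → ℝ),
      ∑ j ∈ Finset.range L, t j ≤ ∑ i ∈ Finset.range N, x s(p i, p (i + 1)) ∧
      ∀ j < L, a j < b j ∧ b j ≤ N ∧ φ (em (p (a j) - g j)) ≤ C ∧ m - C ≤ φ (em (p (b j) - g j)) ∧
        φ (em (p (b j) - p (a j))) ≤ m ∧ D x (p (a j)) (p (b j)) ≤ t j ∧
        ∀ s, ¬ Cr x (St φ m (g j)) (p (a j)) (p (b j)) s → s ≤ t j := by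
  obtain ⟨a, b, h1, h2⟩ := slabs (fun i => φ (em (p i))) N C m hC hm
    (fun i hi => hstep _ _ (hadj i hi)) (fun j => φ (em (g j))) L
    (fun j hj => by
      have : φ (em (p 0)) = 0 := by
        rw [hp0]
        have : em (0 : ℤ × ℤ) = 0 := by unfold Pool.Agent.N662.FP.em; ext <;> simp
        rw [this, map_zero]
      show φ (em (p 0)) ≤ _
      rw [this]; exact hg0 j hj)
    (fun j hj => by
      show φ (em (g j)) + m ≤ φ (em (p N))
      rw [hpN]; exact hgN j hj) hgg
  refine ⟨a, b, fun j => ∑ i ∈ Finset.Ico (a j) (b j), x s(p i, p (i + 1)), ?_, ?_⟩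
  · exact sum_slabs _ (fun i => hx _) a b L N (fun j hj => ⟨(h1 j hj).1, (h1 j hj).2.1⟩) h2
  · intro j hj
    obtain ⟨k1, k2, k3, k4, k5⟩ := h1 j hj
    -- the piece as a path
    have hsum : ∑ i ∈ Finset.range (b j - a j), x s(p (a j + i), p (a j + i + 1)) =
        ∑ i ∈ Finset.Ico (a j) (b j), x s(p i, p (i + 1)) := by
      rw [Finset.sum_Ico_eq_sum_range]
    refine ⟨k1, k2, ?_, ?_, ?_, ?_, ?_⟩
    · rw [em_sub, map_sub]; linarith
    · rw [em_sub, map_sub]; linarith
    · rw [em_sub, map_sub]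
      have h3 := (k5 (a j) le_rfl k1.le).1
      have h4 := (k5 (b j) k1.le le_rfl).2
      linarith
    · obtain ⟨-, hb, -, -⟩ := cGE x hx (p (a j)) (p (b j))
      refine csInf_le hb ⟨b j - a j, fun i => p (a j + i), rfl, ?_, ?_, ?_⟩
      · show p (a j + (b j - a j)) = p (b j)
        congr 1; omega
      · intro i hi
        exact hadj (a j + i) (by omega)
      · exact hsum.symm
    · intro s hs
      by_contra hlt
      refine hs ⟨b j - a j, fun i => p (a j + i), rfl, ?_, ?_, ?_, ?_⟩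
      · show p (a j + (b j - a j)) = p (b j)
        congr 1; omega
      · intro i hi
        exact hadj (a j + i) (by omega)
      · intro i hi
        have h3 := k5 (a j + i) (by omega) (by omega)
        show 0 ≤ φ (em (p (a j + i) - g j)) ∧ φ (em (p (a j + i) - g j)) ≤ m
        rw [em_sub, map_sub]
        constructor <;> linarith [h3.1, h3.2]
      · exact lt_of_eq_of_lt hsum (not_le.1 hlt)

end Pool.Agent.V7H97.FO
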