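import Pool.Agent.V7H97.FO.Norm

/-!
# Fast crossings of strips: measurability, independence, translations
-/

set_option autoImplicit false

open MeasureTheory ProbabilityTheory Filter Set

namespace Pool.Agent.V7H97.FO

open Pool.Agent.N662.FP
open Pool.Agent.N390.FL.TI (sg sg_inj D_shift)

/-- there is a path in `R` from `a` to `b` with passage time below `s` -/
def Cr (x : Sym2 (ℤ × ℤ) → ℝ) (R : Set (ℤ × ℤ)) (a b : ℤ × ℤ) (s : ℝ) : Prop :=
  ∃ n : ℕ, ∃ p : ℕ → ℤ × ℤ, p 0 = a ∧ p n = b ∧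
    (∀ i < n, |(p (i + 1)).1 - (p i).1| + |(p (i + 1)).2 - (p i).2| = 1) ∧
    (∀ i ≤ n, p i ∈ R) ∧ ∑ i ∈ Finset.range n, x s(p i, p (i + 1)) < s

/-- the strip of `φ`-width `m` above the lattice point `g` -/
def St (φ : (ℝ × ℝ) →ₗ[ℝ] ℝ) (m : ℝ) (g : ℤ × ℤ) : Set (ℤ × ℤ) :=
  {z | 0 ≤ φ (em (z - g)) ∧ φ (em (z - g)) ≤ m}

/-- fast crossing of the strip above `g`, between windows around `c` and `c'` -/
def Bw (φ ψ : (ℝ × ℝ) →ₗ[ℝ] ℝ) (m C r w : ℝ) (c : ℝ × ℝ) (x : Sym2 (ℤ × ℤ) → ℝ) (g : ℤ × ℤ) :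
    Prop :=
  ∃ a b : ℤ × ℤ, (φ (em (a - g)) ≤ C ∧ m - C ≤ φ (em (b - g)) ∧ |ψ (em (a - g)) - c.1| ≤ w ∧
    |ψ (em (b - g)) - c.2| ≤ w) ∧ Cr x (St φ m g) a b (φ (em (b - a)) - r)

/-- fast crossing for one of the pairs of windows in `K` -/
def BB (φ ψ : (ℝ × ℝ) →ₗ[ℝ] ℝ) (m C r w : ℝ) (K : Finset (ℝ × ℝ)) (x : Sym2 (ℤ × ℤ) → ℝ)
    (g : ℤ × ℤ) : Prop := ∃ c ∈ K, Bw φ ψ m C r w c x g

/-- the edges with both ends in `R` -/
def Ed (R : Set (ℤ × ℤ)) : Set (Sym2 (ℤ × ℤ)) := {e | ∀ z ∈ e, z ∈ R}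

theorem Ed_disjoint {R R' : Set (ℤ × ℤ)} (h : Disjoint R R') : Disjoint (Ed R) (Ed R') := by
  rw [Set.disjoint_left] at h ⊢
  intro e h1 h2
  induction e using Sym2.ind with
  | _ a b => exact h (h1 a (Sym2.mem_mk_left a b)) (h2 a (Sym2.mem_mk_left a b))

instance : Countable (Sym2 (ℤ × ℤ)) := by
  unfold Sym2
  infer_instance

theorem meas_Cr {Ω : Type} (m' : MeasurableSpace Ω) (X : Sym2 (ℤ × ℤ) → Ω → ℝ) (R : Set (ℤ × ℤ))
    (hX : ∀ e ∈ Ed R, Measurable[m'] (X e)) (a b : ℤ × ℤ) (s : ℝ) :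
    MeasurableSet[m'] {ω | Cr (env X ω) R a b s} := by
  have e : {ω | Cr (env X ω) R a b s} = ⋃ n : ℕ, ⋃ q : Fin (n + 1) → ℤ × ℤ,
      {ω | (q ⟨0, by omega⟩ = a ∧ q ⟨n, by omega⟩ = b ∧
        (∀ i < n, |(q ⟨min (i + 1) n, by omega⟩).1 - (q ⟨min i n, by omega⟩).1| +
          |(q ⟨min (i + 1) n, by omega⟩).2 - (q ⟨min i n, by omega⟩).2| = 1) ∧
        (∀ i ≤ n, q ⟨min i n, by omega⟩ ∈ R)) ∧
        ∑ i ∈ Finset.range n, X s(q ⟨min i n, by omega⟩, q ⟨min (i + 1) n, by omega⟩) ω < s} := by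
    ext ω
    simp only [mem_ofPred_eq, mem_iUnion]
    constructor
    · rintro ⟨n, p, h0, h1, h2, h3, h4⟩
      refine ⟨n, fun i => p i, ⟨h0, h1, ?_, ?_⟩, ?_⟩
      · intro i hi
        have e1 : min (i + 1) n = i + 1 := by omega
        have e2 : min i n = i := by omega
        simp only [e1, e2]
        exact h2 i hi
      · intro i hi
        have e2 : min i n = i := by omega
        simp only [e2]
        exact h3 i hi
      · refine lt_of_eq_of_lt (Finset.sum_congr rfl fun i hi => ?_) h4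
        rw [Finset.mem_range] at hi
        have e1 : min (i + 1) n = i + 1 := by omega
        have e2 : min i n = i := by omega
        simp only [e1, e2]
        rfl
    · rintro ⟨n, q, ⟨h0, h1, h2, h3⟩, h4⟩
      refine ⟨n, fun i => q ⟨min i n, by omega⟩, ?_, ?_, h2, h3, h4⟩
      · simp only [Nat.zero_min]
        exact h0
      · simp only [min_self]
        exact h1
  rw [e]
  refine MeasurableSet.iUnion fun n => MeasurableSet.iUnion fun q => ?_
  by_cases hc : (q ⟨0, by omega⟩ = a ∧ q ⟨n, by omega⟩ = b ∧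
        (∀ i < n, |(q ⟨min (i + 1) n, by omega⟩).1 - (q ⟨min i n, by omega⟩).1| +
          |(q ⟨min (i + 1) n, by omega⟩).2 - (q ⟨min i n, by omega⟩).2| = 1) ∧
        (∀ i ≤ n, q ⟨min i n, by omega⟩ ∈ R))
  · have hm : Measurable[m'] (fun ω => ∑ i ∈ Finset.range n,
        X s(q ⟨min i n, by omega⟩, q ⟨min (i + 1) n, by omega⟩) ω) := by
      refine Finset.measurable_fun_sum _ fun i hi => hX _ ?_
      rw [Finset.mem_range] at hi
      intro z hz
      rcases Sym2.mem_iff.1 hz with rfl | rfl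
      · exact hc.2.2.2 i hi.le
      · exact hc.2.2.2 (i + 1) (by omega)
    have h5 := hm (measurableSet_Iio (a := s))
    convert h5 using 1
    ext ω
    exact ⟨fun h => h.2, fun h => ⟨hc, h⟩⟩
  · have : {ω | (q ⟨0, by omega⟩ = a ∧ q ⟨n, by omega⟩ = b ∧
        (∀ i < n, |(q ⟨min (i + 1) n, by omega⟩).1 - (q ⟨min i n, by omega⟩).1| +
          |(q ⟨min (i + 1) n, by omega⟩).2 - (q ⟨min i n, by omega⟩).2| = 1) ∧
        (∀ i ≤ n, q ⟨min i n, by omega⟩ ∈ R)) ∧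
        ∑ i ∈ Finset.range n, X s(q ⟨min i n, by omega⟩, q ⟨min (i + 1) n, by omega⟩) ω < s} = ∅ := by
      ext ω
      simp only [mem_ofPred_eq, mem_empty_iff_false, iff_false]
      exact fun h => hc h.1
    rw [this]
    exact MeasurableSet.empty

theorem meas_BB {Ω : Type} (m' : MeasurableSpace Ω) (X : Sym2 (ℤ × ℤ) → Ω → ℝ)
    (φ ψ : (ℝ × ℝ) →ₗ[ℝ] ℝ) (m C r w : ℝ) (K : Finset (ℝ × ℝ)) (g : ℤ × ℤ)
    (hX : ∀ e ∈ Ed (St φ m g), Measurable[m'] (X e)) :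
    MeasurableSet[m'] {ω | BB φ ψ m C r w K (env X ω) g} := by
  have e : {ω | BB φ ψ m C r w K (env X ω) g} = ⋃ c ∈ K, ⋃ a : ℤ × ℤ, ⋃ b : ℤ × ℤ,
      {ω | (φ (em (a - g)) ≤ C ∧ m - C ≤ φ (em (b - g)) ∧ |ψ (em (a - g)) - c.1| ≤ w ∧
        |ψ (em (b - g)) - c.2| ≤ w) ∧ Cr (env X ω) (St φ m g) a b (φ (em (b - a)) - r)} := by
    ext ω
    simp only [mem_ofPred_eq, mem_iUnion, BB, Bw, exists_prop]
  rw [e]
  refine Finset.measurableSet_biUnion _ fun c _ => MeasurableSet.iUnion fun a =>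
    MeasurableSet.iUnion fun b => ?_
  by_cases hc : (φ (em (a - g)) ≤ C ∧ m - C ≤ φ (em (b - g)) ∧ |ψ (em (a - g)) - c.1| ≤ w ∧
        |ψ (em (b - g)) - c.2| ≤ w)
  · have : {ω | (φ (em (a - g)) ≤ C ∧ m - C ≤ φ (em (b - g)) ∧ |ψ (em (a - g)) - c.1| ≤ w ∧
        |ψ (em (b - g)) - c.2| ≤ w) ∧ Cr (env X ω) (St φ m g) a b (φ (em (b - a)) - r)} =
        {ω | Cr (env X ω) (St φ m g) a b (φ (em (b - a)) - r)} := by
      ext ω; exact ⟨fun h => h.2, fun h => ⟨hc, h⟩⟩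
    rw [this]
    exact meas_Cr m' X _ hX a b _
  · have : {ω | (φ (em (a - g)) ≤ C ∧ m - C ≤ φ (em (b - g)) ∧ |ψ (em (a - g)) - c.1| ≤ w ∧
        |ψ (em (b - g)) - c.2| ≤ w) ∧ Cr (env X ω) (St φ m g) a b (φ (em (b - a)) - r)} = ∅ := by
      ext ω
      simp only [mem_ofPred_eq, mem_empty_iff_false, iff_false]
      exact fun h => hc h.1
    rw [this]
    exact MeasurableSet.empty

/-- translation of crossings -/
theorem Cr_shift (x : Sym2 (ℤ × ℤ) → ℝ) (φ : (ℝ × ℝ) →ₗ[ℝ] ℝ) (m : ℝ) (g a b : ℤ × ℤ) (s : ℝ) :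
    Cr x (St φ m g) (g + a) (g + b) s ↔ Cr (fun e => x (sg g e)) (St φ m 0) a b s := by
  constructor
  · rintro ⟨n, p, h0, h1, h2, h3, h4⟩
    refine ⟨n, fun i => p i - g, ?_, ?_, fun i hi => ?_, fun i hi => ?_, ?_⟩
    · show p 0 - g = a
      rw [h0, add_sub_cancel_left]
    · show p n - g = b
      rw [h1, add_sub_cancel_left]
    · have h5 := h2 i hi
      simp only [Prod.fst_sub, Prod.snd_sub, sub_sub_sub_cancel_right]
      exact h5
    · have h5 := h3 i hi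
      show 0 ≤ φ (em (p i - g - 0)) ∧ φ (em (p i - g - 0)) ≤ m
      rw [sub_zero]
      exact h5
    · refine lt_of_eq_of_lt (Finset.sum_congr rfl fun i _ => ?_) h4
      show x s(g + (p i - g), g + (p (i + 1) - g)) = x s(p i, p (i + 1))
      rw [add_sub_cancel, add_sub_cancel]
  · rintro ⟨n, p, h0, h1, h2, h3, h4⟩
    refine ⟨n, fun i => g + p i, ?_, ?_, fun i hi => ?_, fun i hi => ?_, ?_⟩
    · show g + p 0 = g + a
      rw [h0]
    · show g + p n = g + b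
      rw [h1]
    · have h5 := h2 i hi
      simp only [Prod.fst_add, Prod.snd_add, add_sub_add_left_eq_sub]
      exact h5
    · have h5 := h3 i hi
      show 0 ≤ φ (em (g + p i - g)) ∧ φ (em (g + p i - g)) ≤ m
      rw [add_sub_cancel_left]
      have h6 : 0 ≤ φ (em (p i - 0)) ∧ φ (em (p i - 0)) ≤ m := h5
      rw [sub_zero] at h6
      exact h6
    · exact h4

theorem BB_shift (φ ψ : (ℝ × ℝ) →ₗ[ℝ] ℝ) (m C r w : ℝ) (K : Finset (ℝ × ℝ))
    (x : Sym2 (ℤ × ℤ) → ℝ) (g : ℤ × ℤ) :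
    BB φ ψ m C r w K x g ↔ BB φ ψ m C r w K (fun e => x (sg g e)) 0 := by
  constructor
  · rintro ⟨c, hc, a, b, h1, h2⟩
    refine ⟨c, hc, a - g, b - g, ?_, ?_⟩
    · rw [sub_zero, sub_zero]; exact h1
    · have e1 : a = g + (a - g) := by abel
      have e2 : b = g + (b - g) := by abel
      have h3 : Cr x (St φ m g) (g + (a - g)) (g + (b - g)) (φ (em (b - a)) - r) := by
        rw [← e1, ← e2]; exact h2
      have h4 := (Cr_shift x φ m g _ _ _).1 h3
      have e3 : b - g - (a - g) = b - a := by abel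
      rw [e3]; exact h4
  · rintro ⟨c, hc, a, b, h1, h2⟩
    refine ⟨c, hc, g + a, g + b, ?_, ?_⟩
    · rw [add_sub_cancel_left, add_sub_cancel_left]
      rw [sub_zero, sub_zero] at h1; exact h1
    · have e3 : g + b - (g + a) = b - a := by abel
      rw [e3]
      exact (Cr_shift x φ m g _ _ _).2 h2

/-- the law of the environment is invariant under translations -/
theorem shift_law {Ω : Type} [MeasureSpace Ω] [IsProbabilityMeasure (volume : Measure Ω)]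
    (X : Sym2 (ℤ × ℤ) → Ω → ℝ) (hX : Iid X) (g : ℤ × ℤ) (G : Set (Sym2 (ℤ × ℤ) → ℝ))
    (hG : MeasurableSet G) :
    (volume : Measure Ω) {ω | (fun e => env X ω (sg g e)) ∈ G} =
      (volume : Measure Ω) {ω | env X ω ∈ G} := by
  have m1 : Measurable (fun ω (e : Sym2 (ℤ × ℤ)) => X (sg g e) ω) :=
    measurable_pi_iff.2 fun e => hX.meas _
  have m2 : Measurable (fun ω (e : Sym2 (ℤ × ℤ)) => X e ω) := measurable_pi_iff.2 fun e => hX.meas e
  have l1 : Measure.map (fun ω (e : Sym2 (ℤ × ℤ)) => X (sg g e) ω) (volume : Measure Ω) =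
      Measure.infinitePi (fun _ : Sym2 (ℤ × ℤ) => expMeasure 1) := by
    have h3 : iIndepFun (fun e => X (sg g e)) (volume : Measure Ω) := hX.ind.precomp (sg_inj g)
    have h4 := (iIndepFun_iff_map_fun_eq_infinitePi_map (fun e => hX.meas (sg g e))).1 h3
    rw [h4]
    congr 1
    funext e
    exact hX.law _
  have l2 : Measure.map (fun ω (e : Sym2 (ℤ × ℤ)) => X e ω) (volume : Measure Ω) =
      Measure.infinitePi (fun _ : Sym2 (ℤ × ℤ) => expMeasure 1) := by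
    have h4 := (iIndepFun_iff_map_fun_eq_infinitePi_map hX.meas).1 hX.ind
    rw [h4]
    congr 1
    funext e
    exact hX.law _
  have e1 : {ω | (fun e => env X ω (sg g e)) ∈ G} =
      (fun ω (e : Sym2 (ℤ × ℤ)) => X (sg g e) ω) ⁻¹' G := rfl
  have e2 : {ω | env X ω ∈ G} = (fun ω (e : Sym2 (ℤ × ℤ)) => X e ω) ⁻¹' G := rfl
  rw [e1, e2, ← Measure.map_apply m1 hG, ← Measure.map_apply m2 hG, l1, l2]

section
variable {Ω : Type} [MeasureSpace Ω] [IsProbabilityMeasure (volume : Measure Ω)]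
variable {X : Sym2 (ℤ × ℤ) → Ω → ℝ}

theorem BB_law (hX : Iid X) (φ ψ : (ℝ × ℝ) →ₗ[ℝ] ℝ) (m C r w : ℝ) (K : Finset (ℝ × ℝ))
    (g : ℤ × ℤ) :
    (volume : Measure Ω) {ω | BB φ ψ m C r w K (env X ω) g} =
      (volume : Measure Ω) {ω | BB φ ψ m C r w K (env X ω) 0} := by
  have hG : MeasurableSet {x : Sym2 (ℤ × ℤ) → ℝ | BB φ ψ m C r w K x 0} :=
    meas_BB inferInstance (fun e (x : Sym2 (ℤ × ℤ) → ℝ) => x e) φ ψ m C r w K 0
      (fun e _ => measurable_pi_apply e)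
  have h := shift_law X hX g _ hG
  refine Eq.trans (congrArg _ ?_) h
  ext ω
  exact BB_shift φ ψ m C r w K (env X ω) g

/-- products over disjoint index sets -/
theorem prod_indep {Ω ι : Type} {mΩ : MeasurableSpace Ω} {P : Measure Ω} [IsProbabilityMeasure P]
    {m : ι → MeasurableSpace Ω} (hle : ∀ i, m i ≤ mΩ) (hi : iIndep m P) (F : ℕ → Set ι)
    (A : ℕ → Set Ω) (hA : ∀ k, MeasurableSet[⨆ i ∈ F k, m i] (A k)) (s : Finset ℕ)
    (hF : ∀ i ∈ s, ∀ j ∈ s, i ≠ j → Disjoint (F i) (F j)) :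
    P (⋂ k ∈ s, A k) = ∏ k ∈ s, P (A k) := by
  classical
  induction s using Finset.induction_on with
  | empty => simp
  | insert k s hk ih =>
    have ih' := ih fun i h1 j h2 => hF i (Finset.mem_insert_of_mem h1) j (Finset.mem_insert_of_mem h2)
    rw [Finset.prod_insert hk, ← ih', Finset.set_biInter_insert]
    have hd : Disjoint (F k) (⋃ j ∈ s, F j) := by
      rw [Set.disjoint_iUnion₂_right]
      intro j hj
      exact hF k (Finset.mem_insert_self _ _) j (Finset.mem_insert_of_mem hj)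
        (fun h => hk (h ▸ hj))
    have hI := indep_iSup_of_disjoint hle hi hd
    refine (Indep_iff _ _ _).1 hI _ _ (hA k) ?_
    refine Finset.measurableSet_biInter _ fun j hj => ?_
    have hle2 : (⨆ i ∈ F j, m i) ≤ ⨆ i ∈ (⋃ j ∈ s, F j), m i :=
      biSup_mono fun i hi => Set.mem_iUnion₂.2 ⟨j, hj, hi⟩
    exact hle2 _ (hA j)

theorem BB_indep (hX : Iid X) (φ ψ : (ℝ × ℝ) →ₗ[ℝ] ℝ) (m C r w : ℝ) (K : Finset (ℝ × ℝ))
    (g : ℕ → ℤ × ℤ) (s : Finset ℕ)
    (hd : ∀ i ∈ s, ∀ j ∈ s, i ≠ j → Disjoint (St φ m (g i)) (St φ m (g j))) :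
    (volume : Measure Ω) (⋂ k ∈ s, {ω | BB φ ψ m C r w K (env X ω) (g k)}) =
      (volume : Measure Ω) {ω | BB φ ψ m C r w K (env X ω) 0} ^ s.card ∧
    (volume : Measure Ω) (⋂ k ∈ s, {ω | ¬ BB φ ψ m C r w K (env X ω) (g k)}) =
      (1 - (volume : Measure Ω) {ω | BB φ ψ m C r w K (env X ω) 0}) ^ s.card := by
  have hle : ∀ e, MeasurableSpace.comap (X e) inferInstance ≤ (inferInstance : MeasurableSpace Ω) :=
    fun e => (hX.meas e).comap_le
  have hi : iIndep (fun e => MeasurableSpace.comap (X e) inferInstance) (volume : Measure Ω) :=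
    (iIndepFun_iff_iIndep _ _ _).1 hX.ind
  have hm : ∀ k, MeasurableSet[⨆ e ∈ Ed (St φ m (g k)), MeasurableSpace.comap (X e) inferInstance]
      {ω | BB φ ψ m C r w K (env X ω) (g k)} := by
    intro k
    refine meas_BB _ X φ ψ m C r w K (g k) fun e he => ?_
    rw [measurable_iff_comap_le]
    exact le_biSup (fun e => MeasurableSpace.comap (X e) inferInstance) he
  have hm' : ∀ k, MeasurableSet {ω | BB φ ψ m C r w K (env X ω) (g k)} := by
    intro k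
    exact meas_BB _ X φ ψ m C r w K (g k) fun e _ => hX.meas e
  have hdd : ∀ i ∈ s, ∀ j ∈ s, i ≠ j → Disjoint (Ed (St φ m (g i))) (Ed (St φ m (g j))) :=
    fun i h1 j h2 h3 => Ed_disjoint (hd i h1 j h2 h3)
  constructor
  · rw [prod_indep hle hi (fun k => Ed (St φ m (g k))) _ hm s hdd]
    rw [Finset.prod_congr rfl fun k _ => BB_law hX φ ψ m C r w K (g k)]
    rw [Finset.prod_const]
  · rw [prod_indep hle hi (fun k => Ed (St φ m (g k))) (fun k => {ω | ¬ BB φ ψ m C r w K (env X ω) (g k)})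
      (fun k => (hm k).compl) s hdd]
    rw [Finset.prod_congr rfl (g := fun _ => 1 - (volume : Measure Ω)
      {ω | BB φ ψ m C r w K (env X ω) 0}) fun k _ => ?_, Finset.prod_const]
    rw [← BB_law hX φ ψ m C r w K (g k)]
    exact prob_compl_eq_one_sub (hm' k)

end

end Pool.Agent.V7H97.FO
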