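import Pool.Agent.V7H97.FO.Hull

/-!
# Rate of convergence from the splitting property
-/

set_option autoImplicit false

open MeasureTheory ProbabilityTheory Filter Set
open scoped Pointwise Topology

namespace Pool.Agent.V7H97.FO

open Pool.Agent.N662.FP

/-- the embedding of the lattice, as a homomorphism -/
noncomputable def emH : (ℤ × ℤ) →+ (ℝ × ℝ) where
  toFun := Pool.Agent.N662.FP.em
  map_zero' := by unfold Pool.Agent.N662.FP.em; ext <;> simp
  map_add' := fun v w => em_add v w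

theorem emH_apply (v : ℤ × ℤ) : emH v = Pool.Agent.N662.FP.em v := rfl

theorem em_nsmul (n : ℕ) (v : ℤ × ℤ) :
    Pool.Agent.N662.FP.em (n • v) = (n : ℝ) • Pool.Agent.N662.FP.em v := by
  rw [← emH_apply, ← emH_apply, map_nsmul, Nat.cast_smul_eq_nsmul]

theorem em_sum {ι : Type} (s : Finset ι) (f : ι → ℤ × ℤ) :
    Pool.Agent.N662.FP.em (∑ i ∈ s, f i) = ∑ i ∈ s, Pool.Agent.N662.FP.em (f i) := by
  rw [← emH_apply, map_sum]; rfl

section
variable {h : ℤ × ℤ → ℝ} {μ : Seminorm ℝ (ℝ × ℝ)} {Al : ℝ}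

theorem h_nsmul (hS : Sa h μ Al) (n : ℕ) (w : ℤ × ℤ) : h (n • w) ≤ n * h w := by
  induction n with
  | zero => simp [hS.zero]
  | succ n ih =>
    rw [succ_nsmul]
    refine (hS.add _ _).trans ?_
    push_cast
    linarith

/-- Caratheodory -/
theorem carath (hS : Sa h μ Al) {m r : ℝ} (hm : 0 ≤ m) (hr : 0 ≤ r) {x : ℝ × ℝ}
    (hx : x ∈ r • Kh h m) : ∃ (ι : Type) (_ : Fintype ι) (w : ι → ℤ × ℤ) (α : ι → ℝ),
      Fintype.card ι ≤ 3 ∧ (∀ i, 0 ≤ α i ∧ h (w i) ≤ m) ∧
      ∑ i, α i • Pool.Agent.N662.FP.em (w i) = x ∧ ∑ i, α i * h (w i) ≤ r := by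
  classical
  obtain ⟨y, hy, rfl⟩ := hx
  obtain ⟨ι, hι, z, lam, hz, hind, hpos, hsum, hcomb⟩ := eq_pos_convex_span_of_mem_convexHull hy
  have hcard : Fintype.card ι ≤ 3 := by
    have h1 := hind.card_le_finrank_succ
    have h2 : Module.finrank ℝ (vectorSpan ℝ (Set.range z)) ≤ Module.finrank ℝ (ℝ × ℝ) :=
      Submodule.finrank_le _
    have h3 : Module.finrank ℝ (ℝ × ℝ) = 2 := by simp
    omega
  have hw : ∀ i, ∃ (w : ℤ × ℤ) (a : ℝ), 0 ≤ a ∧ h w ≤ m ∧ a • Pool.Agent.N662.FP.em w = z i ∧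
      a * h w ≤ 1 := by
    intro i
    rcases hz (Set.mem_range_self i) with h0 | ⟨w, h1, h2, h3⟩
    · refine ⟨0, 0, le_rfl, by rw [hS.zero]; exact hm, ?_, ?_⟩
      · rw [zero_smul]; exact h0.symm
      · rw [zero_mul]; exact zero_le_one
    · refine ⟨w, (h w)⁻¹, by positivity, h2, h3.symm, ?_⟩
      rw [inv_mul_cancel₀ h1.ne']
  choose w a ha1 ha2 ha3 ha4 using hw
  refine ⟨ι, hι, w, fun i => r * lam i * a i, hcard, fun i => ⟨?_, ha2 i⟩, ?_, ?_⟩
  · have := (hpos i).le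
    have := ha1 i
    positivity
  · have e1 : ∀ i, (r * lam i * a i) • Pool.Agent.N662.FP.em (w i) = r • (lam i • z i) := by
      intro i
      rw [← ha3 i, smul_smul, smul_smul, mul_assoc]
    rw [Finset.sum_congr rfl fun i _ => e1 i, ← Finset.smul_sum, hcomb]
  · calc ∑ i, r * lam i * a i * h (w i) ≤ ∑ i, r * lam i := by
          refine Finset.sum_le_sum fun i _ => ?_
          have h1 : 0 ≤ r * lam i := mul_nonneg hr (hpos i).le
          calc r * lam i * a i * h (w i) = (r * lam i) * (a i * h (w i)) := by ring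
            _ ≤ (r * lam i) * 1 := mul_le_mul_of_nonneg_left (ha4 i) h1
            _ = r * lam i := mul_one _
      _ = r := by rw [← Finset.mul_sum, hsum, mul_one]

theorem mem_Kh (hS : Sa h μ Al) {C1 m δ : ℝ} (hm0 : 0 < m) (hC1 : 0 < C1)
    (hK : ∀ m', Kh h m' ⊆ (1 + C1 * m ^ (-δ)) • Kh h m) (v : ℤ × ℤ) :
    Pool.Agent.N662.FP.em v ∈
      ((μ (Pool.Agent.N662.FP.em v) + 1) * (1 + C1 * m ^ (-δ))) • Kh h m := by
  obtain ⟨k, hk, hkk⟩ := hS.lim v 1 one_pos
  have hk0 : (0 : ℝ) < k := by exact_mod_cast hk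
  have h0 : 0 ≤ h ((k : ℤ) • v) := (apply_nonneg μ _).trans (hS.le _)
  obtain ⟨y, hy, hy2⟩ := Kh_gen hS (m := h ((k : ℤ) • v)) (w := (k : ℤ) • v) le_rfl
  have hy2' : h ((k : ℤ) • v) • y = Pool.Agent.N662.FP.em ((k : ℤ) • v) := hy2
  have g1 := Kh_smul (c := (k : ℝ)⁻¹ * h ((k : ℤ) • v)) (hK _ hy)
  have e1 : ((k : ℝ)⁻¹ * h ((k : ℤ) • v)) • y = Pool.Agent.N662.FP.em v := by
    rw [mul_smul, hy2', natCast_zsmul, em_nsmul, smul_smul, inv_mul_cancel₀ hk0.ne', one_smul]
  rw [e1] at g1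
  have hp : 0 ≤ 1 + C1 * m ^ (-δ) := by positivity
  refine Kh_le (by positivity) ?_ g1
  refine mul_le_mul_of_nonneg_right ?_ hp
  rw [inv_mul_le_iff₀ hk0]
  exact hkk

theorem rate (hS : Sa h μ Al) {δ C N0 : ℝ} (hC : 0 < C) (hδ : 0 < δ) (hδ1 : δ < 1)
    (hspl : Spl h μ δ C N0) : ∃ A : ℝ, 0 < A ∧ ∀ v : ℤ × ℤ,
      h v ≤ μ (Pool.Agent.N662.FP.em v) + A * (1 + μ (Pool.Agent.N662.FP.em v)) ^ (1 - δ) := by
  classical
  obtain ⟨C1, m0, hC1, hm0, hK⟩ := Kh_iter hS hC hδ hδ1 hspl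
  obtain ⟨Q, hQ⟩ : ∃ Q : ℝ, Q = 4 * 2 ^ (1 / (1 - δ)) := ⟨_, rfl⟩
  have h1δ : 0 < 1 - δ := by linarith
  have hQ8 : 8 ≤ Q := by
    have h2 : (2 : ℝ) ^ (1 : ℝ) ≤ 2 ^ (1 / (1 - δ)) := by
      refine Real.rpow_le_rpow_of_exponent_le (by norm_num) ?_
      rw [le_div_iff₀ h1δ]; linarith
    rw [Real.rpow_one] at h2
    linarith
  have hQ0 : 0 < Q := by linarith
  have hQ4 : (4 / Q) ^ (1 - δ) = 1 / 2 := by
    have e1 : 4 / Q = (2 ^ (1 / (1 - δ)))⁻¹ := by
      rw [hQ]
      have : (2 : ℝ) ^ (1 / (1 - δ)) ≠ 0 := by positivity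
      field_simp
    rw [e1, Real.inv_rpow (by positivity), ← Real.rpow_mul (by norm_num)]
    have e2 : 1 / (1 - δ) * (1 - δ) = 1 := by field_simp
    rw [e2, Real.rpow_one]
    norm_num
  obtain ⟨x0, hx0⟩ : ∃ x0, x0 = Q * m0 := ⟨_, rfl⟩
  have hx00 : 0 < x0 := by rw [hx0]; positivity
  obtain ⟨A, hA⟩ : ∃ A, A = |Al| * x0 + 2 * (1 + C1 * Q ^ δ) := ⟨_, rfl⟩
  have hA1 : |Al| * x0 ≤ A := by
    have : 0 < C1 * Q ^ δ := by positivity
    rw [hA]; linarith
  have hA2 : 2 * (1 + C1 * Q ^ δ) ≤ A := by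
    have : 0 ≤ |Al| * x0 := by positivity
    rw [hA]; linarith
  have hA0 : 0 < A := by
    have : 0 < C1 * Q ^ δ := by positivity
    linarith
  refine ⟨A, hA0, ?_⟩
  have key : ∀ N : ℕ, ∀ v : ℤ × ℤ, μ (Pool.Agent.N662.FP.em v) ≤ N →
      h v ≤ μ (Pool.Agent.N662.FP.em v) + A * (1 + μ (Pool.Agent.N662.FP.em v)) ^ (1 - δ) := by
    have small : ∀ v : ℤ × ℤ, 1 + μ (Pool.Agent.N662.FP.em v) ≤ x0 →
        h v ≤ μ (Pool.Agent.N662.FP.em v) + A * (1 + μ (Pool.Agent.N662.FP.em v)) ^ (1 - δ) := by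
      intro v hv
      have h1 := apply_nonneg μ (Pool.Agent.N662.FP.em v)
      have h2 : h v ≤ |Al| * x0 := by
        calc h v ≤ Al * μ (Pool.Agent.N662.FP.em v) := hS.lin v
          _ ≤ |Al| * μ (Pool.Agent.N662.FP.em v) := mul_le_mul_of_nonneg_right (le_abs_self _) h1
          _ ≤ |Al| * x0 := mul_le_mul_of_nonneg_left (by linarith) (abs_nonneg _)
      have h3 : 1 ≤ (1 + μ (Pool.Agent.N662.FP.em v)) ^ (1 - δ) :=
        Real.one_le_rpow (by linarith) h1δ.le
      have h4 : A * 1 ≤ A * (1 + μ (Pool.Agent.N662.FP.em v)) ^ (1 - δ) := by gcongr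
      linarith
    intro N
    induction N with
    | zero =>
      intro v hv
      apply small
      have : (8 : ℝ) * 1 ≤ Q * m0 := by gcongr
      rw [hx0]
      push_cast at hv
      linarith
    | succ N ih =>
      intro v hv
      rcases le_or_gt (1 + μ (Pool.Agent.N662.FP.em v)) x0 with hs | hs
      · exact small v hs
      · obtain ⟨x, hx⟩ : ∃ x, x = 1 + μ (Pool.Agent.N662.FP.em v) := ⟨_, rfl⟩
        rw [← hx] at hs ⊢
        have hx8 : 8 ≤ x := by
          have : (8 : ℝ) * 1 ≤ Q * m0 := by gcongr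
          rw [hx0] at hs
          linarith
        have hxp : 0 < x := by linarith
        obtain ⟨m, hm⟩ : ∃ m, m = x / Q := ⟨_, rfl⟩
        have hmm : m0 ≤ m := by
          rw [hm, le_div_iff₀ hQ0]
          rw [hx0] at hs
          linarith
        have hmp : 0 < m := by linarith
        have hmem := mem_Kh hS hmp hC1 (hK m hmm) v
        have e0 : μ (Pool.Agent.N662.FP.em v) + 1 = x := by rw [hx]; ring
        rw [e0] at hmem
        have hr0 : 0 ≤ x * (1 + C1 * m ^ (-δ)) := by positivity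
        obtain ⟨ι, hι, w, α, hcard, hα, hsum, hcost⟩ := carath hS hmp.le hr0 hmem
        obtain ⟨rem, hrem⟩ : ∃ rem : ℤ × ℤ, rem = v - ∑ i, ⌊α i⌋₊ • w i := ⟨_, rfl⟩
        have hemr : Pool.Agent.N662.FP.em rem =
            ∑ i, (α i - (⌊α i⌋₊ : ℝ)) • Pool.Agent.N662.FP.em (w i) := by
          rw [hrem, em_sub, em_sum, ← hsum, ← Finset.sum_sub_distrib]
          refine Finset.sum_congr rfl fun i _ => ?_
          rw [em_nsmul, sub_smul]
        have hfr : ∀ i, 0 ≤ α i - (⌊α i⌋₊ : ℝ) ∧ α i - (⌊α i⌋₊ : ℝ) ≤ 1 := by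
          intro i
          have h2 := Nat.floor_le (hα i).1
          have h3 := Nat.lt_floor_add_one (α i)
          constructor <;> linarith
        have hμr : μ (Pool.Agent.N662.FP.em rem) ≤
            ∑ i, (α i - (⌊α i⌋₊ : ℝ)) * μ (Pool.Agent.N662.FP.em (w i)) := by
          rw [hemr]
          refine (Finset.le_sum_of_subadditive μ (map_zero μ).le (map_add_le_add μ) _ _).trans
            (le_of_eq ?_)
          refine Finset.sum_congr rfl fun i _ => ?_
          rw [map_smul_eq_mul, Real.norm_eq_abs, abs_of_nonneg (hfr i).1]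
        have hμr3 : μ (Pool.Agent.N662.FP.em rem) ≤ 3 * m := by
          refine hμr.trans ?_
          calc ∑ i, (α i - (⌊α i⌋₊ : ℝ)) * μ (Pool.Agent.N662.FP.em (w i)) ≤ ∑ _i : ι, m := by
                refine Finset.sum_le_sum fun i _ => ?_
                have h2 : μ (Pool.Agent.N662.FP.em (w i)) ≤ m := (hS.le _).trans (hα i).2
                have h3 := apply_nonneg μ (Pool.Agent.N662.FP.em (w i))
                calc _ ≤ 1 * μ (Pool.Agent.N662.FP.em (w i)) :=
                      mul_le_mul_of_nonneg_right (hfr i).2 h3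
                  _ ≤ m := by rw [one_mul]; exact h2
            _ = (Fintype.card ι : ℝ) * m := by
                rw [Finset.sum_const, Finset.card_univ, nsmul_eq_mul]
            _ ≤ 3 * m := by
                gcongr
                exact_mod_cast hcard
        have hm8 : m ≤ x / 8 := by
          rw [hm]; gcongr
        have hremN : μ (Pool.Agent.N662.FP.em rem) ≤ N := by
          push_cast at hv
          linarith
        have h5 := ih rem hremN
        have h6 : h v ≤ ∑ i, (⌊α i⌋₊ : ℝ) * h (w i) + h rem := by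
          have e1 : v = ∑ i, ⌊α i⌋₊ • w i + rem := by rw [hrem]; abel
          calc h v = h (∑ i, ⌊α i⌋₊ • w i + rem) := by rw [← e1]
            _ ≤ h (∑ i, ⌊α i⌋₊ • w i) + h rem := hS.add _ _
            _ ≤ ∑ i, h (⌊α i⌋₊ • w i) + h rem := by
                gcongr
                exact Finset.le_sum_of_subadditive h hS.zero.le hS.add _ _
            _ ≤ _ := by
                gcongr with i _
                exact h_nsmul hS _ _
        have h7 : μ (Pool.Agent.N662.FP.em rem) ≤ ∑ i, (α i - (⌊α i⌋₊ : ℝ)) * h (w i) := by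
          refine hμr.trans (Finset.sum_le_sum fun i _ => ?_)
          exact mul_le_mul_of_nonneg_left (hS.le _) (hfr i).1
        have h8 : ∑ i, (⌊α i⌋₊ : ℝ) * h (w i) + ∑ i, (α i - (⌊α i⌋₊ : ℝ)) * h (w i) =
            ∑ i, α i * h (w i) := by
          rw [← Finset.sum_add_distrib]
          refine Finset.sum_congr rfl fun i _ => ?_
          ring
        have h9 : (1 + μ (Pool.Agent.N662.FP.em rem)) ^ (1 - δ) ≤ x ^ (1 - δ) / 2 := by
          have h10 : 1 + μ (Pool.Agent.N662.FP.em rem) ≤ 4 / Q * x := by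
            have : (1 : ℝ) ≤ m := by linarith
            have e2 : 4 / Q * x = 4 * m := by rw [hm]; ring
            rw [e2]; linarith
          calc (1 + μ (Pool.Agent.N662.FP.em rem)) ^ (1 - δ) ≤ (4 / Q * x) ^ (1 - δ) :=
                Real.rpow_le_rpow (by have := apply_nonneg μ (Pool.Agent.N662.FP.em rem); linarith)
                  h10 h1δ.le
            _ = (4 / Q) ^ (1 - δ) * x ^ (1 - δ) := Real.mul_rpow (by positivity) hxp.le
            _ = x ^ (1 - δ) / 2 := by rw [hQ4]; ring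
        have h10 : x * (C1 * m ^ (-δ)) = C1 * Q ^ δ * x ^ (1 - δ) := by
          have e2 : m ^ (-δ) = Q ^ δ * x ^ (-δ) := by
            rw [hm, Real.div_rpow hxp.le hQ0.le, Real.rpow_neg hQ0.le]
            field_simp
          have e3 : x * x ^ (-δ) = x ^ (1 - δ) := by
            rw [mul_comm, ← Real.rpow_add_one hxp.ne']; congr 1; ring
          rw [e2, ← e3]; ring
        have h11 : 1 ≤ x ^ (1 - δ) := Real.one_le_rpow (by linarith) h1δ.le
        have h12 : 2 * (1 + C1 * Q ^ δ) * x ^ (1 - δ) ≤ A * x ^ (1 - δ) := by gcongr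
        have h13 : A * (1 + μ (Pool.Agent.N662.FP.em rem)) ^ (1 - δ) ≤ A * (x ^ (1 - δ) / 2) := by
          gcongr
        have e4 : μ (Pool.Agent.N662.FP.em v) = x - 1 := by rw [hx]; ring
        rw [e4]
        nlinarith
  intro v
  obtain ⟨N, hN⟩ := exists_nat_ge (μ (Pool.Agent.N662.FP.em v))
  exact key N v hN

end

end Pool.Agent.V7H97.FO
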