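import Pool.Agent.V7H97.FO.Var

/-!
# Passage times restricted to a region
-/

set_option autoImplicit false

open MeasureTheory ProbabilityTheory Filter Set
open scoped Pointwise Topology

namespace Pool.Agent.V7H97.FO

open Pool.Agent.N662.FP
open Pool.Agent.N390.FL.TI (sg sg_inj D_shift)

open Classical in
/-- the environment with the weight `L` outside the region `G` -/
noncomputable def rx (G : Set (ℤ × ℤ)) (L : ℝ) (x : Sym2 (ℤ × ℤ) → ℝ) : Sym2 (ℤ × ℤ) → ℝ :=
  fun e => if e ∈ Ed G then max (x e) 0 else L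

theorem rx_nonneg (G : Set (ℤ × ℤ)) (L : ℝ) (x : Sym2 (ℤ × ℤ) → ℝ) (hL : 0 ≤ L) (e : Sym2 (ℤ × ℤ)) :
    0 ≤ rx G L x e := by
  classical
  unfold rx
  split_ifs
  · exact le_max_right _ _
  · exact hL

theorem rx_in {G : Set (ℤ × ℤ)} {L : ℝ} {x : Sym2 (ℤ × ℤ) → ℝ} {e : Sym2 (ℤ × ℤ)} (he : e ∈ Ed G)
    (hx : 0 ≤ x e) : rx G L x e = x e := by
  classical
  unfold rx
  rw [if_pos he, max_eq_left hx]

theorem rx_out {G : Set (ℤ × ℤ)} {L : ℝ} {x : Sym2 (ℤ × ℤ) → ℝ} {e : Sym2 (ℤ × ℤ)} (he : e ∉ Ed G) :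
    rx G L x e = L := by
  classical
  unfold rx
  rw [if_neg he]

theorem D_rx_ge (G : Set (ℤ × ℤ)) (L : ℝ) (x : Sym2 (ℤ × ℤ) → ℝ) (hL : 0 ≤ L) (hx : ∀ e, 0 ≤ x e)
    (a b : ℤ × ℤ) : min (D x a b) L ≤ D (rx G L x) a b := by
  obtain ⟨hne, -, -, -⟩ := cGE (rx G L x) (rx_nonneg G L x hL) a b
  obtain ⟨-, hbd, -, -⟩ := cGE x hx a b
  refine le_csInf hne ?_
  rintro s ⟨n, p, p0, pn, padj, rfl⟩
  by_cases h : ∀ i < n, s(p i, p (i + 1)) ∈ Ed G
  · refine (min_le_left _ _).trans (csInf_le hbd ⟨n, p, p0, pn, padj, ?_⟩)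
    refine Finset.sum_congr rfl fun i hi => ?_
    exact rx_in (h i (Finset.mem_range.1 hi)) (hx _)
  · push Not at h
    obtain ⟨i, hi, hi2⟩ := h
    refine (min_le_right _ _).trans ?_
    have h1 := Finset.single_le_sum (f := fun i => rx G L x s(p i, p (i + 1)))
      (fun j _ => rx_nonneg G L x hL _) (Finset.mem_range.2 hi)
    have h2 : rx G L x s(p i, p (i + 1)) = L := rx_out hi2
    exact h2.symm.le.trans h1

theorem D_rx_le (G : Set (ℤ × ℤ)) (L : ℝ) (x : Sym2 (ℤ × ℤ) → ℝ) (hL : 0 ≤ L) (hx : ∀ e, 0 ≤ x e)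
    (a b : ℤ × ℤ) (h : ∀ s, D x a b < s → s ≤ D x a b + 1 → Cr x G a b s) :
    D (rx G L x) a b ≤ D x a b := by
  obtain ⟨-, hbd, -, -⟩ := cGE (rx G L x) (rx_nonneg G L x hL) a b
  refine le_of_forall_pos_le_add fun ε hε => ?_
  obtain ⟨n, p, p0, pn, padj, pG, ps⟩ := h (D x a b + min ε 1)
    (by have : 0 < min ε 1 := lt_min hε one_pos
        linarith) (by have := min_le_right ε 1; linarith)
  have h2 : D (rx G L x) a b ≤ ∑ i ∈ Finset.range n, x s(p i, p (i + 1)) := by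
    refine csInf_le hbd ⟨n, p, p0, pn, padj, ?_⟩
    refine Finset.sum_congr rfl fun i hi => (rx_in ?_ (hx _)).symm
    rw [Finset.mem_range] at hi
    intro z hz
    rcases Sym2.mem_iff.1 hz with rfl | rfl
    · exact pG i hi.le
    · exact pG (i + 1) (by omega)
  have := min_le_left ε 1
  linarith

/-- the restricted passage time is measurable with respect to the edges of the region -/
theorem D_rx_meas {Ω : Type} (m' : MeasurableSpace Ω) (X : Sym2 (ℤ × ℤ) → Ω → ℝ)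
    (G : Set (ℤ × ℤ)) (L : ℝ) (hL : 0 ≤ L) (hX : ∀ e ∈ Ed G, Measurable[m'] (X e)) (a b : ℤ × ℤ) :
    Measurable[m'] (fun ω => D (rx G L (env X ω)) a b) := by
  classical
  have h1 : Measurable[m'] (fun ω => rx G L (env X ω)) := by
    refine measurable_pi_iff.2 fun e => ?_
    by_cases he : e ∈ Ed G
    · have : (fun ω => rx G L (env X ω) e) = fun ω => max (X e ω) 0 := by
        funext ω
        show (if e ∈ Ed G then max (env X ω e) 0 else L) = _
        rw [if_pos he]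
        rfl
      rw [this]
      exact (hX e he).max measurable_const
    · have : (fun ω => rx G L (env X ω) e) = fun _ => L := by
        funext ω
        exact rx_out he
      rw [this]
      exact measurable_const
  have h2 := (cME a b).comp h1
  have h3 : ((fun x : Sym2 (ℤ × ℤ) → ℝ => D (fun e => max (x e) 0) a b) ∘
      fun ω => rx G L (env X ω)) = fun ω => D (rx G L (env X ω)) a b := by
    funext ω
    show D (fun e => max (rx G L (env X ω) e) 0) a b = _
    congr 1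
    funext e
    exact max_eq_left (rx_nonneg G L _ hL e)
  rw [← h3]
  exact h2

/-- translation of crossings of general regions -/
theorem Cr_move (x : Sym2 (ℤ × ℤ) → ℝ) (G G' : Set (ℤ × ℤ)) (g a b : ℤ × ℤ) (s : ℝ)
    (hG : ∀ z ∈ G, g + z ∈ G') (h : Cr (fun e => x (sg g e)) G a b s) :
    Cr x G' (g + a) (g + b) s := by
  obtain ⟨n, p, h0, h1, h2, h3, h4⟩ := h
  refine ⟨n, fun i => g + p i, ?_, ?_, fun i hi => ?_, fun i hi => hG _ (h3 i hi), h4⟩
  · show g + p 0 = g + a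
    rw [h0]
  · show g + p n = g + b
    rw [h1]
  · have h5 := h2 i hi
    simp only [Prod.fst_add, Prod.snd_add, add_sub_add_left_eq_sub]
    exact h5

/-- independent approximants -/
theorem indep_L1 {Ω : Type} {m0 : MeasurableSpace Ω} {P : Measure Ω} [IsProbabilityMeasure P]
    (m1 m2 : MeasurableSpace Ω) (h1 : m1 ≤ m0) (h2 : m2 ≤ m0) (hi : Indep m1 m2 P)
    (f g : Ω → ℝ) (hf : Measurable[m1] f) (hg : Measurable[m2] g) (hfi : Integrable f P)
    (hgi : Integrable g P) (c : ℝ) :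
    ∃ b : ℝ, ∫ ω, |f ω - b| ∂P ≤ ∫ ω, |f ω - g ω - c| ∂P := by
  refine ⟨∫ ω, g ω ∂P + c, ?_⟩
  have e1 : P[g | m1] =ᵐ[P] fun _ => ∫ ω, g ω ∂P :=
    condExp_indep_eq h2 h1 hg.stronglyMeasurable hi.symm
  have e2 : P[f | m1] = f := condExp_of_stronglyMeasurable h1 hf.stronglyMeasurable hfi
  have e3 : P[(fun ω => f ω - g ω - c) | m1] =ᵐ[P] fun ω => f ω - (∫ ω, g ω ∂P + c) := by
    have k1 : P[(f - g) - (fun _ => c) | m1] =ᵐ[P] P[f - g | m1] - P[(fun _ : Ω => c) | m1] :=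
      condExp_sub (hfi.sub hgi) (integrable_const c) m1
    have k2 : P[f - g | m1] =ᵐ[P] P[f | m1] - P[g | m1] := condExp_sub hfi hgi m1
    have k3 : P[(fun _ : Ω => c) | m1] = fun _ => c := condExp_const h1 c
    have k4 : (fun ω => f ω - g ω - c) = (f - g) - (fun _ => c) := rfl
    rw [k4]
    filter_upwards [k1, k2, e1] with ω a1 a2 a3
    rw [a1, Pi.sub_apply, a2, Pi.sub_apply, a3, k3, e2]
    ring
  have h3 := integral_abs_condExp_le (μ := P) (m := m1) (fun ω => f ω - g ω - c)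
  refine le_trans (le_of_eq ?_) h3
  refine integral_congr_ae ?_
  filter_upwards [e3] with ω hω
  rw [hω]

end Pool.Agent.V7H97.FO
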