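import Pool.Agent.V7H97.FO.Typ

/-!
# The lower tail of a passage time from the rarity of fast crossings
-/

set_option autoImplicit false

open MeasureTheory ProbabilityTheory Filter Set

namespace Pool.Agent.V7H97.FO

open Pool.Agent.N662.FP

theorem cCNT : S_CNT := Pool.Agent.N896.FM.t_CNT

/-- the box of radius `R` -/
noncomputable def Bx (R : ℕ) : Finset (ℤ × ℤ) := Finset.Icc (-(R : ℤ)) R ×ˢ Finset.Icc (-(R : ℤ)) R

theorem path_box (p : ℕ → ℤ × ℤ) (N R : ℕ) (hp0 : p 0 = 0) (hNR : N ≤ R)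
    (hadj : ∀ i < N, |(p (i + 1)).1 - (p i).1| + |(p (i + 1)).2 - (p i).2| = 1) :
    ∀ i ≤ N, p i ∈ Bx R := by
  have key : ∀ i ≤ N, |(p i).1| ≤ i ∧ |(p i).2| ≤ i := by
    intro i
    induction i with
    | zero => intro _; rw [hp0]; simp
    | succ i ih =>
      intro hi
      obtain ⟨h1, h2⟩ := ih (by omega)
      have h3 := hadj i (by omega)
      have h4 := abs_nonneg ((p (i + 1)).1 - (p i).1)
      have h5 := abs_nonneg ((p (i + 1)).2 - (p i).2)
      have h6 : |(p (i + 1)).1 - (p i).1| ≤ 1 := by omega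
      have h7 : |(p (i + 1)).2 - (p i).2| ≤ 1 := by omega
      rw [abs_le] at h1 h2 h6 h7
      push_cast
      refine ⟨abs_le.2 ⟨?_, ?_⟩, abs_le.2 ⟨?_, ?_⟩⟩ <;>
        linarith [h1.1, h1.2, h2.1, h2.2, h6.1, h6.2, h7.1, h7.2]
  intro i hi
  obtain ⟨h1, h2⟩ := key i hi
  rw [abs_le] at h1 h2
  unfold Bx
  rw [Finset.mem_product, Finset.mem_Icc, Finset.mem_Icc]
  have : (i : ℤ) ≤ R := by exact_mod_cast hi.trans hNR
  refine ⟨⟨?_, ?_⟩, ⟨?_, ?_⟩⟩ <;> linarith [h1.1, h1.2, h2.1, h2.2]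

/-- the pairs of windows -/
noncomputable def Ks (Y l : ℝ) (P : ℕ) : Finset (ℝ × ℝ) := by
  classical
  exact (Finset.range (P + 1) ×ˢ Finset.range (P + 1)).image
    fun c => (-Y + c.1 * (l * Y), -Y + c.2 * (l * Y))

theorem card_Ks (Y l : ℝ) (P : ℕ) : (Ks Y l P).card ≤ (P + 1) ^ 2 := by
  classical
  unfold Ks
  refine Finset.card_image_le.trans ?_
  rw [Finset.card_product, Finset.card_range, sq]

theorem cover (Y l y : ℝ) (P : ℕ) (hl : 0 < l) (hP : 2 ≤ l * P) (hy : |y| ≤ Y) :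
    ∃ q ∈ Finset.range (P + 1), |y - (-Y + (q : ℕ) * (l * Y))| ≤ l * Y := by
  obtain ⟨h1, h2⟩ := abs_le.1 hy
  have hY : 0 ≤ Y := by linarith
  rcases hY.eq_or_lt with h0 | h0
  · refine ⟨0, Finset.mem_range.2 (by omega), ?_⟩
    rw [← h0] at h1 h2 ⊢
    have : y = 0 := by linarith
    rw [this]
    simp
  · have hlY : 0 < l * Y := by positivity
    refine ⟨⌊(y + Y) / (l * Y)⌋₊, ?_, ?_⟩
    · rw [Finset.mem_range]
      refine Nat.lt_succ_of_le ?_
      refine Nat.floor_le_of_le ?_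
      rw [div_le_iff₀ hlY]
      nlinarith
    · have h3 : 0 ≤ (y + Y) / (l * Y) := by apply div_nonneg <;> linarith
      have h4 := Nat.floor_le h3
      have h5 := Nat.lt_floor_add_one ((y + Y) / (l * Y))
      rw [le_div_iff₀ hlY] at h4
      rw [div_lt_iff₀ hlY] at h5
      rw [abs_le]
      constructor <;> nlinarith

section
variable {Ω : Type} [MeasureSpace Ω] [IsProbabilityMeasure (volume : Measure Ω)]
variable {X : Sym2 (ℤ × ℤ) → Ω → ℝ}

/-- many fast crossings are unlikely -/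
theorem many (hX : Iid X) (φ ψ : (ℝ × ℝ) →ₗ[ℝ] ℝ) (m C r w : ℝ) (K : Finset (ℝ × ℝ))
    (g : ℕ → ℤ × ℤ) (L k : ℕ)
    (hd : ∀ i < L, ∀ j < L, i ≠ j → Disjoint (St φ m (g i)) (St φ m (g j)))
    (hq : L * (volume : Measure Ω).real {ω | BB φ ψ m C r w K (env X ω) 0} ≤ 1 / 2) :
    (volume : Measure Ω).real {ω | ∃ J ⊆ Finset.range L, J.card = k ∧
      ∀ j ∈ J, BB φ ψ m C r w K (env X ω) (g j)} ≤ (1 / 2) ^ k := by
  classical
  obtain ⟨q, hqd⟩ : ∃ q, q = (volume : Measure Ω).real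
    {ω | BB φ ψ m C r w K (env X ω) 0} := ⟨_, rfl⟩
  rw [← hqd] at hq
  have hq0 : 0 ≤ q := by rw [hqd]; exact measureReal_nonneg
  have e : {ω | ∃ J ⊆ Finset.range L, J.card = k ∧ ∀ j ∈ J, BB φ ψ m C r w K (env X ω) (g j)} ⊆
      ⋃ J ∈ Finset.powersetCard k (Finset.range L),
        ⋂ j ∈ J, {ω | BB φ ψ m C r w K (env X ω) (g j)} := by
    rintro ω ⟨J, h1, h2, h3⟩
    refine mem_iUnion₂.2 ⟨J, Finset.mem_powersetCard.2 ⟨h1, h2⟩, ?_⟩
    exact mem_iInter₂.2 h3
  refine (measureReal_mono e (measure_ne_top _ _)).trans ?_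
  refine (measureReal_biUnion_finset_le _ _).trans ?_
  have h1 : ∀ J ∈ Finset.powersetCard k (Finset.range L), (volume : Measure Ω).real
      (⋂ j ∈ J, {ω | BB φ ψ m C r w K (env X ω) (g j)}) ≤ q ^ k := by
    intro J hJ
    obtain ⟨h2, h3⟩ := Finset.mem_powersetCard.1 hJ
    have h4 := (BB_indep hX φ ψ m C r w K g J (fun i hi j hj hij =>
      hd i (Finset.mem_range.1 (h2 hi)) j (Finset.mem_range.1 (h2 hj)) hij)).1
    rw [measureReal_def, h4, h3, ENNReal.toReal_pow, hqd, measureReal_def]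
  refine (Finset.sum_le_card_nsmul _ _ _ h1).trans ?_
  rw [Finset.card_powersetCard, Finset.card_range, nsmul_eq_mul]
  calc ((L.choose k : ℕ) : ℝ) * q ^ k ≤ (L : ℝ) ^ k * q ^ k := by
        gcongr
        exact_mod_cast Nat.choose_le_pow L k
    _ = (L * q) ^ k := by rw [mul_pow]
    _ ≤ (1 / 2) ^ k := pow_le_pow_left₀ (by positivity) hq k

theorem main_scale (hX : Iid X) {μ : Seminorm ℝ (ℝ × ℝ)} {C : ℝ} (hC : Ct μ C)
    {φ ψ : (ℝ × ℝ) →ₗ[ℝ] ℝ} {u τ : ℝ × ℝ} (hF : Fr μ φ ψ u τ) (v : ℤ × ℤ) (n : ℝ)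
    (hv : em v = n • u) (hn : 0 < n) (L : ℕ) (m : ℝ)
    (hmd : L * (m + 2 * C + 1) = n - 4 * C) (hm : 2 * C < m) (R : ℕ) (hR : 25 * n ≤ R)
    (B0 Y l : ℝ) (hl : 0 < l)
    (hY : ∀ y : ℝ, df μ φ ((n + B0) • u + y • τ) ≤ 2 * B0 →
      df μ φ ((n + B0) • u + (-y) • τ) ≤ 2 * B0 → |y| ≤ Y)
    (P : ℕ) (hP : 2 ≤ l * P) (r : ℝ) (hr : 0 ≤ r) (k : ℕ) (ℓ δ : ℝ) (hℓ : 0 ≤ ℓ)
    (hδ : 4 * C + L * (4 * C + 1) + L * r + k * ℓ ≤ δ) (E1 E2 : ℝ)
    (hL : L * (volume : Measure Ω).real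
      {ω | BB φ ψ m C r (l * Y + 2 * C) (Ks Y l P) (env X ω) 0} ≤ 1 / 2)
    (hE1 : (volume : Measure Ω).real {ω | ∃ z ∈ Bx R, D (env X ω) 0 z < μ (em z) - B0 ∨
      D (env X ω) z v < μ (em (v - z)) - B0} ≤ E1)
    (hE2 : (volume : Measure Ω).real {ω | ∃ a ∈ Bx R, ∃ b ∈ Bx R, m - 2 * C ≤ φ (em (b - a)) ∧
      φ (em (b - a)) ≤ m ∧ D (env X ω) a b < φ (em (b - a)) - ℓ} ≤ E2) :
    (volume : Measure Ω).real {ω | D (env X ω) 0 v < n - δ} ≤
      (1 / 2) ^ R + E1 + E2 + (1 / 2) ^ (k + 1) := by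
  classical
  have hC0 := hC.pos
  obtain ⟨w', hw'⟩ : ∃ w', w' = m + 2 * C + 1 := ⟨_, rfl⟩
  have hw0 : 0 < w' := by rw [hw']; linarith
  choose g hg using fun i : ℕ => hC.round ((2 * C + (i : ℝ) * w') • u)
  have hgφ : ∀ i : ℕ, |φ (em (g i)) - (2 * C + (i : ℝ) * w')| ≤ C := by
    intro i
    have h1 : φ ((2 * C + (i : ℝ) * w') • u) = 2 * C + (i : ℝ) * w' := by
      rw [map_smul, hF.fu, smul_eq_mul, mul_one]
    have h2 : φ (em (g i)) - (2 * C + (i : ℝ) * w') =
        φ (em (g i) - (2 * C + (i : ℝ) * w') • u) := by rw [map_sub, h1]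
    rw [h2]
    exact (hF.abs_ph _).trans (hg i)
  have hgψ : ∀ i : ℕ, |ψ (em (g i))| ≤ 2 * C := by
    intro i
    have h1 : ψ ((2 * C + (i : ℝ) * w') • u) = 0 := by
      rw [map_smul, hF.pu, smul_zero]
    have h2 : ψ (em (g i)) = ψ (em (g i) - (2 * C + (i : ℝ) * w') • u) := by
      rw [map_sub, h1, sub_zero]
    rw [h2]
    exact (hF.abs_ps _).trans (by linarith [hg i])
  have hφv : φ (em v) = n := by rw [hv, map_smul, hF.fu, smul_eq_mul, mul_one]
  have hμv : μ (em v) = n := by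
    rw [hv, map_smul_eq_mul, hF.mu, mul_one, Real.norm_eq_abs, abs_of_pos hn]
  have hψv : ψ (em v) = 0 := by rw [hv, map_smul, hF.pu, smul_zero]
  have hdis : ∀ i < L, ∀ j < L, i ≠ j → Disjoint (St φ m (g i)) (St φ m (g j)) := by
    have key : ∀ i j : ℕ, i < j → Disjoint (St φ m (g i)) (St φ m (g j)) := by
      intro i j hij
      rw [Set.disjoint_left]
      rintro z ⟨h1, h2⟩ ⟨h3, h4⟩
      rw [em_sub, map_sub] at h1 h2 h3 h4
      have h5 := (abs_le.1 (hgφ i)).2
      have h6 := (abs_le.1 (hgφ j)).1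
      have h8 : (i : ℝ) + 1 ≤ j := by exact_mod_cast hij
      have h9 : (i : ℝ) * w' + w' ≤ j * w' := by nlinarith
      linarith
    intro i _ j _ hij
    rcases lt_or_gt_of_ne hij with h | h
    · exact key i j h
    · exact (key j i h).symm
  have hg0 : ∀ j < L, 0 ≤ φ (em (g j)) := by
    intro j _
    have h1 := (abs_le.1 (hgφ j)).1
    have h2 : 0 ≤ (j : ℝ) * w' := by positivity
    linarith
  have hgN : ∀ j < L, φ (em (g j)) + m ≤ φ (em v) := by
    intro j hj
    rw [hφv]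
    have h1 := (abs_le.1 (hgφ j)).2
    have h2 : (j : ℝ) + 1 ≤ L := by exact_mod_cast hj
    have h3 : ((j : ℝ) + 1) * w' ≤ L * w' := by nlinarith
    rw [← hw'] at hmd
    linarith
  have hgg : ∀ j, j + 1 < L → φ (em (g j)) + m ≤ φ (em (g (j + 1))) := by
    intro j _
    have h1 := (abs_le.1 (hgφ j)).2
    have h2 := (abs_le.1 (hgφ (j + 1))).1
    push_cast at h2
    linarith
  have hstep : ∀ z z' : ℤ × ℤ, |z'.1 - z.1| + |z'.2 - z.2| = 1 → |φ (em z') - φ (em z)| ≤ C := by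
    intro z z' h
    rw [← map_sub]
    exact (hF.abs_ph _).trans (hC.step z z' h)
  -- the inclusion of events
  have hincl : ∀ᵐ ω ∂(volume : Measure Ω), (ω ∈ {ω | D (env X ω) 0 v < n - δ}) →
      ω ∈ (({ω | Fast (env X ω) R} ∪
        {ω | ∃ z ∈ Bx R, D (env X ω) 0 z < μ (em z) - B0 ∨
          D (env X ω) z v < μ (em (v - z)) - B0}) ∪
        {ω | ∃ a ∈ Bx R, ∃ b ∈ Bx R, m - 2 * C ≤ φ (em (b - a)) ∧
          φ (em (b - a)) ≤ m ∧ D (env X ω) a b < φ (em (b - a)) - ℓ}) ∪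
        {ω | ∃ J ⊆ Finset.range L, J.card = k + 1 ∧
          ∀ j ∈ J, BB φ ψ m C r (l * Y + 2 * C) (Ks Y l P) (env X ω) (g j)} := by
    filter_upwards [cAE Ω X hX] with ω hω h
    have h' : D (env X ω) 0 v < n - δ := h
    by_contra hcon
    simp only [mem_union, not_or] at hcon
    obtain ⟨⟨⟨c1, c2⟩, c3⟩, c4⟩ := hcon
    have c1' : ¬ Fast (env X ω) R := c1
    have c2' : ∀ z ∈ Bx R, μ (em z) - B0 ≤ D (env X ω) 0 z ∧
        μ (em (v - z)) - B0 ≤ D (env X ω) z v := by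
      intro z hz
      by_contra h1
      refine c2 ⟨z, hz, ?_⟩
      rw [not_and_or, not_le, not_le] at h1
      exact h1
    have c3' : ∀ a ∈ Bx R, ∀ b ∈ Bx R, m - 2 * C ≤ φ (em (b - a)) → φ (em (b - a)) ≤ m →
        φ (em (b - a)) - ℓ ≤ D (env X ω) a b := by
      intro a ha b hb h1 h2
      by_contra h3
      exact c3 ⟨a, ha, b, hb, h1, h2, not_le.1 h3⟩
    obtain ⟨hne, hbd, -, -⟩ := cGE (env X ω) hω 0 v
    obtain ⟨s, hs1, hs2⟩ := exists_lt_of_csInf_lt hne h'
    obtain ⟨N, p, p0, pN, padj, pinj, psum⟩ := cSAW (env X ω) hω 0 v s hs1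
    have hnδ : s < n := by
      have h1 : (0 : ℝ) ≤ 4 * C + L * (4 * C + 1) + L * r + k * ℓ := by positivity
      linarith
    have hNR : N < R := by
      by_contra h1
      rw [not_lt] at h1
      refine c1' ⟨p, p0, fun i hi => padj i (by omega), fun i hi j hj => pinj i (by omega) j (by omega), ?_⟩
      have h2 : ∑ i ∈ Finset.range R, env X ω s(p i, p (i + 1)) ≤
          ∑ i ∈ Finset.range N, env X ω s(p i, p (i + 1)) :=
        Finset.sum_le_sum_of_subset_of_nonneg (Finset.range_mono h1) fun i _ _ => hω _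
      linarith
    have hbox := path_box p N R p0 hNR.le padj
    -- positions
    have hpos : ∀ i ≤ N, |ψ (em (p i))| ≤ Y := by
      intro i hi
      obtain ⟨b1, b2⟩ := c2' (p i) (hbox i hi)
      have d1 : D (env X ω) 0 (p i) ≤ ∑ j ∈ Finset.range i, env X ω s(p j, p (j + 1)) := by
        obtain ⟨-, hb, -, -⟩ := cGE (env X ω) hω 0 (p i)
        exact csInf_le hb ⟨i, p, p0, rfl, fun j hj => padj j (by omega), rfl⟩
      have d2 : D (env X ω) (p i) v ≤ ∑ j ∈ Finset.Ico i N, env X ω s(p j, p (j + 1)) := by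
        obtain ⟨-, hb, -, -⟩ := cGE (env X ω) hω (p i) v
        refine csInf_le hb ⟨N - i, fun j => p (i + j), rfl, ?_, fun j hj => padj (i + j) (by omega), ?_⟩
        · show p (i + (N - i)) = v
          rw [← pN]; congr 1; omega
        · rw [Finset.sum_Ico_eq_sum_range]; rfl
      have d3 : ∑ j ∈ Finset.range i, env X ω s(p j, p (j + 1)) +
          ∑ j ∈ Finset.Ico i N, env X ω s(p j, p (j + 1)) =
          ∑ j ∈ Finset.range N, env X ω s(p j, p (j + 1)) :=
        Finset.sum_range_add_sum_Ico _ hi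
      obtain ⟨-, -, nn1, -⟩ := cGE (env X ω) hω 0 (p i)
      obtain ⟨-, -, nn2, -⟩ := cGE (env X ω) hω (p i) v
      have e1 : φ (em (v - p i)) = n - φ (em (p i)) := by rw [em_sub, map_sub, hφv]
      have k1 : φ (em (p i)) ≤ n + B0 := by
        have := hF.le (em (p i)); linarith
      have k2 : φ (em (v - p i)) ≤ n + B0 := by
        have := hF.le (em (v - p i)); linarith
      have dd1 := df_nonneg hF (em (p i))
      have dd2 := df_nonneg hF (em (v - p i))
      have dd3 : df μ φ (em (p i)) + df μ φ (em (v - p i)) ≤ 2 * B0 := by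
        unfold df
        rw [e1]
        linarith
      apply hY
      · have e2 : (n + B0) • u + ψ (em (p i)) • τ = em (p i) + (n + B0 - φ (em (p i))) • u := by
          conv_rhs => rw [hF.dec (em (p i))]
          simp only [map_add, map_smul, hF.fu, hF.ft, smul_eq_mul, mul_one, mul_zero, add_zero]
          module
        rw [e2]
        refine (df_add_u hF _ _ (by linarith)).trans (by linarith)
      · have e2 : (n + B0) • u + (-ψ (em (p i))) • τ =
            em (v - p i) + (n + B0 - φ (em (v - p i))) • u := by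
          have e3 : ψ (em (v - p i)) = -ψ (em (p i)) := by rw [em_sub, map_sub, hψv, zero_sub]
          conv_rhs => rw [hF.dec (em (v - p i))]
          simp only [map_add, map_smul, hF.fu, hF.ft, smul_eq_mul, mul_one, mul_zero, add_zero, e3]
          module
        rw [e2]
        refine (df_add_u hF _ _ (by linarith)).trans (by linarith)
    -- crossings
    obtain ⟨a, b, t, ht1, ht2⟩ := crossings (env X ω) hω φ C m hC0 hm hstep p N v p0 pN padj g L
      hg0 hgN hgg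
    obtain ⟨Bd, hBd⟩ : ∃ Bd : Finset ℕ, Bd = (Finset.range L).filter
      (fun j => BB φ ψ m C r (l * Y + 2 * C) (Ks Y l P) (env X ω) (g j)) := ⟨_, rfl⟩
    have hcard : Bd.card ≤ k := by
      by_contra h1
      obtain ⟨J, hJ1, hJ2⟩ := Finset.exists_subset_card_eq (show k + 1 ≤ Bd.card by omega)
      refine c4 ⟨J, hJ1.trans (by rw [hBd]; exact Finset.filter_subset _ _), hJ2, ?_⟩
      intro j hj
      have := hJ1 hj
      rw [hBd] at this
      exact (Finset.mem_filter.1 this).2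
    have hlow : ∀ j ∈ Finset.range L, (m - 2 * C - r) - (if j ∈ Bd then ℓ else 0) ≤ t j := by
      intro j hj
      rw [Finset.mem_range] at hj
      obtain ⟨k1, k2, k3, k4, k5, k6, k7⟩ := ht2 j hj
      have k8 : m - 2 * C ≤ φ (em (p (b j) - p (a j))) := by
        rw [em_sub, map_sub] at k3 k4 ⊢
        linarith
      split_ifs with hjB
      · have h1 := c3' (p (a j)) (hbox _ (by omega)) (p (b j)) (hbox _ k2) k8 k5
        linarith
      · have hnb : ¬ BB φ ψ m C r (l * Y + 2 * C) (Ks Y l P) (env X ω) (g j) := by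
          intro hb
          exact hjB (by rw [hBd]; exact Finset.mem_filter.2 ⟨Finset.mem_range.2 hj, hb⟩)
        obtain ⟨q1, hq1, hq1'⟩ := cover Y l _ P hl hP (hpos (a j) (by omega))
        obtain ⟨q2, hq2, hq2'⟩ := cover Y l _ P hl hP (hpos (b j) k2)
        obtain ⟨g3, g4⟩ := abs_le.1 (hgψ j)
        have h1 : ¬ Cr (env X ω) (St φ m (g j)) (p (a j)) (p (b j))
            (φ (em (p (b j) - p (a j))) - r) := by
          intro hcr
          refine hnb ⟨(-Y + q1 * (l * Y), -Y + q2 * (l * Y)), ?_, p (a j), p (b j),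
            ⟨k3, k4, ?_, ?_⟩, hcr⟩
          · unfold Ks
            exact Finset.mem_image.2 ⟨(q1, q2), Finset.mem_product.2 ⟨hq1, hq2⟩, rfl⟩
          · rw [em_sub, map_sub]
            rw [abs_le] at hq1' ⊢
            constructor <;> simp only <;> linarith [hq1'.1, hq1'.2]
          · rw [em_sub, map_sub]
            rw [abs_le] at hq2' ⊢
            constructor <;> simp only <;> linarith [hq2'.1, hq2'.2]
        have h2 := k7 _ h1
        linarith
    have hsum := Finset.sum_le_sum hlow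
    rw [Finset.sum_sub_distrib, Finset.sum_const, Finset.card_range, nsmul_eq_mul] at hsum
    have hsum2 : ∑ j ∈ Finset.range L, (if j ∈ Bd then ℓ else 0) ≤ k * ℓ := by
      rw [← Finset.sum_filter, Finset.sum_const, nsmul_eq_mul]
      have h1 : ((Finset.range L).filter (fun j => j ∈ Bd)).card ≤ k := by
        refine (Finset.card_le_card ?_).trans hcard
        intro j hj
        exact (Finset.mem_filter.1 hj).2
      have h2 : (((Finset.range L).filter (fun j => j ∈ Bd)).card : ℝ) ≤ k := by exact_mod_cast h1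
      exact mul_le_mul_of_nonneg_right h2 hℓ
    have e1 : (L : ℝ) * (m - 2 * C - r) = n - 4 * C - L * (4 * C + 1) - L * r := by
      have : (L : ℝ) * (m - 2 * C - r) = L * (m + 2 * C + 1) - L * (4 * C + 1) - L * r := by ring
      rw [this, hmd]
    linarith
  have h1 : (volume : Measure Ω).real {ω | D (env X ω) 0 v < n - δ} ≤
      (volume : Measure Ω).real ((({ω | Fast (env X ω) R} ∪
        {ω | ∃ z ∈ Bx R, D (env X ω) 0 z < μ (em z) - B0 ∨
          D (env X ω) z v < μ (em (v - z)) - B0}) ∪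
        {ω | ∃ a ∈ Bx R, ∃ b ∈ Bx R, m - 2 * C ≤ φ (em (b - a)) ∧
          φ (em (b - a)) ≤ m ∧ D (env X ω) a b < φ (em (b - a)) - ℓ}) ∪
        {ω | ∃ J ⊆ Finset.range L, J.card = k + 1 ∧
          ∀ j ∈ J, BB φ ψ m C r (l * Y + 2 * C) (Ks Y l P) (env X ω) (g j)}) := by
    rw [measureReal_def, measureReal_def]
    exact ENNReal.toReal_mono (measure_ne_top _ _) (measure_mono_ae hincl)
  have h2 : (volume : Measure Ω).real {ω | Fast (env X ω) R} ≤ (1 / 2) ^ R := by
    have h3 := cCNT Ω X hX R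
    rw [measureReal_def]
    refine (ENNReal.toReal_mono (by simp) h3).trans ?_
    rw [ENNReal.toReal_pow]
    simp
  have h3 := many hX φ ψ m C r (l * Y + 2 * C) (Ks Y l P) g L (k + 1) hdis hL
  refine h1.trans ((measureReal_union_le _ _).trans ?_)
  refine add_le_add ((measureReal_union_le _ _).trans (add_le_add
    ((measureReal_union_le _ _).trans (add_le_add h2 hE1)) hE2)) h3

end

end Pool.Agent.V7H97.FO
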