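import Pool.Agent.V7H97.FO.Rate

/-!
# The splitting property at one point
-/

set_option autoImplicit false

open MeasureTheory ProbabilityTheory Filter Set
open scoped Pointwise Topology

namespace Pool.Agent.V7H97.FO

open Pool.Agent.N662.FP

section
variable {Ω : Type} [MeasureSpace Ω] [IsProbabilityMeasure (volume : Measure Ω)]
variable {X : Sym2 (ℤ × ℤ) → Ω → ℝ}

theorem exists_good (hX : Iid X) (Bd : Set Ω) (h : (volume : Measure Ω).real Bd < 1) :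
    ∃ ω, ω ∉ Bd ∧ ∀ e, 0 ≤ env X ω e := by
  by_contra hcon
  have h1 : ∀ᵐ ω ∂(volume : Measure Ω), ω ∈ (univ : Set Ω) → ω ∈ Bd := by
    filter_upwards [cAE Ω X hX] with ω hω _
    by_contra h2
    exact hcon ⟨ω, h2, hω⟩
  have h3 : (volume : Measure Ω) univ ≤ (volume : Measure Ω) Bd := measure_mono_ae h1
  have h4 : (1 : ℝ) ≤ (volume : Measure Ω).real Bd := by
    rw [measureReal_def]
    have := ENNReal.toReal_mono (measure_ne_top _ _) h3
    simpa using this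
  linarith

theorem split_one (hX : Iid X) {h : ℤ × ℤ → ℝ} {μ : Seminorm ℝ (ℝ × ℝ)} {Al : ℝ}
    (hS : Sa h μ Al) {C : ℝ} (hC : Ct μ C)
    {φ ψ : (ℝ × ℝ) →ₗ[ℝ] ℝ} {u τ : ℝ × ℝ} (hF : Fr μ φ ψ u τ) (v : ℤ × ℤ) (n : ℝ)
    (hv : em v = n • u) (hn : 0 < n) (hAl : 0 < Al)
    (S B Y l B0 a1 x ρ s4 s5 : ℝ) (P R : ℕ) (hl : 0 < l) (hl1 : l ≤ 1) (hB00 : 0 ≤ B0)
    (hx : 0 ≤ x) (hρ : 0 ≤ ρ) (ha1 : 0 ≤ a1)
    (hY0 : 0 ≤ Y)
    (hY : ∀ y : ℝ, df μ φ (S • u + y • τ) ≤ B → df μ φ (S • u + (-y) • τ) ≤ B → |y| ≤ Y)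
    (hJ : ∀ (S' l y : ℝ), S ≤ S' → 0 ≤ l → l ≤ 1 → |y| ≤ l * Y →
      df μ φ (S' • u + y • τ) ≤ l * B)
    (hP : 2 ≤ l * P) (hP3 : l * P ≤ 3) (hCS : C ≤ l * S)
    (hSb : h v + a1 + 1 + B0 ≤ S) (hBb : 2 * B0 + (h v + a1 + 1 - n) ≤ B)
    (hR : 25 * (h v + a1 + 1) ≤ R) (hR3 : 3 ≤ R)
    (hs4 : 4 * (l * S) + C + (l * B + 2 * C) ≤ s4) (hs5 : n + 5 * S + 2 * Y + C ≤ s5)
    (hsz : Al * (C + s4) + (a1 + 1 + 2 * x + 2 * ρ + 2 * (l * B) + 6 * C + 6 * (l * S)) ≤ h v / 4)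
    (hE1 : (volume : Measure Ω).real {ω | ∃ z ∈ Bx R, D (env X ω) 0 z < μ (em z) - B0 ∨
      D (env X ω) z v < μ (em (v - z)) - B0} ≤ 1 / 8)
    (hEt : (volume : Measure Ω).real {ω | h v + a1 < D (env X ω) 0 v} ≤ 1 / 8)
    (hEl : ∀ a W : ℕ × ℕ → ℤ × ℤ, (∀ q ∈ Finset.range (P + 1) ×ˢ Finset.range (P + 1),
      μ (em (W q)) ≤ s5) → (volume : Measure Ω).real
        {ω | ∃ q ∈ Finset.range (P + 1) ×ˢ Finset.range (P + 1),
          D (env X ω) (a q) (a q + W q) < h (W q) - x} ≤ 1 / 8)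
    (hEu : (volume : Measure Ω).real {ω | ∃ w ∈ Bx R, ∃ z : ℤ × ℤ, μ (em z) ≤ s4 ∧
      (μ (em z) + ρ ≤ D (env X ω) w (w + z) ∨ μ (em z) + ρ ≤ D (env X ω) (w - z) w)} ≤ 1 / 8) :
    ∃ (w1 w2 : ℤ × ℤ) (t : ℝ), 0 ≤ t ∧ h w1 ≤ 3 / 4 * h v ∧
      h w2 ≤ 3 / 4 * h v ∧ μ (em (w1 + w2) - (1 + t) • em v) ≤ 2 * C ∧
      h w1 + h w2 ≤ h v + t * μ (em v) +
        (a1 + 1 + 2 * x + 2 * ρ + 2 * (l * B) + 6 * C) := by
  classical
  have hC0 := hC.pos
  have hhn : ∀ w, 0 ≤ h w := fun w => (apply_nonneg μ _).trans (hS.le w)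
  have hμv : μ (em v) = n := by
    rw [hv, map_smul_eq_mul, hF.mu, mul_one, Real.norm_eq_abs, abs_of_pos hn]
  have hφv : φ (em v) = n := by rw [hv, map_smul, hF.fu, smul_eq_mul, mul_one]
  have hψv : ψ (em v) = 0 := by rw [hv, map_smul, hF.pu, smul_zero]
  have hhv : n ≤ h v := by rw [← hμv]; exact hS.le v
  have hS0 : 0 ≤ S := by linarith
  have hB0 : 0 ≤ B := by linarith
  choose rd hrd using hC.round
  obtain ⟨y1, hy1⟩ : ∃ y1 : ℕ × ℕ → ℝ × ℝ, y1 = fun q =>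
    ((-S + q.1 * (l * S)) + 3 * (l * S)) • u + (-Y + q.2 * (l * Y)) • τ := ⟨_, rfl⟩
  obtain ⟨y2, hy2⟩ : ∃ y2 : ℕ × ℕ → ℝ × ℝ, y2 = fun q =>
    ((-S + q.1 * (l * S)) - 3 * (l * S)) • u + (-Y + q.2 * (l * Y)) • τ := ⟨_, rfl⟩
  -- sizes of the reference points
  have hlS : 0 ≤ l * S := by positivity
  have hlY : 0 ≤ l * Y := by positivity
  have hlS1 : l * S ≤ S := by nlinarith
  have hq : ∀ q ∈ Finset.range (P + 1) ×ˢ Finset.range (P + 1),
      (q.1 : ℝ) * (l * S) ≤ 3 * S ∧ (q.2 : ℝ) * (l * Y) ≤ 3 * Y := by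
    intro q hq
    rw [Finset.mem_product, Finset.mem_range, Finset.mem_range] at hq
    have k1 : (q.1 : ℝ) ≤ P := by exact_mod_cast Nat.lt_succ_iff.1 hq.1
    have k2 : (q.2 : ℝ) ≤ P := by exact_mod_cast Nat.lt_succ_iff.1 hq.2
    constructor
    · calc (q.1 : ℝ) * (l * S) ≤ P * (l * S) := by gcongr
        _ = (l * P) * S := by ring
        _ ≤ 3 * S := by gcongr
    · calc (q.2 : ℝ) * (l * Y) ≤ P * (l * Y) := by gcongr
        _ = (l * P) * Y := by ring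
        _ ≤ 3 * Y := by gcongr
  have hμuτ : ∀ a b : ℝ, μ (a • u + b • τ) ≤ |a| + |b| := by
    intro a b
    refine (map_add_le_add μ _ _).trans ?_
    rw [map_smul_eq_mul, map_smul_eq_mul, hF.mu, hF.mt, mul_one, mul_one, Real.norm_eq_abs,
      Real.norm_eq_abs]
  have hW1 : ∀ q ∈ Finset.range (P + 1) ×ˢ Finset.range (P + 1), μ (em (rd (y1 q))) ≤ s5 := by
    intro q hq'
    obtain ⟨k1, k2⟩ := hq q hq'
    have k3 : 0 ≤ (q.1 : ℝ) * (l * S) := by positivity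
    have k4 : 0 ≤ (q.2 : ℝ) * (l * Y) := by positivity
    have k5 : μ (em (rd (y1 q))) ≤ μ (em (rd (y1 q)) - y1 q) + μ (y1 q) := by
      have : em (rd (y1 q)) = (em (rd (y1 q)) - y1 q) + y1 q := by abel
      conv_lhs => rw [this]
      exact map_add_le_add μ _ _
    have k6 : μ (y1 q) ≤ 5 * S + 2 * Y := by
      rw [hy1]
      refine (hμuτ _ _).trans (add_le_add ?_ ?_)
      · rw [abs_le]; constructor <;> linarith
      · rw [abs_le]; constructor <;> linarith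
    linarith [hrd (y1 q)]
  have hW2 : ∀ q ∈ Finset.range (P + 1) ×ˢ Finset.range (P + 1),
      μ (em (v - rd (y2 q))) ≤ s5 := by
    intro q hq'
    obtain ⟨k1, k2⟩ := hq q hq'
    have k3 : 0 ≤ (q.1 : ℝ) * (l * S) := by positivity
    have k4 : 0 ≤ (q.2 : ℝ) * (l * Y) := by positivity
    have k5 : μ (em (rd (y2 q))) ≤ μ (em (rd (y2 q)) - y2 q) + μ (y2 q) := by
      have : em (rd (y2 q)) = (em (rd (y2 q)) - y2 q) + y2 q := by abel
      conv_lhs => rw [this]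
      exact map_add_le_add μ _ _
    have k6 : μ (y2 q) ≤ 5 * S + 2 * Y := by
      rw [hy2]
      refine (hμuτ _ _).trans (add_le_add ?_ ?_)
      · rw [abs_le]; constructor <;> linarith
      · rw [abs_le]; constructor <;> linarith
    have k7 : μ (em (v - rd (y2 q))) ≤ μ (em v) + μ (em (rd (y2 q))) := by
      rw [em_sub]; exact map_sub_le_add μ _ _
    linarith [hrd (y2 q)]
  have hEl1 := hEl (fun _ => 0) (fun q => rd (y1 q)) hW1
  have hEl2 := hEl (fun q => rd (y2 q)) (fun q => v - rd (y2 q)) hW2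
  -- a good outcome
  obtain ⟨Bd, hBd⟩ : ∃ Bd : Set Ω, Bd = ((((({ω | Fast (env X ω) R} ∪
      {ω | ∃ z ∈ Bx R, D (env X ω) 0 z < μ (em z) - B0 ∨
        D (env X ω) z v < μ (em (v - z)) - B0}) ∪ {ω | h v + a1 < D (env X ω) 0 v}) ∪
      {ω | ∃ q ∈ Finset.range (P + 1) ×ˢ Finset.range (P + 1),
          D (env X ω) 0 (0 + rd (y1 q)) < h (rd (y1 q)) - x}) ∪
      {ω | ∃ q ∈ Finset.range (P + 1) ×ˢ Finset.range (P + 1),
          D (env X ω) (rd (y2 q)) (rd (y2 q) + (v - rd (y2 q))) < h (v - rd (y2 q)) - x}) ∪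
      {ω | ∃ w ∈ Bx R, ∃ z : ℤ × ℤ, μ (em z) ≤ s4 ∧
        (μ (em z) + ρ ≤ D (env X ω) w (w + z) ∨ μ (em z) + ρ ≤ D (env X ω) (w - z) w)}) :=
    ⟨_, rfl⟩
  have hfast : (volume : Measure Ω).real {ω | Fast (env X ω) R} ≤ 1 / 8 := by
    have h3 := cCNT Ω X hX R
    rw [measureReal_def]
    refine (ENNReal.toReal_mono (by simp) h3).trans ?_
    rw [ENNReal.toReal_pow]
    have e : (1 / 2 : ENNReal).toReal = 1 / 2 := by simp
    rw [e]
    calc ((1 : ℝ) / 2) ^ R ≤ (1 / 2) ^ 3 :=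
          pow_le_pow_of_le_one (by norm_num) (by norm_num) hR3
      _ = 1 / 8 := by norm_num
  have hBd1 : (volume : Measure Ω).real Bd < 1 := by
    rw [hBd]
    refine lt_of_le_of_lt (measureReal_union_le _ _) ?_
    have i1 := measureReal_union_le (μ := (volume : Measure Ω)) (((({ω | Fast (env X ω) R} ∪
      {ω | ∃ z ∈ Bx R, D (env X ω) 0 z < μ (em z) - B0 ∨
        D (env X ω) z v < μ (em (v - z)) - B0}) ∪ {ω | h v + a1 < D (env X ω) 0 v}) ∪
      {ω | ∃ q ∈ Finset.range (P + 1) ×ˢ Finset.range (P + 1),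
          D (env X ω) 0 (0 + rd (y1 q)) < h (rd (y1 q)) - x}))
      {ω | ∃ q ∈ Finset.range (P + 1) ×ˢ Finset.range (P + 1),
          D (env X ω) (rd (y2 q)) (rd (y2 q) + (v - rd (y2 q))) < h (v - rd (y2 q)) - x}
    have i2 := measureReal_union_le (μ := (volume : Measure Ω)) ((({ω | Fast (env X ω) R} ∪
      {ω | ∃ z ∈ Bx R, D (env X ω) 0 z < μ (em z) - B0 ∨
        D (env X ω) z v < μ (em (v - z)) - B0}) ∪ {ω | h v + a1 < D (env X ω) 0 v}))
      {ω | ∃ q ∈ Finset.range (P + 1) ×ˢ Finset.range (P + 1),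
          D (env X ω) 0 (0 + rd (y1 q)) < h (rd (y1 q)) - x}
    have i3 := measureReal_union_le (μ := (volume : Measure Ω)) ({ω | Fast (env X ω) R} ∪
      {ω | ∃ z ∈ Bx R, D (env X ω) 0 z < μ (em z) - B0 ∨
        D (env X ω) z v < μ (em (v - z)) - B0}) {ω | h v + a1 < D (env X ω) 0 v}
    have i4 := measureReal_union_le (μ := (volume : Measure Ω)) {ω | Fast (env X ω) R}
      {ω | ∃ z ∈ Bx R, D (env X ω) 0 z < μ (em z) - B0 ∨
        D (env X ω) z v < μ (em (v - z)) - B0}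
    linarith
  obtain ⟨ω, hω1, hω⟩ := exists_good hX Bd hBd1
  rw [hBd] at hω1
  simp only [mem_union, not_or] at hω1
  obtain ⟨⟨⟨⟨⟨c1, c2⟩, c3⟩, c4⟩, c5⟩, c6⟩ := hω1
  have c1' : ¬ Fast (env X ω) R := c1
  have c2' : ∀ z ∈ Bx R, μ (em z) - B0 ≤ D (env X ω) 0 z ∧
      μ (em (v - z)) - B0 ≤ D (env X ω) z v := by
    intro z hz
    by_contra h1
    refine c2 ⟨z, hz, ?_⟩
    rw [not_and_or, not_le, not_le] at h1
    exact h1
  have c3' : D (env X ω) 0 v ≤ h v + a1 := not_lt.1 c3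
  have c4' : ∀ q ∈ Finset.range (P + 1) ×ˢ Finset.range (P + 1),
      h (rd (y1 q)) - x ≤ D (env X ω) 0 (rd (y1 q)) := by
    intro q hq'
    by_contra h1
    refine c4 ⟨q, hq', ?_⟩
    rw [zero_add]
    exact not_le.1 h1
  have c5' : ∀ q ∈ Finset.range (P + 1) ×ˢ Finset.range (P + 1),
      h (v - rd (y2 q)) - x ≤ D (env X ω) (rd (y2 q)) v := by
    intro q hq'
    by_contra h1
    refine c5 ⟨q, hq', ?_⟩
    rw [add_sub_cancel]
    exact not_le.1 h1
  have c6' : ∀ w ∈ Bx R, ∀ z : ℤ × ℤ, μ (em z) ≤ s4 → D (env X ω) w (w + z) < μ (em z) + ρ ∧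
      D (env X ω) (w - z) w < μ (em z) + ρ := by
    intro w hw z hz
    by_contra h1
    refine c6 ⟨w, hw, z, hz, ?_⟩
    rw [not_and_or, not_lt, not_lt] at h1
    exact h1
  clear c1 c2 c3 c4 c5 c6 hBd hBd1 hfast
  obtain ⟨hne, hbd, -, -⟩ := cGE (env X ω) hω 0 v
  obtain ⟨s, hs1, hs2⟩ := exists_lt_of_csInf_lt hne (show sInf (PS (env X ω) 0 v) <
    D (env X ω) 0 v + 1 from lt_add_one _)
  obtain ⟨N, p, p0, pN, padj, pinj, psum⟩ := cSAW (env X ω) hω 0 v s hs1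
  have hNR : N < R := by
    by_contra h1
    rw [not_lt] at h1
    refine c1' ⟨p, p0, fun i hi => padj i (by omega),
      fun i hi j hj => pinj i (by omega) j (by omega), ?_⟩
    have h2 : ∑ i ∈ Finset.range R, env X ω s(p i, p (i + 1)) ≤
        ∑ i ∈ Finset.range N, env X ω s(p i, p (i + 1)) :=
      Finset.sum_le_sum_of_subset_of_nonneg (Finset.range_mono h1) fun i _ _ => hω _
    linarith
  have hbox := path_box p N R p0 hNR.le padj
  -- times
  have htime : ∀ i ≤ N, D (env X ω) 0 (p i) + D (env X ω) (p i) v ≤ h v + a1 + 1 := by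
    intro i hi
    have d1 : D (env X ω) 0 (p i) ≤ ∑ j ∈ Finset.range i, env X ω s(p j, p (j + 1)) := by
      obtain ⟨-, hb, -, -⟩ := cGE (env X ω) hω 0 (p i)
      exact csInf_le hb ⟨i, p, p0, rfl, fun j hj => padj j (by omega), rfl⟩
    have d2 : D (env X ω) (p i) v ≤ ∑ j ∈ Finset.Ico i N, env X ω s(p j, p (j + 1)) := by
      obtain ⟨-, hb, -, -⟩ := cGE (env X ω) hω (p i) v
      refine csInf_le hb ⟨N - i, fun j => p (i + j), rfl, ?_, fun j hj => padj (i + j) (by omega), ?_⟩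
      · show p (i + (N - i)) = v
        rw [← pN]; congr 1; omega
      · rw [Finset.sum_Ico_eq_sum_range]; rfl
    have d3 : ∑ j ∈ Finset.range i, env X ω s(p j, p (j + 1)) +
        ∑ j ∈ Finset.Ico i N, env X ω s(p j, p (j + 1)) =
        ∑ j ∈ Finset.range N, env X ω s(p j, p (j + 1)) :=
      Finset.sum_range_add_sum_Ico _ hi
    linarith
  -- positions
  have hpos : ∀ i ≤ N, |φ (em (p i))| ≤ S ∧ |ψ (em (p i))| ≤ Y := by
    intro i hi
    obtain ⟨b1, b2⟩ := c2' (p i) (hbox i hi)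
    have ht := htime i hi
    obtain ⟨-, -, nn1, -⟩ := cGE (env X ω) hω 0 (p i)
    obtain ⟨-, -, nn2, -⟩ := cGE (env X ω) hω (p i) v
    have e1 : φ (em (v - p i)) = n - φ (em (p i)) := by rw [em_sub, map_sub, hφv]
    have k0 : |φ (em (p i))| ≤ μ (em (p i)) := hF.abs_ph _
    have k2 : φ (em (v - p i)) ≤ S := by
      have := hF.le (em (v - p i)); linarith
    have k1 : |φ (em (p i))| ≤ S := by linarith
    have k1' := (abs_le.1 k1).2
    refine ⟨k1, ?_⟩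
    have dd1 := df_nonneg hF (em (p i))
    have dd2 := df_nonneg hF (em (v - p i))
    have dd3 : df μ φ (em (p i)) + df μ φ (em (v - p i)) ≤ B := by
      unfold df
      rw [e1]
      linarith
    apply hY
    · have e2 : S • u + ψ (em (p i)) • τ = em (p i) + (S - φ (em (p i))) • u := by
        conv_rhs => rw [hF.dec (em (p i))]
        simp only [map_add, map_smul, hF.fu, hF.ft, smul_eq_mul, mul_one, mul_zero, add_zero]
        module
      rw [e2]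
      refine (df_add_u hF _ _ (by linarith)).trans (by linarith)
    · have e2 : S • u + (-ψ (em (p i))) • τ =
          em (v - p i) + (S - φ (em (v - p i))) • u := by
        have e3 : ψ (em (v - p i)) = -ψ (em (p i)) := by rw [em_sub, map_sub, hψv, zero_sub]
        conv_rhs => rw [hF.dec (em (v - p i))]
        simp only [map_add, map_smul, hF.fu, hF.ft, smul_eq_mul, mul_one, mul_zero, add_zero, e3]
        module
      rw [e2]
      refine (df_add_u hF _ _ (by linarith)).trans (by linarith)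
  -- the level
  have hhv0 : 0 < h v := by linarith
  have hex : ∃ i, i ≤ N ∧ h v / 2 ≤ h (p i) := ⟨N, le_rfl, by rw [pN]; linarith⟩
  obtain ⟨i, ⟨hiN, hi2⟩, hmin⟩ : ∃ i, (i ≤ N ∧ h v / 2 ≤ h (p i)) ∧
      ∀ j < i, ¬ (j ≤ N ∧ h v / 2 ≤ h (p j)) :=
    ⟨Nat.find hex, Nat.find_spec hex, fun j hj => Nat.find_min hex hj⟩
  have hi0 : 0 < i := by
    rcases Nat.eq_zero_or_pos i with h0 | h0
    · rw [h0, p0, hS.zero] at hi2; linarith
    · exact h0
  have hup : h (p i) ≤ h v / 2 + Al * C := by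
    have h1 := hmin (i - 1) (by omega)
    have h2 : h (p (i - 1)) < h v / 2 := by
      by_contra h3
      exact h1 ⟨by omega, not_lt.1 h3⟩
    have h3 := padj (i - 1) (by omega)
    rw [Nat.sub_add_cancel hi0] at h3
    have h4 := hC.step _ _ h3
    have h5 : h (p i) ≤ h (p (i - 1)) + h (p i - p (i - 1)) := by
      have := hS.add (p (i - 1)) (p i - p (i - 1))
      rwa [add_sub_cancel] at this
    have h6 : h (p i - p (i - 1)) ≤ Al * C := by
      refine (hS.lin _).trans ?_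
      rw [em_sub]
      exact mul_le_mul_of_nonneg_left h4 hAl.le
    linarith
  obtain ⟨w, hw⟩ : ∃ w, w = p i := ⟨_, rfl⟩
  have hwbox : w ∈ Bx R := by rw [hw]; exact hbox i hiN
  obtain ⟨hw1, hw2⟩ := hpos i hiN
  have hwt := htime i hiN
  rw [← hw] at hi2 hup hw1 hw2 hwt
  -- the window
  obtain ⟨q1, hq1, hq1'⟩ := cover S l _ P hl hP hw1
  obtain ⟨q2, hq2, hq2'⟩ := cover Y l _ P hl hP hw2
  have hqm : (q1, q2) ∈ Finset.range (P + 1) ×ˢ Finset.range (P + 1) :=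
    Finset.mem_product.2 ⟨hq1, hq2⟩
  obtain ⟨Wa, hWa⟩ : ∃ Wa, Wa = rd (y1 (q1, q2)) := ⟨_, rfl⟩
  obtain ⟨Wb, hWb⟩ : ∃ Wb, Wb = rd (y2 (q1, q2)) := ⟨_, rfl⟩
  have l1 := c4' _ hqm
  have l2 := c5' _ hqm
  have r1 := hrd (y1 (q1, q2))
  have r2 := hrd (y2 (q1, q2))
  rw [← hWa] at l1 r1
  rw [← hWb] at l2 r2
  have cφ : ∀ z y : ℝ × ℝ, μ (z - y) ≤ C → |φ z - φ y| ≤ C := by
    intro z y h
    rw [← map_sub]; exact (hF.abs_ph _).trans h
  have cψ : ∀ z y : ℝ × ℝ, μ (z - y) ≤ C → |ψ z - ψ y| ≤ 2 * C := by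
    intro z y h
    rw [← map_sub]; exact (hF.abs_ps _).trans (by linarith)
  have f1 : φ (y1 (q1, q2)) = (-S + q1 * (l * S)) + 3 * (l * S) := by
    rw [hy1]
    simp only [map_add, map_smul, hF.fu, hF.ft, smul_eq_mul, mul_one, mul_zero, add_zero]
  have f2 : φ (y2 (q1, q2)) = (-S + q1 * (l * S)) - 3 * (l * S) := by
    rw [hy2]
    simp only [map_add, map_smul, hF.fu, hF.ft, smul_eq_mul, mul_one, mul_zero, add_zero]
  have f3 : ψ (y1 (q1, q2)) = -Y + q2 * (l * Y) := by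
    rw [hy1]
    simp only [map_add, map_smul, hF.pu, hF.pt, smul_eq_mul, mul_one, mul_zero, zero_add]
  have f4 : ψ (y2 (q1, q2)) = -Y + q2 * (l * Y) := by
    rw [hy2]
    simp only [map_add, map_smul, hF.pu, hF.pt, smul_eq_mul, mul_one, mul_zero, zero_add]
  have f5 := cφ _ _ r1
  have f6 := cφ _ _ r2
  have f7 := cψ _ _ r1
  have f8 := cψ _ _ r2
  rw [f1] at f5
  rw [f2] at f6
  rw [f3] at f7
  rw [f4] at f8
  rw [abs_le] at f5 f6 f7 f8 hq1' hq2'
  -- scaled width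
  have hJ' : ∀ (S' l' y : ℝ), l * S ≤ S' → 0 ≤ l' → l' ≤ 1 → |y| ≤ l' * (l * Y) →
      df μ φ (S' • u + y • τ) ≤ l' * (l * B) := by
    intro S' l' y h1 h2 h3 h4
    have e1 : S' • u + y • τ = l • ((S' / l) • u + (y / l) • τ) := by
      rw [smul_add, smul_smul, smul_smul, mul_div_cancel₀ _ hl.ne', mul_div_cancel₀ _ hl.ne']
    rw [e1, df_smul l hl.le]
    have h5 := hJ (S' / l) l' (y / l) (by rw [le_div_iff₀ hl, mul_comm]; exact h1) h2 h3 (by
      rw [abs_div, abs_of_pos hl, div_le_iff₀ hl]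
      calc |y| ≤ l' * (l * Y) := h4
        _ = l' * Y * l := by ring)
    calc l * df μ φ ((S' / l) • u + (y / l) • τ) ≤ l * (l' * B) := by gcongr
      _ = l' * (l * B) := by ring
  have g1 : l * S ≤ φ (em (Wa - w)) ∧ φ (em (Wa - w)) ≤ 4 * (l * S) + C := by
    rw [em_sub, map_sub]
    constructor <;> linarith [hq1'.1, hq1'.2, f5.1, f5.2]
  have g2 : l * S ≤ φ (em (w - Wb)) ∧ φ (em (w - Wb)) ≤ 4 * (l * S) + C := by
    rw [em_sub, map_sub]
    constructor <;> linarith [hq1'.1, hq1'.2, f6.1, f6.2]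
  have g3 : |ψ (em (Wa - w))| ≤ 1 * (l * Y) + 2 * C := by
    rw [em_sub, map_sub, abs_le]
    constructor <;> linarith [hq2'.1, hq2'.2, f7.1, f7.2]
  have g4 : |ψ (em (w - Wb))| ≤ 1 * (l * Y) + 2 * C := by
    rw [em_sub, map_sub, abs_le]
    constructor <;> linarith [hq2'.1, hq2'.2, f8.1, f8.2]
  have d1 := df_near hF (l * B) (l * S) (l * Y) 1 (2 * C) zero_le_one le_rfl hlY (by linarith)
    hJ' _ g1.1 g3
  have d2 := df_near hF (l * B) (l * S) (l * Y) 1 (2 * C) zero_le_one le_rfl hlY (by linarith)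
    hJ' _ g2.1 g4
  rw [one_mul] at d1 d2
  have m1 : μ (em (Wa - w)) = df μ φ (em (Wa - w)) + φ (em (Wa - w)) := by unfold df; ring
  have m2 : μ (em (w - Wb)) = df μ φ (em (w - Wb)) + φ (em (w - Wb)) := by unfold df; ring
  have m3 : μ (em (Wa - w)) ≤ s4 := by linarith [g1.2]
  have m4 : μ (em (w - Wb)) ≤ s4 := by linarith [g2.2]
  have t1 := (c6' w hwbox (Wa - w) m3).1
  have t2 := (c6' w hwbox (w - Wb) m4).2
  rw [add_sub_cancel] at t1
  rw [sub_sub_cancel] at t2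
  have t3 := cTRI (env X ω) hω 0 w Wa
  have t4 := cTRI (env X ω) hω Wb w v
  have e5 : φ (em (Wa - w)) + φ (em (w - Wb)) = φ (em Wa) - φ (em Wb) := by
    rw [em_sub, em_sub, map_sub, map_sub]; ring
  have total : h Wa + h (v - Wb) ≤ h v + 6 * (l * S) +
      (a1 + 1 + 2 * x + 2 * ρ + 2 * (l * B) + 6 * C) := by
    linarith [f5.2, f6.1]
  have z1 : h Wa ≤ h w + h (Wa - w) := by
    have := hS.add w (Wa - w)
    rwa [add_sub_cancel] at this
  have z2 : h (Wa - w) ≤ Al * s4 := (hS.lin _).trans (mul_le_mul_of_nonneg_left m3 hAl.le)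
  have z3 : h w ≤ h Wa + h (w - Wa) := by
    have := hS.add Wa (w - Wa)
    rwa [add_sub_cancel] at this
  have z4 : h (w - Wa) ≤ Al * s4 := by
    refine (hS.lin _).trans (mul_le_mul_of_nonneg_left ?_ hAl.le)
    have : em (w - Wa) = -em (Wa - w) := by rw [em_sub, em_sub, neg_sub]
    rw [this, map_neg_eq_map]
    exact m3
  have z5 : Al * (C + s4) = Al * C + Al * s4 := by ring
  have z6 : 0 ≤ Al * C := by positivity
  have z7 : 0 ≤ l * B := by positivity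
  refine ⟨Wa, v - Wb, 6 * (l * S) / n, by positivity, ?_, ?_, ?_, ?_⟩
  · linarith
  · linarith
  · have e6 : em (Wa + (v - Wb)) - (1 + 6 * (l * S) / n) • em v =
        (em Wa - y1 (q1, q2)) - (em Wb - y2 (q1, q2)) := by
      have e7 : (1 + 6 * (l * S) / n) • em v = em v + (6 * (l * S)) • u := by
        rw [add_smul, one_smul]
        conv_lhs => rw [hv]
        rw [smul_smul, hv]
        congr 2
        field_simp
      have e8 : y1 (q1, q2) - y2 (q1, q2) = (6 * (l * S)) • u := by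
        rw [hy1, hy2]
        module
      rw [e7, em_add, em_sub, ← e8]
      abel
    rw [e6]
    refine (map_sub_le_add μ _ _).trans ?_
    linarith
  · have e9 : 6 * (l * S) / n * μ (em v) = 6 * (l * S) := by
      rw [hμv]; field_simp
    rw [e9]
    exact total

end

end Pool.Agent.V7H97.FO
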