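import Pool.Agent.V7H97.FO.Asym2

/-!
# The splitting property
-/

set_option autoImplicit false

open MeasureTheory ProbabilityTheory Filter Set
open scoped Pointwise Topology

namespace Pool.Agent.V7H97.FO

open Pool.Agent.N662.FP

section
variable {Ω : Type} [MeasureSpace Ω] [IsProbabilityMeasure (volume : Measure Ω)]
variable {X : Sym2 (ℤ × ℤ) → Ω → ℝ}

theorem E1g (hX : Iid X) {μ : Seminorm ℝ (ℝ × ℝ)} (K1 κ0 c0 N0 n Cn Rc : ℝ)
    (hCn : 0 < Cn) (hnorm : ∀ x : ℝ × ℝ, μ x ≤ Cn * max |x.1| |x.2|)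
    (hRc : 0 < Rc) (hK : 1 + Rc * Cn ≤ K1)
    (h0 : 0 ≤ κ0) (h1 : κ0 < 1) (hn : 0 < n) (hc0 : 0 < c0)
    (hLS : ∀ v : ℤ × ℤ, N0 ≤ μ (em v) →
      (volume : Measure Ω).real {ω | D (env X ω) 0 v < μ (em v) - μ (em v) ^ (1 - κ0)} ≤
        Real.exp (-(μ (em v) ^ c0)))
    (hN : N0 ≤ n ^ (1 - κ0)) (v : ℤ × ℤ) (hv : μ (em v) = n) (R : ℕ) (hR : (R : ℝ) ≤ Rc * n) :
    (volume : Measure Ω).real {ω | ∃ z ∈ Bx R, D (env X ω) 0 z < μ (em z) - K1 * n ^ (1 - κ0) ∨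
      D (env X ω) z v < μ (em (v - z)) - K1 * n ^ (1 - κ0)} ≤
      2 * (2 * (R : ℝ) + 1) ^ 2 * Real.exp (-((n ^ (1 - κ0)) ^ c0)) := by
  have hRC : 0 < Rc * Cn := by positivity
  have hK1 : 1 ≤ K1 := by linarith
  have hKn : (1 + Rc * Cn) * n ≤ K1 * n := by gcongr
  have hb : ∀ z ∈ Bx R, μ (em z) ≤ Rc * Cn * n := by
    intro z hz
    rw [mem_Bx] at hz
    refine (hnorm _).trans ?_
    have h2 : max |(em z).1| |(em z).2| ≤ Rc * n := by
      refine max_le ?_ ?_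
      · have : |(z.1 : ℝ)| ≤ R := by exact_mod_cast hz.1
        exact this.trans hR
      · have : |(z.2 : ℝ)| ≤ R := by exact_mod_cast hz.2
        exact this.trans hR
    calc Cn * max |(em z).1| |(em z).2| ≤ Cn * (Rc * n) := by gcongr
      _ = _ := by ring
  have e : {ω | ∃ z ∈ Bx R, D (env X ω) 0 z < μ (em z) - K1 * n ^ (1 - κ0) ∨
      D (env X ω) z v < μ (em (v - z)) - K1 * n ^ (1 - κ0)} ⊆
      (⋃ z ∈ Bx R, {ω | D (env X ω) 0 z < μ (em z) - K1 * n ^ (1 - κ0)}) ∪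
      (⋃ z ∈ Bx R, {ω | D (env X ω) z v < μ (em (v - z)) - K1 * n ^ (1 - κ0)}) := by
    rintro ω ⟨z, hz, h | h⟩
    · exact Or.inl (mem_iUnion₂.2 ⟨z, hz, h⟩)
    · exact Or.inr (mem_iUnion₂.2 ⟨z, hz, h⟩)
  refine (measureReal_mono e (measure_ne_top _ _)).trans ((measureReal_union_le _ _).trans ?_)
  have p1 : (volume : Measure Ω).real
      (⋃ z ∈ Bx R, {ω | D (env X ω) 0 z < μ (em z) - K1 * n ^ (1 - κ0)}) ≤
      (2 * (R : ℝ) + 1) ^ 2 * Real.exp (-((n ^ (1 - κ0)) ^ c0)) := by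
    refine (measureReal_biUnion_finset_le _ _).trans ?_
    refine (Finset.sum_le_card_nsmul _ _ (Real.exp (-((n ^ (1 - κ0)) ^ c0))) fun z hz => ?_).trans ?_
    · refine low hX K1 κ0 c0 N0 n hK1 h0 h1 hn hc0 hLS hN z ?_
      have := hb z hz
      linarith
    · rw [nsmul_eq_mul, card_Bx]
  have p2 : (volume : Measure Ω).real
      (⋃ z ∈ Bx R, {ω | D (env X ω) z v < μ (em (v - z)) - K1 * n ^ (1 - κ0)}) ≤
      (2 * (R : ℝ) + 1) ^ 2 * Real.exp (-((n ^ (1 - κ0)) ^ c0)) := by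
    refine (measureReal_biUnion_finset_le _ _).trans ?_
    refine (Finset.sum_le_card_nsmul _ _ (Real.exp (-((n ^ (1 - κ0)) ^ c0))) fun z hz => ?_).trans ?_
    · rw [law_lt hX]
      refine low hX K1 κ0 c0 N0 n hK1 h0 h1 hn hc0 hLS hN (v - z) ?_
      have h2 := hb z hz
      have h3 : μ (em (v - z)) ≤ μ (em v) + μ (em z) := by
        rw [em_sub]; exact map_sub_le_add μ _ _
      linarith
    · rw [nsmul_eq_mul, card_Bx]
  linarith

/-- many reference points -/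
theorem Elq (hX : Iid X) {μ : Seminorm ℝ (ℝ × ℝ)} {h : ℤ × ℤ → ℝ} (A κ x s5 : ℝ) (P : ℕ)
    (hA : 0 < A) (hκ : κ < 1) (hx : 0 < x)
    (hint : ∀ v, Integrable (fun ω => D (env X ω) 0 v) (volume : Measure Ω))
    (hSp : ∀ v : ℤ × ℤ, ∫ ω, |D (env X ω) 0 v - h v| ∂(volume : Measure Ω) ≤
      A * (1 + μ (em v)) ^ (1 - κ))
    (hfin : ((P : ℝ) + 1) ^ 2 * (A * (1 + s5) ^ (1 - κ) / x) ≤ 1 / 8)
    (a W : ℕ × ℕ → ℤ × ℤ) (hW : ∀ q ∈ Finset.range (P + 1) ×ˢ Finset.range (P + 1),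
      μ (em (W q)) ≤ s5) : (volume : Measure Ω).real
        {ω | ∃ q ∈ Finset.range (P + 1) ×ˢ Finset.range (P + 1),
          D (env X ω) (a q) (a q + W q) < h (W q) - x} ≤ 1 / 8 := by
  have e : {ω | ∃ q ∈ Finset.range (P + 1) ×ˢ Finset.range (P + 1),
          D (env X ω) (a q) (a q + W q) < h (W q) - x} ⊆
      ⋃ q ∈ Finset.range (P + 1) ×ˢ Finset.range (P + 1),
        {ω | D (env X ω) (a q) (a q + W q) < h (W q) - x} := by
    rintro ω ⟨q, hq, h2⟩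
    exact mem_iUnion₂.2 ⟨q, hq, h2⟩
  refine (measureReal_mono e (measure_ne_top _ _)).trans ((measureReal_biUnion_finset_le _ _).trans
    ((Finset.sum_le_card_nsmul _ _ (A * (1 + s5) ^ (1 - κ) / x) fun q hq => ?_).trans ?_))
  · have h1 := law_lt hX (a q) (a q + W q) (h (W q) - x)
    rw [add_sub_cancel_left] at h1
    rw [h1]
    have h2 : (volume : Measure Ω).real {ω | D (env X ω) 0 (W q) < h (W q) - x} ≤
        (volume : Measure Ω).real {ω | x ≤ |D (env X ω) 0 (W q) - h (W q)|} := by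
      refine measureReal_mono (fun ω hω => ?_) (measure_ne_top _ _)
      have h3 : D (env X ω) 0 (W q) < h (W q) - x := hω
      show x ≤ |D (env X ω) 0 (W q) - h (W q)|
      rw [abs_of_neg (by linarith)]
      linarith
    refine h2.trans ((mk _ (hint (W q)) (h (W q)) x hx).trans ?_)
    refine div_le_div_of_nonneg_right ((hSp (W q)).trans ?_) hx.le
    have h4 := hW q hq
    have h5 := apply_nonneg μ (em (W q))
    refine mul_le_mul_of_nonneg_left ?_ hA.le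
    exact Real.rpow_le_rpow (by linarith) (by linarith) (by linarith)
  · rw [Finset.card_product, Finset.card_range, nsmul_eq_mul]
    push_cast
    calc ((P : ℝ) + 1) * ((P : ℝ) + 1) * (A * (1 + s5) ^ (1 - κ) / x) =
          ((P : ℝ) + 1) ^ 2 * (A * (1 + s5) ^ (1 - κ) / x) := by ring
      _ ≤ 1 / 8 := hfin

/-- uniform upper bounds for the connections -/
theorem Euq (hX : Iid X) {μ : Seminorm ℝ (ℝ × ℝ)} (hG : Good (fun ω v => D (env X ω) 0 v) μ)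
    (A' lam cm ρ s4 : ℝ) (R : ℕ) (hA' : 0 < A') (hlam : lam < 1) (hcm : 0 < cm)
    (hnorm : ∀ x : ℝ × ℝ, cm * max |x.1| |x.2| ≤ μ x) (hs4 : 0 ≤ s4)
    (hUP : ∀ v : ℤ × ℤ, (volume : Measure Ω).real
      {ω | μ (em v) + A' * (1 + μ (em v)) ^ (1 - lam) ≤ D (env X ω) 0 v} ≤ Real.exp (-(1 + 1)))
    (hρ : A' * (1 + s4) ^ (1 - lam) ≤ ρ)
    (hfin : (2 * (R : ℝ) + 1) ^ 2 * ((2 * s4 / cm + 3) ^ 2 *
      (2 * Real.exp (-(ρ / (A' * (1 + s4) ^ (1 - lam)))))) ≤ 1 / 8) :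
    (volume : Measure Ω).real {ω | ∃ w ∈ Bx R, ∃ z : ℤ × ℤ, μ (em z) ≤ s4 ∧
      (μ (em z) + ρ ≤ D (env X ω) w (w + z) ∨ μ (em z) + ρ ≤ D (env X ω) (w - z) w)} ≤ 1 / 8 := by
  classical
  obtain ⟨W4, hW4⟩ : ∃ W4, W4 = A' * (1 + s4) ^ (1 - lam) := ⟨_, rfl⟩
  rw [← hW4] at hρ hfin
  have hW40 : 0 < W4 := by
    rw [hW4]; have : 0 < (1 + s4) ^ (1 - lam) := Real.rpow_pos_of_pos (by linarith) _
    positivity
  have hU : ∀ z : ℤ × ℤ, μ (em z) ≤ s4 →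
      (volume : Measure Ω).real {ω | μ (em z) + ρ ≤ D (env X ω) 0 z} ≤ Real.exp (-(ρ / W4)) := by
    intro z hz
    have h5 := apply_nonneg μ (em z)
    have r1 : 0 < A' * (1 + μ (em z)) ^ (1 - lam) := by positivity
    have r2 : A' * (1 + μ (em z)) ^ (1 - lam) ≤ W4 := by
      rw [hW4]
      refine mul_le_mul_of_nonneg_left ?_ hA'.le
      exact Real.rpow_le_rpow (by linarith) (by linarith) (by linarith)
    obtain ⟨w, hw⟩ : ∃ w, w = A' * (1 + μ (em z)) ^ (1 - lam) := ⟨_, rfl⟩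
    have h2 := hUP z
    rw [← hw] at r1 r2 h2
    have h3 := (hG.one z w 1 r1 one_pos h2).1 (ρ - w) (by linarith)
    have e1 : μ (em z) + w + (ρ - w) = μ (em z) + ρ := by ring
    rw [e1] at h3
    refine h3.trans (Real.exp_le_exp.2 ?_)
    have h4 : 1 * (ρ - w) / w = ρ / w - 1 := by field_simp
    have h6 : ρ / W4 ≤ ρ / w := div_le_div_of_nonneg_left (by linarith) r1 r2
    linarith
  obtain ⟨Q, hQ⟩ : ∃ Q : ℕ, Q = ⌈s4 / cm⌉₊ := ⟨_, rfl⟩
  have hQ1 : s4 / cm ≤ Q := by rw [hQ]; exact Nat.le_ceil _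
  have hQ2 : (Q : ℝ) ≤ s4 / cm + 1 := by
    have := Nat.ceil_lt_add_one (show 0 ≤ s4 / cm by positivity)
    rw [← hQ] at this
    exact this.le
  obtain ⟨F, hF⟩ : ∃ F : Finset (ℤ × ℤ), F = (Bx Q).filter (fun z => μ (em z) ≤ s4) := ⟨_, rfl⟩
  have hFc : ∀ z : ℤ × ℤ, μ (em z) ≤ s4 → z ∈ F := by
    intro z hz
    rw [hF]
    refine Finset.mem_filter.2 ⟨?_, hz⟩
    rw [mem_Bx]
    have h2 := (hnorm (em z)).trans hz
    have h3 : max |(em z).1| |(em z).2| ≤ Q := by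
      refine le_trans ?_ hQ1
      rw [le_div_iff₀ hcm, mul_comm]; exact h2
    have h4 : |(z.1 : ℝ)| ≤ Q := (le_max_left _ _).trans h3
    have h5 : |(z.2 : ℝ)| ≤ Q := (le_max_right _ _).trans h3
    exact ⟨by exact_mod_cast h4, by exact_mod_cast h5⟩
  have hFm : ∀ z ∈ F, μ (em z) ≤ s4 := by
    intro z hz
    rw [hF] at hz
    exact (Finset.mem_filter.1 hz).2
  have hFcard : (F.card : ℝ) ≤ (2 * s4 / cm + 3) ^ 2 := by
    have h2 : (F.card : ℝ) ≤ ((Bx Q).card : ℝ) := by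
      rw [hF]; exact_mod_cast Finset.card_filter_le _ _
    rw [card_Bx] at h2
    refine h2.trans ?_
    have h3 : 2 * (Q : ℝ) + 1 ≤ 2 * s4 / cm + 3 := by
      have : 2 * s4 / cm = 2 * (s4 / cm) := by ring
      linarith
    exact pow_le_pow_left₀ (by positivity) h3 2
  have e : {ω | ∃ w ∈ Bx R, ∃ z : ℤ × ℤ, μ (em z) ≤ s4 ∧
      (μ (em z) + ρ ≤ D (env X ω) w (w + z) ∨ μ (em z) + ρ ≤ D (env X ω) (w - z) w)} ⊆
      ⋃ w ∈ Bx R, ⋃ z ∈ F, ({ω | μ (em z) + ρ ≤ D (env X ω) w (w + z)} ∪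
        {ω | μ (em z) + ρ ≤ D (env X ω) (w - z) w}) := by
    rintro ω ⟨w, hw, z, hz, h2⟩
    refine mem_iUnion₂.2 ⟨w, hw, mem_iUnion₂.2 ⟨z, hFc z hz, ?_⟩⟩
    rcases h2 with h2 | h2
    · exact Or.inl h2
    · exact Or.inr h2
  refine (measureReal_mono e (measure_ne_top _ _)).trans ((measureReal_biUnion_finset_le _ _).trans
    ((Finset.sum_le_card_nsmul _ _ ((F.card : ℝ) * (2 * Real.exp (-(ρ / W4)))) fun w _ => ?_).trans
      ?_))
  · refine (measureReal_biUnion_finset_le _ _).trans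
      ((Finset.sum_le_card_nsmul _ _ (2 * Real.exp (-(ρ / W4))) fun z hz => ?_).trans ?_)
    · refine (measureReal_union_le _ _).trans ?_
      have h1 := D_law hX w z (Ici (μ (em z) + ρ)) measurableSet_Ici
      have h2 := D_law hX (w - z) z (Ici (μ (em z) + ρ)) measurableSet_Ici
      rw [sub_add_cancel] at h2
      have h1' : (volume : Measure Ω).real {ω | μ (em z) + ρ ≤ D (env X ω) w (w + z)} =
          (volume : Measure Ω).real {ω | μ (em z) + ρ ≤ D (env X ω) 0 z} := h1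
      have h2' : (volume : Measure Ω).real {ω | μ (em z) + ρ ≤ D (env X ω) (w - z) w} =
          (volume : Measure Ω).real {ω | μ (em z) + ρ ≤ D (env X ω) 0 z} := h2
      rw [h1', h2']
      have := hU z (hFm z hz)
      linarith
    · rw [nsmul_eq_mul]
  · rw [nsmul_eq_mul, card_Bx]
    refine le_trans ?_ hfin
    gcongr

theorem split_gen (hX : Iid X) {h : ℤ × ℤ → ℝ} {μ : Seminorm ℝ (ℝ × ℝ)} {Al : ℝ}
    (hS : Sa h μ Al) (hAl : 0 < Al) (hG : Good (fun ω v => D (env X ω) 0 v) μ)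
    (κ lam lam' A Ag A' : ℝ) (hA : 0 < A) (hAg : 0 < Ag) (hA' : 0 < A')
    (h0 : 0 ≤ lam) (h1 : lam < κ) (h2 : κ < 1) (h3 : 0 ≤ lam') (h4 : lam' ≤ lam)
    (h5 : lam - lam' ≤ (κ - lam) / 16)
    (hSp : ∀ v : ℤ × ℤ, ∫ ω, |D (env X ω) 0 v - h v| ∂(volume : Measure Ω) ≤
      A * (1 + μ (em v)) ^ (1 - κ))
    (hGl : ∀ v : ℤ × ℤ, h v ≤ μ (em v) + Ag * (1 + μ (em v)) ^ (1 - lam))
    (hUP : ∀ v : ℤ × ℤ, (volume : Measure Ω).real
      {ω | μ (em v) + A' * (1 + μ (em v)) ^ (1 - lam) ≤ D (env X ω) 0 v} ≤ Real.exp (-(1 + 1)))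
    (hLS : LS X μ lam') :
    ∃ C N0 : ℝ, 0 < C ∧ Spl h μ (lam + (κ - lam) * (1 - lam) / 16) C N0 := by
  obtain ⟨C, hC⟩ := exists_Ct μ hG.norm
  obtain ⟨cm, Cn, hcm, hCn, hnorm⟩ := cNORM μ hG.norm
  obtain ⟨c0, N0, hc0, hL0⟩ := hLS
  have hC0 := hC.pos
  obtain ⟨K1, Rc, C7, hRc, hK1, hC7, hev⟩ := asym2 A Ag A' Al C Cn cm c0 N0 κ lam lam' hA hAg hA'
    hC0 hCn hcm hc0 h0 h1 h2 h3 h4 h5
  obtain ⟨N, hN⟩ := eventually_atTop.1 hev
  refine ⟨2 * C + C7, Al * max N 1, by positivity, fun v hv => ?_⟩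
  obtain ⟨n, hn⟩ : ∃ n, n = μ (em v) := ⟨_, rfl⟩
  have hnN : max N 1 ≤ n := by
    have := hv.trans (hS.lin v)
    rw [← hn] at this
    exact le_of_mul_le_mul_left this hAl
  obtain ⟨P, R, l, x, ρ, s4, s5, sc⟩ := hN n ((le_max_left _ _).trans hnN)
  have hn1 : 1 ≤ n := sc.hn
  have hn0 : 0 < n := by linarith
  have hv0 : em v ≠ 0 := by
    intro h
    rw [h, map_zero] at hn
    linarith
  obtain ⟨φ, ψ, u, τ, hF, hvu⟩ := exists_frame μ hG.norm (em v) hv0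
  rw [← hn] at hvu
  obtain ⟨B0, hB0⟩ : ∃ B0, B0 = K1 * n ^ (1 - lam') := ⟨_, rfl⟩
  have hK10 : 0 < K1 := by
    have : 0 < Rc * Cn := by positivity
    linarith
  have hB00 : 0 < B0 := by
    rw [hB0]; have := Real.rpow_pos_of_pos hn0 (1 - lam'); positivity
  obtain ⟨Y, hY0, hYle, hY1, hY2⟩ := exists_width hF (3 * B0) (n + 2 * B0) (by linarith)
    (by linarith)
  have hGv := hGl v
  rw [← hn] at hGv
  have g1 := sc.hCS
  have g2 := sc.hS
  have g3 := sc.hR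
  have g4 := sc.hs4
  have g5 := sc.hs5
  have g6 := sc.hsz
  have g7 := sc.hfin
  rw [← hB0] at g1 g2 g4 g5 g6 g7
  have hhv : n ≤ h v := by rw [hn]; exact hS.le v
  obtain ⟨a1, ha1⟩ : ∃ a1, a1 = 8 * A * (1 + n) ^ (1 - κ) := ⟨_, rfl⟩
  rw [← ha1] at g2 g3 g6 g7
  have ha10 : 0 < a1 := by
    rw [ha1]; have := Real.rpow_pos_of_pos (show 0 < 1 + n by linarith) (1 - κ); positivity
  have hEt : (volume : Measure Ω).real {ω | h v + a1 < D (env X ω) 0 v} ≤ 1 / 8 := by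
    have k1 : (volume : Measure Ω).real {ω | h v + a1 < D (env X ω) 0 v} ≤
        (volume : Measure Ω).real {ω | a1 ≤ |D (env X ω) 0 v - h v|} := by
      refine measureReal_mono (fun ω hω => ?_) (measure_ne_top _ _)
      have k2 : h v + a1 < D (env X ω) 0 v := hω
      show a1 ≤ |D (env X ω) 0 v - h v|
      rw [abs_of_pos (by linarith)]
      linarith
    refine k1.trans ((mk _ (hG.int v) (h v) a1 ha10).trans ?_)
    rw [div_le_iff₀ ha10]
    refine (hSp v).trans (le_of_eq ?_)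
    rw [← hn, ha1]; ring
  have hE1 := E1g hX K1 lam' c0 N0 n Cn Rc hCn (fun x => (hnorm x).2) hRc hK1 h3 (by linarith) hn0
    hc0 hL0 sc.hN0 v hn.symm R sc.hR2
  rw [← hB0] at hE1
  have hEu := Euq hX hG A' lam cm ρ s4 R hA' (by linarith) hcm (fun x => (hnorm x).1) sc.hs40 hUP
    sc.hρw sc.hEu
  obtain ⟨w1, w2, t, r1, r2, r3, r4, r5⟩ := split_one hX hS hC hF v n hvu hn0 hAl (n + 2 * B0)
    (3 * B0) Y l B0 a1 x ρ s4 s5 P R sc.hl sc.hl1 hB00.le sc.hx.le sc.hρ ha10.le hY0 hY1 hY2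
    sc.hP sc.hP3 g1 (by linarith) (by linarith) (by linarith) sc.hR3 g4 (by linarith)
    (by linarith) (hE1.trans sc.hE1) hEt
    (fun a W hW => Elq hX A κ x s5 P hA h2 sc.hx hG.int hSp sc.hEl a W hW) hEu
  refine ⟨w1, w2, t, r1, r2, r3, by linarith, r5.trans ?_⟩
  have k1 : C7 * n ^ (1 - (lam + (κ - lam) * (1 - lam) / 16)) ≤
      (2 * C + C7) * h v ^ (1 - (lam + (κ - lam) * (1 - lam) / 16)) := by
    have k2 : (κ - lam) * (1 - lam) ≤ 1 - lam := by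
      have : (κ - lam) * (1 - lam) ≤ 1 * (1 - lam) :=
        mul_le_mul_of_nonneg_right (by linarith) (by linarith)
      linarith
    have k3 : n ^ (1 - (lam + (κ - lam) * (1 - lam) / 16)) ≤
        h v ^ (1 - (lam + (κ - lam) * (1 - lam) / 16)) :=
      Real.rpow_le_rpow hn0.le hhv (by linarith)
    have k4 : 0 ≤ n ^ (1 - (lam + (κ - lam) * (1 - lam) / 16)) := Real.rpow_nonneg hn0.le _
    calc C7 * n ^ (1 - (lam + (κ - lam) * (1 - lam) / 16)) ≤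
          (2 * C + C7) * n ^ (1 - (lam + (κ - lam) * (1 - lam) / 16)) := by
            gcongr
            linarith
      _ ≤ _ := by gcongr
  linarith

end

end Pool.Agent.V7H97.FO
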