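import Pool.Agent.V7H97.FO.Asym

/-!
# One step of the bootstrap
-/

set_option autoImplicit false

open MeasureTheory ProbabilityTheory Filter Set

namespace Pool.Agent.V7H97.FO

open Pool.Agent.N662.FP

theorem sub_pow_mono (x y e : ℝ) (hy : 1 ≤ y) (hxy : y ≤ x) (he1 : e ≤ 1) :
    y - y ^ e ≤ x - x ^ e := by
  have hy0 : 0 < y := by linarith
  have hx0 : 0 < x := by linarith
  have h1 : x ^ e ≤ y ^ (e - 1) * x := by
    have h2 : x ^ (e - 1) ≤ y ^ (e - 1) :=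
      Real.rpow_le_rpow_of_nonpos hy0 hxy (by linarith)
    have h3 : x ^ e = x ^ (e - 1) * x := by
      rw [← Real.rpow_add_one hx0.ne']; congr 1; ring
    rw [h3]
    exact mul_le_mul_of_nonneg_right h2 hx0.le
  have h4 : y ^ e = y ^ (e - 1) * y := by
    rw [← Real.rpow_add_one hy0.ne']; congr 1; ring
  have h5 : y ^ (e - 1) ≤ 1 := Real.rpow_le_one_of_one_le_of_nonpos hy (by linarith)
  have h6 : y ^ (e - 1) * (x - y) ≤ 1 * (x - y) := mul_le_mul_of_nonneg_right h5 (by linarith)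
  rw [h4]
  nlinarith

theorem card_Bx (R : ℕ) : ((Bx R).card : ℝ) = (2 * (R : ℝ) + 1) ^ 2 := by
  unfold Bx
  rw [Finset.card_product, Int.card_Icc]
  have : ((R : ℤ) + 1 - -(R : ℤ)).toNat = 2 * R + 1 := by omega
  rw [this]
  push_cast
  ring

theorem mem_Bx (R : ℕ) (z : ℤ × ℤ) : z ∈ Bx R ↔ |z.1| ≤ R ∧ |z.2| ≤ R := by
  unfold Bx
  rw [Finset.mem_product, Finset.mem_Icc, Finset.mem_Icc, abs_le, abs_le]

section
variable {Ω : Type} [MeasureSpace Ω] [IsProbabilityMeasure (volume : Measure Ω)]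
variable {X : Sym2 (ℤ × ℤ) → Ω → ℝ}

/-- the lower tail with the exponent `κ` -/
def LS (X : Sym2 (ℤ × ℤ) → Ω → ℝ) (μ : Seminorm ℝ (ℝ × ℝ)) (κ : ℝ) : Prop :=
  ∃ c N : ℝ, 0 < c ∧ ∀ v : ℤ × ℤ, N ≤ μ (em v) →
    (volume : Measure Ω).real {ω | D (env X ω) 0 v < μ (em v) - μ (em v) ^ (1 - κ)} ≤
      Real.exp (-(μ (em v) ^ c))

theorem law_lt (hX : Iid X) (a b : ℤ × ℤ) (s : ℝ) :
    (volume : Measure Ω).real {ω | D (env X ω) a b < s} =
      (volume : Measure Ω).real {ω | D (env X ω) 0 (b - a) < s} := by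
  have h := D_law hX a (b - a) (Iio s) measurableSet_Iio
  rw [add_sub_cancel] at h
  exact h

/-- crude lower tail at a larger scale -/
theorem low (hX : Iid X) {μ : Seminorm ℝ (ℝ × ℝ)} (K1 κ0 c0 N0 n : ℝ) (hK : 1 ≤ K1)
    (h0 : 0 ≤ κ0) (h1 : κ0 < 1) (hn : 0 < n) (hc0 : 0 < c0)
    (hLS : ∀ v : ℤ × ℤ, N0 ≤ μ (em v) →
      (volume : Measure Ω).real {ω | D (env X ω) 0 v < μ (em v) - μ (em v) ^ (1 - κ0)} ≤
        Real.exp (-(μ (em v) ^ c0)))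
    (hN : N0 ≤ n ^ (1 - κ0)) (z : ℤ × ℤ) (hz : μ (em z) ≤ K1 * n) :
    (volume : Measure Ω).real {ω | D (env X ω) 0 z < μ (em z) - K1 * n ^ (1 - κ0)} ≤
      Real.exp (-((n ^ (1 - κ0)) ^ c0)) := by
  have hp : 0 < n ^ (1 - κ0) := Real.rpow_pos_of_pos hn _
  rcases le_total (n ^ (1 - κ0)) (μ (em z)) with h | h
  · have h2 : μ (em z) ^ (1 - κ0) ≤ K1 * n ^ (1 - κ0) := by
      calc μ (em z) ^ (1 - κ0) ≤ (K1 * n) ^ (1 - κ0) :=
            Real.rpow_le_rpow (apply_nonneg μ _) hz (by linarith)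
        _ = K1 ^ (1 - κ0) * n ^ (1 - κ0) := Real.mul_rpow (by linarith) hn.le
        _ ≤ K1 ^ (1 : ℝ) * n ^ (1 - κ0) := by
            gcongr
            linarith
        _ = K1 * n ^ (1 - κ0) := by rw [Real.rpow_one]
    refine le_trans (measureReal_mono (fun ω hω => ?_) (measure_ne_top _ _))
      ((hLS z (hN.trans h)).trans (Real.exp_le_exp.2 ?_))
    · have h3 : D (env X ω) 0 z < μ (em z) - K1 * n ^ (1 - κ0) := hω
      show D (env X ω) 0 z < μ (em z) - μ (em z) ^ (1 - κ0)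
      linarith
    · have := Real.rpow_le_rpow hp.le h hc0.le
      linarith
  · have h2 : (volume : Measure Ω) {ω | D (env X ω) 0 z < μ (em z) - K1 * n ^ (1 - κ0)} = 0 := by
      have hae : ∀ᵐ ω ∂(volume : Measure Ω),
          ¬ (D (env X ω) 0 z < μ (em z) - K1 * n ^ (1 - κ0)) := by
        filter_upwards [cAE Ω X hX] with ω hω
        obtain ⟨-, -, h3, -⟩ := cGE (env X ω) hω 0 z
        rw [not_lt]
        have h4 : n ^ (1 - κ0) ≤ K1 * n ^ (1 - κ0) := by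
          have := mul_le_mul_of_nonneg_right hK hp.le
          rwa [one_mul] at this
        linarith
      exact measure_eq_zero_iff_ae_notMem.2 hae
    rw [measureReal_def, h2]
    simp [Real.exp_nonneg]

theorem E1_le (hX : Iid X) {μ : Seminorm ℝ (ℝ × ℝ)} (K1 κ0 c0 N0 n Cn : ℝ)
    (hCn : 0 < Cn) (hnorm : ∀ x : ℝ × ℝ, μ x ≤ Cn * max |x.1| |x.2|)
    (hK : K1 = 1 + 26 * Cn)
    (h0 : 0 ≤ κ0) (h1 : κ0 < 1) (hn : 0 < n) (hc0 : 0 < c0)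
    (hLS : ∀ v : ℤ × ℤ, N0 ≤ μ (em v) →
      (volume : Measure Ω).real {ω | D (env X ω) 0 v < μ (em v) - μ (em v) ^ (1 - κ0)} ≤
        Real.exp (-(μ (em v) ^ c0)))
    (hN : N0 ≤ n ^ (1 - κ0)) (v : ℤ × ℤ) (hv : μ (em v) = n) (R : ℕ) (hR : (R : ℝ) ≤ 26 * n) :
    (volume : Measure Ω).real {ω | ∃ z ∈ Bx R, D (env X ω) 0 z < μ (em z) - K1 * n ^ (1 - κ0) ∨
      D (env X ω) z v < μ (em (v - z)) - K1 * n ^ (1 - κ0)} ≤
      2 * (2 * (R : ℝ) + 1) ^ 2 * Real.exp (-((n ^ (1 - κ0)) ^ c0)) := by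
  have hK1 : 1 ≤ K1 := by rw [hK]; linarith
  have hb : ∀ z ∈ Bx R, μ (em z) ≤ 26 * Cn * n := by
    intro z hz
    rw [mem_Bx] at hz
    refine (hnorm _).trans ?_
    have h2 : max |(em z).1| |(em z).2| ≤ 26 * n := by
      refine max_le ?_ ?_
      · have : |(z.1 : ℝ)| ≤ R := by exact_mod_cast hz.1
        exact this.trans hR
      · have : |(z.2 : ℝ)| ≤ R := by exact_mod_cast hz.2
        exact this.trans hR
    calc Cn * max |(em z).1| |(em z).2| ≤ Cn * (26 * n) := by gcongr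
      _ = _ := by ring
  have e : {ω | ∃ z ∈ Bx R, D (env X ω) 0 z < μ (em z) - K1 * n ^ (1 - κ0) ∨
      D (env X ω) z v < μ (em (v - z)) - K1 * n ^ (1 - κ0)} ⊆
      (⋃ z ∈ Bx R, {ω | D (env X ω) 0 z < μ (em z) - K1 * n ^ (1 - κ0)}) ∪
      (⋃ z ∈ Bx R, {ω | D (env X ω) z v < μ (em (v - z)) - K1 * n ^ (1 - κ0)}) := by
    rintro ω ⟨z, hz, h | h⟩
    · exact Or.inl (mem_iUnion₂.2 ⟨z, hz, h⟩)
    · exact Or.inr (mem_iUnion₂.2 ⟨z, hz, h⟩)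
  refine (measureReal_mono e (measure_ne_top _ _)).trans ((measureReal_union_le _ _).trans ?_)
  have p1 : (volume : Measure Ω).real
      (⋃ z ∈ Bx R, {ω | D (env X ω) 0 z < μ (em z) - K1 * n ^ (1 - κ0)}) ≤
      (2 * (R : ℝ) + 1) ^ 2 * Real.exp (-((n ^ (1 - κ0)) ^ c0)) := by
    refine (measureReal_biUnion_finset_le _ _).trans ?_
    refine (Finset.sum_le_card_nsmul _ _ (Real.exp (-((n ^ (1 - κ0)) ^ c0))) fun z hz => ?_).trans ?_
    · refine low hX K1 κ0 c0 N0 n hK1 h0 h1 hn hc0 hLS hN z ?_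
      have := hb z hz
      rw [hK]; linarith
    · rw [nsmul_eq_mul, card_Bx]
  have p2 : (volume : Measure Ω).real
      (⋃ z ∈ Bx R, {ω | D (env X ω) z v < μ (em (v - z)) - K1 * n ^ (1 - κ0)}) ≤
      (2 * (R : ℝ) + 1) ^ 2 * Real.exp (-((n ^ (1 - κ0)) ^ c0)) := by
    refine (measureReal_biUnion_finset_le _ _).trans ?_
    refine (Finset.sum_le_card_nsmul _ _ (Real.exp (-((n ^ (1 - κ0)) ^ c0))) fun z hz => ?_).trans ?_
    · rw [law_lt hX]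
      refine low hX K1 κ0 c0 N0 n hK1 h0 h1 hn hc0 hLS hN (v - z) ?_
      have h2 := hb z hz
      have h3 : μ (em (v - z)) ≤ μ (em v) + μ (em z) := by
        rw [em_sub]; exact map_sub_le_add μ _ _
      rw [hK]; linarith
    · rw [nsmul_eq_mul, card_Bx]
  linarith

theorem E2_le (hX : Iid X) {μ : Seminorm ℝ (ℝ × ℝ)} (φ : (ℝ × ℝ) →ₗ[ℝ] ℝ) (hφ : ∀ x, φ x ≤ μ x)
    (κ0 c0 N0 m C : ℝ) (h0 : 0 ≤ κ0) (h1 : κ0 < 1) (hc0 : 0 < c0) (hC : 0 < C)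
    (hLS : ∀ v : ℤ × ℤ, N0 ≤ μ (em v) →
      (volume : Measure Ω).real {ω | D (env X ω) 0 v < μ (em v) - μ (em v) ^ (1 - κ0)} ≤
        Real.exp (-(μ (em v) ^ c0)))
    (hm1 : 1 ≤ m - 2 * C) (hN : N0 ≤ m - 2 * C) (R : ℕ) :
    (volume : Measure Ω).real {ω | ∃ a ∈ Bx R, ∃ b ∈ Bx R, m - 2 * C ≤ φ (em (b - a)) ∧
      φ (em (b - a)) ≤ m ∧ D (env X ω) a b < φ (em (b - a)) - m ^ (1 - κ0)} ≤
      (2 * (R : ℝ) + 1) ^ 4 * Real.exp (-((m - 2 * C) ^ c0)) := by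
  classical
  have hm : 1 ≤ m := by linarith
  obtain ⟨Q, hQ⟩ : ∃ Q : Finset ((ℤ × ℤ) × (ℤ × ℤ)), Q = (Bx R ×ˢ Bx R).filter
    (fun q => m - 2 * C ≤ φ (em (q.2 - q.1)) ∧ φ (em (q.2 - q.1)) ≤ m) := ⟨_, rfl⟩
  have hcard : (Q.card : ℝ) ≤ (2 * (R : ℝ) + 1) ^ 4 := by
    have h2 : Q.card ≤ (Bx R ×ˢ Bx R).card := by rw [hQ]; exact Finset.card_filter_le _ _
    rw [Finset.card_product] at h2
    calc (Q.card : ℝ) ≤ ((Bx R).card : ℝ) * ((Bx R).card : ℝ) := by exact_mod_cast h2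
      _ = (2 * (R : ℝ) + 1) ^ 4 := by rw [card_Bx]; ring
  have e : {ω | ∃ a ∈ Bx R, ∃ b ∈ Bx R, m - 2 * C ≤ φ (em (b - a)) ∧
      φ (em (b - a)) ≤ m ∧ D (env X ω) a b < φ (em (b - a)) - m ^ (1 - κ0)} ⊆
      ⋃ q ∈ Q, {ω | D (env X ω) q.1 q.2 < φ (em (q.2 - q.1)) - m ^ (1 - κ0)} := by
    rintro ω ⟨a, ha, b, hb, h2, h3, h4⟩
    refine mem_iUnion₂.2 ⟨(a, b), ?_, h4⟩
    rw [hQ]
    exact Finset.mem_filter.2 ⟨Finset.mem_product.2 ⟨ha, hb⟩, h2, h3⟩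
  refine (measureReal_mono e (measure_ne_top _ _)).trans ?_
  refine (measureReal_biUnion_finset_le _ _).trans ?_
  refine (Finset.sum_le_card_nsmul _ _ (Real.exp (-((m - 2 * C) ^ c0))) fun q hq => ?_).trans ?_
  · rw [hQ] at hq
    obtain ⟨-, h2, h3⟩ := Finset.mem_filter.1 hq
    rw [law_lt hX]
    have h4 : m - 2 * C ≤ μ (em (q.2 - q.1)) := h2.trans (hφ _)
    refine le_trans (measureReal_mono (fun ω hω => ?_) (measure_ne_top _ _))
      ((hLS (q.2 - q.1) (hN.trans h4)).trans (Real.exp_le_exp.2 ?_))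
    · have h5 : D (env X ω) 0 (q.2 - q.1) < φ (em (q.2 - q.1)) - m ^ (1 - κ0) := hω
      show D (env X ω) 0 (q.2 - q.1) < μ (em (q.2 - q.1)) - μ (em (q.2 - q.1)) ^ (1 - κ0)
      have h6 : φ (em (q.2 - q.1)) - m ^ (1 - κ0) ≤
          μ (em (q.2 - q.1)) - μ (em (q.2 - q.1)) ^ (1 - κ0) := by
        rcases le_total (μ (em (q.2 - q.1))) m with h7 | h7
        · have h8 : μ (em (q.2 - q.1)) ^ (1 - κ0) ≤ m ^ (1 - κ0) :=
            Real.rpow_le_rpow (apply_nonneg μ _) h7 (by linarith)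
          have := hφ (em (q.2 - q.1))
          linarith
        · have := sub_pow_mono _ m (1 - κ0) hm h7 (by linarith)
          linarith
      linarith
    · have := Real.rpow_le_rpow (by linarith) h4 hc0.le
      linarith
  · rw [nsmul_eq_mul]
    gcongr

theorem BB_union (φ ψ : (ℝ × ℝ) →ₗ[ℝ] ℝ) (m C r w q : ℝ) (K : Finset (ℝ × ℝ))
    (h : ∀ c ∈ K, (volume : Measure Ω).real {ω | BB φ ψ m C r w {c} (env X ω) 0} ≤ q) :
    (volume : Measure Ω).real {ω | BB φ ψ m C r w K (env X ω) 0} ≤ K.card * q := by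
  have e : {ω | BB φ ψ m C r w K (env X ω) 0} ⊆
      ⋃ c ∈ K, {ω | BB φ ψ m C r w {c} (env X ω) 0} := by
    rintro ω ⟨c, hc, h2⟩
    exact mem_iUnion₂.2 ⟨c, hc, c, Finset.mem_singleton_self c, h2⟩
  refine (measureReal_mono e (measure_ne_top _ _)).trans ?_
  refine (measureReal_biUnion_finset_le _ _).trans ?_
  refine (Finset.sum_le_card_nsmul _ _ q h).trans (le_of_eq ?_)
  rw [nsmul_eq_mul]

theorem Ks_bd (Y l : ℝ) (P : ℕ) (hY : 0 ≤ Y) (hl : 0 < l) (hP : l * P ≤ 3) (c : ℝ × ℝ)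
    (hc : c ∈ Ks Y l P) : |c.1| ≤ 2 * Y ∧ |c.2| ≤ 2 * Y := by
  classical
  unfold Ks at hc
  obtain ⟨q, hq, rfl⟩ := Finset.mem_image.1 hc
  rw [Finset.mem_product, Finset.mem_range, Finset.mem_range] at hq
  have key : ∀ i : ℕ, i < P + 1 → |-Y + (i : ℝ) * (l * Y)| ≤ 2 * Y := by
    intro i hi
    have h1 : (i : ℝ) ≤ P := by exact_mod_cast Nat.lt_succ_iff.1 hi
    have h2 : (i : ℝ) * (l * Y) ≤ 3 * Y := by
      calc (i : ℝ) * (l * Y) ≤ P * (l * Y) := by gcongr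
        _ = (l * P) * Y := by ring
        _ ≤ 3 * Y := by gcongr
    have h3 : 0 ≤ (i : ℝ) * (l * Y) := by positivity
    rw [abs_le]
    constructor <;> linarith
  exact ⟨key _ hq.1, key _ hq.2⟩

theorem step (hX : Iid X) {μ : Seminorm ℝ (ℝ × ℝ)}
    (hG : Good (fun ω v => D (env X ω) 0 v) μ) (κ0 κ A d : ℝ) (h0 : 0 ≤ κ0) (h01 : κ0 < κ)
    (h1 : κ < 1) (hA : 0 < A) (hd : 0 < d)
    (hUP : ∀ v : ℤ × ℤ, (volume : Measure Ω).real
      {ω | μ (em v) + A * (1 + μ (em v)) ^ (1 - κ) ≤ D (env X ω) 0 v} ≤ Real.exp (-(1 + d)))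
    (hLS : LS X μ κ0) : LS X μ (κ0 + (κ - κ0) * (1 - κ0) / 128) := by
  classical
  obtain ⟨C, hC⟩ := exists_Ct μ hG.norm
  obtain ⟨cm, Cn, hcm, hCn, hnorm⟩ := cNORM μ hG.norm
  obtain ⟨c0, N0, hc0, hL0⟩ := hLS
  have hC0 := hC.pos
  obtain ⟨K1, hK⟩ : ∃ K1, K1 = 1 + 26 * Cn := ⟨_, rfl⟩
  have hK1 : 1 ≤ K1 := by rw [hK]; linarith
  obtain ⟨c1, hc1, hev⟩ := asym C K1 cm A d N0 c0 κ0 κ hC0 hK1 hcm hA hd hc0 h0 h01 h1
  obtain ⟨N, hN⟩ := eventually_atTop.1 hev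
  refine ⟨c1, N, hc1, fun v hv => ?_⟩
  obtain ⟨n, hn⟩ : ∃ n, n = μ (em v) := ⟨_, rfl⟩
  rw [← hn] at hv ⊢
  obtain ⟨L, R, P, M, k, m, l, r, ρ, t, ⟨a1, a2, a3, a4, a5, a6, a7, a8, a9, a10, a11, a12⟩, b1, b2,
    b3, b4, b5, b6, b7, b8, b9, b10, b11, b12, b13⟩ := hN n hv
  have hv0 : em v ≠ 0 := by
    intro h
    rw [h, map_zero] at hn
    linarith
  obtain ⟨φ, ψ, u, τ, hF, hvu⟩ := exists_frame μ hG.norm (em v) hv0
  rw [← hn] at hvu
  obtain ⟨B0, hB0⟩ : ∃ B0, B0 = K1 * n ^ (1 - κ0) := ⟨_, rfl⟩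
  have hB00 : 0 < B0 := by
    rw [hB0]; have := Real.rpow_pos_of_pos a1 (1 - κ0); positivity
  obtain ⟨Y, hY0, hYle, hY1, hY2⟩ := exists_width hF (2 * B0) (n + B0) (by linarith) (by linarith)
  have hE1 := E1_le hX K1 κ0 c0 N0 n Cn hCn (fun x => (hnorm x).2) hK h0 (by linarith) a1 hc0 hL0
    b10 v hn.symm R a5
  have hE2 := E2_le hX φ hF.le κ0 c0 N0 m C h0 (by linarith) hc0 hC0 hL0 b11 b12 R
  rw [← hB0] at hE1 b2 b3 b4 b8
  have hm0 : 0 < m := by linarith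
  have hMpos : (0 : ℝ) < M := by exact_mod_cast a12
  -- the estimates at scale `t`
  obtain ⟨W, hW⟩ : ∃ W, W = A * (1 + 2 * t) ^ (1 - κ) := ⟨_, rfl⟩
  rw [← hW] at b5 b6 b7
  have hrad : ∀ z : ℤ × ℤ, μ (em z) ≤ 2 * t →
      0 < A * (1 + μ (em z)) ^ (1 - κ) ∧ A * (1 + μ (em z)) ^ (1 - κ) ≤ W := by
    intro z hz
    refine ⟨pos μ z A κ hA, ?_⟩
    rw [hW]
    have := apply_nonneg μ (em z)
    gcongr
  have hU : ∀ z : ℤ × ℤ, μ (em z) ≤ 2 * t →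
      (volume : Measure Ω).real {ω | μ (em z) + ρ ≤ D (env X ω) 0 z} ≤
        Real.exp (-(d * ρ / W)) := by
    intro z hz
    obtain ⟨r1, r2⟩ := hrad z hz
    obtain ⟨w, hw⟩ : ∃ w, w = A * (1 + μ (em z)) ^ (1 - κ) := ⟨_, rfl⟩
    have h2 := hUP z
    rw [← hw] at r1 r2 h2
    have h3 := (hG.one z w d r1 hd h2).1 (ρ - w) (by linarith)
    have e1 : μ (em z) + w + (ρ - w) = μ (em z) + ρ := by ring
    rw [e1] at h3
    refine h3.trans (Real.exp_le_exp.2 ?_)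
    have h4 : d * (ρ - w) / w = d * ρ / w - d := by field_simp
    have h5 : d * ρ / W ≤ d * ρ / w := by
      apply div_le_div_of_nonneg_left _ r1 r2
      positivity
    linarith
  have hT : ∀ z : ℤ × ℤ, μ (em z) ≤ 2 * t →
      (volume : Measure Ω).real {ω | ρ ≤ |D (env X ω) 0 z - μ (em z)|} ≤ 1 / 4 := by
    intro z hz
    obtain ⟨r1, r2⟩ := hrad z hz
    obtain ⟨w, hw⟩ : ∃ w, w = A * (1 + μ (em z)) ^ (1 - κ) := ⟨_, rfl⟩
    have h2 := hUP z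
    rw [← hw] at r1 r2 h2
    have h3 := (hG.one z w d r1 hd h2).2
    refine (mk _ (hG.int z) (μ (em z)) ρ a10).trans ?_
    refine le_trans ?_ b6
    refine div_le_div_of_nonneg_right (h3.trans ?_) a10.le
    have : 0 ≤ 2 * (1 + 1 / d) := by positivity
    exact mul_le_mul_of_nonneg_left r2 this
  have ht0 : 0 ≤ t := by linarith
  obtain ⟨Q, hQ⟩ : ∃ Q : ℕ, Q = ⌈2 * t / cm⌉₊ := ⟨_, rfl⟩
  have hQ1 : 2 * t / cm ≤ Q := by rw [hQ]; exact Nat.le_ceil _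
  have hQ2 : (Q : ℝ) ≤ 2 * t / cm + 1 := by
    have := Nat.ceil_lt_add_one (show 0 ≤ 2 * t / cm by positivity)
    rw [← hQ] at this
    exact this.le
  obtain ⟨F, hFd⟩ : ∃ F : Finset (ℤ × ℤ), F = (Bx Q).filter (fun z => μ (em z) ≤ 2 * t) := ⟨_, rfl⟩
  have hFc : ∀ z : ℤ × ℤ, μ (em z) ≤ 2 * t → z ∈ F := by
    intro z hz
    rw [hFd]
    refine Finset.mem_filter.2 ⟨?_, hz⟩
    rw [mem_Bx]
    have h2 := (hnorm (em z)).1.trans hz
    have h3 : max |(em z).1| |(em z).2| ≤ Q := by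
      refine le_trans ?_ hQ1
      rw [le_div_iff₀ hcm, mul_comm]; exact h2
    have h4 : |(z.1 : ℝ)| ≤ Q := (le_max_left _ _).trans h3
    have h5 : |(z.2 : ℝ)| ≤ Q := (le_max_right _ _).trans h3
    exact ⟨by exact_mod_cast h4, by exact_mod_cast h5⟩
  have hFm : ∀ z ∈ F, μ (em z) ≤ 2 * t := by
    intro z hz
    rw [hFd] at hz
    exact (Finset.mem_filter.1 hz).2
  have hFU : (F.card : ℝ) * Real.exp (-(d * ρ / W)) ≤ 1 / 8 := by
    refine le_trans ?_ b7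
    refine mul_le_mul_of_nonneg_right ?_ (Real.exp_nonneg _)
    have h2 : (F.card : ℝ) ≤ ((Bx Q).card : ℝ) := by
      rw [hFd]; exact_mod_cast Finset.card_filter_le _ _
    rw [card_Bx] at h2
    refine h2.trans ?_
    have h3 : 2 * (Q : ℝ) + 1 ≤ 4 * t / cm + 3 := by
      have : 4 * t / cm = 2 * (2 * t / cm) := by ring
      linarith
    exact pow_le_pow_left₀ (by positivity) h3 2
  have hcls : ∀ c ∈ Ks Y l P, (volume : Measure Ω).real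
      {ω | BB φ ψ m C r (l * Y + 2 * C) {c} (env X ω) 0} ≤ 1 / M := by
    intro c hc
    obtain ⟨k1, k2⟩ := Ks_bd Y l P hY0 a6 a9 c hc
    rw [le_div_iff₀ hMpos, mul_comm]
    refine typ hX hC hF (2 * B0) (n + B0) Y l (by linarith) (by linarith) a6.le a7 hY0 hY2 m t ρ r
      (Real.exp (-(d * ρ / W))) M c hm0 a10 b2 b3 ?_ hU hT F hFc hFm hFU b8
    linarith
  have hL : L * (volume : Measure Ω).real
      {ω | BB φ ψ m C r (l * Y + 2 * C) (Ks Y l P) (env X ω) 0} ≤ 1 / 2 := by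
    have h2 := BB_union (X := X) φ ψ m C r (l * Y + 2 * C) (1 / M) (Ks Y l P) hcls
    have h3 : ((Ks Y l P).card : ℝ) ≤ ((P : ℝ) + 1) ^ 2 := by
      have := card_Ks Y l P
      exact_mod_cast this
    refine le_trans ?_ b9
    refine mul_le_mul_of_nonneg_left (h2.trans ?_) (Nat.cast_nonneg L)
    rw [mul_one_div]
    exact div_le_div_of_nonneg_right h3 hMpos.le
  have hfin := main_scale hX hC hF v n hvu a1 L m a2 a3 R a4 B0 Y l a6 hY1 P a8 r a11 k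
    (m ^ (1 - κ0)) (n ^ (1 - (κ0 + (κ - κ0) * (1 - κ0) / 128)))
    (Real.rpow_nonneg hm0.le _) b1 _ _ hL hE1 hE2
  exact hfin.trans b13

end

end Pool.Agent.V7H97.FO
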