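import Pool.Agent.V7H97.FO.Chain

/-!
# Two parallel chains
-/

set_option autoImplicit false

open MeasureTheory ProbabilityTheory Filter Set
open scoped Pointwise Topology

namespace Pool.Agent.V7H97.FO

open Pool.Agent.N662.FP

/-- the tube around the line with second coordinate `a` -/
def Tb (ψ : (ℝ × ℝ) →ₗ[ℝ] ℝ) (W a : ℝ) : Set (ℤ × ℤ) := {y | |ψ (em y) - a| ≤ W}

section
variable {Ω : Type} [MeasureSpace Ω] [IsProbabilityMeasure (volume : Measure Ω)]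
variable {X : Sym2 (ℤ × ℤ) → Ω → ℝ}

theorem fluct_one (hX : Iid X) {μ : Seminorm ℝ (ℝ × ℝ)}
    (hG : Good (fun ω v => D (env X ω) 0 v) μ) {C : ℝ} (hC : Ct μ C)
    {φ ψ : (ℝ × ℝ) →ₗ[ℝ] ℝ} {u τ : ℝ × ℝ} (hF : Fr μ φ ψ u τ) (v : ℤ × ℤ) (n : ℝ)
    (hv : em v = n • u) (hn : 0 ≤ n) (k : ℕ) (m S : ℝ) (hm : 0 < m)
    (hkm : (k : ℝ) * m + 2 * (3 * S) = n) (B Y B0 a1 L p1 p2 r U Eg E2 : ℝ) (R : ℕ)
    (hlow : ∀ y ∈ Bx R, (volume : Measure Ω).real {ω | D (env X ω) 0 y < μ (em y) - B0} ≤ p1)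
    (hlow2 : ∀ w : ℤ × ℤ, μ (em w - m • u) ≤ 2 * C → ∀ y ∈ Bx R, (volume : Measure Ω).real
      {ω | D (env X ω) 0 (w - y) < μ (em (w - y)) - B0} ≤ p1)
    (hup : ∀ w : ℤ × ℤ, μ (em w - m • u) ≤ 2 * C →
      (volume : Measure Ω).real {ω | μ (em w) + a1 < D (env X ω) 0 w} ≤ p2)
    (hUP : ∀ w : ℤ × ℤ, μ (em w - m • u) ≤ 2 * C →
      (volume : Measure Ω).real {ω | μ (em w) + r ≤ D (env X ω) 0 w} ≤ Real.exp (-(1 + 1)))
    (hr : 0 < r) (hR : 25 * (m + 2 * C + a1 + 1) ≤ R)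
    (hS : m + 2 * C + a1 + 1 + B0 ≤ S) (hB : 2 * B0 + a1 + 1 + 8 * C ≤ B) (hB0 : 0 ≤ B0)
    (ha1 : 0 ≤ a1)
    (hYle : Y ≤ B + 2 * S)
    (hY : ∀ y : ℝ, df μ φ (S • u + y • τ) ≤ B → df μ φ (S • u + (-y) • τ) ≤ B →
      |y| ≤ Y)
    (hJ : ∀ (S' l y : ℝ), S ≤ S' → 0 ≤ l → l ≤ 1 → |y| ≤ l * Y →
      df μ φ (S' • u + y • τ) ≤ l * B)
    (hL : m + 2 * C + a1 ≤ L) (hL1 : m + 2 * C + 1 ≤ L)
    (hμmt : ∀ w, μ (em w) ≤ mt X w) (hU : 9 * S + 3 * B + C ≤ U)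
    (hEg : ∀ w, μ (em w) ≤ U → mt X w ≤ μ (em w) + Eg)
    (hE2 : ∀ w, μ (em w) ≤ U → ∫ ω, |D (env X ω) 0 w - μ (em w)| ∂(volume : Measure Ω) ≤ E2) :
    ∃ b : ℝ, ∫ ω, |D (env X ω) 0 v - b| ∂(volume : Measure Ω) ≤
      3 * ((6 * B + 4 * C + 4 * C * k + (k + 2) * Eg) + 2 * E2 +
        k * (L * ((1 / 2) ^ R + (2 * (R : ℝ) + 1) ^ 2 * (2 * p1) + p2) +
        (∑' j : ℕ, (2 * (j : ℝ) + 1) * Real.exp (-1) ^ j) * r ^ 2 / (L - (m + 2 * C)))) := by
  have hC0 := hC.pos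
  choose rd hrd using hC.round
  obtain ⟨Cd, hCd⟩ : ∃ Cd, Cd = ∑' j : ℕ, (2 * (j : ℝ) + 1) * Real.exp (-1) ^ j := ⟨_, rfl⟩
  have hCd0 : 0 ≤ Cd := by
    rw [hCd]; exact tsum_nonneg fun k => by positivity
  rw [← hCd]
  obtain ⟨E3, hE3⟩ : ∃ E3, E3 = L * ((1 / 2) ^ R + (2 * (R : ℝ) + 1) ^ 2 * (2 * p1) + p2) +
        Cd * r ^ 2 / (L - (m + 2 * C)) := ⟨_, rfl⟩
  rw [← hE3]
  have hB1 : 0 < B := by linarith
  -- the width is large
  have hYB : B ≤ Y := by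
    have h1 : df μ φ (S • u + B • τ) ≤ B := by
      refine (df_add _ _).trans ?_
      rw [df_u hF _ (by linarith), df_t hF, abs_of_pos hB1]
      linarith
    have h2 : df μ φ (S • u + (-B) • τ) ≤ B := by
      refine (df_add _ _).trans ?_
      rw [df_u hF _ (by linarith), df_t hF, abs_neg, abs_of_pos hB1]
      linarith
    have := hY B h1 h2
    exact (le_abs_self B).trans this
  have hY0 : 0 < Y := by linarith
  -- shift cost
  have hsh : ∀ t : ℝ, |t| ≤ Y → df μ φ ((3 * S) • u + (3 * t) • τ) ≤ 3 * B := by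
    intro t ht
    have e1 : (3 * S) • u + (3 * t) • τ = (3 : ℝ) • (S • u + t • τ) := by
      rw [smul_add, smul_smul, smul_smul]
    rw [e1, df_smul 3 (by norm_num)]
    have := hJ S 1 t le_rfl zero_le_one le_rfl (by rw [one_mul]; exact ht)
    linarith
  -- the chains
  obtain ⟨Z, hZ⟩ : ∃ Z : ℝ → ℕ → ℤ × ℤ, Z = fun (a : ℝ) (i : ℕ) =>
      rd ((3 * S + (i : ℝ) * m) • u + a • τ) := ⟨_, rfl⟩
  have hZC : ∀ a i, μ (em (Z a i) - ((3 * S + (i : ℝ) * m) • u + a • τ)) ≤ C := by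
    intro a i
    rw [hZ]
    exact hrd _
  have hψZ : ∀ a i, |ψ (em (Z a i)) - a| ≤ 2 * C := by
    intro a i
    have h1 := hF.abs_ps (em (Z a i) - ((3 * S + (i : ℝ) * m) • u + a • τ))
    rw [map_sub, map_add, map_smul, map_smul, hF.pu, hF.pt, smul_zero, zero_add, smul_eq_mul,
      mul_one] at h1
    have := hZC a i
    linarith
  have hw : ∀ a i, μ (em (Z a (i + 1) - Z a i) - m • u) ≤ 2 * C := by
    intro a i
    have e1 : em (Z a (i + 1) - Z a i) - m • u =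
        (em (Z a (i + 1)) - ((3 * S + ((i + 1 : ℕ) : ℝ) * m) • u + a • τ)) -
          (em (Z a i) - ((3 * S + (i : ℝ) * m) • u + a • τ)) := by
      rw [em_sub]
      push_cast
      module
    rw [e1]
    refine (map_sub_le_add μ _ _).trans ?_
    linarith [hZC a i, hZC a (i + 1)]
  have hμw : ∀ w : ℤ × ℤ, μ (em w - m • u) ≤ 2 * C → μ (em w) ≤ m + 2 * C := by
    intro w h
    have e1 : em w = m • u + (em w - m • u) := by abel
    rw [e1]
    refine (map_add_le_add μ _ _).trans ?_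
    rw [map_smul_eq_mul, hF.mu, mul_one, Real.norm_eq_abs, abs_of_pos hm]
    linarith
  obtain ⟨F, hFd⟩ : ∃ F : ℝ → ℕ → Ω → ℝ, F = fun a i ω =>
      min (D (rx (Tb ψ (Y + 2 * C) a) L (env X ω)) (Z a i) (Z a (i + 1))) L := ⟨_, rfl⟩
  have hblock : ∀ a i, Integrable (F a i) (volume : Measure Ω) ∧
      ∫ ω, |D (env X ω) (Z a i) (Z a (i + 1)) - F a i ω| ∂(volume : Measure Ω) ≤ E3 := by
    intro a i
    have h1 := hw a i
    have h2 := hμw _ h1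
    have h3 := block_L1 hX hG hC0 hF (Z a i) (Z a (i + 1) - Z a i) m S B Y B0 a1 a L p1 p2 r R
      hm.le h1 hlow (hlow2 _ h1) (hup _ h1) (by linarith) (by linarith) hB hY (hψZ a i)
      (by linarith) (by linarith) hr (hUP _ h1)
    rw [add_sub_cancel] at h3
    obtain ⟨h4, h5⟩ := h3
    refine ⟨by rw [hFd]; exact h4, ?_⟩
    have h6 : ∫ ω, |D (env X ω) (Z a i) (Z a (i + 1)) - F a i ω| ∂(volume : Measure Ω) ≤
        L * ((1 / 2) ^ R + (2 * (R : ℝ) + 1) ^ 2 * (2 * p1) + p2) +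
        Cd * r ^ 2 / (L - μ (em (Z a (i + 1) - Z a i))) := by
      rw [hFd, hCd]; exact h5
    refine h6.trans ?_
    rw [hE3]
    have h7 : Cd * r ^ 2 / (L - μ (em (Z a (i + 1) - Z a i))) ≤
        Cd * r ^ 2 / (L - (m + 2 * C)) :=
      div_le_div_of_nonneg_left (by positivity) (by linarith) (by linarith)
    linarith
  obtain ⟨c, hc⟩ : ∃ c : ℝ → ℝ, c = fun a => μ (em (Z a 0)) + μ (em (v - Z a k)) := ⟨_, rfl⟩
  obtain ⟨Fs, hFs⟩ : ∃ Fs : ℝ → Ω → ℝ, Fs = fun a ω => ∑ i ∈ Finset.range k, F a i ω := ⟨_, rfl⟩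
  obtain ⟨Δ, hΔ⟩ : ∃ Δ, Δ = (6 * B + 4 * C + 4 * C * k + (k + 2) * Eg) + 2 * E2 + k * E3 :=
    ⟨_, rfl⟩
  rw [← hΔ]
  have hchain : ∀ t : ℝ, |t| ≤ Y → ∫ ω, |D (env X ω) 0 v - (c (3 * t) + Fs (3 * t) ω)|
      ∂(volume : Measure Ω) ≤ Δ := by
    intro t ht
    have h1 := hsh t ht
    have h2 := hsh (-t) (by rw [abs_neg]; exact ht)
    have e1 : 3 * -t = -(3 * t) := by ring
    rw [e1] at h2
    have h3 := chain_L1 hX hC0 hF v n hv hn k m (3 * S) (3 * t) hm.le (by linarith) hkm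
      (Z (3 * t)) (hZC (3 * t)) (3 * B) h1 h2 hμmt U Eg E2 E3 (by
        rw [abs_mul, abs_of_pos (show (0 : ℝ) < 3 by norm_num)]
        linarith) (by linarith) hEg hE2 (F (3 * t)) (fun i _ => (hblock _ i).1)
      (fun i _ => (hblock _ i).2)
    rw [hc, hFs, hΔ]
    refine h3.trans (le_of_eq ?_)
    ring
  have h0 := hchain 0 (by rw [abs_zero]; exact hY0.le)
  have h1 := hchain Y (by rw [abs_of_pos hY0])
  rw [mul_zero] at h0
  -- independence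
  have hFsi : ∀ a, Integrable (Fs a) (volume : Measure Ω) := by
    intro a
    rw [hFs]
    exact integrable_finsetSum _ fun i _ => (hblock a i).1
  have hL0 : 0 ≤ L := by linarith
  obtain ⟨ms, hms⟩ : ∃ ms : ℝ → MeasurableSpace Ω, ms = fun a =>
      ⨆ e ∈ Ed (Tb ψ (Y + 2 * C) a), MeasurableSpace.comap (X e) inferInstance := ⟨_, rfl⟩
  have hmeas : ∀ a, Measurable[ms a] (Fs a) := by
    intro a
    rw [hFs]
    refine Finset.measurable_fun_sum _ fun i _ => ?_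
    rw [hFd]
    refine Measurable.min (D_rx_meas (ms a) X (Tb ψ (Y + 2 * C) a) L hL0 (fun e he => ?_) _ _)
      measurable_const
    rw [measurable_iff_comap_le, hms]
    exact le_biSup (fun e => MeasurableSpace.comap (X e) inferInstance) he
  have hle : ∀ e, MeasurableSpace.comap (X e) inferInstance ≤ (inferInstance : MeasurableSpace Ω) :=
    fun e => (hX.meas e).comap_le
  have hmle : ∀ a, ms a ≤ (inferInstance : MeasurableSpace Ω) := by
    intro a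
    rw [hms]
    exact iSup₂_le fun e _ => hle e
  have hdis : Disjoint (Ed (Tb ψ (Y + 2 * C) 0)) (Ed (Tb ψ (Y + 2 * C) (3 * Y))) := by
    refine Ed_disjoint (Set.disjoint_left.2 fun y h2 h3 => ?_)
    have h2' : |ψ (em y) - 0| ≤ Y + 2 * C := h2
    have h3' : |ψ (em y) - 3 * Y| ≤ Y + 2 * C := h3
    have := (abs_le.1 h2').2
    have := (abs_le.1 h3').1
    linarith
  have hind : Indep (ms 0) (ms (3 * Y)) (volume : Measure Ω) := by
    rw [hms]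
    exact indep_iSup_of_disjoint hle ((iIndepFun_iff_iIndep _ _ _).1 hX.ind) hdis
  obtain ⟨b, hb⟩ := indep_L1 (ms 0) (ms (3 * Y)) (hmle 0) (hmle _) hind (Fs 0) (Fs (3 * Y))
    (hmeas 0) (hmeas _) (hFsi 0) (hFsi _) (c (3 * Y) - c 0)
  have hDi : Integrable (fun ω => D (env X ω) 0 v) (volume : Measure Ω) := cINT Ω X hX 0 v
  have g0 : Integrable (fun ω => |D (env X ω) 0 v - (c 0 + Fs 0 ω)|) (volume : Measure Ω) :=
    (hDi.sub ((integrable_const _).add (hFsi 0))).abs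
  have g1 : Integrable (fun ω => |D (env X ω) 0 v - (c (3 * Y) + Fs (3 * Y) ω)|)
      (volume : Measure Ω) := (hDi.sub ((integrable_const _).add (hFsi _))).abs
  have hdiff : ∫ ω, |Fs 0 ω - Fs (3 * Y) ω - (c (3 * Y) - c 0)| ∂(volume : Measure Ω) ≤ 2 * Δ := by
    have h2 : ∫ ω, |Fs 0 ω - Fs (3 * Y) ω - (c (3 * Y) - c 0)| ∂(volume : Measure Ω) ≤
        ∫ ω, (|D (env X ω) 0 v - (c 0 + Fs 0 ω)| +
          |D (env X ω) 0 v - (c (3 * Y) + Fs (3 * Y) ω)|) ∂(volume : Measure Ω) := by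
      refine integral_mono (((hFsi 0).sub (hFsi _)).sub (integrable_const _)).abs (g0.add g1)
        fun ω => ?_
      show |Fs 0 ω - Fs (3 * Y) ω - (c (3 * Y) - c 0)| ≤ _
      have e1 : Fs 0 ω - Fs (3 * Y) ω - (c (3 * Y) - c 0) =
          (D (env X ω) 0 v - (c (3 * Y) + Fs (3 * Y) ω)) - (D (env X ω) 0 v - (c 0 + Fs 0 ω)) := by
        ring
      rw [e1]
      refine (abs_sub _ _).trans (le_of_eq ?_)
      exact add_comm _ _
    rw [integral_add g0 g1] at h2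
    linarith
  have hb2 := hb.trans hdiff
  refine ⟨c 0 + b, ?_⟩
  have g2 : Integrable (fun ω => |Fs 0 ω - b|) (volume : Measure Ω) :=
    ((hFsi 0).sub (integrable_const _)).abs
  have h2 : ∫ ω, |D (env X ω) 0 v - (c 0 + b)| ∂(volume : Measure Ω) ≤
      ∫ ω, (|D (env X ω) 0 v - (c 0 + Fs 0 ω)| + |Fs 0 ω - b|) ∂(volume : Measure Ω) := by
    refine integral_mono (hDi.sub (integrable_const _)).abs (g0.add g2) fun ω => ?_
    show |D (env X ω) 0 v - (c 0 + b)| ≤ _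
    have e1 : D (env X ω) 0 v - (c 0 + b) =
        (D (env X ω) 0 v - (c 0 + Fs 0 ω)) + (Fs 0 ω - b) := by ring
    rw [e1]
    exact abs_add_le _ _
  rw [integral_add g0 g2] at h2
  linarith

end

end Pool.Agent.V7H97.FO
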