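import Pool.Agent.V7H97.FO.Path

/-!
# Fast crossings are unlikely: comparison with a typical passage time at a larger scale
-/

set_option autoImplicit false

open MeasureTheory ProbabilityTheory Filter Set

namespace Pool.Agent.V7H97.FO

open Pool.Agent.N662.FP
open Pool.Agent.N390.FL.TI (sg sg_inj D_shift)

/-- a constant for rounding and for steps -/
structure Ct (μ : Seminorm ℝ (ℝ × ℝ)) (C : ℝ) : Prop where
  pos : 0 < C
  round : ∀ y : ℝ × ℝ, ∃ z : ℤ × ℤ, μ (em z - y) ≤ C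
  step : ∀ z z' : ℤ × ℤ, |z'.1 - z.1| + |z'.2 - z.2| = 1 → μ (em z' - em z) ≤ C

theorem exists_Ct (μ : Seminorm ℝ (ℝ × ℝ)) (hμ : ∀ x, μ x = 0 → x = 0) : ∃ C : ℝ, Ct μ C := by
  obtain ⟨c, C, hc, hC, h⟩ := cNORM μ hμ
  refine ⟨C, hC, ?_, ?_⟩
  · intro y
    refine ⟨(round y.1, round y.2), (h _).2.trans ?_⟩
    have h1 := abs_sub_round y.1
    have h2 := abs_sub_round y.2
    have h3 : max |(em (round y.1, round y.2) - y).1| |(em (round y.1, round y.2) - y).2| ≤ 1 := by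
      refine max_le ?_ ?_
      · show |((round y.1 : ℤ) : ℝ) - y.1| ≤ 1
        rw [abs_sub_comm]; linarith
      · show |((round y.2 : ℤ) : ℝ) - y.2| ≤ 1
        rw [abs_sub_comm]; linarith
    calc C * _ ≤ C * 1 := by gcongr
      _ = C := mul_one C
  · intro z z' hz
    refine (h _).2.trans ?_
    have h1 : |z'.1 - z.1| ≤ 1 := by have := abs_nonneg (z'.2 - z.2); omega
    have h2 : |z'.2 - z.2| ≤ 1 := by have := abs_nonneg (z'.1 - z.1); omega
    have h3 : max |(em z' - em z).1| |(em z' - em z).2| ≤ 1 := by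
      refine max_le ?_ ?_
      · show |((z'.1 : ℤ) : ℝ) - z.1| ≤ 1
        exact_mod_cast h1
      · show |((z'.2 : ℤ) : ℝ) - z.2| ≤ 1
        exact_mod_cast h2
    calc C * _ ≤ C * 1 := by gcongr
      _ = C := mul_one C

section
variable {Ω : Type} [MeasureSpace Ω] [IsProbabilityMeasure (volume : Measure Ω)]
variable {X : Sym2 (ℤ × ℤ) → Ω → ℝ}

/-- the law of a passage time depends on the difference of the points only -/
theorem D_law (hX : Iid X) (a v : ℤ × ℤ) (G : Set ℝ) (hG : MeasurableSet G) :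
    (volume : Measure Ω).real {ω | D (env X ω) a (a + v) ∈ G} =
      (volume : Measure Ω).real {ω | D (env X ω) 0 v ∈ G} := by
  set Φ : (Sym2 (ℤ × ℤ) → ℝ) → ℝ := fun x => D (fun e => max (x e) 0) 0 v with hΦ
  have hm : Measurable Φ := cME 0 v
  have hae := cAE Ω X hX
  have e1 : (volume : Measure Ω) {ω | D (env X ω) a (a + v) ∈ G} =
      (volume : Measure Ω) {ω | (fun e => env X ω (sg a e)) ∈ Φ ⁻¹' G} := by
    refine measure_congr ?_
    filter_upwards [hae] with ω hω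
    have h3 : D (env X ω) a (a + v) = Φ (fun e => env X ω (sg a e)) := by
      rw [D_shift]
      show D _ 0 v = D _ 0 v
      congr 1
      funext e
      exact (max_eq_left (hω (sg a e))).symm
    show (D (env X ω) a (a + v) ∈ G) = (Φ (fun e => env X ω (sg a e)) ∈ G)
    rw [h3]
  have e2 : (volume : Measure Ω) {ω | D (env X ω) 0 v ∈ G} =
      (volume : Measure Ω) {ω | env X ω ∈ Φ ⁻¹' G} := by
    refine measure_congr ?_
    filter_upwards [hae] with ω hω
    have h3 : D (env X ω) 0 v = Φ (env X ω) := by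
      show D _ 0 v = D _ 0 v
      congr 1
      funext e
      exact (max_eq_left (hω e)).symm
    show (D (env X ω) 0 v ∈ G) = (Φ (env X ω) ∈ G)
    rw [h3]
  rw [measureReal_def, measureReal_def, e1, e2, shift_law X hX a _ (hm hG)]

/-- the defect of a point of bounded second coordinate -/
theorem df_near {μ : Seminorm ℝ (ℝ × ℝ)} {φ ψ : (ℝ × ℝ) →ₗ[ℝ] ℝ} {u τ : ℝ × ℝ}
    (hF : Fr μ φ ψ u τ) (B S Y l E : ℝ) (hl : 0 ≤ l) (hl1 : l ≤ 1) (hY : 0 ≤ Y) (hE : 0 ≤ E)
    (hJ : ∀ (S' l y : ℝ), S ≤ S' → 0 ≤ l → l ≤ 1 → |y| ≤ l * Y →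
      df μ φ (S' • u + y • τ) ≤ l * B)
    (z : ℝ × ℝ) (h1 : S ≤ φ z) (h2 : |ψ z| ≤ l * Y + E) : df μ φ z ≤ l * B + E := by
  obtain ⟨y1, hy1, hy2⟩ : ∃ y1 : ℝ, |y1| ≤ l * Y ∧ |ψ z - y1| ≤ E := by
    have h0 : 0 ≤ l * Y := by positivity
    rcases le_total (ψ z) (-(l * Y)) with h | h
    · refine ⟨-(l * Y), by rw [abs_neg, abs_of_nonneg h0], ?_⟩
      rw [abs_le] at h2 ⊢
      constructor <;> linarith
    · rcases le_total (ψ z) (l * Y) with h' | h'
      · refine ⟨ψ z, abs_le.2 ⟨h, h'⟩, ?_⟩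
        rw [sub_self, abs_zero]; exact hE
      · refine ⟨l * Y, by rw [abs_of_nonneg h0], ?_⟩
        rw [abs_le] at h2 ⊢
        constructor <;> linarith
  have e : z = (φ z • u + y1 • τ) + (ψ z - y1) • τ := by
    conv_lhs => rw [hF.dec z]
    module
  rw [e]
  refine (df_add _ _).trans ?_
  rw [df_t hF]
  have := hJ (φ z) l y1 h1 hl hl1 hy1
  linarith

theorem typ (hX : Iid X) {μ : Seminorm ℝ (ℝ × ℝ)} {C : ℝ} (hC : Ct μ C)
    {φ ψ : (ℝ × ℝ) →ₗ[ℝ] ℝ} {u τ : ℝ × ℝ} (hF : Fr μ φ ψ u τ)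
    (B S Y l : ℝ) (hB : 0 ≤ B) (hS : 0 ≤ S) (hl : 0 ≤ l) (hl1 : l ≤ 1) (hY : 0 ≤ Y)
    (hJ : ∀ (S' l y : ℝ), S ≤ S' → 0 ≤ l → l ≤ 1 → |y| ≤ l * Y →
      df μ φ (S' • u + y • τ) ≤ l * B)
    (m t ρ r U : ℝ) (M : ℕ) (c : ℝ × ℝ) (hm : 0 < m) (hρ : 0 < ρ)
    (ht : 2 * S + 4 * C + (M + 1) * (m + 2 * C + 1) ≤ t) (ht2 : B + 6 * C ≤ t)
    (htc : |c.1| + |c.2| + 6 * C ≤ t)
    (hU : ∀ z : ℤ × ℤ, μ (em z) ≤ 2 * t →
      (volume : Measure Ω).real {ω | μ (em z) + ρ ≤ D (env X ω) 0 z} ≤ U)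
    (hT : ∀ z : ℤ × ℤ, μ (em z) ≤ 2 * t →
      (volume : Measure Ω).real {ω | ρ ≤ |D (env X ω) 0 z - μ (em z)|} ≤ 1 / 4)
    (F : Finset (ℤ × ℤ)) (hFc : ∀ z : ℤ × ℤ, μ (em z) ≤ 2 * t → z ∈ F)
    (hFm : ∀ z ∈ F, μ (em z) ≤ 2 * t)
    (hFU : F.card * U ≤ 1 / 8) (hr : 3 * ρ + 2 * (l * B + 6 * C) ≤ r) :
    M * (volume : Measure Ω).real {ω | BB φ ψ m C r (l * Y + 2 * C) {c} (env X ω) 0} ≤ 1 := by
  classical
  have hC0 := hC.pos
  obtain ⟨A, hA⟩ := hC.round (c.1 • τ)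
  obtain ⟨Z, hZ⟩ := hC.round (t • u + c.2 • τ)
  obtain ⟨s, hs⟩ : ∃ s : ℕ → ℝ, s = fun i : ℕ => S + 2 * C + (i : ℝ) * (m + 2 * C + 1) := ⟨_, rfl⟩
  choose g hg using fun i : ℕ => hC.round (s i • u)
  -- coordinates of the rounded points
  have cφ : ∀ z y : ℝ × ℝ, μ (z - y) ≤ C → |φ z - φ y| ≤ C := by
    intro z y h
    rw [← map_sub]; exact (hF.abs_ph _).trans h
  have cψ : ∀ z y : ℝ × ℝ, μ (z - y) ≤ C → |ψ z - ψ y| ≤ 2 * C := by
    intro z y h
    rw [← map_sub]; exact (hF.abs_ps _).trans (by linarith)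
  have hAφ : |φ (em A)| ≤ C := by
    have := cφ _ _ hA
    rwa [map_smul, hF.ft, smul_zero, sub_zero] at this
  have hAψ : |ψ (em A) - c.1| ≤ 2 * C := by
    have := cψ _ _ hA
    rwa [map_smul, hF.pt, smul_eq_mul, mul_one] at this
  have hZφ : |φ (em Z) - t| ≤ C := by
    have := cφ _ _ hZ
    rwa [map_add, map_smul, map_smul, hF.ft, hF.fu, smul_zero, smul_eq_mul, mul_one,
      add_zero] at this
  have hZψ : |ψ (em Z) - c.2| ≤ 2 * C := by
    have := cψ _ _ hZ
    rwa [map_add, map_smul, map_smul, hF.pt, hF.pu, smul_zero, smul_eq_mul, mul_one,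
      zero_add] at this
  have hgφ : ∀ i, |φ (em (g i)) - s i| ≤ C := by
    intro i
    have := cφ _ _ (hg i)
    rwa [map_smul, hF.fu, smul_eq_mul, mul_one] at this
  have hgψ : ∀ i, |ψ (em (g i))| ≤ 2 * C := by
    intro i
    have := cψ _ _ (hg i)
    rwa [map_smul, hF.pu, smul_zero, sub_zero] at this
  have hsi : ∀ i : ℕ, i < M → S + 2 * C ≤ s i ∧ s i ≤ S + 2 * C + M * (m + 2 * C + 1) := by
    intro i hi
    have h1 : (i : ℝ) ≤ M := by exact_mod_cast hi.le
    have h2 : (0 : ℝ) ≤ i := Nat.cast_nonneg i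
    have h3 : 0 < m + 2 * C + 1 := by linarith
    rw [hs]
    simp only
    constructor
    · nlinarith
    · nlinarith
  -- disjoint strips
  have hdis : ∀ i ∈ Finset.range M, ∀ j ∈ Finset.range M, i ≠ j →
      Disjoint (St φ m (g i)) (St φ m (g j)) := by
    have key : ∀ i j : ℕ, i < j → Disjoint (St φ m (g i)) (St φ m (g j)) := by
      intro i j hij
      rw [Set.disjoint_left]
      rintro z ⟨h1, h2⟩ ⟨h3, h4⟩
      rw [em_sub, map_sub] at h1 h2 h3 h4
      have h5 := (abs_le.1 (hgφ i)).2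
      have h6 := (abs_le.1 (hgφ j)).1
      have h7 : s j - s i = (j - i) * (m + 2 * C + 1) := by rw [hs]; ring
      have h8 : (i : ℝ) + 1 ≤ j := by exact_mod_cast hij
      have h9 : m + 2 * C + 1 ≤ (j - i) * (m + 2 * C + 1) := by nlinarith
      linarith
    intro i _ j _ hij
    rcases lt_or_gt_of_ne hij with h | h
    · exact key i j h
    · exact (key j i h).symm
  -- the inclusion of events
  have hincl : ∀ᵐ ω ∂(volume : Measure Ω),
      (ω ∈ ⋃ i ∈ Finset.range M, {ω | BB φ ψ m C r (l * Y + 2 * C) {c} (env X ω) (g i)}) →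
      ω ∈ ({ω | D (env X ω) A Z < μ (em (Z - A)) - ρ} ∪
        ((⋃ z ∈ F, {ω | μ (em z) + ρ ≤ D (env X ω) A (A + z)}) ∪
        (⋃ z ∈ F, {ω | μ (em z) + ρ ≤ D (env X ω) (Z - z) (Z - z + z)}))) := by
    filter_upwards [cAE Ω X hX] with ω hω h
    rw [mem_iUnion₂] at h
    obtain ⟨i, hi, c', hc', a, b, ⟨h1, h2, h3, h4⟩, h5⟩ := h
    rw [Finset.mem_singleton] at hc'
    subst hc'
    rw [Finset.mem_range] at hi
    obtain ⟨hs1, hs2⟩ := hsi i hi
    obtain ⟨n, p, p0, pn, padj, pR, psum⟩ := h5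
    have haR : 0 ≤ φ (em (a - g i)) ∧ φ (em (a - g i)) ≤ m := by
      have := pR 0 (Nat.zero_le n); rw [p0] at this; exact this
    have hbR : 0 ≤ φ (em (b - g i)) ∧ φ (em (b - g i)) ≤ m := by
      have := pR n le_rfl; rw [pn] at this; exact this
    have hDab : D (env X ω) a b < φ (em (b - a)) - r := by
      obtain ⟨-, hb, -, -⟩ := cGE (env X ω) hω a b
      exact lt_of_le_of_lt (csInf_le hb ⟨n, p, p0, pn, padj, rfl⟩) psum
    by_contra hcon
    rw [mem_union, mem_union, not_or, not_or] at hcon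
    obtain ⟨q1, q2, q3⟩ := hcon
    have q1' : μ (em (Z - A)) - ρ ≤ D (env X ω) A Z := not_lt.1 q1
    -- coordinates of the two ends
    obtain ⟨g1, g2⟩ := abs_le.1 (hgφ i)
    obtain ⟨g3, g4⟩ := abs_le.1 (hgψ i)
    obtain ⟨A1, A2⟩ := abs_le.1 hAφ
    obtain ⟨A3, A4⟩ := abs_le.1 hAψ
    obtain ⟨Z1, Z2⟩ := abs_le.1 hZφ
    obtain ⟨Z3, Z4⟩ := abs_le.1 hZψ
    obtain ⟨a3, a4⟩ := abs_le.1 h3
    obtain ⟨b3, b4⟩ := abs_le.1 h4
    rw [em_sub, map_sub] at haR hbR a3 a4 b3 b4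
    have hM : 0 ≤ (M : ℝ) * (m + 2 * C + 1) := by positivity
    have f1 : S ≤ φ (em (a - A)) ∧ φ (em (a - A)) ≤ t := by
      rw [em_sub, map_sub]
      constructor
      · linarith
      · linarith
    have f2 : |ψ (em (a - A))| ≤ l * Y + 6 * C := by
      rw [em_sub, map_sub, abs_le]
      constructor <;> linarith
    have f3 : S ≤ φ (em (Z - b)) ∧ φ (em (Z - b)) ≤ t := by
      rw [em_sub, map_sub]
      constructor
      · linarith
      · linarith
    have f4 : |ψ (em (Z - b))| ≤ l * Y + 6 * C := by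
      rw [em_sub, map_sub, abs_le]
      constructor <;> linarith
    have d1 := df_near hF B S Y l (6 * C) hl hl1 hY (by linarith) hJ _ f1.1 f2
    have d2 := df_near hF B S Y l (6 * C) hl hl1 hY (by linarith) hJ _ f3.1 f4
    have hlB : l * B ≤ B := by nlinarith
    have m1 : μ (em (a - A)) ≤ 2 * t := by
      have : μ (em (a - A)) = df μ φ (em (a - A)) + φ (em (a - A)) := by unfold df; ring
      rw [this]; linarith [f1.2]
    have m2 : μ (em (Z - b)) ≤ 2 * t := by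
      have : μ (em (Z - b)) = df μ φ (em (Z - b)) + φ (em (Z - b)) := by unfold df; ring
      rw [this]; linarith [f3.2]
    have r1 : D (env X ω) A a < μ (em (a - A)) + ρ := by
      by_contra h
      refine q2 (mem_iUnion₂.2 ⟨a - A, hFc _ m1, ?_⟩)
      show μ (em (a - A)) + ρ ≤ D (env X ω) A (A + (a - A))
      rw [add_sub_cancel]
      exact not_lt.1 h
    have r2 : D (env X ω) b Z < μ (em (Z - b)) + ρ := by
      by_contra h
      refine q3 (mem_iUnion₂.2 ⟨Z - b, hFc _ m2, ?_⟩)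
      show μ (em (Z - b)) + ρ ≤ D (env X ω) (Z - (Z - b)) (Z - (Z - b) + (Z - b))
      rw [sub_sub_cancel, add_sub_cancel]
      exact not_lt.1 h
    have t1 := cTRI (env X ω) hω A a Z
    have t2 := cTRI (env X ω) hω a b Z
    have e1 : μ (em (a - A)) + φ (em (b - a)) + μ (em (Z - b)) =
        df μ φ (em (a - A)) + df μ φ (em (Z - b)) + φ (em (Z - A)) := by
      unfold df
      simp only [em_sub, map_sub]
      ring
    have e2 := hF.le (em (Z - A))
    linarith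
  -- probabilities
  have hmn : MeasurableSet (⋃ i ∈ Finset.range M,
      {ω | BB φ ψ m C r (l * Y + 2 * C) {c} (env X ω) (g i)}) :=
    Finset.measurableSet_biUnion _ fun i _ =>
      meas_BB _ X φ ψ m C r _ {c} (g i) fun e _ => hX.meas e
  have hP : (volume : Measure Ω).real (⋃ i ∈ Finset.range M,
      {ω | BB φ ψ m C r (l * Y + 2 * C) {c} (env X ω) (g i)}) ≤ 1 / 2 := by
    have h1 : (volume : Measure Ω).real (⋃ i ∈ Finset.range M,
      {ω | BB φ ψ m C r (l * Y + 2 * C) {c} (env X ω) (g i)}) ≤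
      (volume : Measure Ω).real ({ω | D (env X ω) A Z < μ (em (Z - A)) - ρ} ∪
        ((⋃ z ∈ F, {ω | μ (em z) + ρ ≤ D (env X ω) A (A + z)}) ∪
        (⋃ z ∈ F, {ω | μ (em z) + ρ ≤ D (env X ω) (Z - z) (Z - z + z)}))) := by
      rw [measureReal_def, measureReal_def]
      exact ENNReal.toReal_mono (measure_ne_top _ _) (measure_mono_ae hincl)
    refine h1.trans ((measureReal_union_le _ _).trans ?_)
    have hZA : μ (em (Z - A)) ≤ 2 * t := by
      have h2 : em (Z - A) = φ (em (Z - A)) • u + ψ (em (Z - A)) • τ := hF.dec _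
      rw [h2]
      refine (map_add_le_add μ _ _).trans ?_
      rw [map_smul_eq_mul, map_smul_eq_mul, hF.mu, hF.mt, mul_one, mul_one, Real.norm_eq_abs,
        Real.norm_eq_abs, em_sub, map_sub, map_sub]
      obtain ⟨A1, A2⟩ := abs_le.1 hAφ
      obtain ⟨A3, A4⟩ := abs_le.1 hAψ
      obtain ⟨Z1, Z2⟩ := abs_le.1 hZφ
      obtain ⟨Z3, Z4⟩ := abs_le.1 hZψ
      have c1 := le_abs_self c.1
      have c2 := le_abs_self c.2
      have c3 := neg_abs_le c.1
      have c4 := neg_abs_le c.2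
      have hM : 0 ≤ ((M : ℝ) + 1) * (m + 2 * C + 1) := by positivity
      have k1 : |φ (em Z) - φ (em A)| ≤ t + 2 * C := by
        rw [abs_le]; constructor <;> linarith
      have k2 : |ψ (em Z) - ψ (em A)| ≤ |c.1| + |c.2| + 4 * C := by
        rw [abs_le]; constructor <;> linarith
      linarith
    have p1 : (volume : Measure Ω).real {ω | D (env X ω) A Z < μ (em (Z - A)) - ρ} ≤ 1 / 4 := by
      have h2 := D_law hX A (Z - A) (Iio (μ (em (Z - A)) - ρ)) measurableSet_Iio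
      rw [add_sub_cancel] at h2
      have h3 : (volume : Measure Ω).real {ω | D (env X ω) A Z < μ (em (Z - A)) - ρ} =
          (volume : Measure Ω).real {ω | D (env X ω) 0 (Z - A) ∈ Iio (μ (em (Z - A)) - ρ)} := h2
      rw [h3]
      refine (measureReal_mono (fun ω hω => ?_) (measure_ne_top _ _)).trans (hT (Z - A) hZA)
      have h4 : D (env X ω) 0 (Z - A) < μ (em (Z - A)) - ρ := hω
      show ρ ≤ |D (env X ω) 0 (Z - A) - μ (em (Z - A))|
      rw [abs_of_neg (by linarith)]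
      linarith
    have hq : ∀ (S' : ℤ × ℤ → ℤ × ℤ), (volume : Measure Ω).real
        (⋃ z ∈ F, {ω | μ (em z) + ρ ≤ D (env X ω) (S' z) (S' z + z)}) ≤ 1 / 8 := by
      intro S'
      refine (measureReal_biUnion_finset_le _ _).trans ?_
      refine (Finset.sum_le_card_nsmul _ _ U fun z hz => ?_).trans ?_
      · have h2 := D_law hX (S' z) z (Ici (μ (em z) + ρ)) measurableSet_Ici
        have h3 : (volume : Measure Ω).real {ω | μ (em z) + ρ ≤ D (env X ω) (S' z) (S' z + z)} =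
          (volume : Measure Ω).real {ω | D (env X ω) 0 z ∈ Ici (μ (em z) + ρ)} := h2
        rw [h3]
        exact hU z (hFm z hz)
      · rw [nsmul_eq_mul]
        exact hFU
    have p2 := hq (fun _ => A)
    have p3 := hq (fun z => Z - z)
    have p4 := measureReal_union_le (μ := (volume : Measure Ω))
      (⋃ z ∈ F, {ω | μ (em z) + ρ ≤ D (env X ω) A (A + z)})
      (⋃ z ∈ F, {ω | μ (em z) + ρ ≤ D (env X ω) (Z - z) (Z - z + z)})
    linarith
  have hind := (BB_indep hX φ ψ m C r (l * Y + 2 * C) {c} g (Finset.range M) hdis).2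
  obtain ⟨q, hq⟩ : ∃ q, q = (volume : Measure Ω).real
    {ω | BB φ ψ m C r (l * Y + 2 * C) {c} (env X ω) 0} := ⟨_, rfl⟩
  rw [← hq]
  have hq0 : 0 ≤ q := by rw [hq]; exact measureReal_nonneg
  have hq1 : q ≤ 1 := by rw [hq]; exact measureReal_le_one
  have hcompl : (⋂ k ∈ Finset.range M, {ω | ¬ BB φ ψ m C r (l * Y + 2 * C) {c} (env X ω) (g k)}) =
      (⋃ i ∈ Finset.range M, {ω | BB φ ψ m C r (l * Y + 2 * C) {c} (env X ω) (g i)})ᶜ := by
    rw [compl_iUnion₂]; rfl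
  have hpow : 1 / 2 ≤ (1 - q) ^ M := by
    have h1 : (volume : Measure Ω).real
        (⋂ k ∈ Finset.range M, {ω | ¬ BB φ ψ m C r (l * Y + 2 * C) {c} (env X ω) (g k)}) =
        (1 - q) ^ M := by
      rw [measureReal_def, hind, Finset.card_range, ENNReal.toReal_pow,
        ENNReal.toReal_sub_of_le prob_le_one ENNReal.one_ne_top, ENNReal.toReal_one, hq,
        measureReal_def]
    rw [← h1, hcompl, measureReal_compl hmn]
    have : (volume : Measure Ω).real univ = 1 := by simp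
    rw [this]
    linarith
  have h2 : (1 - q) ^ M ≤ Real.exp (-(M * q)) := by
    have h3 : 1 - q ≤ Real.exp (-q) := by have := Real.add_one_le_exp (-q); linarith
    calc (1 - q) ^ M ≤ (Real.exp (-q)) ^ M := pow_le_pow_left₀ (by linarith) h3 M
      _ = Real.exp (-(M * q)) := by rw [← Real.exp_nat_mul]; congr 1; ring
  by_contra hcon
  rw [not_le] at hcon
  have h4 : Real.exp (-(M * q)) < Real.exp (-1) := Real.exp_lt_exp.2 (by linarith)
  have h5 : Real.exp (-1) < 1 / 2 := by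
    rw [Real.exp_neg, inv_eq_one_div, div_lt_div_iff₀ (Real.exp_pos _) two_pos]
    have := Real.exp_one_gt_d9
    linarith
  linarith

end

end Pool.Agent.V7H97.FO
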