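import Pool.Agent.V7H97.FO.Boot

/-!
# Q1 and the variance
-/

set_option autoImplicit false

open MeasureTheory ProbabilityTheory Filter Set
open scoped Pointwise Topology ENNReal

namespace Pool.Agent.V7H97.FO

open Pool.Agent.N662.FP

section
variable {Ω : Type} [MeasureSpace Ω] [IsProbabilityMeasure (volume : Measure Ω)]

theorem sum_odd (N : ℕ) : ∑ k ∈ Finset.range N, (2 * (k : ℝ) + 1) = (N : ℝ) ^ 2 := by
  induction N with
  | zero => simp
  | succ N ih => rw [Finset.sum_range_succ, ih]; push_cast; ring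

theorem sq_int {f : Ω → ℝ} (hf : AEStronglyMeasurable f (volume : Measure Ω)) (hf0 : ∀ ω, 0 ≤ f ω)
    (w r : ℝ) (hw : 0 < w) (hr0 : 0 ≤ r) (hr : r < 1)
    (htail : ∀ k : ℕ, (volume : Measure Ω).real {ω | (k : ℝ) * w ≤ f ω} ≤ r ^ k) :
    Integrable (fun ω => f ω ^ 2) (volume : Measure Ω) ∧
      ∫ ω, f ω ^ 2 ∂(volume : Measure Ω) ≤ (∑' k : ℕ, (2 * (k : ℝ) + 1) * r ^ k) * w ^ 2 := by
  have hsum : Summable (fun k : ℕ => (2 * (k : ℝ) + 1) * r ^ k) := by
    have h1 := summable_pow_mul_geometric_of_norm_lt_one (R := ℝ) 1 (r := r)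
      (by rw [Real.norm_of_nonneg hr0]; exact hr)
    have h2 := summable_geometric_of_lt_one hr0 hr
    refine ((h1.mul_left 2).add h2).congr fun k => ?_
    rw [pow_one]; ring
  have hnn : ∀ k : ℕ, 0 ≤ (2 * (k : ℝ) + 1) * r ^ k := fun k => by positivity
  have key : ∫⁻ ω, ENNReal.ofReal (f ω ^ 2) ∂(volume : Measure Ω) ≤
      ENNReal.ofReal ((∑' k : ℕ, (2 * (k : ℝ) + 1) * r ^ k) * w ^ 2) := by
    have hpt : ∀ ω, ENNReal.ofReal (f ω ^ 2) ≤ ∑' k : ℕ,
        ({ω | (k : ℝ) * w ≤ f ω}.indicator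
          (fun _ => ENNReal.ofReal ((2 * (k : ℝ) + 1) * w ^ 2))) ω := by
      intro ω
      obtain ⟨N, hN⟩ : ∃ N, N = ⌊f ω / w⌋₊ := ⟨_, rfl⟩
      have h1 : f ω ≤ ((N + 1 : ℕ) : ℝ) * w := by
        have := Nat.lt_floor_add_one (f ω / w)
        rw [← hN, div_lt_iff₀ hw] at this
        push_cast
        exact this.le
      have h2 : ∀ k ∈ Finset.range (N + 1), ω ∈ {ω | (k : ℝ) * w ≤ f ω} := by
        intro k hk
        rw [Finset.mem_range] at hk
        show (k : ℝ) * w ≤ f ω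
        have h3 : (k : ℝ) ≤ N := by exact_mod_cast Nat.lt_succ_iff.1 hk
        have h4 : (N : ℝ) ≤ f ω / w := by
          rw [hN]; exact Nat.floor_le (div_nonneg (hf0 ω) hw.le)
        rw [le_div_iff₀ hw] at h4
        calc (k : ℝ) * w ≤ N * w := by gcongr
          _ ≤ f ω := h4
      refine le_trans ?_ (ENNReal.sum_le_tsum (Finset.range (N + 1)))
      rw [Finset.sum_congr rfl fun k hk => Set.indicator_of_mem (h2 k hk) _,
        ← ENNReal.ofReal_sum_of_nonneg fun k _ => by positivity, ← Finset.sum_mul, sum_odd]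
      refine ENNReal.ofReal_le_ofReal ?_
      calc f ω ^ 2 ≤ (((N + 1 : ℕ) : ℝ) * w) ^ 2 := pow_le_pow_left₀ (hf0 ω) h1 2
        _ = ((N + 1 : ℕ) : ℝ) ^ 2 * w ^ 2 := by ring
    have hns : ∀ k : ℕ, NullMeasurableSet {ω | (k : ℝ) * w ≤ f ω} (volume : Measure Ω) :=
      fun k => nullMeasurableSet_le aemeasurable_const hf.aemeasurable
    calc ∫⁻ ω, ENNReal.ofReal (f ω ^ 2) ∂(volume : Measure Ω) ≤
          ∫⁻ ω, ∑' k : ℕ, ({ω | (k : ℝ) * w ≤ f ω}.indicator
            (fun _ => ENNReal.ofReal ((2 * (k : ℝ) + 1) * w ^ 2))) ω ∂(volume : Measure Ω) :=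
          lintegral_mono hpt
      _ = ∑' k : ℕ, ∫⁻ ω, ({ω | (k : ℝ) * w ≤ f ω}.indicator
            (fun _ => ENNReal.ofReal ((2 * (k : ℝ) + 1) * w ^ 2))) ω ∂(volume : Measure Ω) :=
          lintegral_tsum fun k => aemeasurable_const.indicator₀ (hns k)
      _ ≤ ∑' k : ℕ, ENNReal.ofReal (((2 * (k : ℝ) + 1) * r ^ k) * w ^ 2) := by
          refine ENNReal.tsum_le_tsum fun k => ?_
          rw [lintegral_indicator_const₀ (hns k)]
          have h1 : (volume : Measure Ω) {ω | (k : ℝ) * w ≤ f ω} ≤ ENNReal.ofReal (r ^ k) := by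
            rw [ENNReal.le_ofReal_iff_toReal_le (measure_ne_top _ _) (by positivity)]
            exact htail k
          calc ENNReal.ofReal ((2 * (k : ℝ) + 1) * w ^ 2) *
                (volume : Measure Ω) {ω | (k : ℝ) * w ≤ f ω} ≤
                ENNReal.ofReal ((2 * (k : ℝ) + 1) * w ^ 2) * ENNReal.ofReal (r ^ k) := by gcongr
            _ = ENNReal.ofReal ((2 * (k : ℝ) + 1) * w ^ 2 * r ^ k) :=
                (ENNReal.ofReal_mul (by positivity)).symm
            _ = _ := by congr 1; ring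
      _ = ENNReal.ofReal (∑' k : ℕ, ((2 * (k : ℝ) + 1) * r ^ k) * w ^ 2) :=
          (ENNReal.ofReal_tsum_of_nonneg (fun k => by have := hnn k; positivity)
            (hsum.mul_right _)).symm
      _ = _ := by rw [tsum_mul_right]
  have hT0 : 0 ≤ (∑' k : ℕ, (2 * (k : ℝ) + 1) * r ^ k) * w ^ 2 :=
    mul_nonneg (tsum_nonneg hnn) (sq_nonneg w)
  constructor
  · refine ⟨hf.pow 2, ?_⟩
    rw [hasFiniteIntegral_iff_ofReal (Eventually.of_forall fun ω => sq_nonneg (f ω))]
    exact lt_of_le_of_lt key ENNReal.ofReal_lt_top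
  · rw [integral_eq_lintegral_of_nonneg_ae (Eventually.of_forall fun ω => sq_nonneg (f ω))
      (hf.pow 2)]
    exact ENNReal.toReal_le_of_le_ofReal hT0 key

variable {X : Sym2 (ℤ × ℤ) → Ω → ℝ}

/-- the upper part of the second moment -/
theorem upper_sq {μ : Seminorm ℝ (ℝ × ℝ)} (hG : Good (fun ω v => D (env X ω) 0 v) μ)
    (v : ℤ × ℤ) (w d : ℝ) (hw : 0 < w) (hd : 0 < d)
    (hUP : (volume : Measure Ω).real {ω | μ (em v) + w ≤ D (env X ω) 0 v} ≤
      Real.exp (-(1 + d))) :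
    Integrable (fun ω => max (D (env X ω) 0 v - μ (em v)) 0 ^ 2) (volume : Measure Ω) ∧
      ∫ ω, max (D (env X ω) 0 v - μ (em v)) 0 ^ 2 ∂(volume : Measure Ω) ≤
        (∑' k : ℕ, (2 * (k : ℝ) + 1) * Real.exp (-d) ^ k) * w ^ 2 := by
  refine sq_int (((hG.int v).sub (integrable_const _)).pos_part).aestronglyMeasurable
    (fun ω => le_max_right _ _) w _ hw (Real.exp_nonneg _) ((Real.exp_lt_exp.2 (by linarith)).trans_eq Real.exp_zero) ?_
  intro k
  rcases Nat.eq_zero_or_pos k with h0 | h0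
  · rw [h0, pow_zero]; exact measureReal_le_one
  · have hk : (1 : ℝ) ≤ k := by exact_mod_cast h0
    have hkw : 0 < (k : ℝ) * w := by positivity
    have h1 : {ω | (k : ℝ) * w ≤ max (D (env X ω) 0 v - μ (em v)) 0} ⊆
        {ω | μ (em v) + w + ((k : ℝ) - 1) * w ≤ D (env X ω) 0 v} := by
      intro ω hω
      have h2 : (k : ℝ) * w ≤ max (D (env X ω) 0 v - μ (em v)) 0 := hω
      show μ (em v) + w + ((k : ℝ) - 1) * w ≤ D (env X ω) 0 v
      rcases le_max_iff.1 h2 with h3 | h3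
      · linarith
      · linarith
    refine (measureReal_mono h1 (measure_ne_top _ _)).trans
      (((hG.one v w d hw hd hUP).1 (((k : ℝ) - 1) * w) (by
        have : 0 ≤ (k : ℝ) - 1 := by linarith
        positivity)).trans ?_)
    rw [← Real.exp_nat_mul]
    refine Real.exp_le_exp.2 ?_
    have : d * (((k : ℝ) - 1) * w) / w = d * k - d := by field_simp
    rw [this]
    linarith

theorem memLp2 (hX : Iid X) {μ : Seminorm ℝ (ℝ × ℝ)}
    (hG : Good (fun ω v => D (env X ω) 0 v) μ) (v : ℤ × ℤ) :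
    MemLp (fun ω => D (env X ω) 0 v) 2 (volume : Measure Ω) := by
  -- a crude bound
  obtain ⟨M, hM⟩ : ∃ M, M = Real.exp 2 *
    (∫ ω, |D (env X ω) 0 v - μ (em v)| ∂(volume : Measure Ω)) + 1 := ⟨_, rfl⟩
  have hI : 0 ≤ ∫ ω, |D (env X ω) 0 v - μ (em v)| ∂(volume : Measure Ω) :=
    integral_nonneg fun ω => abs_nonneg _
  have hM0 : 0 < M := by
    rw [hM]
    have : 0 ≤ Real.exp 2 * (∫ ω, |D (env X ω) 0 v - μ (em v)| ∂(volume : Measure Ω)) := by
      positivity
    linarith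
  have hUP : (volume : Measure Ω).real {ω | μ (em v) + M ≤ D (env X ω) 0 v} ≤
      Real.exp (-(1 + 1)) := by
    refine le_trans (measureReal_mono (μ := (volume : Measure Ω)) (s₂ := {ω |
      M ≤ |D (env X ω) 0 v - μ (em v)|}) (fun ω hω => ?_) (measure_ne_top _ _))
      ((mk _ (hG.int v) (μ (em v)) _ hM0).trans ?_)
    · have h5 : μ (em v) + M ≤ D (env X ω) 0 v := hω
      show M ≤ |D (env X ω) 0 v - μ (em v)|
      exact le_trans (by linarith) (le_abs_self _)
    · rw [div_le_iff₀ hM0, hM]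
      have h8 : Real.exp (-(1 + 1)) * Real.exp 2 = 1 := by
        rw [← Real.exp_add]; norm_num
      have h9 := Real.exp_pos (-(1 + 1) : ℝ)
      calc ∫ ω, |D (env X ω) 0 v - μ (em v)| ∂(volume : Measure Ω) =
            (Real.exp (-(1 + 1)) * Real.exp 2) *
              ∫ ω, |D (env X ω) 0 v - μ (em v)| ∂(volume : Measure Ω) := by rw [h8, one_mul]
        _ ≤ _ := by linarith
  have h1 := (upper_sq hG v M 1 hM0 one_pos hUP).1
  have hsm := (hG.int v).aestronglyMeasurable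
  rw [memLp_two_iff_integrable_sq hsm]
  refine Integrable.mono' ((h1.const_mul 2).add (integrable_const (2 * μ (em v) ^ 2)))
    (hsm.pow 2) ?_
  filter_upwards [cAE Ω X hX] with ω hω
  have h3 := (cGE (env X ω) hω 0 v).2.2.1
  rw [Real.norm_of_nonneg (sq_nonneg _)]
  have h4 : D (env X ω) 0 v ≤ max (D (env X ω) 0 v - μ (em v)) 0 + μ (em v) := by
    have := le_max_left (D (env X ω) 0 v - μ (em v)) 0
    linarith
  have h5 : 0 ≤ max (D (env X ω) 0 v - μ (em v)) 0 := le_max_right _ _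
  have h6 := apply_nonneg μ (em v)
  show D (env X ω) 0 v ^ 2 ≤ 2 * max (D (env X ω) 0 v - μ (em v)) 0 ^ 2 + 2 * μ (em v) ^ 2
  have h7 : D (env X ω) 0 v ^ 2 ≤ (max (D (env X ω) 0 v - μ (em v)) 0 + μ (em v)) ^ 2 :=
    pow_le_pow_left₀ h3 h4 2
  nlinarith [sq_nonneg (max (D (env X ω) 0 v - μ (em v)) 0 - μ (em v))]

/-- the second moment about the time constant -/
theorem second (hX : Iid X) {μ : Seminorm ℝ (ℝ × ℝ)}
    (hG : Good (fun ω v => D (env X ω) 0 v) μ) (v : ℤ × ℤ) (w d y : ℝ) (hw : 0 < w) (hd : 0 < d)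
    (hUP : (volume : Measure Ω).real {ω | μ (em v) + w ≤ D (env X ω) 0 v} ≤
      Real.exp (-(1 + d))) :
    variance (fun ω => D (env X ω) 0 v) (volume : Measure Ω) ≤
      (∑' k : ℕ, (2 * (k : ℝ) + 1) * Real.exp (-d) ^ k) * w ^ 2 + y ^ 2 +
        μ (em v) ^ 2 * (volume : Measure Ω).real {ω | y ≤ |D (env X ω) 0 v - μ (em v)|} := by
  have hsm := (hG.int v).aestronglyMeasurable
  obtain ⟨h1, h2⟩ := upper_sq hG v w d hw hd hUP
  have hns : NullMeasurableSet {ω | y ≤ |D (env X ω) 0 v - μ (em v)|} (volume : Measure Ω) :=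
    nullMeasurableSet_le aemeasurable_const
      (((hG.int v).sub (integrable_const (μ (em v)))).abs).aemeasurable
  have e1 : variance (fun ω => D (env X ω) 0 v) (volume : Measure Ω) =
      variance (fun ω => D (env X ω) 0 v - μ (em v)) (volume : Measure Ω) :=
    (variance_sub_const hsm _).symm
  rw [e1]
  refine (variance_le_expectation_sq (hsm.sub aestronglyMeasurable_const)).trans ?_
  have hind : Integrable ({ω | y ≤ |D (env X ω) 0 v - μ (em v)|}.indicator
      (fun _ => μ (em v) ^ 2)) (volume : Measure Ω) :=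
    (integrable_const _).indicator₀ hns
  have h3 : ∫ ω, ((fun ω => D (env X ω) 0 v - μ (em v)) ^ 2) ω ∂(volume : Measure Ω) ≤
      ∫ ω, (max (D (env X ω) 0 v - μ (em v)) 0 ^ 2 + y ^ 2 +
        {ω | y ≤ |D (env X ω) 0 v - μ (em v)|}.indicator (fun _ => μ (em v) ^ 2) ω)
        ∂(volume : Measure Ω) := by
    refine integral_mono_of_nonneg (Eventually.of_forall fun ω => sq_nonneg _)
      ((h1.add (integrable_const _)).add hind) ?_
    filter_upwards [cAE Ω X hX] with ω hω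
    have k1 := (cGE (env X ω) hω 0 v).2.2.1
    have k2 := apply_nonneg μ (em v)
    show (D (env X ω) 0 v - μ (em v)) ^ 2 ≤ max (D (env X ω) 0 v - μ (em v)) 0 ^ 2 + y ^ 2 +
        {ω | y ≤ |D (env X ω) 0 v - μ (em v)|}.indicator (fun _ => μ (em v) ^ 2) ω
    rcases le_total 0 (D (env X ω) 0 v - μ (em v)) with k3 | k3
    · rw [max_eq_left k3]
      have k4 : 0 ≤ {ω | y ≤ |D (env X ω) 0 v - μ (em v)|}.indicator
          (fun _ => μ (em v) ^ 2) ω := Set.indicator_nonneg (fun _ _ => sq_nonneg _) _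
      have := sq_nonneg y
      linarith
    · rw [max_eq_right k3]
      by_cases k5 : y ≤ |D (env X ω) 0 v - μ (em v)|
      · rw [Set.indicator_of_mem (show ω ∈ {ω | y ≤ |D (env X ω) 0 v - μ (em v)|} from k5)]
        have k6 : (D (env X ω) 0 v - μ (em v)) ^ 2 ≤ μ (em v) ^ 2 := by
          rw [← neg_sq]
          exact pow_le_pow_left₀ (by linarith) (by linarith) 2
        have := sq_nonneg y
        nlinarith
      · rw [Set.indicator_of_notMem (show ω ∉ {ω | y ≤ |D (env X ω) 0 v - μ (em v)|} from k5)]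
        rw [not_le, abs_of_nonpos k3] at k5
        have k6 : (D (env X ω) 0 v - μ (em v)) ^ 2 ≤ y ^ 2 := by
          rw [← neg_sq]
          exact pow_le_pow_left₀ (by linarith) k5.le 2
        nlinarith
  refine h3.trans ?_
  have i1 : Integrable (fun ω => max (D (env X ω) 0 v - μ (em v)) 0 ^ 2 + y ^ 2)
      (volume : Measure Ω) := h1.add (integrable_const _)
  rw [integral_add i1 hind, integral_add h1 (integrable_const _), integral_indicator₀ hns]
  simp only [integral_const, measureReal_restrict_apply_univ, smul_eq_mul]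
  have : (volume : Measure Ω).real univ = 1 := by simp
  rw [this, one_mul]
  have e2 : (volume : Measure Ω).real {ω | y ≤ |D (env X ω) 0 v - μ (em v)|} * μ (em v) ^ 2 =
    μ (em v) ^ 2 * (volume : Measure Ω).real {ω | y ≤ |D (env X ω) 0 v - μ (em v)|} := mul_comm _ _
  linarith

end

end Pool.Agent.V7H97.FO
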